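import Mathlib
import Pool.Agent.Lib.MP_1e3e9c_agU.FmA
import Pool.Agent.Lib.MP_1e3e9c_agU.FmB
import Pool.Agent.Lib.MP_1e3e9c_agU.Defs2

/-!
# MP_1e3e9c_ag, project W (two point families): definitions

The definitions `ev`, `wd`, `act`, `BPF`, `al`, `rd`, `ht`, `XX`, `XR`, `FF`, `Con`, `Pr`, `cb`, `gu`, ...
are those of project U (`MP_1e3e9c_agU/Defs.lean`).
-/

set_option autoImplicit false

namespace Pool.Agent.Lib.MP_1e3e9c_agW

open IsLocalRing Pool.Agent.Lib.MP_b197b4_ntK Pool.Agent.Lib.MP_1e3e9c_agU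

/-- The tuple `c` over `L` satisfies the equations in `S`: it is a map to the zero set of `S`. -/
def Eqs {k L : Type} [Field k] [Field L] {n D : ℕ} (S : Set (MvPolynomial (Fin (n + 1)) k))
    (φ : k →+* L) (c : Fin (n + 1) → Fin (D + 1) → L) : Prop :=
  ∀ P ∈ S, ∀ (M : Type) [Field M] (ψ : L →+* M) (x : Fin 2 → M),
    MvPolynomial.eval₂ (ψ.comp φ) (fun i => ev (fun j => ψ (c i j)) x) P = 0

/-- The forms in `S` are homogeneous, and over all fields every tuple in the zero set of `S` with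
`f_0 = 0` is a form times a vector. -/
structure NR {k : Type} [Field k] {n : ℕ} (S : Set (MvPolynomial (Fin (n + 1)) k)) : Prop where
  hom : ∀ P ∈ S, ∃ m, P.IsHomogeneous m
  nr : ∀ (L : Type) [Field L] (φ : k →+* L) (N : ℕ) (r : Fin (n + 1) → Fin (N + 1) → L),
    Eqs S φ r → (∀ j, r 0 j = 0) → ∀ i i' j j', r i j * r i' j' = r i j' * r i' j

/-- The coefficient vector of `x_0^(D-j) x_1^j`. -/
def col {L : Type} {n D : ℕ} (c : Fin (n + 1) → Fin (D + 1) → L) (j : Fin (D + 1)) :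
    Fin (n + 1) → L := fun i => c i j

/-- `j` is an index where `al (col c j) + j a / b` is minimal. -/
def Jn {F : Type} [Field F] {n D : ℕ} (V : ValuationSubring F) (c : Fin (n + 1) → Fin (D + 1) → F)
    (b a : ℤ) (j : Fin (D + 1)) : Prop :=
  col c j ≠ 0 ∧ ∀ j', col c j' ≠ 0 →
    b * al V (col c j) + ((j : ℕ) : ℤ) * a ≤ b * al V (col c j') + ((j' : ℕ) : ℤ) * a

/-- The reduction at the Gauss point `(b, a)` has zeroth coordinate `0`. -/
def Zr {F : Type} [Field F] {n D : ℕ} (V : ValuationSubring F) (c : Fin (n + 1) → Fin (D + 1) → F)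
    (b a : ℤ) : Prop :=
  ∀ j, Jn V c b a j → c 0 j ≠ 0 → al V (col c j) < ord V (c 0 j)

/-- A tuple in the zero set of `S` whose `f_0` has exactly the two zeros `p 0`, `p 1`, of
multiplicities `mu 0`, `mu 1`. -/
structure Two {k F : Type} [Field k] [Field F] {n : ℕ} (S : Set (MvPolynomial (Fin (n + 1)) k))
    (φ : k →+* F) (d : ℕ) where
  c : Fin (n + 1) → Fin (d + 1 + 1) → F
  p : Fin 2 → Fin 2 → F
  mu : Fin 2 → ℕ
  e : F
  eqs : Eqs S φ c
  bpf : BPF c
  ene : e ≠ 0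
  wne : wd (p 0) (p 1) ≠ 0
  mupos : ∀ a, 0 < mu a
  musum : mu 0 + mu 1 = d + 1
  fac : ∀ (M : Type) [Field M] (ψ : F →+* M) (x : Fin 2 → M),
    ev (fun j => ψ (c 0 j)) x =
      ψ e * wd (fun a => ψ (p 0 a)) x ^ mu 0 * wd (fun a => ψ (p 1 a)) x ^ mu 1

namespace Two

variable {k F : Type} [Field k] [Field F] {n d : ℕ} {S : Set (MvPolynomial (Fin (n + 1)) k)}
  {φ : k →+* F}

/-- The point with parameter `q`. -/
def pt (T : Two S φ d) (q : Fin 2 → F) : Fin (n + 1) → F := fun i => ev (T.c i) q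

/-- The same point with repeated coordinates. -/
def zz (T : Two S φ d) (q : Fin 2 → F) : Option (Fin (d + 1) → Fin (n + 1)) → F
  | none => T.pt q 0
  | some σ => T.pt q (σ 0)

/-- The function `e^(d+1) wd(p 0, p 1)^((d+1)^2)`. -/
def E (T : Two S φ d) : F := T.e ^ (d + 1) * wd (T.p 0) (T.p 1) ^ ((d + 1) ^ 2)

/-- `0` for `l < mu 1`, otherwise `1`. -/
def rho (T : Two S φ d) (l : Fin (d + 1)) : Fin 2 := if (l : ℕ) < T.mu 1 then 0 else 1

/-- The point `[f(p 0)^(mu 1) ⊗ f(p 1)^(mu 0) : E]`. -/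
def z (T : Two S φ d) : Option (Fin (d + 1) → Fin (n + 1)) → F
  | none => T.E
  | some σ => ∏ l, T.pt (T.p (T.rho l)) (σ l)

/-- The contact number `(d+1) ord eps - mu_1 al f(p_0) - mu_0 al f(p_1)`. -/
noncomputable def CC (T : Two S φ d) (V : ValuationSubring F) : ℤ :=
  ord V T.E - (T.mu 1 : ℤ) * al V (T.pt (T.p 0)) - (T.mu 0 : ℤ) * al V (T.pt (T.p 1))

/-- The datum over the extension field `Ω`. -/
def up (T : Two S φ d) (Ω : Type) [Field Ω] [Algebra F Ω] :
    Two S ((algebraMap F Ω).comp φ) d where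
  c := fun i j => algebraMap F Ω (T.c i j)
  p := fun l a => algebraMap F Ω (T.p l a)
  mu := T.mu
  e := algebraMap F Ω T.e
  eqs := fun P hP M _ ψ x => T.eqs P hP M (ψ.comp (algebraMap F Ω)) x
  bpf := fun M _ ψ x hx => T.bpf M (ψ.comp (algebraMap F Ω)) x hx
  ene := fun h => T.ene ((map_eq_zero (algebraMap F Ω)).1 h)
  wne := by
    intro h
    apply T.wne
    apply (map_eq_zero (algebraMap F Ω)).1
    simpa only [wd, map_sub, map_mul] using h
  mupos := T.mupos
  musum := T.musum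
  fac := fun M _ ψ x => T.fac M (ψ.comp (algebraMap F Ω)) x

end Two

/-- The points `z` generates the field: `F` is algebraic over the field generated over `K` by the
quotients of the coordinates of `z`. -/
def Big {F ι : Type} [Field F] (K : Subfield F) (z : ι → F) : Prop :=
  z ≠ 0 ∧ ∀ x : F, IsAlgebraic
    (Subfield.closure ((K : Set F) ∪ {y | ∃ i j, z j ≠ 0 ∧ y = z i / z j})) x

section Basic

variable {F ι : Type} [Field F]

theorem pr_refl (z : ι → F) : Pr z z := ⟨1, one_ne_zero, fun j => (one_mul _).symm⟩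

theorem pr_symm {z z' : ι → F} (h : Pr z z') : Pr z' z := by
  obtain ⟨a, ha, h⟩ := h
  exact ⟨a⁻¹, inv_ne_zero ha, fun j => by rw [h j, inv_mul_cancel_left₀ ha]⟩

theorem pr_trans {z z' z'' : ι → F} (h : Pr z z') (h' : Pr z' z'') : Pr z z'' := by
  obtain ⟨a, ha, h⟩ := h
  obtain ⟨b, hb, h'⟩ := h'
  exact ⟨b * a, mul_ne_zero hb ha, fun j => by rw [h' j, h j, mul_assoc]⟩

end Basic

end Pool.Agent.Lib.MP_1e3e9c_agW
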