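import Mathlib
import Pool.Agent.Lib.MP_1e3e9c_agU.Defs3
import Pool.Agent.Lib.MP_1e3e9c_agU.DefsV
import Pool.Agent.Lib.MP_1e3e9c_agW.Defs

/-!
# MP_1e3e9c_ag, project W, block E (the family): definitions
-/

set_option autoImplicit false

namespace Pool.Agent.Lib.MP_1e3e9c_agW

open Pool.Agent.Lib.MP_1e3e9c_agU

/-- The hypotheses on the family, over `k`: stable under `GL_2`, all members map to the zero set of `S`,
no base point free member has `f_0 = 0`, `f_0` has at most two zeros on base point free members. -/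
structure Hyw {k : Type} [Field k] {n D : ℕ} (S : Set (MvPolynomial (Fin (n + 1)) k))
    (I : Ideal (MvPolynomial (Fin (n + 1) × Fin (D + 1)) k)) : Prop where
  act : ∀ (c c' : Fin (n + 1) → Fin (D + 1) → k) (g : Matrix (Fin 2) (Fin 2) k),
    Mem (RingHom.id k) I c → g.det ≠ 0 → (∀ i x, ev (c' i) x = ev (c i) (g.mulVec x)) →
    Mem (RingHom.id k) I c'
  eqs : ∀ c : Fin (n + 1) → Fin (D + 1) → k, Mem (RingHom.id k) I c →
    ∀ x : Fin 2 → k, ∀ P ∈ S, MvPolynomial.eval (fun i => ev (c i) x) P = 0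
  zer : ∀ c : Fin (n + 1) → Fin (D + 1) → k, Mem (RingHom.id k) I c →
    (∀ x : Fin 2 → k, x ≠ 0 → ∃ i, ev (c i) x ≠ 0) → c 0 ≠ 0
  rts : ∀ c : Fin (n + 1) → Fin (D + 1) → k, Mem (RingHom.id k) I c →
    (∀ x : Fin 2 → k, x ≠ 0 → ∃ i, ev (c i) x ≠ 0) →
    ∀ p : Fin (2 + 1) → Fin 2 → k, (∀ l, p l ≠ 0) → (∀ l, ev (c 0) (p l) = 0) →
      ∃ l l', l ≠ l' ∧ wd (p l) (p l') = 0

/-- The properties of the family over all fields `L ⊇ k`. -/
structure Faw {k : Type} [Field k] {n D : ℕ} (S : Set (MvPolynomial (Fin (n + 1)) k))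
    (I : Ideal (MvPolynomial (Fin (n + 1) × Fin (D + 1)) k)) : Prop where
  act : ∀ (L : Type) [Field L] (φ : k →+* L) (c : Fin (n + 1) → Fin (D + 1) → L)
    (g : Matrix (Fin 2) (Fin 2) L), Mem φ I c → Mem φ I (fun i => act g (c i))
  smul : ∀ (L : Type) [Field L] (φ : k →+* L) (c : Fin (n + 1) → Fin (D + 1) → L) (a : L),
    Mem φ I c → Mem φ I (fun i j => a * c i j)
  eqs : ∀ (L : Type) [Field L] (φ : k →+* L) (c : Fin (n + 1) → Fin (D + 1) → L), Mem φ I c →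
    Eqs S φ c
  zer : ∀ (L : Type) [Field L] (φ : k →+* L) (c : Fin (n + 1) → Fin (D + 1) → L), Mem φ I c →
    BPF c → c 0 ≠ 0
  rts : ∀ (L : Type) [Field L] (φ : k →+* L) (c : Fin (n + 1) → Fin (D + 1) → L), Mem φ I c →
    BPF c → ∀ p : Fin (2 + 1) → Fin 2 → L, (∀ l, p l ≠ 0) → (∀ l, ev (c 0) (p l) = 0) →
      ∃ l l', l ≠ l' ∧ wd (p l) (p l') = 0

/-- Over `k`: every tuple in the zero set of `S` with `f_0 = 0` is a form times a vector. -/
def NRk {k : Type} [Field k] {n : ℕ} (S : Set (MvPolynomial (Fin (n + 1)) k)) : Prop :=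
  ∀ (N : ℕ) (r : Fin (n + 1) → Fin (N + 1) → k),
    (∀ x : Fin 2 → k, ∀ P ∈ S, MvPolynomial.eval (fun i => ev (r i) x) P = 0) →
    (∀ j, r 0 j = 0) → ∀ i i' j j', r i j * r i' j' = r i j' * r i' j

/-- Over `k`: there is no nonconstant morphism from the projective line to the zero set of `S` and
`G`. -/
def NoRat {k : Type} [Field k] {n : ℕ} (S : Set (MvPolynomial (Fin (n + 1)) k))
    (G : MvPolynomial (Fin (n + 1)) k) : Prop :=
  ∀ (N : ℕ) (r : Fin (n + 1) → Fin (N + 1) → k),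
    (∀ x : Fin 2 → k, x ≠ 0 → ∃ i, ev (r i) x ≠ 0) →
    (∀ x : Fin 2 → k, ∀ P ∈ S, MvPolynomial.eval (fun i => ev (r i) x) P = 0) →
    (∀ x : Fin 2 → k, MvPolynomial.eval (fun i => ev (r i) x) G = 0) → N = 0

/-- The points in which the curves of the family meet the hypersurface `G = 0`. -/
def SF {k : Type} [Field k] {n D : ℕ} (I : Ideal (MvPolynomial (Fin (n + 1) × Fin (D + 1)) k))
    (G : MvPolynomial (Fin (n + 1)) k) : Set (Fin (n + 1) → k) :=
  {v | ∃ c : Fin (n + 1) → Fin (D + 1) → k, Mem (RingHom.id k) I c ∧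
    (∀ x : Fin 2 → k, x ≠ 0 → ∃ i, ev (c i) x ≠ 0) ∧
    ∃ x : Fin 2 → k, x ≠ 0 ∧ v = (fun i => ev (c i) x) ∧ MvPolynomial.eval v G = 0}

/-- The homogeneous equations of the image of the zero set of `S` under the map `hs G e`. -/
def SV {k : Type} [Field k] {n : ℕ} (S : Set (MvPolynomial (Fin (n + 1)) k))
    (G : MvPolynomial (Fin (n + 1)) k) (e : ℕ) :
    Set (MvPolynomial (Fin ((n + 1) * (n + 1) + 1)) k) :=
  {Q | (∃ m, Q.IsHomogeneous m) ∧ ∀ v : Fin (n + 1) → k, (∀ P ∈ S, MvPolynomial.eval v P = 0) →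
    MvPolynomial.eval (fun t => MvPolynomial.eval v (hs G e t)) Q = 0}

/-- The kernel of `k[x] → F[T]`, `x_i ↦ z_i T`: the ideal generated by the forms which vanish at the point
`z`. -/
noncomputable def Pz {k F : Type} [Field k] [Field F] {n : ℕ} (φ : k →+* F) (z : Fin (n + 1) → F) :
    Ideal (MvPolynomial (Fin (n + 1)) k) :=
  RingHom.ker (MvPolynomial.eval₂Hom (Polynomial.C.comp φ) fun i => Polynomial.C (z i) * Polynomial.X)

end Pool.Agent.Lib.MP_1e3e9c_agW
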