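import Mathlib
import Pool.Agent.Lib.MP_1e3e9c_agW.DefsE

/-!
# MP_1e3e9c_ag, project W, leaf E7a: one of the points has a large ideal quotient

`Pz φ z` is the kernel of `k[x] → F[T]`, `x_i ↦ z_i T`: it is prime, and `H ∈ Pz φ z` iff all homogeneous
components of `H` vanish at `z` (the image of a form `H` of degree `s` is `H(z) T^s`).

PROOF. If `a_l ∈ Pz φ (z l)` for all `l`, then `∏_l a_l ∈ J`: it is in all `Pz φ (z l)` (ideals), so every
homogeneous component `H` of it (`MvPolynomial.homogeneousComponent`, `MvPolynomial.sum_homogeneousComponent`)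
satisfies `eval₂ φ (z l) H = 0` for all `l`, so `H ∈ J` by `hv`. Now `m + 1 ≤ dim k[x]/J`: there is a chain
`q_0 < ... < q_(m+1)` of primes of `k[x]/J` (`Order.le_krullDim_iff`, `LTSeries`), i.e. of primes of `k[x]`
containing `J`. Every prime `Q ⊇ J` contains some `Pz φ (z l)` (otherwise choose `a_l ∈ Pz φ (z l)`, `a_l ∉ Q`:
`∏ a_l ∈ J ⊆ Q`). Apply this to `Q = q_0`: the chain is a chain of primes containing `Pz φ (z l)`, so
`m + 1 ≤ dim k[x]/Pz φ (z l)`. (Or: `dim k[x]/J = sup dim k[x]/Q` over the minimal primes.)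
-/

set_option autoImplicit false

namespace Pool.Agent.Lib.MP_1e3e9c_agW

open Pool.Agent.Lib.MP_1e3e9c_agU

/-- The coefficients of the image. -/
private theorem E7a_coeff {k F : Type} [Field k] [Field F] {n : ℕ} (φ : k →+* F) (z : Fin (n + 1) → F)
    (H : MvPolynomial (Fin (n + 1)) k) (s : ℕ) :
    (MvPolynomial.eval₂Hom (Polynomial.C.comp φ) (fun i => Polynomial.C (z i) * Polynomial.X) H).coeff s =
      MvPolynomial.eval₂ φ z (MvPolynomial.homogeneousComponent s H) := by
  induction H using MvPolynomial.induction_on' with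
  | monomial u a =>
    have h1 : MvPolynomial.homogeneousComponent s (MvPolynomial.monomial u a) =
        if s = u.degree then MvPolynomial.monomial u a else 0 :=
      MvPolynomial.homogeneousComponent_of_mem (MvPolynomial.isHomogeneous_monomial a rfl)
    have h2 : MvPolynomial.eval₂Hom (Polynomial.C.comp φ) (fun i => Polynomial.C (z i) * Polynomial.X)
        (MvPolynomial.monomial u a) =
        Polynomial.C (φ a * u.prod fun i e => z i ^ e) * Polynomial.X ^ u.degree := by
      rw [MvPolynomial.eval₂Hom_monomial]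
      have h3 : (u.prod fun i e => (Polynomial.C (z i) * Polynomial.X) ^ e) =
          Polynomial.C (u.prod fun i e => z i ^ e) * (Polynomial.X : Polynomial F) ^ u.degree := by
        unfold Finsupp.prod Finsupp.degree
        simp only [mul_pow]
        rw [Finset.prod_mul_distrib, Finset.prod_pow_eq_pow_sum, map_prod]
        simp only [map_pow]
        rfl
      rw [h3, ← mul_assoc, RingHom.comp_apply, ← Polynomial.C_mul]
    rw [h1, h2, Polynomial.coeff_C_mul, Polynomial.coeff_X_pow]
    by_cases h : s = u.degree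
    · rw [if_pos h, if_pos h, mul_one, MvPolynomial.eval₂_monomial]
    · rw [if_neg h, if_neg h, mul_zero, MvPolynomial.eval₂_zero]
  | add p q hp hq =>
    rw [map_add, Polynomial.coeff_add, hp, hq, map_add, MvPolynomial.eval₂_add]

theorem mem_Pz {k F : Type} [Field k] [Field F] {n : ℕ} (φ : k →+* F) (z : Fin (n + 1) → F)
    (H : MvPolynomial (Fin (n + 1)) k) :
    H ∈ Pz φ z ↔ ∀ s, MvPolynomial.eval₂ φ z (MvPolynomial.homogeneousComponent s H) = 0 := by
  unfold Pz
  rw [RingHom.mem_ker]
  constructor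
  · intro h s
    rw [← E7a_coeff, h, Polynomial.coeff_zero]
  · intro h
    ext s
    rw [E7a_coeff, h s, Polynomial.coeff_zero]

theorem exists_Pz {k F : Type} [Field k] [Field F] {n N m : ℕ} (φ : k →+* F)
    (z : Fin N → Fin (n + 1) → F) (J : Ideal (MvPolynomial (Fin (n + 1)) k))
    (hJ : ((m + 1 : ℕ) : WithBot ℕ∞) ≤ ringKrullDim (MvPolynomial (Fin (n + 1)) k ⧸ J))
    (hv : ∀ (s : ℕ) (H : MvPolynomial (Fin (n + 1)) k), H.IsHomogeneous s →
      (∀ l, MvPolynomial.eval₂ φ (z l) H = 0) → H ∈ J) :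
    ∃ l, ((m + 1 : ℕ) : WithBot ℕ∞) ≤ ringKrullDim (MvPolynomial (Fin (n + 1)) k ⧸ Pz φ (z l)) := by
  classical
  -- every prime over `J` contains one of the ideals
  have h1 : ∀ Q : Ideal (MvPolynomial (Fin (n + 1)) k), Q.IsPrime → J ≤ Q → ∃ l, Pz φ (z l) ≤ Q := by
    intro Q hQ hJQ
    by_contra hc
    push Not at hc
    have h2 : ∀ l, ∃ a ∈ Pz φ (z l), a ∉ Q := fun l => Set.not_subset.1 (hc l)
    choose a ha haQ using h2
    have h3 : (∏ l, a l) ∈ J := by
      have h4 : ∀ s, MvPolynomial.homogeneousComponent s (∏ l, a l) ∈ J := by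
        intro s
        refine hv s _ (MvPolynomial.homogeneousComponent_isHomogeneous s _) fun l => ?_
        have h5 : (∏ l, a l) ∈ Pz φ (z l) := by
          rw [← Finset.mul_prod_erase Finset.univ a (Finset.mem_univ l)]
          exact Ideal.mul_mem_right _ _ (ha l)
        exact (mem_Pz φ (z l) _).1 h5 s
      rw [← MvPolynomial.sum_homogeneousComponent (∏ l, a l)]
      exact Ideal.sum_mem _ fun s _ => h4 s
    obtain ⟨l, _, hl⟩ := (hQ.prod_mem_iff).1 (hJQ h3)
    exact haQ l hl
  rw [ringKrullDim_quotient] at hJ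
  obtain ⟨c, hc⟩ := Order.le_krullDim_iff.1 hJ
  obtain ⟨l, hl⟩ := h1 c.head.1.asIdeal c.head.1.isPrime c.head.2
  refine ⟨l, ?_⟩
  rw [ringKrullDim_quotient]
  refine Order.le_krullDim_iff.2 ⟨LTSeries.mk c.length (fun i => ⟨(c i).1, ?_⟩) ?_, hc⟩
  · exact hl.trans (c.head_le i)
  · intro i j hij
    exact c.strictMono hij

end Pool.Agent.Lib.MP_1e3e9c_agW
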