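import Mathlib
import Pool.Agent.Lib.MP_1e3e9c_agW.DefsE

/-!
# MP_1e3e9c_ag, project W, leaf E7b: the point is big

PROOF. `le_of_dim`: `dim ≤ trdeg F(T)/k = m + 1`. `big_of_dim`: `k[x]/Pz φ z ≅ k[z_0 T, .., z_n T] ⊆ F[T] ⊆ F(T)` (`RatFunc F` or `GF`, `FractionRing F[X]`) is a finitely
generated domain over `k`, so `m + 1 ≤ dim ≤` the transcendence degree over `k` of
`B = k(z_0 T, .., z_n T) ⊆ F(T)` (`G1d_dim` of `MP_1e3e9c_agU/G1d.lean`; copy the two private lemmas with the prefix
E7b). Let `z_j ≠ 0` and `R = k(z_i/z_j : i)`, the field in the definition of `Big` (all quotients `z_i/z_j'` with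
`z_j' ≠ 0` are in it). `B = R(z_j T)`, so `m + 1 ≤ trdeg B/k ≤ trdeg R/k + 1`, `m ≤ trdeg R/k`. As
`trdeg F/k = m` (`hF`, see `t1` in `G1d.lean`) and `trdeg F/k = trdeg R/k + trdeg F/R`, all finite: `trdeg F/R = 0`, so
`F` is algebraic over `R` (`Algebra.trdeg_eq_zero_iff` or `trdeg_eq_zero_iff`). (Alternative for the middle part: if
some `x ∈ F` is not algebraic over `R`, then `x` and `z_j T` are algebraically independent over `R`,
`trdeg F(T)/k ≥ trdeg R/k + 2`, while `trdeg F(T)/k = m + 1`.)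
-/

set_option autoImplicit false

namespace Pool.Agent.Lib.MP_1e3e9c_agW

open Pool.Agent.Lib.MP_1e3e9c_agU

private theorem E7b_int {R S : Type} [CommRing R] [CommRing S] (g : R →+* S)
    (hg : g.IsIntegral) : ringKrullDim S ≤ ringKrullDim R := by
  let := g.toAlgebra
  refine Order.krullDim_le_of_strictMono (PrimeSpectrum.comap g) ?_
  intro p q hpq
  have hle : p.asIdeal ≤ q.asIdeal := hpq.le
  obtain ⟨x, hxq, hxp⟩ : ∃ x ∈ q.asIdeal, x ∉ p.asIdeal := SetLike.exists_of_lt hpq
  exact Ideal.comap_lt_comap_of_integral_mem_sdiff hle ⟨hxq, hxp⟩ (hg x)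

private theorem E7b_dim {k B : Type} [Field k] [CommRing B] [Nontrivial B] [Algebra k B]
    [Algebra.FiniteType k B] {N : ℕ} (h : Algebra.trdeg k B ≤ (N : Cardinal)) :
    ringKrullDim B ≤ ((N : ℕ) : WithBot ℕ∞) := by
  obtain ⟨s, g, hi, hint⟩ := exists_integral_inj_algHom_of_fg k B
  have h1 : ringKrullDim B ≤ ringKrullDim (MvPolynomial (Fin s) k) := E7b_int g.toRingHom hint
  rw [MvPolynomial.ringKrullDim_of_isNoetherianRing, ringKrullDim_eq_zero_of_field, zero_add,
    Nat.card_fin] at h1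
  have h2 : (s : Cardinal) ≤ Algebra.trdeg k B := by
    have h3 : AlgebraicIndependent k (fun i => g (MvPolynomial.X i)) := by
      have h4 : MvPolynomial.aeval (fun i => g (MvPolynomial.X i)) = g := by
        apply MvPolynomial.algHom_ext
        intro i
        simp
      rw [algebraicIndependent_iff_injective_aeval, h4]
      exact hi
    have h5 := h3.cardinalMk_le_trdeg
    rwa [Cardinal.mk_fin] at h5
  have h4 : s ≤ N := by exact_mod_cast h2.trans h
  exact h1.trans (by exact_mod_cast h4)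

/-- the dimension of `k[w_i T]` is at most `trdeg E/k + 1` -/
private theorem E7b_key {k E : Type} [Field k] [Field E] [Algebra k E] {n M : ℕ}
    (w : Fin (n + 1) → E) (ht : Algebra.trdeg k E ≤ (M : Cardinal)) :
    ringKrullDim (MvPolynomial (Fin (n + 1)) k ⧸ Pz (algebraMap k E) w) ≤
      ((M + 1 : ℕ) : WithBot ℕ∞) := by
  let f : MvPolynomial (Fin (n + 1)) k →ₐ[k] Polynomial E :=
    MvPolynomial.aeval (fun i => Polynomial.C (w i) * Polynomial.X)
  have hP : Pz (algebraMap k E) w = RingHom.ker f := by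
    unfold Pz
    ext a
    rw [RingHom.mem_ker, RingHom.mem_ker]
    rfl
  have h1 : Algebra.trdeg k (Polynomial E) ≤ ((M + 1 : ℕ) : Cardinal) := by
    have h2 := _root_.trdeg_add_eq k E (A := Polynomial E)
    rw [Polynomial.trdeg_of_isDomain] at h2
    rw [← h2, Nat.cast_add, Nat.cast_one]
    exact add_le_add_left ht 1
  rw [hP]
  have : Nontrivial (MvPolynomial (Fin (n + 1)) k ⧸ RingHom.ker f) :=
    Ideal.Quotient.nontrivial_iff.2 (RingHom.ker_ne_top _)
  exact E7b_dim
    ((_root_.trdeg_le_of_injective (Ideal.kerLiftAlg f) (Ideal.kerLiftAlg_injective f)).trans h1)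

private theorem E7b_trdeg {k F : Type} [Field k] [Field F] [Algebra k F] {m : ℕ}
    (hF : FF (algebraMap k F).fieldRange m) : Algebra.trdeg k F = m := by
  let iK : Algebra k (algebraMap k F).fieldRange := (algebraMap k F).rangeRestrictField.toAlgebra
  have : IsScalarTower k (algebraMap k F).fieldRange F := IsScalarTower.of_algebraMap_eq' rfl
  have h1 := _root_.trdeg_add_eq k (algebraMap k F).fieldRange (A := F)
  have h2 : Algebra.trdeg k (algebraMap k F).fieldRange = 0 := by
    have : Algebra.IsAlgebraic k (algebraMap k F).fieldRange := by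
      refine ⟨fun x => ?_⟩
      obtain ⟨y, hy⟩ := (algebraMap k F).rangeRestrictField_bijective.2 x
      rw [← hy]
      exact isAlgebraic_algebraMap y
    exact _root_.trdeg_eq_zero
  rw [h2, zero_add, hF.2] at h1
  exact h1.symm

theorem le_of_dim {k F : Type} [Field k] [Field F] {n m N : ℕ} (φ : k →+* F)
    (hF : FF φ.fieldRange m) (z : Fin (n + 1) → F)
    (h : ((N + 1 : ℕ) : WithBot ℕ∞) ≤ ringKrullDim (MvPolynomial (Fin (n + 1)) k ⧸ Pz φ z)) :
    N ≤ m := by
  let iF : Algebra k F := φ.toAlgebra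
  have h1 : Algebra.trdeg k F = m := E7b_trdeg hF
  have h2 := h.trans (E7b_key (k := k) (E := F) z h1.le)
  have h3 : N + 1 ≤ m + 1 := by exact_mod_cast h2
  omega

/-- the ideal does not change if the coordinates are divided by a nonzero element and the field is
made smaller -/
private theorem E7b_Pz {k E F : Type} [Field k] [Field E] [Field F] {n : ℕ} (φ : k →+* E)
    (ψ : E →+* F) (w : Fin (n + 1) → E) (a : F) (ha : a ≠ 0) :
    Pz (ψ.comp φ) (fun i => ψ (w i) * a) = Pz φ w := by
  let g : Polynomial E →+* Polynomial F :=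
    (Polynomial.compRingHom (Polynomial.C a * Polynomial.X)).comp (Polynomial.mapRingHom ψ)
  have hg : Function.Injective g := by
    rw [injective_iff_map_eq_zero]
    intro P hP
    ext i
    have h1 : (g P).coeff i = ψ (P.coeff i) * a ^ i := by
      show ((P.map ψ).comp (Polynomial.C a * Polynomial.X)).coeff i = _
      rw [Polynomial.comp_C_mul_X_coeff, Polynomial.coeff_map]
    rw [hP, Polynomial.coeff_zero] at h1
    have h2 := (mul_eq_zero.1 h1.symm).resolve_right (pow_ne_zero i ha)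
    rw [Polynomial.coeff_zero]
    exact (map_eq_zero ψ).1 h2
  have hc : MvPolynomial.eval₂Hom (Polynomial.C.comp (ψ.comp φ))
      (fun i => Polynomial.C (ψ (w i) * a) * Polynomial.X) =
      g.comp (MvPolynomial.eval₂Hom (Polynomial.C.comp φ)
        (fun i => Polynomial.C (w i) * Polynomial.X)) := by
    apply MvPolynomial.ringHom_ext
    · intro r
      show MvPolynomial.eval₂Hom _ _ (MvPolynomial.C r) = g (MvPolynomial.eval₂Hom _ _ _)
      rw [MvPolynomial.eval₂Hom_C, MvPolynomial.eval₂Hom_C]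
      show Polynomial.C (ψ (φ r)) = ((Polynomial.C (φ r)).map ψ).comp _
      rw [Polynomial.map_C, Polynomial.C_comp]
    · intro i
      show MvPolynomial.eval₂Hom _ _ (MvPolynomial.X i) = g (MvPolynomial.eval₂Hom _ _ _)
      rw [MvPolynomial.eval₂Hom_X', MvPolynomial.eval₂Hom_X']
      show Polynomial.C (ψ (w i) * a) * Polynomial.X =
        ((Polynomial.C (w i) * Polynomial.X).map ψ).comp (Polynomial.C a * Polynomial.X)
      rw [Polynomial.map_mul, Polynomial.map_C, Polynomial.map_X, Polynomial.mul_comp,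
        Polynomial.C_comp, Polynomial.X_comp, Polynomial.C_mul, mul_assoc]
  unfold Pz
  rw [hc]
  ext P
  rw [RingHom.mem_ker, RingHom.mem_ker, RingHom.comp_apply]
  exact map_eq_zero_iff g hg

theorem big_of_dim {k F : Type} [Field k] [Field F] {n m : ℕ} (φ : k →+* F)
    (hF : FF φ.fieldRange m) (z : Fin (n + 1) → F) (hz : z ≠ 0)
    (h : ((m + 1 : ℕ) : WithBot ℕ∞) ≤ ringKrullDim (MvPolynomial (Fin (n + 1)) k ⧸ Pz φ z)) :
    Big φ.fieldRange z := by
  refine ⟨hz, ?_⟩
  obtain ⟨j, hj⟩ := Function.ne_iff.1 hz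
  have hj' : z j ≠ 0 := hj
  let iF : Algebra k F := φ.toAlgebra
  set R : Subfield F := Subfield.closure ((φ.fieldRange : Set F) ∪
    {y | ∃ i j, z j ≠ 0 ∧ y = z i / z j}) with hR
  have hKR : ∀ a : k, φ a ∈ R := fun a =>
    Subfield.subset_closure (Or.inl (RingHom.mem_fieldRange.2 ⟨a, rfl⟩))
  have hzR : ∀ i, z i / z j ∈ R := fun i => Subfield.subset_closure (Or.inr ⟨i, j, hj', rfl⟩)
  let φ' : k →+* R := φ.codRestrict R hKR
  let iR : Algebra k R := φ'.toAlgebra
  have tw : IsScalarTower k R F := IsScalarTower.of_algebraMap_eq' rfl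
  have h1 : Algebra.trdeg k F = m := E7b_trdeg hF
  have h2 := _root_.trdeg_add_eq k R (A := F)
  rw [h1] at h2
  have h3 : Algebra.trdeg k R ≤ (m : Cardinal) := by
    rw [← h2]
    exact le_self_add
  obtain ⟨r, hr⟩ := Cardinal.lt_aleph0.1 (h3.trans_lt (Cardinal.natCast_lt_aleph0 (n := m)))
  have h4 : Pz φ z = Pz φ' (fun i => (⟨z i / z j, hzR i⟩ : R)) := by
    rw [← E7b_Pz φ' R.subtype (fun i => (⟨z i / z j, hzR i⟩ : R)) (z j) hj']
    have e1 : R.subtype.comp φ' = φ := rfl
    have e2 : (fun i => R.subtype (⟨z i / z j, hzR i⟩ : R) * z j) = z := by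
      funext i
      exact div_mul_cancel₀ (z i) hj'
    rw [e1, e2]
  rw [h4] at h
  have h5 := h.trans (E7b_key (k := k) (E := R) _ hr.le)
  have h6 : m + 1 ≤ r + 1 := by exact_mod_cast h5
  have h7 : (r : Cardinal) ≤ m := hr ▸ h3
  have h8 : r ≤ m := by exact_mod_cast h7
  have h9 : r = m := by omega
  subst h9
  rw [hr] at h2
  have h10 : Algebra.trdeg R F = 0 := by
    have h11 : Algebra.trdeg R F ≤ (r : Cardinal) := by
      rw [← h2]
      exact le_add_self
    obtain ⟨s, hs⟩ := Cardinal.lt_aleph0.1 (h11.trans_lt (Cardinal.natCast_lt_aleph0 (n := r)))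
    rw [hs] at h2 ⊢
    have h12 : r + s = r := by exact_mod_cast h2
    have h13 : s = 0 := by omega
    rw [h13, Nat.cast_zero]
  have h14 : Algebra.IsAlgebraic R F := _root_.trdeg_eq_zero_iff.1 h10
  exact fun x => h14.isAlgebraic x

end Pool.Agent.Lib.MP_1e3e9c_agW
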