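import Mathlib
import Pool.Agent.Lib.MP_1e3e9c_agW.DefsE

/-!
# MP_1e3e9c_ag, project W, leaf E7c: three independent quotients

Adapt leaf E7b (`big_of_dim`, in the store). `k[x]/Pz φ z ≅ k[z_0 T, .., z_n T] ⊆ F[T]` is a finitely generated domain
over `k`, so `m + 1 ≤ dim ≤` the transcendence degree over `k` of `B = k(z_0 T, .., z_n T) ⊆ F(T)`. `z ≠ 0` (otherwise
the quotient is `k` and the dimension `0`; `m + 1 ≥ 1`), let `z i₀ ≠ 0`, `R = k(z_i/z_(i₀) : i)`: `B = R(z_(i₀) T)`, so
`m ≤ trdeg R/k`, and a transcendence basis of `R` can be chosen among the generators `z_i / z_(i₀)`; take `m` of its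
elements. (`φ.fieldRange ≅ k`.)
-/

set_option autoImplicit false

namespace Pool.Agent.Lib.MP_1e3e9c_agW

open Pool.Agent.Lib.MP_1e3e9c_agU

private theorem E7c_int {R S : Type} [CommRing R] [CommRing S] (g : R →+* S)
    (hg : g.IsIntegral) : ringKrullDim S ≤ ringKrullDim R := by
  let := g.toAlgebra
  refine Order.krullDim_le_of_strictMono (PrimeSpectrum.comap g) ?_
  intro p q hpq
  have hle : p.asIdeal ≤ q.asIdeal := hpq.le
  obtain ⟨x, hxq, hxp⟩ : ∃ x ∈ q.asIdeal, x ∉ p.asIdeal := SetLike.exists_of_lt hpq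
  exact Ideal.comap_lt_comap_of_integral_mem_sdiff hle ⟨hxq, hxp⟩ (hg x)

private theorem E7c_dim {k B : Type} [Field k] [CommRing B] [Nontrivial B] [Algebra k B]
    [Algebra.FiniteType k B] {N : ℕ} (h : Algebra.trdeg k B ≤ (N : Cardinal)) :
    ringKrullDim B ≤ ((N : ℕ) : WithBot ℕ∞) := by
  obtain ⟨s, g, hi, hint⟩ := exists_integral_inj_algHom_of_fg k B
  have h1 : ringKrullDim B ≤ ringKrullDim (MvPolynomial (Fin s) k) := E7c_int g.toRingHom hint
  rw [MvPolynomial.ringKrullDim_of_isNoetherianRing, ringKrullDim_eq_zero_of_field, zero_add,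
    Nat.card_fin] at h1
  have h2 : (s : Cardinal) ≤ Algebra.trdeg k B := by
    have h3 : AlgebraicIndependent k (fun i => g (MvPolynomial.X i)) := by
      have h4 : MvPolynomial.aeval (fun i => g (MvPolynomial.X i)) = g := by
        apply MvPolynomial.algHom_ext
        intro i
        simp
      rw [algebraicIndependent_iff_injective_aeval, h4]
      exact hi
    have h5 := h3.cardinalMk_le_trdeg
    rwa [Cardinal.mk_fin] at h5
  have h4 : s ≤ N := by exact_mod_cast h2.trans h
  exact h1.trans (by exact_mod_cast h4)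

/-- the dimension of `k[w_i T]` is at most `trdeg A/k + 1` -/
private theorem E7c_key {k A : Type} [Field k] [CommRing A] [IsDomain A] [Algebra k A] {n M : ℕ}
    (w : Fin (n + 1) → A) (ht : Algebra.trdeg k A ≤ (M : Cardinal)) :
    ringKrullDim (MvPolynomial (Fin (n + 1)) k ⧸ RingHom.ker
      (MvPolynomial.aeval (fun i => Polynomial.C (w i) * Polynomial.X) :
        MvPolynomial (Fin (n + 1)) k →ₐ[k] Polynomial A)) ≤ ((M + 1 : ℕ) : WithBot ℕ∞) := by
  let f : MvPolynomial (Fin (n + 1)) k →ₐ[k] Polynomial A :=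
    MvPolynomial.aeval (fun i => Polynomial.C (w i) * Polynomial.X)
  have h1 : Algebra.trdeg k (Polynomial A) ≤ ((M + 1 : ℕ) : Cardinal) := by
    have h2 := _root_.trdeg_add_eq k A (A := Polynomial A)
    rw [Polynomial.trdeg_of_isDomain] at h2
    rw [← h2, Nat.cast_add, Nat.cast_one]
    exact add_le_add_left ht 1
  have : Nontrivial (MvPolynomial (Fin (n + 1)) k ⧸ RingHom.ker f) :=
    Ideal.Quotient.nontrivial_iff.2 (RingHom.ker_ne_top _)
  exact E7c_dim
    ((_root_.trdeg_le_of_injective (Ideal.kerLiftAlg f) (Ideal.kerLiftAlg_injective f)).trans h1)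

/-- the ideal does not change if the coordinates are divided by a nonzero element and the field is
replaced by a subring -/
private theorem E7c_Pz {k A F : Type} [Field k] [CommRing A] [Algebra k A] [Field F] {n : ℕ}
    (ψ : A →+* F) (hψ : Function.Injective ψ) (w : Fin (n + 1) → A) (a : F) (ha : a ≠ 0) :
    Pz (ψ.comp (algebraMap k A)) (fun i => ψ (w i) * a) = RingHom.ker
      (MvPolynomial.aeval (fun i => Polynomial.C (w i) * Polynomial.X) :
        MvPolynomial (Fin (n + 1)) k →ₐ[k] Polynomial A) := by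
  let g : Polynomial A →+* Polynomial F :=
    (Polynomial.compRingHom (Polynomial.C a * Polynomial.X)).comp (Polynomial.mapRingHom ψ)
  have hg : Function.Injective g := by
    rw [injective_iff_map_eq_zero]
    intro P hP
    ext i
    have h1 : (g P).coeff i = ψ (P.coeff i) * a ^ i := by
      show ((P.map ψ).comp (Polynomial.C a * Polynomial.X)).coeff i = _
      rw [Polynomial.comp_C_mul_X_coeff, Polynomial.coeff_map]
    rw [hP, Polynomial.coeff_zero] at h1
    have h2 := (mul_eq_zero.1 h1.symm).resolve_right (pow_ne_zero i ha)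
    rw [Polynomial.coeff_zero]
    exact (injective_iff_map_eq_zero ψ).1 hψ _ h2
  have hc : MvPolynomial.eval₂Hom (Polynomial.C.comp (ψ.comp (algebraMap k A)))
      (fun i => Polynomial.C (ψ (w i) * a) * Polynomial.X) =
      g.comp (MvPolynomial.eval₂Hom (algebraMap k (Polynomial A))
        (fun i => Polynomial.C (w i) * Polynomial.X)) := by
    apply MvPolynomial.ringHom_ext
    · intro r
      show MvPolynomial.eval₂Hom _ _ (MvPolynomial.C r) = g (MvPolynomial.eval₂Hom _ _ _)
      rw [MvPolynomial.eval₂Hom_C, MvPolynomial.eval₂Hom_C]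
      show Polynomial.C (ψ (algebraMap k A r)) = ((Polynomial.C (algebraMap k A r)).map ψ).comp _
      rw [Polynomial.map_C, Polynomial.C_comp]
    · intro i
      show MvPolynomial.eval₂Hom _ _ (MvPolynomial.X i) = g (MvPolynomial.eval₂Hom _ _ _)
      rw [MvPolynomial.eval₂Hom_X', MvPolynomial.eval₂Hom_X']
      show Polynomial.C (ψ (w i) * a) * Polynomial.X =
        ((Polynomial.C (w i) * Polynomial.X).map ψ).comp (Polynomial.C a * Polynomial.X)
      rw [Polynomial.map_mul, Polynomial.map_C, Polynomial.map_X, Polynomial.mul_comp,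
        Polynomial.C_comp, Polynomial.X_comp, Polynomial.C_mul, mul_assoc]
  unfold Pz
  rw [hc]
  ext P
  rw [RingHom.mem_ker, RingHom.mem_ker, RingHom.comp_apply, map_eq_zero_iff g hg]
  rfl

private theorem E7c_zero {k F : Type} [Field k] [Field F] {n : ℕ} (φ : k →+* F) :
    ringKrullDim (MvPolynomial (Fin (n + 1)) k ⧸ Pz φ (0 : Fin (n + 1) → F)) ≤
      ((0 : ℕ) : WithBot ℕ∞) := by
  let f : MvPolynomial (Fin (n + 1)) k →ₐ[k] k := MvPolynomial.aeval (fun _ => (0 : k))
  have hc : MvPolynomial.eval₂Hom (Polynomial.C.comp φ)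
      (fun i : Fin (n + 1) => Polynomial.C ((0 : Fin (n + 1) → F) i) * Polynomial.X) =
      (Polynomial.C.comp φ).comp (f : MvPolynomial (Fin (n + 1)) k →+* k) := by
    apply MvPolynomial.ringHom_ext
    · intro r
      rw [MvPolynomial.eval₂Hom_C]
      show _ = (Polynomial.C.comp φ) (f (MvPolynomial.C r))
      rw [MvPolynomial.aeval_C]
      rfl
    · intro i
      rw [MvPolynomial.eval₂Hom_X']
      show _ = (Polynomial.C.comp φ) (f (MvPolynomial.X i))
      rw [MvPolynomial.aeval_X, map_zero, Pi.zero_apply, Polynomial.C_0, zero_mul]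
  have hP : Pz φ (0 : Fin (n + 1) → F) = RingHom.ker f := by
    unfold Pz
    rw [hc]
    ext P
    have hinj : Function.Injective (Polynomial.C.comp φ : k →+* Polynomial F) :=
      fun x y hxy => φ.injective (Polynomial.C_injective hxy)
    rw [RingHom.mem_ker, RingHom.mem_ker, RingHom.comp_apply, map_eq_zero_iff _ hinj]
    rfl
  rw [hP]
  have : Nontrivial (MvPolynomial (Fin (n + 1)) k ⧸ RingHom.ker f) :=
    Ideal.Quotient.nontrivial_iff.2 (RingHom.ker_ne_top _)
  have h1 : Algebra.trdeg k k = 0 := _root_.trdeg_eq_zero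
  refine E7c_dim
    ((_root_.trdeg_le_of_injective (Ideal.kerLiftAlg f) (Ideal.kerLiftAlg_injective f)).trans ?_)
  rw [h1, Nat.cast_zero]

theorem indep_of_dim {k F : Type} [Field k] [Field F] {n m : ℕ} (φ : k →+* F)
    (z : Fin (n + 1) → F)
    (h : ((m + 1 : ℕ) : WithBot ℕ∞) ≤ ringKrullDim (MvPolynomial (Fin (n + 1)) k ⧸ Pz φ z)) :
    ∃ (i₀ : Fin (n + 1)) (i : Fin m → Fin (n + 1)), z i₀ ≠ 0 ∧
      AlgebraicIndependent φ.fieldRange (fun j => z (i j) / z i₀) := by
  have hz : z ≠ 0 := by
    intro hz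
    rw [hz] at h
    have h1 := h.trans (E7c_zero φ)
    have h2 : m + 1 ≤ 0 := by exact_mod_cast h1
    omega
  obtain ⟨i₀, hi₀⟩ := Function.ne_iff.1 hz
  have hz0 : z i₀ ≠ 0 := hi₀
  let iF : Algebra k F := φ.toAlgebra
  obtain ⟨w, hw⟩ : ∃ w : Fin (n + 1) → F, w = fun i => z i / z i₀ := ⟨_, rfl⟩
  let A : Subalgebra k F := Algebra.adjoin k (Set.range w)
  have hwA : ∀ i, w i ∈ A := fun i => Algebra.subset_adjoin ⟨i, rfl⟩
  let w' : Fin (n + 1) → A := fun i => ⟨w i, hwA i⟩
  let s : Set A := ((↑) : A → F) ⁻¹' (Set.range w)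
  have hs : Algebra.adjoin k s = ⊤ := Algebra.adjoin_adjoin_coe_preimage
  have halg : Algebra.IsAlgebraic (Algebra.adjoin k s) A := by
    refine ⟨fun x => ?_⟩
    have hx : x ∈ Algebra.adjoin k s := by
      rw [hs]
      exact Algebra.mem_top
    exact isAlgebraic_algebraMap (A := A) (⟨x, hx⟩ : Algebra.adjoin k s)
  obtain ⟨t, hts, ht⟩ := exists_isTranscendenceBasis_subset (R := k) s
  have hsf : s.Finite := (Set.finite_range w).preimage Subtype.val_injective.injOn
  have htf : t.Finite := hsf.subset hts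
  have hcard : (t.ncard : Cardinal) = Algebra.trdeg k A := by
    rw [← ht.cardinalMk_eq_trdeg, Set.cast_ncard htf]
  have hP : Pz φ z = RingHom.ker
      (MvPolynomial.aeval (fun i => Polynomial.C (w' i) * Polynomial.X) :
        MvPolynomial (Fin (n + 1)) k →ₐ[k] Polynomial A) := by
    rw [← E7c_Pz (k := k) (A.val : A →+* F) Subtype.val_injective w' (z i₀) hz0]
    have e1 : (A.val : A →+* F).comp (algebraMap k A) = φ := rfl
    have e2 : (fun i => (A.val : A →+* F) (w' i) * z i₀) = z := by
      funext i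
      show w i * z i₀ = z i
      rw [hw]
      exact div_mul_cancel₀ (z i) hz0
    rw [e1, e2]
  rw [hP] at h
  have h5 := h.trans (E7c_key (k := k) (A := A) w' hcard.ge)
  have h6 : m + 1 ≤ t.ncard + 1 := by exact_mod_cast h5
  have h7 : m ≤ t.ncard := by omega
  have : Finite t := htf
  have h8 : m ≤ Nat.card t := h7
  obtain ⟨e⟩ : Nonempty (Fin m ↪ t) := by
    have := Fintype.ofFinite t
    rw [Nat.card_eq_fintype_card] at h8
    refine Function.Embedding.nonempty_of_card_le ?_
    rwa [Fintype.card_fin]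
  have h9 : ∀ j : Fin m, ∃ i : Fin (n + 1), w i = ((e j : A) : F) := fun j => hts (e j).2
  choose i hi using h9
  refine ⟨i₀, i, hz0, ?_⟩
  have h10 : AlgebraicIndependent k (fun j : Fin m => ((e j : t) : A)) := ht.1.comp e e.injective
  have h11 : AlgebraicIndependent φ.fieldRange
      ((A.val : A →+* F) ∘ fun j : Fin m => ((e j : t) : A)) :=
    h10.ringHom_of_comp_eq (φ.rangeRestrictField : k →+* φ.fieldRange) (A.val : A →+* F)
      φ.rangeRestrictField_bijective.2 Subtype.val_injective rfl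
  have e3 : (fun j => z (i j) / z i₀) = (A.val : A →+* F) ∘ fun j : Fin m => ((e j : t) : A) := by
    funext j
    have h12 := hi j
    rw [hw] at h12
    exact h12
  rw [e3]
  exact h11

end Pool.Agent.Lib.MP_1e3e9c_agW
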