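import Mathlib
import Pool.Agent.Lib.MP_1e3e9c_agU.FmC
import Pool.Agent.Lib.MP_1e3e9c_agW.DefsE

/-!
# MP_1e3e9c_ag, project W, leaf E8a: two distinct zeros

`T.c = D.c`, `T.p = ![D.p 0, D.p l₁]`. Every `p l` is `b_l p 0` or `b_l p l₁` with `b_l ≠ 0` (`wd_eq_zero_iff`,
`MP_1e3e9c_agU/FmA.lean`, `D.pne`); not both, because `wd (p 0) (p l₁) ≠ 0`. `mu 0`, `mu 1` = the numbers of the `l`
of the two kinds (`Finset.filter`), positive (`l = 0`, `l = l₁`), with sum `d + 1`. `e = D.e * ∏ b_l`.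
`fac`: `wd (b p) x = b wd p x`, `Finset.prod_mul_distrib`, `Finset.prod_ite` / `Finset.prod_filter_mul_prod_filter_not`.
The last statement: `pt (b p) = b^(d+1) pt p` (`ev_scale`).
-/

set_option autoImplicit false

namespace Pool.Agent.Lib.MP_1e3e9c_agW

open Pool.Agent.Lib.MP_1e3e9c_agU

theorem two_of_two {k F : Type} [Field k] [Field F] {n d : ℕ}
    {S : Set (MvPolynomial (Fin (n + 1)) k)}
    {I : Ideal (MvPolynomial (Fin (n + 1) × Fin (d + 1 + 1)) k)} {φ : k →+* F} (D : Dat I φ)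
    (hE : Eqs S φ D.c) (l₁ : Fin (d + 1)) (h1 : wd (D.p 0) (D.p l₁) ≠ 0)
    (h : ∀ l, wd (D.p l) (D.p 0) = 0 ∨ wd (D.p l) (D.p l₁) = 0) :
    ∃ T : Two S φ d, T.c = D.c ∧ ∀ l, ∃ a, Pr (D.pt (D.p l)) (T.pt (T.p a)) := by
  classical
  obtain ⟨u, hu⟩ : ∃ u : Fin 2 → Fin 2 → F, u = ![D.p 0, D.p l₁] := ⟨_, rfl⟩
  have hu0 : u 0 = D.p 0 := by rw [hu]; rfl
  have hu1 : u 1 = D.p l₁ := by rw [hu]; rfl
  have hcm : ∀ p x : Fin 2 → F, wd p x = 0 → wd x p = 0 := by
    intro p x hw
    unfold wd at hw ⊢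
    linear_combination -hw
  have hex : ∀ l, ∃ (a : Fin 2) (b : F), b ≠ 0 ∧ ∀ i, D.p l i = b * u a i := by
    intro l
    have key : ∀ l', wd (D.p l) (D.p l') = 0 → ∃ b : F, b ≠ 0 ∧ ∀ i, D.p l i = b * D.p l' i := by
      intro l' hw
      obtain ⟨b, hb⟩ := (wd_eq_zero_iff (D.pne l') (D.p l)).1 (hcm _ _ hw)
      refine ⟨b, ?_, hb⟩
      intro hb0
      apply D.pne l
      funext i
      rw [hb i, hb0, zero_mul, Pi.zero_apply]
    rcases h l with hl | hl
    · obtain ⟨b, hb, hbi⟩ := key 0 hl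
      exact ⟨0, b, hb, fun i => by rw [hu0]; exact hbi i⟩
    · obtain ⟨b, hb, hbi⟩ := key l₁ hl
      exact ⟨1, b, hb, fun i => by rw [hu1]; exact hbi i⟩
  choose κ b hb hκ using hex
  have hκ0 : κ 0 = 0 := by
    by_contra hne
    have h2 : κ 0 = 1 := by omega
    apply h1
    have h3 := hκ 0
    rw [h2, hu1] at h3
    unfold wd
    rw [h3 0, h3 1]
    ring
  have hκ1 : κ l₁ = 1 := by
    by_contra hne
    have h2 : κ l₁ = 0 := by omega
    apply h1
    have h3 := hκ l₁
    rw [h2, hu0] at h3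
    unfold wd
    rw [h3 0, h3 1]
    ring
  have hprod : ∀ {M : Type} [CommMonoid M] (f : Fin 2 → M), ∏ l, f (κ l) =
      f 0 ^ (Finset.univ.filter fun l => κ l = 0).card * f 1 ^ (Finset.univ.filter fun l => κ l = 1).card := by
    intro M _ f
    rw [← Finset.prod_fiberwise Finset.univ κ, Fin.prod_univ_two]
    congr 1
    · rw [← Finset.prod_const]
      refine Finset.prod_congr rfl fun l hl => ?_
      rw [(Finset.mem_filter.1 hl).2]
    · rw [← Finset.prod_const]
      refine Finset.prod_congr rfl fun l hl => ?_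
      rw [(Finset.mem_filter.1 hl).2]
  let T : Two S φ d :=
    { c := D.c
      p := u
      mu := fun a => (Finset.univ.filter fun l => κ l = a).card
      e := D.e * ∏ l, b l
      eqs := hE
      bpf := D.bpf
      ene := mul_ne_zero D.ene (Finset.prod_ne_zero_iff.2 fun l _ => hb l)
      wne := by rw [hu0, hu1]; exact h1
      mupos := by
        intro a
        rw [Finset.card_pos]
        rcases (by omega : a = 0 ∨ a = 1) with ha | ha
        · exact ⟨0, Finset.mem_filter.2 ⟨Finset.mem_univ _, by rw [ha]; exact hκ0⟩⟩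
        · exact ⟨l₁, Finset.mem_filter.2 ⟨Finset.mem_univ _, by rw [ha]; exact hκ1⟩⟩
      musum := by
        have h2 := Finset.card_eq_sum_card_fiberwise (f := κ) (s := (Finset.univ : Finset (Fin (d + 1))))
          (t := Finset.univ) fun l _ => Finset.mem_univ _
        rw [Finset.card_univ, Fintype.card_fin, Fin.sum_univ_two] at h2
        exact h2.symm
      fac := by
        intro M _ ψ x
        rw [D.fac M ψ x]
        have h2 : ∀ l, wd (fun a => ψ (D.p l a)) x = ψ (b l) * wd (fun a => ψ (u (κ l) a)) x := by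
          intro l
          unfold wd
          beta_reduce
          rw [hκ l 0, hκ l 1, map_mul, map_mul]
          ring
        rw [Finset.prod_congr rfl fun l _ => h2 l, Finset.prod_mul_distrib,
          hprod (fun a => wd (fun i => ψ (u a i)) x), map_mul, map_prod]
        ring }
  refine ⟨T, rfl, fun l => ⟨κ l, (b l ^ (d + 1))⁻¹, inv_ne_zero (pow_ne_zero _ (hb l)), fun i => ?_⟩⟩
  have h2 : D.pt (D.p l) i = b l ^ (d + 1) * T.pt (T.p (κ l)) i := by
    have h3 : D.p l = fun i => b l * u (κ l) i := funext (hκ l)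
    change ev (D.c i) (D.p l) = b l ^ (d + 1) * ev (D.c i) (u (κ l))
    rw [h3]
    exact ev_scale (b l) (D.c i) (u (κ l))
  rw [h2, inv_mul_cancel_left₀ (pow_ne_zero _ (hb l))]

end Pool.Agent.Lib.MP_1e3e9c_agW
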