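import Mathlib
import Pool.Agent.Lib.MP_1e3e9c_agU.FmC
import Pool.Agent.Lib.MP_1e3e9c_agW.DefsE

/-!
# MP_1e3e9c_ag, project W, leaf E8b: one zero, composition with a quadratic map

Let `p = D.p 0`; every `p l = b_l p`, `b_l ≠ 0` (`wd_eq_zero_iff`), so `f_0(x) = e' wd(p,x)^(d+1)`, `e' = e ∏ b_l`.
Choose `p'` with `wd p p' = 1` (`p 0 ≠ 0`: `(0, 1/p 0)`; otherwise `(-1/p 1, 0)`). `g(x) = x_0 x_1 p' + (x_0^2 +
x_1^2) p`, i.e. `g a = ![p a, p' a, p a]`. `BPF g`: at a common zero `x` the vectors `p'`, `p` are linearly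
independent, so `x_0 x_1 = 0` and `x_0^2 + x_1^2 = 0`, `x = 0`. The tuple `T.c` of degree `2(d+1) = (2d+1) + 1`:
`T.c i` = the coefficients of `f_i(g(x))`: e.g. of the polynomial `∑_j C (D.c i j) g_0(1,X)^(d+1-j) g_1(1,X)^j` of
degree `≤ 2(d+1)` (compare `act` and `ev_act` in `MP_1e3e9c_agU/FmA.lean`), or with `MP_1e3e9c_agU/FmC.lean`,
`comp_form`, which gives a form with the right values over `F`; over all extension fields `A` use the
polynomial identity (`F` is infinite: `ev_ext`, or the naturality of the coefficients). `eqs`: `P(f(g(x))) = 0`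
(`hE` over `M` at the point `g(x)`). `bpf`: `g(x) ≠ 0` for `x ≠ 0`, `D.bpf`. `T.p = ![(1,0), (0,1)]`,
`mu = (d+1, d+1)`: `f_0(g(x)) = e' (wd(p, g(x)))^(d+1) = e' (x_0 x_1)^(d+1)`, `wd (1,0) x = x_1`,
`wd (0,1) x = -x_0`: `T.e = (-1)^(d+1) e'`. The last statement: `T.pt (1,0) = f(g(1,0)) = f(p) = D.pt p` and
`D.pt (b p) = b^(d+1) D.pt p`.
-/

set_option autoImplicit false

namespace Pool.Agent.Lib.MP_1e3e9c_agW

open Pool.Agent.Lib.MP_1e3e9c_agU

/-- the binary form as a polynomial -/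
private noncomputable def E8b_pl {L : Type} [Field L] {D : ℕ} (c : Fin (D + 1) → L) :
    MvPolynomial (Fin (1 + 1)) L :=
  ∑ j : Fin (D + 1), MvPolynomial.C (c j) * MvPolynomial.X 0 ^ (D - (j : ℕ)) *
    MvPolynomial.X 1 ^ (j : ℕ)

private theorem E8b_eval₂ {L : Type} [Field L] {D : ℕ} (c : Fin (D + 1) → L) {M : Type} [Field M]
    (ψ : L →+* M) (x : Fin (1 + 1) → M) :
    MvPolynomial.eval₂ ψ x (E8b_pl c) = ev (fun j => ψ (c j)) x := by
  unfold E8b_pl ev
  rw [← MvPolynomial.coe_eval₂Hom, map_sum]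
  refine Finset.sum_congr rfl fun j _ => ?_
  rw [map_mul, map_mul, map_pow, map_pow, MvPolynomial.coe_eval₂Hom, MvPolynomial.eval₂_C,
    MvPolynomial.eval₂_X, MvPolynomial.eval₂_X]

private theorem E8b_hom {L : Type} [Field L] {D : ℕ} (c : Fin (D + 1) → L) :
    (E8b_pl c).IsHomogeneous D := by
  unfold E8b_pl
  refine MvPolynomial.IsHomogeneous.sum _ _ _ fun j _ => ?_
  have h1 := ((MvPolynomial.isHomogeneous_C (Fin (1 + 1)) (c j)).mul
    ((MvPolynomial.isHomogeneous_X L (0 : Fin (1 + 1))).pow (D - (j : ℕ)))).mul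
    ((MvPolynomial.isHomogeneous_X L (1 : Fin (1 + 1))).pow (j : ℕ))
  have h2 : 0 + 1 * (D - (j : ℕ)) + 1 * (j : ℕ) = D := by
    have := j.2
    omega
  rw [h2] at h1
  exact h1

private theorem E8b_ev2 {L : Type} [Field L] (a b c : L) (x : Fin 2 → L) :
    ev (D := 2) ![a, b, c] x = a * x 0 ^ 2 + b * (x 0 * x 1) + c * x 1 ^ 2 := by
  unfold ev
  rw [Fin.sum_univ_three]
  simp only [Matrix.cons_val_zero, Matrix.cons_val_one, Matrix.cons_val_two, Matrix.tail_cons,
    Matrix.head_cons, Fin.val_zero, Fin.val_one, Fin.val_two]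
  ring

private theorem E8b_g {L M : Type} [Field L] [Field M] (ψ : L →+* M) (p p' : Fin 2 → L) (x : Fin 2 → M)
    (a : Fin 2) : ev (D := 2) (fun j => ψ ((![p a, p' a, p a] : Fin (2 + 1) → L) j)) x =
      ψ (p a) * (x 0 ^ 2 + x 1 ^ 2) + ψ (p' a) * (x 0 * x 1) := by
  have h1 : (fun j => ψ ((![p a, p' a, p a] : Fin (2 + 1) → L) j)) = ![ψ (p a), ψ (p' a), ψ (p a)] := by
    funext j
    fin_cases j <;> rfl
  rw [h1, E8b_ev2]
  ring

private theorem E8b_compl {L : Type} [Field L] (p : Fin 2 → L) (hp : p ≠ 0) :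
    ∃ p' : Fin 2 → L, wd p p' = 1 := by
  by_cases h0 : p 0 = 0
  · have h1 : p 1 ≠ 0 := by
      intro h1
      apply hp
      funext i
      fin_cases i
      · exact h0
      · exact h1
    refine ⟨![-(p 1)⁻¹, 0], ?_⟩
    unfold wd
    simp only [Matrix.cons_val_zero, Matrix.cons_val_one]
    rw [mul_zero, zero_sub, mul_neg, neg_neg, mul_inv_cancel₀ h1]
  · refine ⟨![0, (p 0)⁻¹], ?_⟩
    unfold wd
    simp only [Matrix.cons_val_zero, Matrix.cons_val_one]
    rw [mul_zero, sub_zero, mul_inv_cancel₀ h0]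

theorem two_of_one {k F : Type} [Field k] [Field F] [CharZero F] {n d : ℕ}
    {S : Set (MvPolynomial (Fin (n + 1)) k)}
    {I : Ideal (MvPolynomial (Fin (n + 1) × Fin (d + 1 + 1)) k)} {φ : k →+* F} (D : Dat I φ)
    (hE : Eqs S φ D.c) (h : ∀ l, wd (D.p l) (D.p 0) = 0) :
    ∃ (T : Two S φ (2 * d + 1)) (g : Fin (1 + 1) → Fin (2 + 1) → F), BPF g ∧
      (∀ (A : Type) [Field A] (ψ : F →+* A) (x : Fin 2 → A) (i : Fin (n + 1)),
        ev (fun j => ψ (T.c i j)) x =
          ev (fun j => ψ (D.c i j)) (fun a => ev (fun j => ψ (g a j)) x)) ∧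
      ∀ l, Pr (D.pt (D.p l)) (T.pt (T.p 0)) := by
  classical
  obtain ⟨p, hp⟩ : ∃ p : Fin 2 → F, p = D.p 0 := ⟨_, rfl⟩
  have hp0 : p ≠ 0 := by rw [hp]; exact D.pne 0
  obtain ⟨p', hp'⟩ := E8b_compl p hp0
  have hpw : p 0 * p' 1 - p 1 * p' 0 = 1 := hp'
  have hex : ∀ l, ∃ b : F, b ≠ 0 ∧ ∀ i, D.p l i = b * p i := by
    intro l
    have h1 : wd p (D.p l) = 0 := by
      have h2 := h l
      rw [← hp] at h2
      unfold wd at h2 ⊢
      linear_combination -h2
    obtain ⟨b, hb⟩ := (wd_eq_zero_iff hp0 (D.p l)).1 h1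
    refine ⟨b, ?_, hb⟩
    intro hb0
    apply D.pne l
    funext i
    rw [hb i, hb0, zero_mul, Pi.zero_apply]
  choose b hb hbp using hex
  let g : Fin (1 + 1) → Fin (2 + 1) → F := fun a => ![p a, p' a, p a]
  have hg : ∀ (M : Type) [Field M] (ψ : F →+* M) (x : Fin 2 → M) (a : Fin (1 + 1)),
      ev (fun j => ψ (g a j)) x = ψ (p a) * (x 0 ^ 2 + x 1 ^ 2) + ψ (p' a) * (x 0 * x 1) :=
    fun M _ ψ x a => E8b_g ψ p p' x a
  have hψw : ∀ (M : Type) [Field M] (ψ : F →+* M), ψ (p 0) * ψ (p' 1) - ψ (p 1) * ψ (p' 0) = 1 := by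
    intro M _ ψ
    rw [← map_mul, ← map_mul, ← map_sub, hpw, map_one]
  have hgb : BPF g := by
    intro M _ ψ x hx
    by_contra hcon
    push Not at hcon
    have h0 := hcon 0
    have h1 := hcon 1
    rw [hg M ψ x] at h0 h1
    have hw := hψw M ψ
    have h2 : x 0 * x 1 = 0 := by
      linear_combination (-ψ (p 1)) * h0 + ψ (p 0) * h1 - (x 0 * x 1) * hw
    have h3 : x 0 ^ 2 + x 1 ^ 2 = 0 := by
      linear_combination ψ (p' 1) * h0 - ψ (p' 0) * h1 - (x 0 ^ 2 + x 1 ^ 2) * hw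
    apply hx
    rcases mul_eq_zero.1 h2 with h4 | h4
    · have h5 : x 1 = 0 := by
        rw [h4] at h3
        have h6 : x 1 ^ 2 = 0 := by linear_combination h3
        exact pow_eq_zero_iff (two_ne_zero) |>.1 h6
      funext i
      fin_cases i
      · exact h4
      · exact h5
    · have h5 : x 0 = 0 := by
        rw [h4] at h3
        have h6 : x 0 ^ 2 = 0 := by linear_combination h3
        exact pow_eq_zero_iff (two_ne_zero) |>.1 h6
      funext i
      fin_cases i
      · exact h5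
      · exact h4
  have hcf : ∀ i : Fin (n + 1), ∃ c' : Fin (2 * (d + 1) + 1) → F,
      ∀ (M : Type) [Field M] (ψ : F →+* M) (x : Fin 2 → M),
        ev (fun j => ψ (c' j)) x = ev (fun j => ψ (D.c i j)) (fun a => ev (fun j => ψ (g a j)) x) := by
    intro i
    obtain ⟨c', hc'⟩ := comp_form g (d + 1) (E8b_pl (D.c i)) (E8b_hom (D.c i))
    refine ⟨c', fun M _ ψ x => ?_⟩
    rw [hc' M ψ x]
    exact E8b_eval₂ (D.c i) ψ _
  choose c hc using hcf
  let T : Two S φ (2 * d + 1) :=
    { c := c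
      p := ![![1, 0], ![0, 1]]
      mu := fun _ => d + 1
      e := (-1) ^ (d + 1) * (D.e * ∏ l, b l)
      eqs := by
        intro P hP M _ ψ x
        have h1 : (fun i => ev (fun j => ψ (c i j)) x) =
            fun i => ev (fun j => ψ (D.c i j)) (fun a => ev (fun j => ψ (g a j)) x) :=
          funext fun i => hc i M ψ x
        exact (congrArg (fun y => MvPolynomial.eval₂ (ψ.comp φ) y P) h1).trans
          (hE P hP M ψ (fun a => ev (fun j => ψ (g a j)) x))
      bpf := by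
        intro M _ ψ x hx
        obtain ⟨a, ha⟩ := hgb M ψ x hx
        obtain ⟨i, hi⟩ := D.bpf M ψ (fun a => ev (fun j => ψ (g a j)) x) fun h0 => ha (congrFun h0 a)
        refine ⟨i, ?_⟩
        intro h0
        exact hi ((hc i M ψ x).symm.trans h0)
      ene := mul_ne_zero (pow_ne_zero _ (neg_ne_zero.2 one_ne_zero))
        (mul_ne_zero D.ene (Finset.prod_ne_zero_iff.2 fun l _ => hb l))
      wne := by
        unfold wd
        simp only [Matrix.cons_val_zero, Matrix.cons_val_one]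
        rw [mul_one, mul_zero, sub_zero]
        exact one_ne_zero
      mupos := fun _ => Nat.succ_pos d
      musum := by omega
      fac := by
        intro M _ ψ x
        have h1 : ev (fun j => ψ (c 0 j)) x = ψ D.e * ∏ l, wd (fun a => ψ (D.p l a))
            (fun a => ev (fun j => ψ (g a j)) x) :=
          (hc 0 M ψ x).trans (D.fac M ψ _)
        have h2 : ∀ l, wd (fun a => ψ (D.p l a)) (fun a => ev (fun j => ψ (g a j)) x) =
            ψ (b l) * (x 0 * x 1) := by
          intro l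
          unfold wd
          beta_reduce
          rw [hg M ψ x 0, hg M ψ x 1, hbp l 0, hbp l 1, map_mul, map_mul]
          linear_combination (ψ (b l) * (x 0 * x 1)) * hψw M ψ
        refine h1.trans ?_
        rw [Finset.prod_congr rfl fun l _ => h2 l, Finset.prod_mul_distrib, Finset.prod_const,
          Finset.card_univ, Fintype.card_fin, map_mul, map_mul, map_prod, map_pow, map_neg, map_one]
        have h3 : wd (fun a => ψ ((![![1, 0], ![0, 1]] : Fin 2 → Fin 2 → F) 0 a)) x = x 1 := by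
          unfold wd
          simp only [Matrix.cons_val_zero, Matrix.cons_val_one, map_one, map_zero]
          ring
        have h4 : wd (fun a => ψ ((![![1, 0], ![0, 1]] : Fin 2 → Fin 2 → F) 1 a)) x = -x 0 := by
          unfold wd
          simp only [Matrix.cons_val_zero, Matrix.cons_val_one, map_one, map_zero]
          ring
        rw [h3, h4, neg_pow (x 0), mul_pow]
        have h5 : ((-1 : M) ^ (d + 1)) * (-1) ^ (d + 1) = 1 := by
          rw [← mul_pow, neg_mul_neg, one_mul, one_pow]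
        linear_combination (-(ψ D.e * (∏ l, ψ (b l)) * (x 0 ^ (d + 1) * x 1 ^ (d + 1)))) * h5 }
  refine ⟨T, g, hgb, fun A _ ψ x i => hc i A ψ x, fun l => ⟨(b l ^ (d + 1))⁻¹,
    inv_ne_zero (pow_ne_zero _ (hb l)), fun i => ?_⟩⟩
  have h2 : D.pt (D.p l) i = b l ^ (d + 1) * ev (D.c i) p := by
    have h3 : D.p l = fun i => b l * p i := funext (hbp l)
    change ev (D.c i) (D.p l) = _
    rw [h3]
    exact ev_scale (b l) (D.c i) p
  have h4 : T.pt (T.p 0) i = ev (D.c i) p := by
    have h5 := hc i F (RingHom.id F) ![1, 0]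
    have h6 : (fun a => ev (fun j => RingHom.id F (g a j)) ![1, 0]) = p := by
      funext a
      rw [hg F (RingHom.id F) ![1, 0] a]
      simp only [Matrix.cons_val_zero, Matrix.cons_val_one, RingHom.id_apply]
      ring
    rw [h6] at h5
    exact h5
  rw [h4, h2, inv_mul_cancel_left₀ (pow_ne_zero _ (hb l))]

end Pool.Agent.Lib.MP_1e3e9c_agW
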