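import Mathlib
import Pool.Agent.Lib.MP_1e3e9c_agW.E8a
import Pool.Agent.Lib.MP_1e3e9c_agW.E8b

/-!
# MP_1e3e9c_ag, project W, E8: from `Dat` to `Two`
-/

set_option autoImplicit false

namespace Pool.Agent.Lib.MP_1e3e9c_agW

open Pool.Agent.Lib.MP_1e3e9c_agU

private theorem E8_wd_prop {F : Type} [Field F] {p q r : Fin 2 → F} (hq : q ≠ 0)
    (h1 : wd p q = 0) (h2 : wd q r = 0) : wd p r = 0 := by
  obtain ⟨b, hb⟩ := (wd_eq_zero_iff hq r).1 h2
  unfold wd at h1 ⊢
  rw [hb, hb]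
  linear_combination b * h1

private theorem E8_wd_comm {F : Type} [Field F] {p q : Fin 2 → F} (h : wd p q = 0) :
    wd q p = 0 := by
  unfold wd at h ⊢
  linear_combination -h

theorem exists_two {k F : Type} [Field k] [Field F] [CharZero F] {n d : ℕ}
    {S : Set (MvPolynomial (Fin (n + 1)) k)}
    {I : Ideal (MvPolynomial (Fin (n + 1) × Fin (d + 1 + 1)) k)} {φ : k →+* F} (D : Dat I φ)
    (hE : Eqs S φ D.c) (hf : D.few 2) :
    ∃ (d' : ℕ) (T : Two S φ d') (N : ℕ) (g : Fin (1 + 1) → Fin (N + 1) → F), BPF g ∧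
      (∀ (A : Type) [Field A] (ψ : F →+* A) (x : Fin 2 → A) (i : Fin (n + 1)),
        ev (fun j => ψ (T.c i j)) x =
          ev (fun j => ψ (D.c i j)) (fun a => ev (fun j => ψ (g a j)) x)) ∧
      ∀ l, ∃ a, Pr (D.pt (D.p l)) (T.pt (T.p a)) := by
  by_cases hone : ∀ l, wd (D.p l) (D.p 0) = 0
  · obtain ⟨T, g, hg, hc, hp⟩ := two_of_one D hE hone
    exact ⟨_, T, _, g, hg, hc, fun l => ⟨0, hp l⟩⟩
  push Not at hone
  obtain ⟨l₁, hl₁⟩ := hone
  obtain ⟨s, hs, hrep⟩ := hf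
  have h1 : wd (D.p 0) (D.p l₁) ≠ 0 := fun h => hl₁ (E8_wd_comm h)
  have h : ∀ l, wd (D.p l) (D.p 0) = 0 ∨ wd (D.p l) (D.p l₁) = 0 := by
    intro l
    by_contra hcon
    push Not at hcon
    obtain ⟨a, ha, ha'⟩ := hrep 0
    obtain ⟨b, hb, hb'⟩ := hrep l₁
    obtain ⟨c, hc, hc'⟩ := hrep l
    have hab : a ≠ b := by
      rintro rfl
      exact h1 (E8_wd_prop (D.pne a) ha' (E8_wd_comm hb'))
    have hca : c ≠ a := by
      rintro rfl
      exact hcon.1 (E8_wd_prop (D.pne c) hc' (E8_wd_comm ha'))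
    have hcb : c ≠ b := by
      rintro rfl
      exact hcon.2 (E8_wd_prop (D.pne c) hc' (E8_wd_comm hb'))
    have hsub : ({a, b, c} : Finset (Fin (d + 1))) ⊆ s := by
      intro x hx
      simp only [Finset.mem_insert, Finset.mem_singleton] at hx
      rcases hx with rfl | rfl | rfl
      · exact ha
      · exact hb
      · exact hc
    have hcard : ({a, b, c} : Finset (Fin (d + 1))).card = 3 :=
      Finset.card_eq_three.2 ⟨a, b, c, hab, hca.symm, hcb.symm, rfl⟩
    have := Finset.card_le_card hsub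
    omega
  obtain ⟨T, hT, hp⟩ := two_of_two D hE l₁ h1 h
  have hid : ∀ (A : Type) [Field A] (ψ : F →+* A) (x : Fin 2 → A) (a : Fin 2),
      ev (D := 1) (fun j => ψ ((fun (a : Fin (1 + 1)) (j : Fin (1 + 1)) =>
        if a = j then (1 : F) else 0) a j)) x = x a := by
    intro A _ ψ x a
    fin_cases a
    · simp [ev]
    · simp [ev]
  refine ⟨d, T, 1, fun a j => if a = j then 1 else 0, ?_, ?_, hp⟩
  · intro M _ ψ x hx
    by_contra hcon
    push Not at hcon
    apply hx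
    funext a
    rw [← hid M ψ x a]
    exact hcon a
  · intro A _ ψ x i
    rw [hT]
    congr 1
    funext a
    exact (hid A ψ x a).symm

end Pool.Agent.Lib.MP_1e3e9c_agW
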