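import Mathlib
import Pool.Agent.Lib.MP_1e3e9c_agU.FmC
import Pool.Agent.Lib.MP_1e3e9c_agW.Defs

/-!
# MP_1e3e9c_ag, project W, leaf A1: equations under base change, substitution, scaling, reduction

`eqs_map`: compose the homomorphisms. `eqs_act`: `act_map`, `ev_act` (over `M`). `eqs_smul`: `P` is
homogeneous of degree `m` (`hom`), so `P(a f) = a^m P(f)` (`ev_smul`; e.g. `MvPolynomial.IsHomogeneous.eval₂`
or expand the monomials). `eqs_res`: let `P ∈ S`, `A = MvPolynomial (Fin 2) V`, and `Q ∈ A` the value of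
`P` at the forms `∑_j C (c i j) * X 0^(D-j) * X 1^j` with coefficients in `V` (constants of `P` through
`φ.codRestrict`). The image of `Q` in `MvPolynomial (Fin 2) L` is zero, because its image in the field of
fractions `M` of this ring is `P(f(X 0, X 1))`, `= 0` by `hc` for `M` and `x = (X 0, X 1)`. The maps `V → L`,
`A → MvPolynomial (Fin 2) L → M` are injective: `Q = 0`. Map `A → M'` by the residue map, `ψ` and `X a ↦ x a`.
-/

set_option autoImplicit false

namespace Pool.Agent.Lib.MP_1e3e9c_agW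

open IsLocalRing Pool.Agent.Lib.MP_b197b4_ntK Pool.Agent.Lib.MP_1e3e9c_agU

variable {k L : Type} [Field k] [Field L] {n D : ℕ} {S : Set (MvPolynomial (Fin (n + 1)) k)}
  {φ : k →+* L}

theorem eqs_map {M : Type} [Field M] (ψ : L →+* M) {c : Fin (n + 1) → Fin (D + 1) → L}
    (hc : Eqs S φ c) : Eqs S (ψ.comp φ) (fun i j => ψ (c i j)) :=
  fun P hP M' _ ψ' x => hc P hP M' (ψ'.comp ψ) x

theorem eqs_act (g : Matrix (Fin 2) (Fin 2) L) {c : Fin (n + 1) → Fin (D + 1) → L}
    (hc : Eqs S φ c) : Eqs S φ (fun i => act g (c i)) := by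
  intro P hP M _ ψ x
  have h1 : (fun i => ev (fun j => ψ (act g (c i) j)) x) =
      fun i => ev (fun j => ψ (c i j)) ((g.map ψ).mulVec x) := by
    funext i
    rw [← ev_act]
    congr 1
    funext j
    exact act_map ψ g (c i) j
  rw [h1]
  exact hc P hP M ψ _

/-- The value of a homogeneous polynomial at a multiple of a vector. -/
private theorem A1_hom {σ R A : Type} [CommRing R] [CommRing A] (f : R →+* A) (P : MvPolynomial σ R)
    {m : ℕ} (hP : P.IsHomogeneous m) (b : A) (v : σ → A) :
    MvPolynomial.eval₂ f (fun i => b * v i) P = b ^ m * MvPolynomial.eval₂ f v P := by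
  rw [MvPolynomial.eval₂_eq, MvPolynomial.eval₂_eq, Finset.mul_sum]
  refine Finset.sum_congr rfl fun d hd => ?_
  have h1 : ∑ i ∈ d.support, d i = m := by
    have h2 := hP (MvPolynomial.mem_support_iff.1 hd)
    rw [← h2, Finsupp.weight_apply, Finsupp.sum]
    exact Finset.sum_congr rfl fun i _ => by simp
  have h3 : ∏ i ∈ d.support, (b * v i) ^ d i = b ^ m * ∏ i ∈ d.support, v i ^ d i := by
    rw [← h1, ← Finset.prod_pow_eq_pow_sum, ← Finset.prod_mul_distrib]
    exact Finset.prod_congr rfl fun i _ => mul_pow _ _ _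
  rw [h3]
  ring

theorem eqs_smul (hS : ∀ P ∈ S, ∃ m, P.IsHomogeneous m) (a : L)
    {c : Fin (n + 1) → Fin (D + 1) → L} (hc : Eqs S φ c) : Eqs S φ (fun i j => a * c i j) := by
  intro P hP M _ ψ x
  obtain ⟨m, hm⟩ := hS P hP
  have h1 : (fun i => ev (fun j => ψ (a * c i j)) x) =
      fun i => ψ a * ev (fun j => ψ (c i j)) x := by
    funext i
    rw [← ev_smul]
    congr 1
    funext j
    exact map_mul ψ a (c i j)
  rw [h1, A1_hom _ P hm, hc P hP M ψ x, mul_zero]

/-- The binary form with coefficients in a ring, as a polynomial. -/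
private noncomputable def A1_fm {A : Type} [CommRing A] (c : Fin (D + 1) → A) : MvPolynomial (Fin 2) A :=
  ∑ j : Fin (D + 1), MvPolynomial.C (c j) * MvPolynomial.X 0 ^ (D - (j : ℕ)) *
    MvPolynomial.X 1 ^ (j : ℕ)

private theorem A1_fm_eval {A M : Type} [CommRing A] [Field M] (f : A →+* M) (x : Fin 2 → M)
    (c : Fin (D + 1) → A) : MvPolynomial.eval₂Hom f x (A1_fm c) = ev (fun j => f (c j)) x := by
  unfold A1_fm ev
  rw [map_sum]
  refine Finset.sum_congr rfl fun j _ => ?_
  rw [map_mul, map_mul, map_pow, map_pow, MvPolynomial.coe_eval₂Hom, MvPolynomial.eval₂_C,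
    MvPolynomial.eval₂_X, MvPolynomial.eval₂_X]

private theorem A1_ev {k' A M : Type} [Field k'] [CommRing A] [Field M] (φ' : k' →+* A) (f : A →+* M)
    (x : Fin 2 → M) (c : Fin (n + 1) → Fin (D + 1) → A) (P : MvPolynomial (Fin (n + 1)) k') :
    MvPolynomial.eval₂Hom f x (MvPolynomial.eval₂ (MvPolynomial.C.comp φ') (fun i => A1_fm (c i)) P) =
      MvPolynomial.eval₂ (f.comp φ') (fun i => ev (fun j => f (c i j)) x) P := by
  rw [MvPolynomial.hom_eval₂]
  have h1 : (MvPolynomial.eval₂Hom f x).comp (MvPolynomial.C.comp φ') = f.comp φ' := by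
    refine RingHom.ext fun a => ?_
    rw [RingHom.comp_apply, RingHom.comp_apply, MvPolynomial.coe_eval₂Hom, MvPolynomial.eval₂_C,
      RingHom.comp_apply]
  have h2 : (fun i => MvPolynomial.eval₂Hom f x (A1_fm (c i))) =
      fun i => ev (fun j => f (c i j)) x := funext fun i => A1_fm_eval f x (c i)
  rw [h1, h2]

theorem eqs_res (V : ValuationSubring L) (hφ : ∀ a, φ a ∈ V) {c : Fin (n + 1) → Fin (D + 1) → L}
    (hc : Eqs S φ c) (hi : ∀ i j, c i j ∈ V) : Eqs S (resk φ V hφ) (fun i j => res V (c i j)) := by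
  intro P hP M' _ ψ x
  let φ' : k →+* V.toSubring := φ.codRestrict V.toSubring hφ
  let c' : Fin (n + 1) → Fin (D + 1) → V.toSubring := fun i j => ⟨c i j, hi i j⟩
  let R : MvPolynomial (Fin 2) V.toSubring :=
    MvPolynomial.eval₂ (MvPolynomial.C.comp φ') (fun i => A1_fm (c' i)) P
  have hR : R = 0 := by
    let M := FractionRing (MvPolynomial (Fin 2) L)
    let al : MvPolynomial (Fin 2) L →+* M := algebraMap (MvPolynomial (Fin 2) L) M
    have hal : Function.Injective al := IsFractionRing.injective (MvPolynomial (Fin 2) L) M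
    let ψM : L →+* M := al.comp MvPolynomial.C
    let y : Fin 2 → M := fun a => al (MvPolynomial.X a)
    have h1 := hc P hP M ψM y
    have h2 := A1_ev φ' (ψM.comp V.toSubring.subtype) y c' P
    have h3 : MvPolynomial.eval₂ ((ψM.comp V.toSubring.subtype).comp φ')
        (fun i => ev (fun j => (ψM.comp V.toSubring.subtype) (c' i j)) y) P = 0 := h1
    rw [h3] at h2
    have h4 : MvPolynomial.eval₂Hom (ψM.comp V.toSubring.subtype) y =
        al.comp (MvPolynomial.map V.toSubring.subtype) := by
      apply MvPolynomial.ringHom_ext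
      · intro r
        rw [MvPolynomial.coe_eval₂Hom, MvPolynomial.eval₂_C]
        exact congrArg al (MvPolynomial.map_C (σ := Fin 2) V.toSubring.subtype r).symm
      · intro a
        rw [MvPolynomial.coe_eval₂Hom, MvPolynomial.eval₂_X]
        exact congrArg al (MvPolynomial.map_X (σ := Fin 2) V.toSubring.subtype a).symm
    rw [h4] at h2
    have h5 : Function.Injective (al.comp (MvPolynomial.map (σ := Fin 2) V.toSubring.subtype)) :=
      hal.comp (MvPolynomial.map_injective _ Subtype.val_injective)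
    exact h5 (h2.trans (map_zero _).symm)
  have h6 := A1_ev φ' (ψ.comp (residue V)) x c' P
  have h7 : MvPolynomial.eval₂Hom (ψ.comp (residue V)) x R = 0 := by
    rw [hR, map_zero]
  have h8 := h6.symm.trans h7
  have h9 : (fun i => ev (fun j => ψ (res V (c i j))) x) =
      fun i => ev (fun j => (ψ.comp (residue V)) (c' i j)) x := by
    funext i
    congr 1
    funext j
    rw [res_of_mem (hi i j)]
    rfl
  rw [h9]
  exact h8

end Pool.Agent.Lib.MP_1e3e9c_agW
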