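import Mathlib
import Pool.Agent.Lib.MP_1e3e9c_agU.A3
import Pool.Agent.Lib.MP_1e3e9c_agU.A5
import Pool.Agent.Lib.MP_1e3e9c_agU.Vl
import Pool.Agent.Lib.MP_1e3e9c_agW.A1

/-!
# MP_1e3e9c_ag, project W, leaf A2: the reduction at one Gauss point

`exists_ram V b`: a finite extension `E`, `W`, ramification index `r` (`Abv F E V W r rh`) and `τ ∈ E`, `τ ≠ 0`
with `b ord W τ = r`. Let `λ = τ^a` (integer power): `b ord W λ = a r`. The tuple
`c' i j = λ^j c i j` is `act (diagonal 1 λ)` of `c` (or check `Eqs` directly: `eqs_map`, `eqs_act`). For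
`c i j ≠ 0`: `b ord W (c' i j) = r (b ord V (c i j) + j a)` (`Abv.ram`). If there is no index with `Jn` there is
nothing to prove. Otherwise let `j₀` be one and `i₀` with `ord V (c i₀ j₀) = al V (col c j₀)`,
`μ = c' i₀ j₀`: `ord W μ ≤ ord W (c' i j)` for all `i`, `j`. `c'' = μ⁻¹ c'` has coefficients in `W`; its
residues `r i j` satisfy `Eqs S` (`eqs_smul`, `eqs_res`). For `j` with `Jn`: some `r i j ≠ 0` and the vector
`r · j` is a nonzero multiple of `rh ∘ rd V (col c j)` (`rd V (col c j) i = res V (c i j / c i₁ j)` with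
`ord V (c i₁ j) = al`; `Abv.hom`: `rh (res V x) = res W x`). `r 0 j = 0` for all `j`: if `Jn` fails at `j` all
`r i j = 0`; if it holds, by `h0`. By `hS.nr` the minors of the columns `j`, `j'` of `r` vanish, so those of
`rd V (col c j)`, `rd V (col c j')` do (`rh` is injective); both vectors are nonzero (`rd_spec`, `rd_unique`
of leaf Vl of project U; `al_abv` of leaf A5 of project U): `Pr`.
-/

set_option autoImplicit false

namespace Pool.Agent.Lib.MP_1e3e9c_agW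

open IsLocalRing Pool.Agent.Lib.MP_b197b4_ntK Pool.Agent.Lib.MP_1e3e9c_agU

/-- If all 2x2 minors vanish two nonzero vectors are proportional. -/
theorem pr_of_minors {F ι : Type} [Field F] {z z' : ι → F} (hz : z ≠ 0) (hz' : z' ≠ 0)
    (h : ∀ i j, z i * z' j = z j * z' i) : Pr z z' := by
  obtain ⟨i, hi⟩ : ∃ i, z i ≠ 0 := by
    by_contra hcon
    push Not at hcon
    exact hz (funext hcon)
  have hi' : z' i ≠ 0 := by
    intro h0
    apply hz'
    funext j
    have h1 := h i j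
    rw [h0, mul_zero] at h1
    exact (mul_eq_zero.1 h1).resolve_left hi
  refine ⟨z' i / z i, div_ne_zero hi' hi, fun j => ?_⟩
  have h1 := h i j
  field_simp
  rw [mul_comm (z' j), h1, mul_comm]

private theorem A2_eqs {k F E : Type} [Field k] [Field F] [Field E] {n D : ℕ}
    {S : Set (MvPolynomial (Fin (n + 1)) k)} {φ : k →+* F} {c : Fin (n + 1) → Fin (D + 1) → F}
    (hc : Eqs S φ c) (ψ : F →+* E) (l : E) :
    Eqs S (ψ.comp φ) (fun i j => l ^ (j : ℕ) * ψ (c i j)) := by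
  intro P hP M _ χ x
  have h1 := hc P hP M (χ.comp ψ) ![x 0, χ l * x 1]
  have h2 : (fun i => ev (fun j => χ (l ^ (j : ℕ) * ψ (c i j))) x) =
      (fun i => ev (fun j => (χ.comp ψ) (c i j)) ![x 0, χ l * x 1]) := by
    funext i
    unfold ev
    refine Finset.sum_congr rfl fun j _ => ?_
    simp only [map_mul, map_pow, RingHom.comp_apply, Matrix.cons_val_zero, Matrix.cons_val_one,
      mul_pow]
    ring
  rw [h2]
  exact h1

private theorem A2_ord {F E : Type} [Field F] [Field E] [Algebra F E] {V : ValuationSubring F}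
    {W : ValuationSubring E} {r : ℕ} {rh : ResidueField V →+* ResidueField W}
    (h : Abv F E V W r rh) {τ : E} (hτ : τ ≠ 0) {b : ℤ} (hord : b * ord W τ = r) (a : ℤ) (j : ℕ)
    {x : F} (hx : x ≠ 0) :
    b * ord W ((τ ^ a) ^ j * algebraMap F E x) = r * (b * ord V x + (j : ℤ) * a) := by
  have hx' : algebraMap F E x ≠ 0 := fun h0 => hx ((map_eq_zero (algebraMap F E)).1 h0)
  have h1 : τ ^ a ≠ 0 := zpow_ne_zero a hτ
  rw [ord_mul h.dvr (pow_ne_zero j h1) hx', ord_pow h.dvr h1, ord_zpow h.dvr hτ, h.ram x hx]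
  linear_combination ((j : ℤ) * a) * hord

theorem gauss_pt {k F : Type} [Field k] [Field F] [CharZero F] {n D : ℕ}
    {S : Set (MvPolynomial (Fin (n + 1)) k)} {φ : k →+* F} (hS : NR S) {V : ValuationSubring F}
    (hV : IsDiscreteValuationRing V) (hφ : ∀ a, φ a ∈ V) {c : Fin (n + 1) → Fin (D + 1) → F}
    (hc : Eqs S φ c) (b a : ℤ) (hb : 0 < b) (h0 : Zr V c b a) (j j' : Fin (D + 1))
    (hj : Jn V c b a j) (hj' : Jn V c b a j') : Pr (rd V (col c j)) (rd V (col c j')) := by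
  obtain ⟨bn, rfl⟩ : ∃ bn : ℕ, b = (bn : ℤ) := ⟨b.toNat, (Int.toNat_of_nonneg hb.le).symm⟩
  obtain ⟨E, iE, aE, dE, W, r, rh, τ, habv, hτ, hord⟩ := exists_ram V hV bn (by exact_mod_cast hb)
  have hr : (0 : ℤ) < r := by exact_mod_cast habv.apos
  have hW := habv.dvr
  have hmem : ∀ x ∈ V, algebraMap F E x ∈ W := by
    intro x hx
    rw [← habv.com] at hx
    exact hx
  have hinj : ∀ {x : F}, x ≠ 0 → algebraMap F E x ≠ 0 :=
    fun hx h1 => hx ((map_eq_zero (algebraMap F E)).1 h1)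
  have hl : ∀ m : ℕ, (τ ^ a) ^ m ≠ 0 := fun m => pow_ne_zero m (zpow_ne_zero a hτ)
  obtain ⟨i₀, hi₀, hi₀'⟩ := exists_al (V := V) hj.1
  have hi₁ : c i₀ j ≠ 0 := hi₀
  obtain ⟨μ, hμ⟩ : ∃ μ : E, μ = (τ ^ a) ^ (j : ℕ) * algebraMap F E (c i₀ j) := ⟨_, rfl⟩
  have hμ0 : μ ≠ 0 := by
    rw [hμ]
    exact mul_ne_zero (hl _) (hinj hi₁)
  have hμord : (bn : ℤ) * ord W μ = r * ((bn : ℤ) * al V (col c j) + ((j : ℕ) : ℤ) * a) := by
    rw [hμ, A2_ord habv hτ hord a (j : ℕ) hi₁, ← hi₀']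
    rfl
  -- the scaled tuple
  have hE1 := eqs_smul (D := D) hS.hom μ⁻¹ (A2_eqs hc (algebraMap F E) (τ ^ a))
  have hcol : ∀ i l, c i l ≠ 0 → col c l ≠ 0 := fun i l h1 h2 => h1 (congrFun h2 i)
  have hle : ∀ i l, c i l ≠ 0 →
      (bn : ℤ) * al V (col c j) + ((j : ℕ) : ℤ) * a ≤ bn * ord V (c i l) + ((l : ℕ) : ℤ) * a := by
    intro i l hil
    have h1 := hj.2 l (hcol i l hil)
    have h2 : al V (col c l) ≤ ord V (c i l) := al_le (z := col c l) hil
    have h3 := mul_le_mul_of_nonneg_left h2 hb.le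
    omega
  have hord' : ∀ i l, c i l ≠ 0 →
      (bn : ℤ) * ord W (μ⁻¹ * ((τ ^ a) ^ (l : ℕ) * algebraMap F E (c i l))) =
        r * ((bn * ord V (c i l) + ((l : ℕ) : ℤ) * a) -
          (bn * al V (col c j) + ((j : ℕ) : ℤ) * a)) := by
    intro i l hil
    rw [ord_mul hW (inv_ne_zero hμ0) (mul_ne_zero (hl _) (hinj hil)), ord_inv hW hμ0, mul_add,
      A2_ord habv hτ hord a (l : ℕ) hil, mul_neg, hμord]
    ring
  have hne : ∀ i l, c i l ≠ 0 → μ⁻¹ * ((τ ^ a) ^ (l : ℕ) * algebraMap F E (c i l)) ≠ 0 :=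
    fun i l hil => mul_ne_zero (inv_ne_zero hμ0) (mul_ne_zero (hl _) (hinj hil))
  have hzero : ∀ i (l : Fin (D + 1)), c i l = 0 →
      μ⁻¹ * ((τ ^ a) ^ (l : ℕ) * algebraMap F E (c i l)) = 0 := by
    intro i l hil
    rw [hil, map_zero, mul_zero, mul_zero]
  have hW1 : ∀ i (l : Fin (D + 1)), μ⁻¹ * ((τ ^ a) ^ (l : ℕ) * algebraMap F E (c i l)) ∈ W := by
    intro i l
    by_cases hil : c i l = 0
    · rw [hzero i l hil]
      exact zero_mem W
    · rw [← ord_nonneg_iff hW (hne i l hil)]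
      have h1 := hord' i l hil
      have h2 := mul_nonneg hr.le (sub_nonneg.2 (hle i l hil))
      rw [← h1] at h2
      exact nonneg_of_mul_nonneg_right h2 hb
  have hE2 := eqs_res (φ := (algebraMap F E).comp φ) W (fun x => hmem _ (hφ x)) hE1 hW1
  -- the zeroth row
  have hrow : ∀ l : Fin (D + 1), res W (μ⁻¹ * ((τ ^ a) ^ (l : ℕ) * algebraMap F E (c 0 l))) = 0 := by
    intro l
    by_cases hil : c 0 l = 0
    · rw [hzero 0 l hil, res_zero]
    · rw [res_eq_zero_iff (hW1 0 l), ← ord_pos_iff hW (hne 0 l hil)]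
      have h2 : al V (col c l) ≤ ord V (c 0 l) := al_le (z := col c l) hil
      have h3 := mul_le_mul_of_nonneg_left h2 hb.le
      have hlt : (bn : ℤ) * al V (col c j) + ((j : ℕ) : ℤ) * a <
          bn * ord V (c 0 l) + ((l : ℕ) : ℤ) * a := by
        by_cases hJ : Jn V c bn a l
        · have h4 := h0 l hJ hil
          have h5 := hj.2 l hJ.1
          have h6 := mul_lt_mul_of_pos_left h4 hb
          omega
        · unfold Jn at hJ
          push Not at hJ
          obtain ⟨l', hl', hl''⟩ := hJ (hcol 0 l hil)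
          have h5 := hj.2 l' hl'
          omega
      have h1 := hord' 0 l hil
      have h7 := mul_pos hr (sub_pos.2 hlt)
      rw [← h1] at h7
      exact pos_of_mul_pos_right h7 hb.le
  have hmin := hS.nr (ResidueField W) _ D _ hE2 hrow
  -- the columns
  have hc1 : ∀ l, Jn V c bn a l → ∃ s : ResidueField W, s ≠ 0 ∧ ∀ i,
      res W (μ⁻¹ * ((τ ^ a) ^ (l : ℕ) * algebraMap F E (c i l))) = s * rh (rd V (col c l) i) := by
    intro l hJ
    obtain ⟨-, α, hα, hoα, hmα, hrα⟩ := rd_spec hV hJ.1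
    have hα' := hinj hα
    have hε0 : μ⁻¹ * ((τ ^ a) ^ (l : ℕ) * (algebraMap F E α)⁻¹) ≠ 0 :=
      mul_ne_zero (inv_ne_zero hμ0) (mul_ne_zero (hl _) (inv_ne_zero hα'))
    have hεo : ord W (μ⁻¹ * ((τ ^ a) ^ (l : ℕ) * (algebraMap F E α)⁻¹)) = 0 := by
      have h1 : (bn : ℤ) * ord W (μ⁻¹ * ((τ ^ a) ^ (l : ℕ) * (algebraMap F E α)⁻¹)) = 0 := by
        rw [← map_inv₀, ord_mul hW (inv_ne_zero hμ0) (mul_ne_zero (hl _) (hinj (inv_ne_zero hα))),
          ord_inv hW hμ0, mul_add, A2_ord habv hτ hord a (l : ℕ) (inv_ne_zero hα), mul_neg,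
          hμord, ord_inv hV hα, hoα]
        have h5 := hj.2 l hJ.1
        have h6 := hJ.2 j hj.1
        have h7 : (bn : ℤ) * al V (col c j) + ((j : ℕ) : ℤ) * a =
          bn * al V (col c l) + ((l : ℕ) : ℤ) * a := le_antisymm h5 h6
        rw [neg_neg, ← h7]
        ring
      exact (mul_eq_zero.1 h1).resolve_left hb.ne'
    have hεv := (ord_eq_zero_iff hW hε0).1 hεo
    have hεm : μ⁻¹ * ((τ ^ a) ^ (l : ℕ) * (algebraMap F E α)⁻¹) ∈ W :=
      (ord_nonneg_iff hW hε0).1 hεo.ge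
    refine ⟨_, (res_ne_zero_iff hεm).2 hεv, fun i => ?_⟩
    have hm1 : α * c i l ∈ V := hmα i
    rw [hrα i]
    show _ = _ * rh (res V (α * c i l))
    rw [habv.hom _ hm1, ← res_mul hεm (hmem _ hm1), map_mul]
    congr 1
    field_simp
  obtain ⟨s, hs, hs'⟩ := hc1 j hj
  obtain ⟨s', ht, ht'⟩ := hc1 j' hj'
  refine pr_of_minors (rd_spec hV hj.1).1 (rd_spec hV hj'.1).1 fun i i' => ?_
  apply rh.injective
  have h1 := hmin i i' j j'
  simp only [hs', ht'] at h1
  have h2 : s * s' ≠ 0 := mul_ne_zero hs ht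
  apply mul_left_cancel₀ h2
  rw [map_mul, map_mul]
  linear_combination h1

end Pool.Agent.Lib.MP_1e3e9c_agW
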