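import Mathlib

/-!
# MP_1e3e9c_ag, project W, leaf A3: the Newton polygon

Strong induction on the natural number `j`, for all `b`, `a`. If `j = 0` use `hR` (or reflexivity from it).
If `j > 0`: `T 0` holds, so the set of `i < j` with `T i` is not empty; choose such an `i` for which the
fraction `(α i - α j) / (j - i)` is minimal; put `b' = j - i > 0`, `a' = α i - α j` (so `a'/b'` is this
fraction). From `J b a j`: `b α j + j a ≤ b α i' + i' a` for all `i'`, i.e. `a/b ≤ (α i' - α j)/(j - i')` for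
`i' < j`; so `a/b ≤ a'/b'`, in particular `a' ≥ 0` (`b > 0`, `a ≥ 0`). `J b' a' j`: for `i' < j` by the minimal
choice; for `i' > j`: `α j - α i' ≤ (i' - j) a/b ≤ (i' - j) a'/b'`. `J b' a' i`: equality holds for `i`. So
`R i j` by `hR`, and `R 0 i` by induction (for `b'`, `a'`). Multiply out all fractions (or work in `ℚ`).
-/

set_option autoImplicit false

namespace Pool.Agent.Lib.MP_1e3e9c_agW

theorem newton {D : ℕ} (T : Fin (D + 1) → Prop) (α : Fin (D + 1) → ℤ)
    (R : Fin (D + 1) → Fin (D + 1) → Prop) (J : ℤ → ℤ → Fin (D + 1) → Prop)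
    (hJ : ∀ b a j, J b a j ↔ T j ∧ ∀ j', T j' →
      b * α j + ((j : ℕ) : ℤ) * a ≤ b * α j' + ((j' : ℕ) : ℤ) * a)
    (hT : T 0) (htr : ∀ i j l, R i j → R j l → R i l)
    (hR : ∀ b a, 0 < b → 0 ≤ a → ∀ j j', J b a j → J b a j' → R j j')
    (b a : ℤ) (hb : 0 < b) (ha : 0 ≤ a) (j : Fin (D + 1)) (hj : J b a j) : R 0 j := by
  classical
  have main : ∀ n : ℕ, ∀ j : Fin (D + 1), (j : ℕ) = n → ∀ b a : ℤ, 0 < b → 0 ≤ a → J b a j → R 0 j := by
    intro n
    induction n using Nat.strong_induction_on with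
    | _ n ih =>
      intro j hjn b a hb ha hj
      by_cases h0 : (j : ℕ) = 0
      · have hj0 : j = 0 := Fin.ext h0
        subst hj0
        exact hR b a hb ha 0 0 hj hj
      · have hjpos : 0 < (j : ℕ) := Nat.pos_of_ne_zero h0
        obtain ⟨hTj, hmin⟩ := (hJ b a j).1 hj
        obtain ⟨i, hi, himin⟩ := Finset.exists_min_image
          (Finset.univ.filter fun i : Fin (D + 1) => (i : ℕ) < (j : ℕ) ∧ T i)
          (fun i => ((α i - α j : ℤ) : ℚ) / (((j : ℕ) : ℚ) - ((i : ℕ) : ℚ)))
          ⟨0, Finset.mem_filter.2 ⟨Finset.mem_univ _, by simpa using hjpos, hT⟩⟩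
        obtain ⟨hij, hTi⟩ := (Finset.mem_filter.1 hi).2
        have hcross : ∀ i' : Fin (D + 1), (i' : ℕ) < (j : ℕ) → T i' →
            (α i - α j) * (((j : ℕ) : ℤ) - ((i' : ℕ) : ℤ)) ≤
              (α i' - α j) * (((j : ℕ) : ℤ) - ((i : ℕ) : ℤ)) := by
          intro i' hi' hTi'
          have h1 := himin i' (Finset.mem_filter.2 ⟨Finset.mem_univ _, hi', hTi'⟩)
          have e1 : (0 : ℚ) < ((j : ℕ) : ℚ) - ((i : ℕ) : ℚ) := by
            have : ((i : ℕ) : ℚ) < ((j : ℕ) : ℚ) := by exact_mod_cast hij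
            linarith
          have e2 : (0 : ℚ) < ((j : ℕ) : ℚ) - ((i' : ℕ) : ℚ) := by
            have : ((i' : ℕ) : ℚ) < ((j : ℕ) : ℚ) := by exact_mod_cast hi'
            linarith
          have h2 := (div_le_div_iff₀ e1 e2).1 h1
          exact_mod_cast h2
        have hb' : (0 : ℤ) < ((j : ℕ) : ℤ) - ((i : ℕ) : ℤ) := by
          have : ((i : ℕ) : ℤ) < ((j : ℕ) : ℤ) := by exact_mod_cast hij
          linarith
        have hslope : (((j : ℕ) : ℤ) - ((i : ℕ) : ℤ)) * a ≤ b * (α i - α j) := by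
          have h1 := hmin i hTi
          linarith
        have ha' : 0 ≤ α i - α j := by
          have h1 : 0 ≤ b * (α i - α j) := le_trans (mul_nonneg hb'.le ha) hslope
          exact nonneg_of_mul_nonneg_right h1 hb
        have hJj : J (((j : ℕ) : ℤ) - ((i : ℕ) : ℤ)) (α i - α j) j := by
          rw [hJ]
          refine ⟨hTj, fun j' hTj' => ?_⟩
          rcases lt_trichotomy (j' : ℕ) (j : ℕ) with hlt | heq | hgt
          · have h1 := hcross j' hlt hTj'
            linarith
          · have : j' = j := Fin.ext heq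
            rw [this]
          · have h1 := hmin j' hTj'
            have e1 : (0 : ℤ) ≤ ((j' : ℕ) : ℤ) - ((j : ℕ) : ℤ) := by
              have : ((j : ℕ) : ℤ) < ((j' : ℕ) : ℤ) := by exact_mod_cast hgt
              linarith
            have h2 : b * ((((j : ℕ) : ℤ) - ((i : ℕ) : ℤ)) * (α j - α j')) ≤
                b * ((((j' : ℕ) : ℤ) - ((j : ℕ) : ℤ)) * (α i - α j)) := by
              have h3 : b * (α j - α j') ≤ (((j' : ℕ) : ℤ) - ((j : ℕ) : ℤ)) * a := by linarith
              have h4 := mul_le_mul_of_nonneg_left h3 hb'.le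
              have h5 := mul_le_mul_of_nonneg_left hslope e1
              linarith
            have h6 := le_of_mul_le_mul_left h2 hb
            linarith
        have hJi : J (((j : ℕ) : ℤ) - ((i : ℕ) : ℤ)) (α i - α j) i := by
          rw [hJ]
          refine ⟨hTi, fun j' hTj' => ?_⟩
          have h1 := ((hJ _ _ _).1 hJj).2 j' hTj'
          linarith
        have h1 : R i j := hR _ _ hb' ha' i j hJi hJj
        have h2 : R 0 i := ih (i : ℕ) (hjn ▸ hij) i rfl _ _ hb' ha' hJi
        exact htr 0 i j h2 h1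
  exact main (j : ℕ) j rfl b a hb ha hj

end Pool.Agent.Lib.MP_1e3e9c_agW
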