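import Mathlib
import Pool.Agent.Lib.MP_1e3e9c_agW.A2
import Pool.Agent.Lib.MP_1e3e9c_agW.A3

/-!
# MP_1e3e9c_ag, project W, leaf A4: the chain; indices with minimal order

`chain`: `newton` for `T j = (col c j ≠ 0)`, `α j = al V (col c j)`, `R i j = Pr (rd V (col c i)) (rd V (col c j))`,
`J = Jn V c`, `gauss_pt`, `pr_trans`. `exists_jn`: a finite nonempty set has a minimum.
`jn_al`: for `(b, a) = (1, 0)` the index `j` has `al V (col c j) ≤ ord V (c i j')` for all `c i j' ≠ 0`.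
-/

set_option autoImplicit false

namespace Pool.Agent.Lib.MP_1e3e9c_agW

open IsLocalRing Pool.Agent.Lib.MP_b197b4_ntK Pool.Agent.Lib.MP_1e3e9c_agU

variable {k F : Type} [Field k] [Field F] {n D : ℕ}
  {S : Set (MvPolynomial (Fin (n + 1)) k)} {φ : k →+* F}

theorem exists_jn {V : ValuationSubring F} {c : Fin (n + 1) → Fin (D + 1) → F} (b a : ℤ)
    (h : c ≠ 0) : ∃ j, Jn V c b a j := by
  classical
  have h1 : ∃ j, col c j ≠ 0 := by
    by_contra h2
    push Not at h2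
    exact h (funext fun i => funext fun j => congrFun (h2 j) i)
  obtain ⟨j₀, hj₀⟩ := h1
  obtain ⟨j, hj, hmin⟩ := (Finset.univ.filter fun j : Fin (D + 1) => col c j ≠ 0).exists_min_image
    (fun j => b * al V (col c j) + ((j : ℕ) : ℤ) * a) ⟨j₀, Finset.mem_filter.2 ⟨Finset.mem_univ _, hj₀⟩⟩
  exact ⟨j, (Finset.mem_filter.1 hj).2, fun j' hj' =>
    hmin j' (Finset.mem_filter.2 ⟨Finset.mem_univ _, hj'⟩)⟩

theorem jn_al {V : ValuationSubring F} {c : Fin (n + 1) → Fin (D + 1) → F} {j : Fin (D + 1)}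
    (hj : Jn V c 1 0 j) (i : Fin (n + 1)) (j' : Fin (D + 1)) (h : c i j' ≠ 0) :
    al V (col c j) ≤ ord V (c i j') := by
  have h1 : col c j' ≠ 0 := fun h2 => h (congrFun h2 i)
  have h2 := hj.2 j' h1
  have h3 : al V (col c j') ≤ ord V (col c j' i) := al_le h
  have h4 : col c j' i = c i j' := rfl
  rw [h4] at h3
  linarith

theorem chain [CharZero F] (hS : NR S) {V : ValuationSubring F}
    (hV : IsDiscreteValuationRing V) (hφ : ∀ a, φ a ∈ V) {c : Fin (n + 1) → Fin (D + 1) → F}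
    (hc : Eqs S φ c) (h0 : col c 0 ≠ 0) (h : ∀ b a, 0 < b → 0 ≤ a → Zr V c b a)
    (j : Fin (D + 1)) (hj : Jn V c 1 0 j) : Pr (rd V (col c 0)) (rd V (col c j)) := by
  exact newton (fun j => col c j ≠ 0) (fun j => al V (col c j))
    (fun i j => Pr (rd V (col c i)) (rd V (col c j))) (fun b a j => Jn V c b a j)
    (fun b a j => Iff.rfl) h0 (fun i j l => pr_trans)
    (fun b a hb ha j j' hj hj' => gauss_pt hS hV hφ hc b a hb (h b a hb ha) j j' hj hj')
    1 0 one_pos le_rfl j hj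

end Pool.Agent.Lib.MP_1e3e9c_agW
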