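import Mathlib
import Pool.Agent.Lib.MP_1e3e9c_agW.A4

/-!
# MP_1e3e9c_ag, project W, leaf A5: unimodular substitutions

`unimod`: `g` has entries in `V` and determinant a unit of `V`. Let `j₀` with `Jn V c 1 0 j₀` (`exists_jn`) and
`μ = c i₀ j₀` of order `al V (col c j₀) =: m`, the minimum of the orders of all nonzero `c i j` (`jn_al`).
`μ⁻¹ c` is integral; residues `r i j`. For `j` with `Jn` the column `r · j` is a nonzero multiple of
`rd V (col c j)`, so by `h` a multiple of `z`; for the other `j` it is `0`. So `r i j = z i * t j`.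
`c' i = act g (c i)`; `μ⁻¹ c'` is integral (`act_smul`, `act_mem`) with residues `act (res g) (r i)` (`res_act`)
`= z i * act (res g) t` (`act_smul`), not all zero (`act_act`, `act_one`, `res g` is invertible). So the
minimum of the orders of the `c' i j` is `m` too; for `j` with `Jn V c' 1 0 j` the vector
`rd V (col c' j)` is proportional to the column `j` of the residues of `μ⁻¹ c'` (`al V (col c' j) = m`), which is a
nonzero multiple of `z`.
-/

set_option autoImplicit false

namespace Pool.Agent.Lib.MP_1e3e9c_agW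

open IsLocalRing Pool.Agent.Lib.MP_b197b4_ntK Pool.Agent.Lib.MP_1e3e9c_agU

/-- The indices where the order is minimal are those where the column of residues is not zero. -/
private theorem A5_ne {F : Type} [Field F] {n D : ℕ} {V : ValuationSubring F}
    (hV : IsDiscreteValuationRing V) {c : Fin (n + 1) → Fin (D + 1) → F} {a : F} (ha : a ≠ 0)
    (hm : ∀ i j, a * c i j ∈ V) (h0 : ∃ i j, res V (a * c i j) ≠ 0) {j : Fin (D + 1)}
    (hj : Jn V c 1 0 j) : ∃ i, res V (a * c i j) ≠ 0 := by
  obtain ⟨i0, j0, h0⟩ := h0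
  have h1 : a * c i0 j0 ≠ 0 := by
    intro h1
    rw [h1, res_zero] at h0
    exact h0 rfl
  have h2 : c i0 j0 ≠ 0 := right_ne_zero_of_mul h1
  have h3 : ord V (a * c i0 j0) = 0 := (ord_eq_zero_iff hV h1).2 ((res_ne_zero_iff (hm i0 j0)).1 h0)
  rw [ord_mul hV ha h2] at h3
  have h4 : col c j0 ≠ 0 := fun h4 => h2 (congrFun h4 i0)
  have h5 : al V (col c j0) ≤ ord V (c i0 j0) := al_le (z := col c j0) h2
  have h6 := hj.2 j0 h4
  obtain ⟨i, hi, e⟩ := exists_al (V := V) hj.1
  have hi' : c i j ≠ 0 := hi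
  have e' : ord V (c i j) = al V (col c j) := e
  refine ⟨i, ?_⟩
  have h7 : a * c i j ≠ 0 := mul_ne_zero ha hi'
  rw [res_ne_zero_iff (hm i j), ← ord_eq_zero_iff hV h7]
  have h8 : 0 ≤ ord V (a * c i j) := (ord_nonneg_iff hV h7).2 (hm i j)
  rw [ord_mul hV ha hi'] at h8 ⊢
  omega

private theorem A5_jn {F : Type} [Field F] {n D : ℕ} {V : ValuationSubring F}
    (hV : IsDiscreteValuationRing V) {c : Fin (n + 1) → Fin (D + 1) → F} {a : F} (ha : a ≠ 0)
    (hm : ∀ i j, a * c i j ∈ V) {j : Fin (D + 1)} (hj : ∃ i, res V (a * c i j) ≠ 0) :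
    Jn V c 1 0 j := by
  obtain ⟨i0, h0⟩ := hj
  have h1 : a * c i0 j ≠ 0 := by
    intro h1
    rw [h1, res_zero] at h0
    exact h0 rfl
  have h2 : c i0 j ≠ 0 := right_ne_zero_of_mul h1
  have h3 : ord V (a * c i0 j) = 0 := (ord_eq_zero_iff hV h1).2 ((res_ne_zero_iff (hm i0 j)).1 h0)
  rw [ord_mul hV ha h2] at h3
  have h5 : al V (col c j) ≤ ord V (c i0 j) := al_le (z := col c j) h2
  refine ⟨fun h4 => h2 (congrFun h4 i0), fun j' hj' => ?_⟩
  obtain ⟨i, hi, e⟩ := exists_al (V := V) hj'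
  have hi' : c i j' ≠ 0 := hi
  have e' : ord V (c i j') = al V (col c j') := e
  have h7 : a * c i j' ≠ 0 := mul_ne_zero ha hi'
  have h8 : 0 ≤ ord V (a * c i j') := (ord_nonneg_iff hV h7).2 (hm i j')
  rw [ord_mul hV ha hi'] at h8
  omega

private theorem A5_pr {F : Type} [Field F] {n D : ℕ} {V : ValuationSubring F}
    (hV : IsDiscreteValuationRing V) {c : Fin (n + 1) → Fin (D + 1) → F} {a : F} (ha : a ≠ 0)
    (hm : ∀ i j, a * c i j ∈ V) {j : Fin (D + 1)} (hj : ∃ i, res V (a * c i j) ≠ 0) :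
    Pr (rd V (col c j)) (fun i => res V (a * c i j)) :=
  rd_unique hV (z := col c j) (w := fun i => a * c i j) ha (fun _ => rfl) (fun i => hm i j) hj

private theorem A5_det {F : Type} [Field F] {V : ValuationSubring F}
    (hV : IsDiscreteValuationRing V) (g : Matrix (Fin 2) (Fin 2) F) (hg : ∀ a b, g a b ∈ V)
    (hd : g.det ≠ 0) (hd' : ord V g.det = 0) : (g.map (res V)).det ≠ 0 := by
  have h1 : V.valuation g.det = 1 := (ord_eq_zero_iff hV hd).1 hd'
  have h2 : (g.map (res V)).det = res V g.det := by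
    rw [Matrix.det_fin_two, Matrix.det_fin_two, res_sub (mul_mem (hg _ _) (hg _ _))
      (mul_mem (hg _ _) (hg _ _)), res_mul (hg _ _) (hg _ _), res_mul (hg _ _) (hg _ _)]
    rfl
  rw [h2]
  exact (res_ne_zero_iff (mem_of_val_one h1)).2 h1

theorem unimod {F : Type} [Field F] {n D : ℕ} {V : ValuationSubring F}
    (hV : IsDiscreteValuationRing V) {c : Fin (n + 1) → Fin (D + 1) → F}
    (g : Matrix (Fin 2) (Fin 2) F) (hg : ∀ a b, g a b ∈ V) (hd : g.det ≠ 0)
    (hd' : ord V g.det = 0) (z : Fin (n + 1) → ResidueField V)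
    (h : ∀ j, Jn V c 1 0 j → Pr z (rd V (col c j))) (j : Fin (D + 1))
    (hj : Jn V (fun i => act g (c i)) 1 0 j) :
    Pr z (rd V (col (fun i => act g (c i)) j)) := by
  have hc0 : c ≠ 0 := by
    intro hc0
    apply hj.1
    funext i
    show act g (c i) j = 0
    have h1 : c i = fun j => 0 * c i j := by
      funext j
      rw [zero_mul, hc0]
      rfl
    rw [h1, act_smul]
    exact zero_mul _
  obtain ⟨j0, hj0⟩ := exists_jn (V := V) 1 0 hc0
  obtain ⟨i0, hi0, e0⟩ := exists_al (V := V) hj0.1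
  have hi0' : c i0 j0 ≠ 0 := hi0
  have e0' : ord V (c i0 j0) = al V (col c j0) := e0
  obtain ⟨a, had⟩ : ∃ a, a = (c i0 j0)⁻¹ := ⟨_, rfl⟩
  have ha : a ≠ 0 := by
    rw [had]
    exact inv_ne_zero hi0'
  have hm : ∀ i j, a * c i j ∈ V := by
    intro i j
    rcases eq_or_ne (c i j) 0 with h1 | h1
    · rw [h1, mul_zero]
      exact zero_mem V
    · rw [← ord_nonneg_iff hV (mul_ne_zero ha h1), ord_mul hV ha h1, had, ord_inv hV hi0']
      have h2 := jn_al hj0 i j h1
      omega
  have hr0 : res V (a * c i0 j0) ≠ 0 := by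
    rw [had, inv_mul_cancel₀ hi0', res_one]
    exact one_ne_zero
  have ht : ∀ j, ∃ t : ResidueField V, ∀ i, res V (a * c i j) = t * z i := by
    intro j
    by_cases hj : ∃ i, res V (a * c i j) ≠ 0
    · obtain ⟨t, -, ht⟩ := pr_trans (h j (A5_jn hV ha hm hj)) (A5_pr hV ha hm hj)
      exact ⟨t, ht⟩
    · refine ⟨0, fun i => ?_⟩
      rw [zero_mul]
      by_contra h1
      exact hj ⟨i, h1⟩
  choose t ht using ht
  have hz0 : t j0 * z i0 ≠ 0 := by
    rw [← ht]
    exact hr0
  have hm' : ∀ i j, a * act g (c i) j ∈ V := by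
    intro i j
    have h1 := congrFun (act_smul a g (c i)) j
    have h2 : act g (fun j => a * c i j) j = a * act g (c i) j := h1
    rw [← h2]
    exact act_mem hg (fun j => hm i j) j
  have hr' : ∀ i j, res V (a * act g (c i) j) = z i * act (g.map (res V)) t j := by
    intro i j
    have h1 := congrFun (act_smul a g (c i)) j
    have h2 : act g (fun j => a * c i j) j = a * act g (c i) j := h1
    rw [← h2, res_act hg (fun j => hm i j)]
    have h3 : (fun j => res V (a * c i j)) = fun j => z i * t j := by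
      funext j
      rw [ht, mul_comm]
    rw [h3, act_smul]
  have hdet := A5_det hV g hg hd hd'
  have hs : ∃ j, act (g.map (res V)) t j ≠ 0 := by
    by_contra hs
    push Not at hs
    have h1 : act (g.map (res V)) t = fun j => 0 * t j := by
      funext j
      rw [hs j, zero_mul]
    have h2 : act (g.map (res V))⁻¹ (act (g.map (res V)) t) = t := by
      rw [act_act, Matrix.mul_nonsing_inv _ (isUnit_iff_ne_zero.2 hdet), act_one]
    rw [h1, act_smul] at h2
    have h3 := congrFun h2 j0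
    have h4 : (0 : ResidueField V) * act (g.map (res V))⁻¹ t j0 = t j0 := h3
    rw [zero_mul] at h4
    exact hz0 (by rw [← h4, zero_mul])
  obtain ⟨j1, hj1⟩ := hs
  have h0' : ∃ i j, res V (a * (fun i => act g (c i)) i j) ≠ 0 := by
    refine ⟨i0, j1, ?_⟩
    show res V (a * act g (c i0) j1) ≠ 0
    rw [hr']
    exact mul_ne_zero (right_ne_zero_of_mul hz0) hj1
  have h1 := A5_ne hV (c := fun i => act g (c i)) ha hm' h0' hj
  have h2 := A5_pr hV (c := fun i => act g (c i)) ha hm' h1
  obtain ⟨i, hi⟩ := h1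
  have hi' : res V (a * act g (c i) j) ≠ 0 := hi
  rw [hr'] at hi'
  refine pr_trans ⟨act (g.map (res V)) t j, right_ne_zero_of_mul hi', fun i => ?_⟩ (pr_symm h2)
  show res V (a * act g (c i) j) = _
  rw [hr', mul_comm]

end Pool.Agent.Lib.MP_1e3e9c_agW
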