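import Mathlib
import Pool.Agent.Lib.MP_1e3e9c_agW.A5

/-!
# MP_1e3e9c_ag, project W, leaf A6: a point near a path to a zero

`f_0 = ε x_0^(D-m) x_1^m` (`he`), `f(1,0) = col c 0`, `q = (1,1)`. Suppose the reductions at all Gauss points
`σ = a/b ≥ 0` are in `x_0 = 0` (`h`) and `al V (f(q)) < ord V ε`. Then `rd f(q) = rd f(1,0)`.
`chain` for `c`: `Pr (rd (col c 0)) (rd (col c j))` for `j` with `Jn V c 1 0 j`. Let
`g = !![1, 0; 1, 1]`, `c' i = act g (c i)`: `ev (c' i) x = ev (c i) (x_0, x_0 + x_1)`, so `col c' 0 = f(1,1)`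
(`ev` at `(1,0)` is the coefficient of index `0`). `c' 0 j`: `ev (c' 0) x = ε x_0^(D-m) (x_0+x_1)^m`, so
`c' 0 j = ε * (m choose j)` (`ev_ext`), so `ord V ε ≤ ord V (c' 0 j)` if this is not `0`. So
`Zr V c' b a` for all `b > 0`, `a ≥ 0`: if `Jn V c' b a j` and `c' 0 j ≠ 0` then
`b al (col c' j) ≤ b al (col c' j) + j a ≤ b al (col c' 0) < b ord ε ≤ b ord (c' 0 j)`. `chain` for `c'`
(`col c' 0 ≠ 0`: `hq`): `Pr (rd (f(1,1))) (rd (col c' j))` for `j` with `Jn V c' 1 0 j`; there is such a `j`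
(`exists_jn`), and `unimod` gives `Pr (rd (col c 0)) (rd (col c' j))`.
-/

set_option autoImplicit false

namespace Pool.Agent.Lib.MP_1e3e9c_agW

open IsLocalRing Pool.Agent.Lib.MP_b197b4_ntK Pool.Agent.Lib.MP_1e3e9c_agU

private theorem hf_ev0 {L : Type} [Field L] {D : ℕ} (c : Fin (D + 1) → L) :
    ev c ![1, 0] = c 0 := by
  unfold ev
  rw [Finset.sum_eq_single 0]
  · simp
  · intro b _ hb
    have h : (b : ℕ) ≠ 0 := fun h => hb (Fin.ext h)
    simp [h]
  · intro h; exact absurd (Finset.mem_univ _) h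

private theorem hf_act0 {L : Type} [Field L] {D : ℕ} (c : Fin (D + 1) → L) :
    act !![1, 0; 1, 1] c 0 = ev c ![1, 1] := by
  rw [← hf_ev0 (act _ c), ev_act]
  congr 1
  ext i
  fin_cases i <;> simp [Matrix.mulVec, dotProduct, Fin.sum_univ_two]

private theorem hf_coef {L : Type} [Field L] [Infinite L] {D : ℕ} (c : Fin (D + 1) → L)
    (m : Fin (D + 1)) (ε : L) (he : ∀ j, c j = if j = m then ε else 0) (j : Fin (D + 1)) :
    act !![1, 0; 1, 1] c j = ε * ((m : ℕ).choose (j : ℕ) : L) := by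
  have key : act !![1, 0; 1, 1] c = fun j : Fin (D + 1) => ε * ((m : ℕ).choose (j : ℕ) : L) := by
    apply ev_ext
    intro x
    rw [ev_act]
    have h0 : ((!![1, 0; 1, 1] : Matrix (Fin 2) (Fin 2) L).mulVec x) 0 = x 0 := by
      simp [Matrix.mulVec, dotProduct, Fin.sum_univ_two]
    have h1 : ((!![1, 0; 1, 1] : Matrix (Fin 2) (Fin 2) L).mulVec x) 1 = x 1 + x 0 := by
      simp [Matrix.mulVec, dotProduct, Fin.sum_univ_two, add_comm]
    have e1 : ev c ((!![1, 0; 1, 1] : Matrix (Fin 2) (Fin 2) L).mulVec x) =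
        ε * x 0 ^ (D - (m : ℕ)) * (x 1 + x 0) ^ (m : ℕ) := by
      unfold ev
      rw [Finset.sum_eq_single m]
      · rw [he m, if_pos rfl, h0, h1]
      · intro b _ hb
        rw [he b, if_neg hb]; ring
      · intro h; exact absurd (Finset.mem_univ _) h
    rw [e1]
    unfold ev
    have hm : (m : ℕ) ≤ D := Nat.lt_succ_iff.1 m.2
    have e2 : (∑ j : Fin (D + 1), ε * ((m : ℕ).choose (j : ℕ) : L) * x 0 ^ (D - (j : ℕ)) *
        x 1 ^ (j : ℕ)) = ∑ j ∈ Finset.range (D + 1), ε * ((m : ℕ).choose j : L) *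
          x 0 ^ (D - j) * x 1 ^ j :=
      (Finset.sum_range (fun j => ε * ((m : ℕ).choose j : L) * x 0 ^ (D - j) * x 1 ^ j)).symm
    rw [e2, add_pow, Finset.mul_sum]
    have e3 : (∑ j ∈ Finset.range (D + 1), ε * ((m : ℕ).choose j : L) *
          x 0 ^ (D - j) * x 1 ^ j) = ∑ j ∈ Finset.range ((m : ℕ) + 1),
            ε * ((m : ℕ).choose j : L) * x 0 ^ (D - j) * x 1 ^ j := by
      symm
      apply Finset.sum_subset
      · intro y hy
        rw [Finset.mem_range] at hy ⊢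
        omega
      · intro y _ hy
        rw [Finset.mem_range] at hy
        rw [Nat.choose_eq_zero_of_lt (by omega)]
        simp
    rw [e3]
    apply Finset.sum_congr rfl
    intro y hy
    rw [Finset.mem_range] at hy
    have e4 : D - y = (D - (m : ℕ)) + ((m : ℕ) - y) := by omega
    rw [e4, pow_add]
    ring
  rw [key]

theorem half {k F : Type} [Field k] [Field F] [CharZero F] {n D : ℕ}
    {S : Set (MvPolynomial (Fin (n + 1)) k)} {φ : k →+* F} (hS : NR S) {V : ValuationSubring F}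
    (hV : IsDiscreteValuationRing V) (hφ : ∀ a, φ a ∈ V) {c : Fin (n + 1) → Fin (D + 1) → F}
    (hc : Eqs S φ c) (h0 : col c 0 ≠ 0) (m : Fin (D + 1)) (ε : F) (hε : ε ≠ 0)
    (he : ∀ j, c 0 j = if j = m then ε else 0) (h : ∀ b a, 0 < b → 0 ≤ a → Zr V c b a)
    (hq : (fun i => ev (c i) ![1, 1]) ≠ 0)
    (hlt : al V (fun i => ev (c i) ![1, 1]) < ord V ε) :
    Pr (rd V (col c 0)) (rd V (fun i => ev (c i) ![1, 1])) := by
  have hg : ∀ a b, (!![1, 0; 1, 1] : Matrix (Fin 2) (Fin 2) F) a b ∈ V := by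
    intro a b
    fin_cases a <;> fin_cases b
    · exact V.one_mem
    · exact V.zero_mem
    · exact V.one_mem
    · exact V.one_mem
  have hdet : (!![1, 0; 1, 1] : Matrix (Fin 2) (Fin 2) F).det = 1 := by
    rw [Matrix.det_fin_two_of]; ring
  set g : Matrix (Fin 2) (Fin 2) F := !![1, 0; 1, 1] with hgdef
  set c' : Fin (n + 1) → Fin (D + 1) → F := fun i => act g (c i) with hc'
  have hcol0 : col c' 0 = fun i => ev (c i) ![1, 1] := by
    funext i
    exact hf_act0 (c i)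
  have hne0 : col c' 0 ≠ 0 := by rw [hcol0]; exact hq
  have hc0 : ∀ j : Fin (D + 1), c' 0 j = ε * ((m : ℕ).choose (j : ℕ) : F) :=
    fun j => hf_coef (c 0) m ε he j
  have hord : ∀ j : Fin (D + 1), c' 0 j ≠ 0 → ord V ε ≤ ord V (c' 0 j) := by
    intro j hj
    rw [hc0 j] at hj ⊢
    have hb : ((m : ℕ).choose (j : ℕ) : F) ≠ 0 := right_ne_zero_of_mul hj
    rw [ord_mul hV hε hb]
    have hmem : ((m : ℕ).choose (j : ℕ) : F) ∈ V := natCast_mem V _
    have := (ord_nonneg_iff hV hb).2 hmem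
    linarith
  have hZ : ∀ b a, 0 < b → 0 ≤ a → Zr V c' b a := by
    intro b a hb ha j hJ hj
    obtain ⟨_, hJ2⟩ := hJ
    have h1 := hJ2 0 hne0
    have h2 := hord j hj
    rw [hcol0] at h1
    have h3 : b * al V (fun i => ev (c i) ![1, 1]) < b * ord V ε := mul_lt_mul_of_pos_left hlt hb
    have h4 : b * ord V ε ≤ b * ord V (c' 0 j) := mul_le_mul_of_nonneg_left h2 hb.le
    have h5 : 0 ≤ ((j : ℕ) : ℤ) * a := mul_nonneg (Int.natCast_nonneg _) ha
    have h6 : ((((0 : Fin (D + 1)) : ℕ) : ℤ)) * a = 0 := by simp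
    rw [h6, add_zero] at h1
    have h7 : b * al V (col c' j) < b * ord V (c' 0 j) := by linarith
    exact lt_of_mul_lt_mul_left h7 hb.le
  have hEq : Eqs S φ c' := eqs_act g hc
  have hne : c' ≠ 0 := by
    intro hz
    apply hne0
    funext i
    show c' i 0 = 0
    rw [hz]; rfl
  obtain ⟨j, hj⟩ := exists_jn (V := V) (c := c') 1 0 hne
  have p1 : Pr (rd V (col c' 0)) (rd V (col c' j)) := chain hS hV hφ hEq hne0 hZ j hj
  have p2 : Pr (rd V (col c 0)) (rd V (col c' j)) := by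
    apply unimod hV g hg (by rw [hdet]; exact one_ne_zero)
      (by rw [hdet]; exact ord_one V hV) (rd V (col c 0)) _ j hj
    intro j' hj'
    exact chain hS hV hφ hc h0 h j' hj'
  rw [hcol0] at p1
  exact pr_trans p2 (pr_symm p1)

end Pool.Agent.Lib.MP_1e3e9c_agW
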