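import Mathlib
import Pool.Agent.Lib.MP_1e3e9c_agW.A6

/-!
# MP_1e3e9c_ag, project W, leaf A7: convexity; reversing the variables

`convex`: `f_0 = ε x_0^(D-m) x_1^m`. Let `α j = al V (col c j)`, `T j = (col c j ≠ 0)`, `w = ord V ε`. `Zr V c b a`
says: if `Jn V c b a m` then `α m < w` (only `c 0 m ≠ 0`); it holds if some `j` has
`b α j + j a < b w + m a` (then the minimum is smaller than `b w + m a`). Suppose `Zr V c b₁ a₁` fails for some
`b₁ > 0`, `a₁ ≥ 0` and `Zr V c b₂ a₂` for some `b₂ > 0`, `a₂ ≤ 0`. Then `T j` implies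
`b₁ w + m a₁ ≤ b₁ α j + j a₁` and `b₂ w + m a₂ ≤ b₂ α j + j a₂`; so `(m - j) a₁ ≤ b₁ (α j - w)`,
`(m - j) a₂ ≤ b₂ (α j - w)`; one of the left sides is `≥ 0`: `w ≤ α j` for all `j` with `T j`. But
`f(1,1) = ∑ j, col c j`, so `al V (f(1,1)) ≥ min α j ≥ w` (if it is not `0`): contradiction to `hlt`.
`reverse`: `act !![0, 1; 1, 0]` reverses the coefficients (`ev_ext`): `col c' j = col c (D - j)`, so
`Jn V c' b a j ↔ Jn V c b (-a) (D - j)` and `Zr V c' b a ↔ Zr V c b (-a)`.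
-/

set_option autoImplicit false

namespace Pool.Agent.Lib.MP_1e3e9c_agW

open IsLocalRing Pool.Agent.Lib.MP_b197b4_ntK Pool.Agent.Lib.MP_1e3e9c_agU

variable {k F : Type} [Field k] [Field F] {n D : ℕ}

theorem zr_of {V : ValuationSubring F} {c : Fin (n + 1) → Fin (D + 1) → F}
    {m : Fin (D + 1)} {ε : F} (he : ∀ j, c 0 j = if j = m then ε else 0)
    {b a : ℤ} (hb : 0 < b) (j : Fin (D + 1)) (hj : col c j ≠ 0)
    (h : b * al V (col c j) + ((j : ℕ) : ℤ) * a < b * ord V ε + ((m : ℕ) : ℤ) * a) :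
    Zr V c b a := by
  intro j' hJ h0
  have hm : j' = m := by
    by_contra hne
    rw [he, if_neg hne] at h0
    exact h0 rfl
  subst hm
  have e0 : c 0 j' = ε := by rw [he, if_pos rfl]
  rw [e0]
  have h1 := lt_of_le_of_lt (hJ.2 j hj) h
  have h2 : b * al V (col c j') < b * ord V ε := by linarith
  exact lt_of_mul_lt_mul_left h2 hb.le

theorem convex {V : ValuationSubring F} (hV : IsDiscreteValuationRing V)
    {c : Fin (n + 1) → Fin (D + 1) → F} (m : Fin (D + 1)) (ε : F) (hε : ε ≠ 0)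
    (he : ∀ j, c 0 j = if j = m then ε else 0)
    (hq : (fun i => ev (c i) ![1, 1]) ≠ 0)
    (hlt : al V (fun i => ev (c i) ![1, 1]) < ord V ε) :
    (∀ b a, 0 < b → 0 ≤ a → Zr V c b a) ∨ (∀ b a, 0 < b → a ≤ 0 → Zr V c b a) := by
  by_contra hcon
  rw [not_or] at hcon
  obtain ⟨hA, hB⟩ := hcon
  push Not at hA hB
  obtain ⟨b1, a1, hb1, ha1, h1⟩ := hA
  obtain ⟨b2, a2, hb2, ha2, h2⟩ := hB
  have key : ∀ j, col c j ≠ 0 → ord V ε ≤ al V (col c j) := by
    intro j hj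
    have e1 : b1 * ord V ε + ((m : ℕ) : ℤ) * a1 ≤ b1 * al V (col c j) + ((j : ℕ) : ℤ) * a1 := by
      by_contra hlt'
      exact h1 (zr_of he hb1 j hj (not_le.1 hlt'))
    have e2 : b2 * ord V ε + ((m : ℕ) : ℤ) * a2 ≤ b2 * al V (col c j) + ((j : ℕ) : ℤ) * a2 := by
      by_contra hlt'
      exact h2 (zr_of he hb2 j hj (not_le.1 hlt'))
    rcases le_total ((j : ℕ) : ℤ) ((m : ℕ) : ℤ) with hjm | hjm
    · have h3 : 0 ≤ (((m : ℕ) : ℤ) - ((j : ℕ) : ℤ)) * a1 := mul_nonneg (by linarith) ha1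
      have h4 : b1 * ord V ε ≤ b1 * al V (col c j) := by linarith
      exact le_of_mul_le_mul_left h4 hb1
    · have h3 : 0 ≤ (((m : ℕ) : ℤ) - ((j : ℕ) : ℤ)) * a2 :=
        mul_nonneg_of_nonpos_of_nonpos (by linarith) ha2
      have h4 : b2 * ord V ε ≤ b2 * al V (col c j) := by linarith
      exact le_of_mul_le_mul_left h4 hb2
  refine absurd hlt (not_lt.2 (le_al hq fun i hi => ?_))
  have e3 : ev (c i) ![1, 1] = ∑ j, c i j := by
    unfold ev
    refine Finset.sum_congr rfl fun j _ => ?_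
    simp
  simp only [e3] at hi ⊢
  refine le_ord_sum hV _ _ (fun j _ hj => ?_) hi
  have h5 : col c j ≠ 0 := fun h0 => hj (congrFun h0 i)
  exact (key j h5).trans (al_le (z := col c j) (j := i) hj)

theorem rev_apply [Infinite F] (c : Fin (D + 1) → F) (j : Fin (D + 1)) :
    act !![0, 1; 1, 0] c j = c (Fin.rev j) := by
  have h1 : act !![0, 1; 1, 0] c = fun j => c (Fin.rev j) := by
    refine ev_ext fun x => ?_
    rw [ev_act]
    have e0 : (!![0, 1; 1, 0] : Matrix (Fin 2) (Fin 2) F).mulVec x 0 = x 1 := by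
      simp [Matrix.mulVec, dotProduct, Fin.sum_univ_two]
    have e1 : (!![0, 1; 1, 0] : Matrix (Fin 2) (Fin 2) F).mulVec x 1 = x 0 := by
      simp [Matrix.mulVec, dotProduct, Fin.sum_univ_two]
    unfold ev
    rw [e0, e1, ← Equiv.sum_comp (Fin.revPerm (n := D + 1))]
    refine Finset.sum_congr rfl fun i _ => ?_
    have hi : (i : ℕ) ≤ D := Nat.lt_succ_iff.1 i.2
    have e2 : ((Fin.revPerm i : Fin (D + 1)) : ℕ) = D - (i : ℕ) := by
      rw [Fin.revPerm_apply, Fin.val_rev]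
      omega
    have e3 : D - (D - (i : ℕ)) = (i : ℕ) := by omega
    rw [e2, e3, Fin.revPerm_apply]
    ring
  rw [h1]

theorem zr_rev {V : ValuationSubring F} {c : Fin (n + 1) → Fin (D + 1) → F} {b a : ℤ} :
    Zr V (fun i j => c i (Fin.rev j)) b a ↔ Zr V c b (-a) := by
  have jn : ∀ (c : Fin (n + 1) → Fin (D + 1) → F) (a : ℤ) (j : Fin (D + 1)),
      Jn V (fun i j => c i (Fin.rev j)) b a j → Jn V c b (-a) (Fin.rev j) := by
    intro c a j hJ
    refine ⟨hJ.1, fun j' hj' => ?_⟩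
    have e1 : (((Fin.rev j : Fin (D + 1)) : ℕ) : ℤ) = (D : ℤ) - ((j : ℕ) : ℤ) := by
      have := Nat.lt_succ_iff.1 j.2
      rw [Fin.val_rev]
      omega
    have e2 : (((Fin.rev j' : Fin (D + 1)) : ℕ) : ℤ) = (D : ℤ) - ((j' : ℕ) : ℤ) := by
      have := Nat.lt_succ_iff.1 j'.2
      rw [Fin.val_rev]
      omega
    have e3 : col (fun i j => c i (Fin.rev j)) (Fin.rev j') = col c j' := by
      funext i
      show c i (Fin.rev (Fin.rev j')) = c i j'
      rw [Fin.rev_rev]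
    have h1 := hJ.2 (Fin.rev j') (by rw [e3]; exact hj')
    rw [e3, e2] at h1
    rw [e1]
    have h2 : b * al V (col c (Fin.rev j)) + ((j : ℕ) : ℤ) * a ≤
      b * al V (col c j') + ((D : ℤ) - ((j' : ℕ) : ℤ)) * a := h1
    linarith
  have zr : ∀ (c : Fin (n + 1) → Fin (D + 1) → F) (a : ℤ), Zr V c b (-a) →
      Zr V (fun i j => c i (Fin.rev j)) b a :=
    fun c a h j hJ h0 => h (Fin.rev j) (jn c a j hJ) h0
  refine ⟨fun h => ?_, zr c a⟩
  have h1 := zr (fun i j => c i (Fin.rev j)) (-a) (by rw [neg_neg]; exact h)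
  simpa only [Fin.rev_rev] using h1

end Pool.Agent.Lib.MP_1e3e9c_agW
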