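import Mathlib
import Pool.Agent.Lib.MP_1e3e9c_agW.A7

/-!
# MP_1e3e9c_ag, project W, leaf A8: the two local lemmas

Coordinates: for `α, β ≠ 0` let `g` be the matrix with columns `α p_0`, `β p_1`, `c' i = act g (T.c i)`. `ev_act`:
`ev (c' i) x = ev (T.c i) (x_0 α p_0 + x_1 β p_1)`: `col c' 0 = α^(d+1) pt (p 0)` (value at `(1,0)`, `ev_scale`),
`col c' (last) = β^(d+1) pt (p 1)` (value at `(0,1)`), and by `T.fac`
`ev (c' 0) x = e (β x_1 w)^(mu 0) (-α x_0 w)^(mu 1)`, `w = wd (p 0) (p 1)`: so `c' 0 j = ε` for `j = mu 0` and `0`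
otherwise (`ev_ext`), `ε = e (β w)^(mu 0) (-α w)^(mu 1)`, `ε ≠ 0` (`coord`).
`l2i`: `q` is a linear combination of `p 0`, `p 1` with coefficients `α`, `β` which are not zero (`wd`'s not
zero). So `f(q) = (ev (c' i) (1,1))`, `ev (T.c 0) q = ev (c' 0) (1,1) = ε`. `convex`: in the first case `half`
gives `Pr (rd (col c' 0)) (rd f(q))`, and `rd` of a multiple is the same up to `Pr`. In the second case apply
`half` to the reversed tuple `fun i j => c' i (Fin.rev j)` (`rev_apply`, `eqs_act`, `zr_rev`; its `f_0` has the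
coefficient `ε` at `Fin.rev (mu 0)`; its value at `(1,1)` is the same).
`l2ii`: `α = β = 1`: `ord ε = ord e + (d+1) ord w`, so
`CC = (d+1) ord ε - mu_1 al (col c' 0) - mu_0 al (col c' last)`, `d + 1 = mu_0 + mu_1`. For all `b > 0` and all `a`:
`Zr V c' b a`: by `zr_of` it is enough that
`b al (col c' 0) < b ord ε + mu_0 a` or `b al (col c' last) + (d+1) a < b ord ε + mu_0 a`; otherwise
`mu_1 b al (col c' 0) + mu_0 b al (col c' last) ≥ (d+1) b ord ε + (mu_1 mu_0 - mu_0 mu_1) a`: `b CC ≤ 0`. So `chain`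
for `c'` and for the reversed tuple; take `j` with `Jn V c' 1 0 j`: `rd (col c' 0)`, `rd (col c' j)`,
`rd (col c' last)` are proportional.
-/

set_option autoImplicit false

namespace Pool.Agent.Lib.MP_1e3e9c_agW

open IsLocalRing Pool.Agent.Lib.MP_b197b4_ntK Pool.Agent.Lib.MP_1e3e9c_agU

variable {k F : Type} [Field k] [Field F] [CharZero F] {n d : ℕ}
  {S : Set (MvPolynomial (Fin (n + 1)) k)} {φ : k →+* F}

private theorem A8_ev10 {L : Type} [Field L] {D : ℕ} (c : Fin (D + 1) → L) : ev c ![1, 0] = c 0 := by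
  unfold ev
  rw [Finset.sum_eq_single 0]
  · simp
  · intro j _ hj
    have : (j : ℕ) ≠ 0 := fun h => hj (Fin.ext h)
    simp [zero_pow this]
  · simp

private theorem A8_ev01 {L : Type} [Field L] {D : ℕ} (c : Fin (D + 1) → L) :
    ev c ![0, 1] = c (Fin.last D) := by
  unfold ev
  rw [Finset.sum_eq_single (Fin.last D)]
  · simp
  · intro j _ hj
    have h1 : (j : ℕ) ≠ D := fun h => hj (Fin.ext h)
    have h2 : D - (j : ℕ) ≠ 0 := by
      have := j.2
      omega
    simp [zero_pow h2]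
  · simp

private theorem A8_ev_ite {L : Type} [Field L] {D : ℕ} (m : Fin (D + 1)) (ε : L) (x : Fin 2 → L) :
    ev (fun j => if j = m then ε else 0) x = ε * x 0 ^ (D - (m : ℕ)) * x 1 ^ (m : ℕ) := by
  unfold ev
  rw [Finset.sum_eq_single m]
  · simp
  · intro j _ hj
    simp [hj]
  · simp

private theorem A8_fac {k F : Type} [Field k] [Field F] {n d : ℕ}
    {S : Set (MvPolynomial (Fin (n + 1)) k)} {φ : k →+* F} (T : Two S φ d) (x : Fin 2 → F) :
    ev (T.c 0) x = T.e * wd (T.p 0) x ^ T.mu 0 * wd (T.p 1) x ^ T.mu 1 := by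
  have h := T.fac F (RingHom.id F) x
  simpa only [RingHom.id_apply] using h

private theorem A8_ord_neg {F : Type} [Field F] {V : ValuationSubring F}
    (hV : IsDiscreteValuationRing V) {x : F} (hx : x ≠ 0) : ord V (-x) = ord V x := by
  have h1 : ord V (-x * -x) = ord V (-x) + ord V (-x) := ord_mul hV (neg_ne_zero.2 hx) (neg_ne_zero.2 hx)
  have h2 : ord V (x * x) = ord V x + ord V x := ord_mul hV hx hx
  rw [neg_mul_neg] at h1
  omega

theorem Two.pt_ne (T : Two S φ d) {q : Fin 2 → F} (hq : q ≠ 0) : T.pt q ≠ 0 := by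
  obtain ⟨i, hi⟩ := T.bpf.ev_ne hq
  intro h
  exact hi (congrFun h i)

theorem Two.p_ne (T : Two S φ d) (a : Fin 2) : T.p a ≠ 0 := by
  intro h
  apply T.wne
  unfold wd
  fin_cases a
  · have h' : T.p 0 = 0 := h
    rw [h']
    simp
  · have h' : T.p 1 = 0 := h
    rw [h']
    simp

/-- The reduction of a multiple. -/
theorem rd_mul {ι : Type} [Fintype ι] {V : ValuationSubring F} (hV : IsDiscreteValuationRing V)
    {z : ι → F} (hz : z ≠ 0) {a : F} (ha : a ≠ 0) : Pr (rd V z) (rd V fun i => a * z i) := by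
  have hz' : (fun i => a * z i) ≠ 0 := by
    intro h
    apply hz
    funext i
    have := congrFun h i
    simpa [ha] using this
  obtain ⟨h1, b, hb, hob, hbm, hbr⟩ := rd_spec hV hz'
  have h2 : rd V (fun i => a * z i) = fun j => res V (b * (a * z j)) := funext hbr
  rw [h2]
  apply rd_unique hV (a := b * a) (mul_ne_zero hb ha)
  · intro j
    rw [mul_assoc]
  · exact hbm
  · by_contra hcon
    push Not at hcon
    apply h1
    rw [h2]
    funext j
    exact hcon j

theorem Two.coord (T : Two S φ d) (α β : F) (hα : α ≠ 0) (hβ : β ≠ 0) :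
    ∃ (c' : Fin (n + 1) → Fin (d + 1 + 1) → F) (m : Fin (d + 1 + 1)) (ε : F),
      Eqs S φ c' ∧ (m : ℕ) = T.mu 0 ∧
      ε = T.e * (β * wd (T.p 0) (T.p 1)) ^ T.mu 0 * (-(α * wd (T.p 0) (T.p 1))) ^ T.mu 1 ∧
      (∀ j, c' 0 j = if j = m then ε else 0) ∧
      (∀ i x, ev (c' i) x = ev (T.c i) (fun a => x 0 * (α * T.p 0 a) + x 1 * (β * T.p 1 a))) ∧
      col c' 0 = (fun i => α ^ (d + 1) * T.pt (T.p 0) i) ∧
      col c' (Fin.last (d + 1)) = (fun i => β ^ (d + 1) * T.pt (T.p 1) i) := by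
  have hsum := T.musum
  have hev : ∀ i x, ev (act (Matrix.of fun a b => if b = 0 then α * T.p 0 a else β * T.p 1 a) (T.c i)) x
      = ev (T.c i) (fun a => x 0 * (α * T.p 0 a) + x 1 * (β * T.p 1 a)) := by
    intro i x
    rw [ev_act]
    refine congrArg (ev (T.c i)) ?_
    funext a
    simp only [Matrix.mulVec, dotProduct, Matrix.of_apply, Fin.sum_univ_two, if_true]
    rw [if_neg (by decide)]
    ring
  refine ⟨fun i => act (Matrix.of fun a b => if b = 0 then α * T.p 0 a else β * T.p 1 a) (T.c i),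
    ⟨T.mu 0, by omega⟩, T.e * (β * wd (T.p 0) (T.p 1)) ^ T.mu 0 * (-(α * wd (T.p 0) (T.p 1))) ^ T.mu 1,
    eqs_act _ T.eqs, rfl, rfl, ?_, hev, ?_, ?_⟩
  · intro j
    have h : act (Matrix.of fun a b => if b = 0 then α * T.p 0 a else β * T.p 1 a) (T.c 0)
        = fun j => if j = (⟨T.mu 0, by omega⟩ : Fin (d + 1 + 1)) then
          T.e * (β * wd (T.p 0) (T.p 1)) ^ T.mu 0 * (-(α * wd (T.p 0) (T.p 1))) ^ T.mu 1 else 0 := by
      apply ev_ext
      intro x
      rw [hev 0 x, A8_fac, A8_ev_ite]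
      have e0 : wd (T.p 0) (fun a => x 0 * (α * T.p 0 a) + x 1 * (β * T.p 1 a))
          = x 1 * (β * wd (T.p 0) (T.p 1)) := by
        unfold wd
        ring
      have e1 : wd (T.p 1) (fun a => x 0 * (α * T.p 0 a) + x 1 * (β * T.p 1 a))
          = x 0 * (-(α * wd (T.p 0) (T.p 1))) := by
        unfold wd
        ring
      have e2 : d + 1 - T.mu 0 = T.mu 1 := by omega
      rw [e0, e1, mul_pow (x 1), mul_pow (x 0)]
      show _ = _ * x 0 ^ (d + 1 - T.mu 0) * x 1 ^ (T.mu 0)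
      rw [e2]
      ring
    exact congrFun h j
  · funext i
    show act _ (T.c i) 0 = _
    rw [← A8_ev10 (act _ (T.c i)), hev i]
    have e : (fun a => (![1, 0] : Fin 2 → F) 0 * (α * T.p 0 a) + (![1, 0] : Fin 2 → F) 1 * (β * T.p 1 a))
        = fun a => α * T.p 0 a := by
      funext a
      simp
    rw [e, ev_scale]
    rfl
  · funext i
    show act _ (T.c i) (Fin.last (d + 1)) = _
    rw [← A8_ev01 (act _ (T.c i)), hev i]
    have e : (fun a => (![0, 1] : Fin 2 → F) 0 * (α * T.p 0 a) + (![0, 1] : Fin 2 → F) 1 * (β * T.p 1 a))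
        = fun a => β * T.p 1 a := by
      funext a
      simp
    rw [e, ev_scale]
    rfl

private theorem A8_rev_eqs {c : Fin (n + 1) → Fin (d + 1) → F} (hc : Eqs S φ c) :
    Eqs S φ (fun i j => c i (Fin.rev j)) := by
  have h : (fun i j => c i (Fin.rev j)) = fun i => act !![0, 1; 1, 0] (c i) := by
    funext i j
    rw [rev_apply]
  rw [h]
  exact eqs_act _ hc

private theorem A8_rev_ev (c : Fin (d + 1) → F) :
    ev (fun j => c (Fin.rev j)) ![1, 1] = ev c ![1, 1] := by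
  have h : (fun j => c (Fin.rev j)) = act !![0, 1; 1, 0] c := by
    funext j
    rw [rev_apply]
  rw [h, ev_act]
  refine congrArg (ev c) ?_
  funext a
  fin_cases a <;> simp [Matrix.mulVec, dotProduct, Fin.sum_univ_two]

private theorem A8_smul_ne {ι : Type} {z : ι → F} (hz : z ≠ 0) {a : F} (ha : a ≠ 0) :
    (fun i => a * z i) ≠ 0 := by
  intro h
  apply hz
  funext i
  have := congrFun h i
  simpa [ha] using this

theorem Two.l2i (hS : NR S) (T : Two S φ d) {V : ValuationSubring F}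
    (hV : IsDiscreteValuationRing V) (hφ : ∀ a, φ a ∈ V) {q : Fin 2 → F}
    (h0 : ev (T.c 0) q ≠ 0) (hlt : al V (T.pt q) < ord V (ev (T.c 0) q)) :
    ∃ a, Pr (rd V (T.pt q)) (rd V (T.pt (T.p a))) := by
  have hw := T.wne
  have hf := A8_fac T q
  have hmu0 := T.mupos 0
  have hmu1 := T.mupos 1
  have h1 : wd (T.p 0) q ≠ 0 := by
    intro h
    apply h0
    rw [hf, h, zero_pow (by omega)]
    ring
  have h2 : wd (T.p 1) q ≠ 0 := by
    intro h
    apply h0
    rw [hf, h, zero_pow (by omega)]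
    ring
  have hq0 : q ≠ 0 := by
    intro h
    apply h1
    rw [h]
    simp [wd]
  have hα : -(wd (T.p 1) q) / wd (T.p 0) (T.p 1) ≠ 0 := div_ne_zero (neg_ne_zero.2 h2) hw
  have hβ : wd (T.p 0) q / wd (T.p 0) (T.p 1) ≠ 0 := div_ne_zero h1 hw
  obtain ⟨c', m, ε, hE, hm, hεd, he, hev, hc0, hcD⟩ := T.coord _ _ hα hβ
  have hqq : (fun a => (![1, 1] : Fin 2 → F) 0 * (-(wd (T.p 1) q) / wd (T.p 0) (T.p 1) * T.p 0 a)
      + (![1, 1] : Fin 2 → F) 1 * (wd (T.p 0) q / wd (T.p 0) (T.p 1) * T.p 1 a)) = q := by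
    funext a
    have e : (-(wd (T.p 1) q)) * T.p 0 a + wd (T.p 0) q * T.p 1 a = q a * wd (T.p 0) (T.p 1) := by
      unfold wd
      fin_cases a
      · show (-(T.p 1 0 * q 1 - T.p 1 1 * q 0)) * T.p 0 0 + (T.p 0 0 * q 1 - T.p 0 1 * q 0) * T.p 1 0
          = q 0 * (T.p 0 0 * T.p 1 1 - T.p 0 1 * T.p 1 0)
        ring
      · show (-(T.p 1 0 * q 1 - T.p 1 1 * q 0)) * T.p 0 1 + (T.p 0 0 * q 1 - T.p 0 1 * q 0) * T.p 1 1
          = q 1 * (T.p 0 0 * T.p 1 1 - T.p 0 1 * T.p 1 0)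
        ring
    show (1 : F) * (-(wd (T.p 1) q) / wd (T.p 0) (T.p 1) * T.p 0 a)
      + (1 : F) * (wd (T.p 0) q / wd (T.p 0) (T.p 1) * T.p 1 a) = q a
    rw [one_mul, one_mul, div_mul_eq_mul_div, div_mul_eq_mul_div, ← add_div, e, mul_div_assoc,
      div_self hw, mul_one]
  have hpt : (fun i => ev (c' i) ![1, 1]) = T.pt q := by
    funext i
    rw [hev i, hqq]
    rfl
  have hεq : ε = ev (T.c 0) q := by
    have h3 : ev (c' 0) ![1, 1] = ev (T.c 0) q := by
      rw [hev 0, hqq]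
    rw [← h3, show c' 0 = fun j => if j = m then ε else 0 from funext he, A8_ev_ite]
    simp
  have hε : ε ≠ 0 := by rw [hεq]; exact h0
  have hq : (fun i => ev (c' i) ![1, 1]) ≠ 0 := by rw [hpt]; exact T.pt_ne hq0
  have hlt' : al V (fun i => ev (c' i) ![1, 1]) < ord V ε := by rw [hpt, hεq]; exact hlt
  have hc0ne : col c' 0 ≠ 0 := by
    rw [hc0]
    exact A8_smul_ne (T.pt_ne (T.p_ne 0)) (pow_ne_zero _ hα)
  have hcDne : col c' (Fin.last (d + 1)) ≠ 0 := by
    rw [hcD]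
    exact A8_smul_ne (T.pt_ne (T.p_ne 1)) (pow_ne_zero _ hβ)
  rcases convex hV m ε hε he hq hlt' with hc | hc
  · refine ⟨0, ?_⟩
    have h4 := half hS hV hφ hE hc0ne m ε hε he hc hq hlt'
    rw [hpt, hc0] at h4
    exact pr_symm (pr_trans (rd_mul hV (T.pt_ne (T.p_ne 0)) (pow_ne_zero _ hα)) h4)
  · refine ⟨1, ?_⟩
    have hrev1 : (fun i => ev ((fun i j => c' i (Fin.rev j)) i) ![1, 1]) = T.pt q := by
      rw [← hpt]
      funext i
      exact A8_rev_ev (c' i)
    have hcr : col (fun i j => c' i (Fin.rev j)) 0 = col c' (Fin.last (d + 1)) := by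
      funext i
      show c' i (Fin.rev 0) = c' i (Fin.last (d + 1))
      rw [Fin.rev_zero]
    have her : ∀ j, (fun i j => c' i (Fin.rev j)) 0 j = if j = Fin.rev m then ε else 0 := by
      intro j
      show c' 0 (Fin.rev j) = _
      rw [he (Fin.rev j)]
      refine if_congr ?_ rfl rfl
      exact Fin.rev_eq_iff
    have h4 := half hS hV hφ (A8_rev_eqs hE) (by rw [hcr]; exact hcDne) (Fin.rev m) ε hε her
      (fun b a hb ha => zr_rev.2 (hc b (-a) hb (by omega))) (by rw [hrev1]; exact T.pt_ne hq0)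
      (by rw [hrev1, hεq]; exact hlt)
    rw [hrev1, hcr, hcD] at h4
    exact pr_symm (pr_trans (rd_mul hV (T.pt_ne (T.p_ne 1)) (pow_ne_zero _ hβ)) h4)

theorem Two.l2ii (hS : NR S) (T : Two S φ d) {V : ValuationSubring F}
    (hV : IsDiscreteValuationRing V) (hφ : ∀ a, φ a ∈ V) (h : 0 < T.CC V) :
    Pr (rd V (T.pt (T.p 0))) (rd V (T.pt (T.p 1))) := by
  have hw := T.wne
  have hsum := T.musum
  obtain ⟨c', m, ε, hE, hm, hεd, he, hev, hc0, hcD⟩ := T.coord 1 1 one_ne_zero one_ne_zero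
  have hc0' : col c' 0 = T.pt (T.p 0) := by
    rw [hc0]
    funext i
    rw [one_pow, one_mul]
  have hcD' : col c' (Fin.last (d + 1)) = T.pt (T.p 1) := by
    rw [hcD]
    funext i
    rw [one_pow, one_mul]
  have hc0ne : col c' 0 ≠ 0 := by rw [hc0']; exact T.pt_ne (T.p_ne 0)
  have hcDne : col c' (Fin.last (d + 1)) ≠ 0 := by rw [hcD']; exact T.pt_ne (T.p_ne 1)
  have hordε : ord V ε = ord V T.e + ((d : ℤ) + 1) * ord V (wd (T.p 0) (T.p 1)) := by
    rw [hεd, one_mul, ord_mul hV (mul_ne_zero T.ene (pow_ne_zero _ hw))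
      (pow_ne_zero _ (neg_ne_zero.2 hw)), ord_mul hV T.ene (pow_ne_zero _ hw), ord_pow hV hw,
      ord_pow hV (neg_ne_zero.2 hw), A8_ord_neg hV hw]
    have e : (T.mu 0 : ℤ) + (T.mu 1 : ℤ) = (d : ℤ) + 1 := by exact_mod_cast hsum
    rw [← e]
    ring
  have hordE : ord V T.E = ((d : ℤ) + 1) * ord V ε := by
    unfold Two.E
    rw [ord_mul hV (pow_ne_zero _ T.ene) (pow_ne_zero _ hw), ord_pow hV T.ene, ord_pow hV hw, hordε]
    push_cast
    ring
  have hall : ∀ b a : ℤ, 0 < b → Zr V c' b a := by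
    intro b a hb
    by_cases h1 : b * al V (col c' 0) < b * ord V ε + (T.mu 0 : ℤ) * a
    · apply zr_of he hb 0 hc0ne
      rw [hm]
      simpa using h1
    by_cases h2 : b * al V (col c' (Fin.last (d + 1))) + ((d : ℤ) + 1) * a
        < b * ord V ε + (T.mu 0 : ℤ) * a
    · apply zr_of he hb (Fin.last (d + 1)) hcDne
      rw [hm]
      simpa using h2
    exfalso
    push Not at h1 h2
    unfold Two.CC at h
    rw [hordE, ← hc0', ← hcD'] at h
    have e : (T.mu 0 : ℤ) + (T.mu 1 : ℤ) = (d : ℤ) + 1 := by exact_mod_cast hsum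
    rw [← e] at h h2
    have hm0 : (0 : ℤ) ≤ T.mu 0 := Int.natCast_nonneg _
    have hm1 : (0 : ℤ) ≤ T.mu 1 := Int.natCast_nonneg _
    have h3 := mul_le_mul_of_nonneg_left h1 hm1
    have h4 := mul_le_mul_of_nonneg_left h2 hm0
    have h5 := mul_pos hb h
    nlinarith
  have hne : c' ≠ 0 := by
    intro h6
    apply hc0ne
    funext i
    show c' i 0 = 0
    rw [h6]
    rfl
  obtain ⟨j, hj⟩ := exists_jn (V := V) 1 0 hne
  have h7 := chain hS hV hφ hE hc0ne (fun b a hb _ => hall b a hb) j hj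
  have hcr : col (fun i j => c' i (Fin.rev j)) 0 = col c' (Fin.last (d + 1)) := by
    funext i
    show c' i (Fin.rev 0) = c' i (Fin.last (d + 1))
    rw [Fin.rev_zero]
  have hcrj : ∀ l, col (fun i j => c' i (Fin.rev j)) l = col c' (Fin.rev l) := fun l => rfl
  have hjr : Jn V (fun i j => c' i (Fin.rev j)) 1 0 (Fin.rev j) := by
    obtain ⟨hj1, hj2⟩ := hj
    refine ⟨?_, ?_⟩
    · rw [hcrj, Fin.rev_rev]
      exact hj1
    · intro l hl
      rw [hcrj] at hl
      have h8 := hj2 (Fin.rev l) hl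
      rw [hcrj, hcrj, Fin.rev_rev]
      simpa using h8
  have h9 := chain hS hV hφ (A8_rev_eqs hE) (by rw [hcr]; exact hcDne)
    (fun b a hb _ => zr_rev.2 (hall b (-a) hb)) (Fin.rev j) hjr
  rw [hcr, hcrj, Fin.rev_rev] at h9
  rw [hc0'] at h7
  rw [hcD'] at h9
  exact pr_trans h7 (pr_symm h9)

end Pool.Agent.Lib.MP_1e3e9c_agW
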