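import Mathlib
import Pool.Agent.Lib.MP_1e3e9c_agU.Vl
import Pool.Agent.Lib.MP_1e3e9c_agU.B3
import Pool.Agent.Lib.MP_1e3e9c_agU.C9
import Pool.Agent.Lib.MP_1e3e9c_agW.A8

/-!
# MP_1e3e9c_ag, project W, leaf B1: API of data

Compare leaf E1 of project U. `zz q` repeats the coordinates of `pt q` (every `i` is `σ 0` for some `σ`, since
`Fin (d+1)` is not empty), so `al`, `Con`, `ht` are the same; `rd_zz`: `rd_spec`, `rd_unique`. `al_z`: the
coordinates of `z` are `E` and the Segre products; by `al_segre` (leaf B3 of project U, `z l = pt (p (rho l))`) the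
minimum of the orders of the `some` coordinates is `∑_l al V (pt (p (rho l)))
= mu_1 al V (pt (p 0)) + mu_0 al V (pt (p 1))` (`mu_1` of the `l < d+1` are `< mu_1`, the other `mu_0` are not,
`musum`). So `al V z = min (ord V E) (..)` and `ord V E - min (ord V E) s = max 0 (ord V E - s)`.
`con_up'`: `con_up` of leaf C9.
-/

set_option autoImplicit false

namespace Pool.Agent.Lib.MP_1e3e9c_agW

open IsLocalRing Pool.Agent.Lib.MP_b197b4_ntK Pool.Agent.Lib.MP_1e3e9c_agU

variable {k F : Type} [Field k] [Field F] [CharZero F] {n d : ℕ}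
  {S : Set (MvPolynomial (Fin (n + 1)) k)} {φ : k →+* F}

section B1aux

variable {F : Type} [Field F]

private theorem B1_al_some {V : ValuationSubring F} {σ : Type} [Fintype σ] {w : σ → F}
    (hw : w ≠ 0) {E : F} (hE : E ≠ 0) {z : Option σ → F} (h0 : z none = E)
    (h1 : ∀ s, z (some s) = w s) : al V z = min (ord V E) (al V w) := by
  have hz : z ≠ 0 := by
    intro h
    apply hE
    rw [← h0, h]
    rfl
  apply le_antisymm
  · apply le_min
    · rw [← h0]
      exact al_le (z := z) (j := none) (by rw [h0]; exact hE)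
    · refine le_al hw fun s hs => ?_
      rw [← h1 s]
      exact al_le (z := z) (j := some s) (by rw [h1 s]; exact hs)
  · refine le_al hz fun j hj => ?_
    cases j with
    | none =>
      rw [h0]
      exact min_le_left _ _
    | some s =>
      rw [h1 s] at hj ⊢
      exact (min_le_right _ _).trans (al_le hj)

private theorem B1_sum {m m' d : ℕ} (h : m' + m = d + 1) (f : Fin 2 → ℤ) :
    ∑ l : Fin (d + 1), f (if (l : ℕ) < m then 0 else 1) = (m : ℤ) * f 0 + (m' : ℤ) * f 1 := by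
  have h0 : ∑ l : Fin (d + 1), f (if (l : ℕ) < m then 0 else 1) =
      ∑ l ∈ Finset.range (d + 1), f (if l < m then 0 else 1) :=
    Fin.sum_univ_eq_sum_range (fun l : ℕ => f (if l < m then 0 else 1)) (d + 1)
  have h1 : d + 1 = m + m' := by omega
  rw [h0, h1, Finset.sum_range_add]
  have h2 : ∑ x ∈ Finset.range m, f (if x < m then 0 else 1) = (m : ℤ) * f 0 := by
    rw [Finset.sum_congr rfl fun x hx => by
      show f (if x < m then 0 else 1) = f 0
      rw [if_pos (Finset.mem_range.1 hx)]]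
    rw [Finset.sum_const, Finset.card_range, nsmul_eq_mul]
  have h3 : ∑ x ∈ Finset.range m', f (if m + x < m then 0 else 1) = (m' : ℤ) * f 1 := by
    rw [Finset.sum_congr rfl fun x _ => by
      show f (if m + x < m then 0 else 1) = f 1
      rw [if_neg (by omega)]]
    rw [Finset.sum_const, Finset.card_range, nsmul_eq_mul]
  rw [h2, h3]

end B1aux

theorem Two.E_ne (T : Two S φ d) : T.E ≠ 0 := by
  exact mul_ne_zero (pow_ne_zero _ T.ene) (pow_ne_zero _ T.wne)

theorem Two.zz_ne (T : Two S φ d) {q : Fin 2 → F} (hq : q ≠ 0) : T.zz q ≠ 0 := by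
  intro h
  apply T.pt_ne hq
  funext i
  exact congrFun h (some fun _ => i)

theorem Two.z_ne (T : Two S φ d) : T.z ≠ 0 := by
  intro h
  exact T.E_ne (congrFun h none)

theorem Two.al_zz (T : Two S φ d) (V : ValuationSubring F) (q : Fin 2 → F) :
    al V (T.zz q) = al V (T.pt q) := by
  by_cases hz : T.pt q = 0
  · have h1 : T.zz q = 0 := by
      funext j
      cases j with
      | none => exact congrFun hz 0
      | some σ => exact congrFun hz (σ 0)
    rw [h1, hz, al_zero, al_zero]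
  · have h1 : T.zz q ≠ 0 := by
      intro h2
      apply hz
      funext i
      exact congrFun h2 (some fun _ => i)
    apply le_antisymm
    · refine le_al hz fun i hi => ?_
      exact al_le (z := T.zz q) (j := some fun _ => i) hi
    · refine le_al h1 fun j hj => ?_
      cases j with
      | none => exact al_le (z := T.pt q) (j := 0) hj
      | some σ => exact al_le (z := T.pt q) (j := σ 0) hj

theorem Two.al_z (T : Two S φ d) {V : ValuationSubring F} (hV : IsDiscreteValuationRing V) :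
    ord V T.E - al V T.z = max 0 (T.CC V) := by
  have hne : ∀ l, T.pt (T.p (T.rho l)) ≠ 0 := fun l => T.pt_ne (T.p_ne _)
  have h1 : al V (fun s : Fin (d + 1) → Fin (n + 1) => ∏ l, T.pt (T.p (T.rho l)) (s l)) =
      ∑ l, al V (T.pt (T.p (T.rho l))) := al_segre hV (fun l => T.pt (T.p (T.rho l))) hne
  have h2 : ∑ l, al V (T.pt (T.p (T.rho l))) =
      (T.mu 1 : ℤ) * al V (T.pt (T.p 0)) + (T.mu 0 : ℤ) * al V (T.pt (T.p 1)) :=
    B1_sum T.musum fun a => al V (T.pt (T.p a))
  have hw : (fun s : Fin (d + 1) → Fin (n + 1) => ∏ l, T.pt (T.p (T.rho l)) (s l)) ≠ 0 := by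
    have h : ∀ l, ∃ i, T.pt (T.p (T.rho l)) i ≠ 0 := fun l => Function.ne_iff.1 (hne l)
    choose f hf using h
    intro h0
    have h3 : ∏ l, T.pt (T.p (T.rho l)) (f l) = 0 := congrFun h0 f
    exact Finset.prod_ne_zero_iff.2 (fun l _ => hf l) h3
  have h3 : al V T.z = min (ord V T.E)
      (al V (fun s : Fin (d + 1) → Fin (n + 1) => ∏ l, T.pt (T.p (T.rho l)) (s l))) :=
    B1_al_some hw T.E_ne rfl fun s => rfl
  rw [h3, h1, h2]
  unfold Two.CC
  omega

theorem Two.pr_rd_zz (T : Two S φ d) {V : ValuationSubring F} (hV : IsDiscreteValuationRing V)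
    {q q' : Fin 2 → F} (hq : q ≠ 0) (hq' : q' ≠ 0) (h : Pr (rd V (T.pt q)) (rd V (T.pt q'))) :
    Pr (rd V (T.zz q)) (rd V (T.zz q')) := by
  have key : ∀ {q : Fin 2 → F}, q ≠ 0 → Pr (fun j : Option (Fin (d + 1) → Fin (n + 1)) =>
      rd V (T.pt q) (j.elim 0 fun σ => σ 0)) (rd V (T.zz q)) := by
    intro q hq
    obtain ⟨h0, a, ha, _, h2, h3⟩ := rd_spec hV (T.pt_ne hq)
    have hzz : ∀ j : Option (Fin (d + 1) → Fin (n + 1)),
        T.zz q j = T.pt q (j.elim 0 fun σ => σ 0) := by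
      intro j
      cases j with
      | none => rfl
      | some σ => rfl
    obtain ⟨j, hj⟩ : ∃ j, rd V (T.pt q) j ≠ 0 := Function.ne_iff.1 h0
    have h4 : Pr (rd V (T.zz q)) (fun j => res V (a * T.zz q j)) :=
      rd_unique hV ha (w := fun j => a * T.zz q j) (fun j => rfl)
        (fun j => by
          show a * T.zz q j ∈ V
          rw [hzz j]
          exact h2 _)
        ⟨some fun _ => j, by
          have h5 := h3 j
          rw [h5] at hj
          exact hj⟩
    have h5 : (fun j : Option (Fin (d + 1) → Fin (n + 1)) =>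
        rd V (T.pt q) (j.elim 0 fun σ => σ 0)) = fun j => res V (a * T.zz q j) := by
      funext j
      rw [hzz j]
      exact h3 _
    rw [h5]
    exact Pr.symm h4
  obtain ⟨a, ha, h1⟩ := h
  have h2 : Pr (fun j : Option (Fin (d + 1) → Fin (n + 1)) =>
      rd V (T.pt q) (j.elim 0 fun σ => σ 0)) (fun j : Option (Fin (d + 1) → Fin (n + 1)) =>
      rd V (T.pt q') (j.elim 0 fun σ => σ 0)) := ⟨a, ha, fun j => h1 _⟩
  exact Pr.trans (Pr.symm (key hq)) (Pr.trans h2 (key hq'))

theorem Two.pr_zz (T : Two S φ d) {q q' : Fin 2 → F} (h : Pr (T.pt q) (T.pt q')) :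
    Pr (T.zz q) (T.zz q') := by
  obtain ⟨a, ha, h1⟩ := h
  refine ⟨a, ha, fun j => ?_⟩
  cases j with
  | none => exact h1 0
  | some σ => exact h1 (σ 0)

theorem Two.pr_pt_of_wd (T : Two S φ d) {q q' : Fin 2 → F} (hq : q ≠ 0) (hq' : q' ≠ 0)
    (h : wd q q' = 0) : Pr (T.pt q) (T.pt q') := by
  obtain ⟨a, ha⟩ := (wd_eq_zero_iff hq q').1 h
  have ha0 : a ≠ 0 := by
    intro h0
    apply hq'
    funext i
    rw [ha i, h0, zero_mul]
    rfl
  refine ⟨a ^ (d + 1), pow_ne_zero _ ha0, fun i => ?_⟩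
  have h1 : q' = fun i => a * q i := funext ha
  show ev (T.c i) q' = a ^ (d + 1) * ev (T.c i) q
  rw [h1]
  exact ev_scale a (T.c i) q

/-- A zero of `f_0` is proportional to `p 0` or `p 1`. -/
theorem Two.wd_of_zero (T : Two S φ d) {q : Fin 2 → F} (h : ev (T.c 0) q = 0) :
    ∃ a, wd (T.p a) q = 0 := by
  have h1 : ev (T.c 0) q = T.e * wd (T.p 0) q ^ T.mu 0 * wd (T.p 1) q ^ T.mu 1 :=
    T.fac F (RingHom.id F) q
  rw [h] at h1
  rcases mul_eq_zero.1 h1.symm with h2 | h2
  · rcases mul_eq_zero.1 h2 with h3 | h3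
    · exact absurd h3 T.ene
    · exact ⟨0, eq_zero_of_pow_eq_zero h3⟩
  · exact ⟨1, eq_zero_of_pow_eq_zero h2⟩

theorem Two.zero_p (T : Two S φ d) (a : Fin 2) : ev (T.c 0) (T.p a) = 0 := by
  have h1 : ev (T.c 0) (T.p a) =
      T.e * wd (T.p 0) (T.p a) ^ T.mu 0 * wd (T.p 1) (T.p a) ^ T.mu 1 :=
    T.fac F (RingHom.id F) (T.p a)
  have h2 : wd (T.p a) (T.p a) = 0 := by
    unfold wd
    ring
  rw [h1]
  fin_cases a
  · show T.e * wd (T.p 0) (T.p 0) ^ T.mu 0 * wd (T.p 1) (T.p 0) ^ T.mu 1 = 0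
    have h3 : wd (T.p 0) (T.p 0) = 0 := h2
    rw [h3, zero_pow (T.mupos 0).ne', mul_zero, zero_mul]
  · show T.e * wd (T.p 0) (T.p 1) ^ T.mu 0 * wd (T.p 1) (T.p 1) ^ T.mu 1 = 0
    have h3 : wd (T.p 1) (T.p 1) = 0 := h2
    rw [h3, zero_pow (T.mupos 1).ne', mul_zero]

theorem Two.con_zz (T : Two S φ d) (K : Subfield F) (q : Fin 2 → F) :
    Con K (T.zz q) ↔ Con K (T.pt q) := by
  constructor
  · intro h i j hj
    exact h (some fun _ => i) (some fun _ => j) hj
  · intro h i j hj
    cases i with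
    | none =>
      cases j with
      | none => exact h 0 0 hj
      | some τ => exact h 0 (τ 0) hj
    | some σ =>
      cases j with
      | none => exact h (σ 0) 0 hj
      | some τ => exact h (σ 0) (τ 0) hj

theorem Two.ht_zz (T : Two S φ d) (K : Subfield F) (q : Fin 2 → F) :
    ht K (T.zz q) = ht K (T.pt q) := by
  unfold ht
  simp only [T.al_zz]

theorem Two.up_pt (T : Two S φ d) (Ω : Type) [Field Ω] [Algebra F Ω] (q : Fin 2 → F) :
    (T.up Ω).pt (fun a => algebraMap F Ω (q a)) = MP_1e3e9c_agU.up Ω (T.pt q) := by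
  funext i
  exact (ev_map (algebraMap F Ω) (T.c i) q).symm

theorem Two.up_zz (T : Two S φ d) (Ω : Type) [Field Ω] [Algebra F Ω] (q : Fin 2 → F) :
    (T.up Ω).zz (fun a => algebraMap F Ω (q a)) = MP_1e3e9c_agU.up Ω (T.zz q) := by
  funext j
  cases j with
  | none => exact congrFun (T.up_pt Ω q) 0
  | some σ => exact congrFun (T.up_pt Ω q) (σ 0)

theorem Two.up_z (T : Two S φ d) (Ω : Type) [Field Ω] [Algebra F Ω] :
    (T.up Ω).z = MP_1e3e9c_agU.up Ω T.z := by
  funext j
  cases j with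
  | none =>
    show algebraMap F Ω T.e ^ (d + 1) *
      wd (fun a => algebraMap F Ω (T.p 0 a)) (fun a => algebraMap F Ω (T.p 1 a)) ^ ((d + 1) ^ 2) =
      algebraMap F Ω (T.e ^ (d + 1) * wd (T.p 0) (T.p 1) ^ ((d + 1) ^ 2))
    simp only [wd, map_mul, map_pow, map_sub]
  | some σ =>
    show ∏ l, (T.up Ω).pt (fun a => algebraMap F Ω (T.p (T.rho l) a)) (σ l) =
      algebraMap F Ω (∏ l, T.pt (T.p (T.rho l)) (σ l))
    rw [map_prod]
    refine Finset.prod_congr rfl fun l _ => ?_
    exact congrFun (T.up_pt Ω (T.p (T.rho l))) (σ l)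

end Pool.Agent.Lib.MP_1e3e9c_agW
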