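import Mathlib
import Pool.Agent.Lib.MP_1e3e9c_agU.C10
import Pool.Agent.Lib.MP_1e3e9c_agW.B1

/-!
# MP_1e3e9c_ag, project W, leaf B2: the mixed degrees with `z` do not depend on the zeros

Let `L a b = zz (p a) :: zz (p b) :: l` (length `l.length + 2`, all entries `≠ 0`). `XX_ht_sum` for `T.z` and
`XR_prod` for `T.E`: `XX K (T.z :: L a b) = ∑_v XR K v (L a b) (ord v T.E - al v T.z)` (all sums are finite:
`XR_fin`, and as in leaf E3 of project U for the `al`; or write `al v z` as the order of a coordinate on a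
finite set) `= ∑_v XR K v (L a b) max 0 (CC v)` (`al_z`). If `0 < CC v` then `rd v (pt (p 0))`,
`rd v (pt (p 1))` are proportional (`Two.l2ii`; `v` contains `φ(k)` because it contains `K`), so by `pr_rd_zz`
the lists `(L a b).map (rd v)` and `(L 0 0).map (rd v)` are entrywise `Pr` and `XR K v (L a b) = XR K v (L 0 0)`
(`XX_pr`; the lengths agree). So the two sums have equal terms.
-/

set_option autoImplicit false

namespace Pool.Agent.Lib.MP_1e3e9c_agW

open IsLocalRing Pool.Agent.Lib.MP_b197b4_ntK Pool.Agent.Lib.MP_1e3e9c_agU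

private lemma B2_fs {α : Type} {P : α → Prop} (T : Finset α) (hT : ∀ v ∈ T, P v) (f : α → ℤ)
    (hf : ∀ v, P v → f v ≠ 0 → v ∈ T) : ∑ᶠ (v : α) (_ : P v), f v = ∑ v ∈ T, f v := by
  refine finsum_mem_eq_sum_of_inter_support_eq f (s := {v | P v}) (t := T) ?_
  ext v
  constructor
  · rintro ⟨h1, h2⟩
    exact ⟨hf v h1 h2, h2⟩
  · rintro ⟨h1, h2⟩
    exact ⟨hT v h1, h2⟩

private lemma B2_alfin {F ι : Type} [Field F] [CharZero F] [Fintype ι] {K : Subfield F}
    {κ : Type} [Fintype κ] (l : List (κ → F)) (hl : ∀ w ∈ l, w ≠ 0)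
    (hF : FF K (l.length + 1)) {z : ι → F} (hz : z ≠ 0) :
    {v : ValuationSubring F | Dv K v ∧ (XR K v l : ℤ) * al v z ≠ 0}.Finite := by
  have h1 : (⋃ j : ι, {v : ValuationSubring F | z j ≠ 0 ∧ Dv K v ∧
      (XR K v l : ℤ) * ord v (z j) ≠ 0}).Finite := by
    refine Set.finite_iUnion fun j => ?_
    by_cases hj : z j = 0
    · refine Set.Finite.subset (Set.finite_empty) ?_
      rintro v ⟨h, _⟩
      exact (h hj).elim
    · refine Set.Finite.subset (XR_fin l hl hF hj) ?_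
      rintro v ⟨_, h⟩
      exact h
  refine h1.subset ?_
  rintro v ⟨hv, h⟩
  obtain ⟨j, hj, hj'⟩ := exists_al (V := v) hz
  rw [← hj'] at h
  exact Set.mem_iUnion.2 ⟨j, hj, hv, h⟩

private lemma B2_sum {k F : Type} [Field k] [Field F] [CharZero F] {n d : ℕ}
    {S : Set (MvPolynomial (Fin (n + 1)) k)} {φ : k →+* F} (T : Two S φ d) {K : Subfield F}
    (L : List (Option (Fin (d + 1) → Fin (n + 1)) → F)) (hL : ∀ w ∈ L, w ≠ 0)
    (hF : FF K (L.length + 1)) :
    (XX K (T.z :: L) : ℤ) =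
      ∑ᶠ (v : ValuationSubring F) (_ : Dv K v), (XR K v L : ℤ) * max 0 (T.CC v) := by
  classical
  have f1 := XR_fin L hL hF T.E_ne
  have f2 := B2_alfin (K := K) L hL hF T.z_ne
  let R : Finset (ValuationSubring F) := f1.toFinset ∪ f2.toFinset
  have hR : ∀ v ∈ R, Dv K v := by
    intro v hv
    simp only [R, Finset.mem_union, Set.Finite.mem_toFinset] at hv
    rcases hv with hv | hv
    · exact hv.1
    · exact hv.1
  have s1 : ∑ v ∈ R, (XR K v L : ℤ) * ord v T.E = 0 := by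
    rw [← B2_fs R hR (fun v => (XR K v L : ℤ) * ord v T.E) fun v hv hn => ?_]
    · exact XR_prod L hL hF T.E_ne
    · simp only [R, Finset.mem_union, Set.Finite.mem_toFinset]
      exact Or.inl ⟨hv, hn⟩
  have s2 : (XX K (T.z :: L) : ℤ) = -∑ v ∈ R, (XR K v L : ℤ) * al v T.z := by
    rw [XX_ht_sum L hL hF T.z_ne]
    rw [B2_fs R hR (fun v => (XR K v L : ℤ) * al v T.z) fun v hv hn => ?_]
    simp only [R, Finset.mem_union, Set.Finite.mem_toFinset]
    exact Or.inr ⟨hv, hn⟩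
  have e0 : ∀ v, Dv K v → (XR K v L : ℤ) * max 0 (T.CC v) =
      (XR K v L : ℤ) * ord v T.E - (XR K v L : ℤ) * al v T.z := by
    intro v hv
    rw [← T.al_z hv.1]
    ring
  have s0 : ∑ᶠ (v : ValuationSubring F) (_ : Dv K v), (XR K v L : ℤ) * max 0 (T.CC v) =
      ∑ v ∈ R, (XR K v L : ℤ) * max 0 (T.CC v) := by
    refine B2_fs R hR _ fun v hv hn => ?_
    by_contra hc
    simp only [R, Finset.mem_union, Set.Finite.mem_toFinset, Set.mem_ofPred_eq, not_or, not_and, not_not] at hc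
    apply hn
    show (XR K v L : ℤ) * max 0 (T.CC v) = 0
    rw [e0 v hv, hc.1 hv, hc.2 hv, sub_zero]
  rw [s0, Finset.sum_congr rfl fun v hv => e0 v (hR v hv), Finset.sum_sub_distrib, s1, s2]
  ring

theorem Two.XX_indep {k F : Type} [Field k] [Field F] [CharZero F] {n d : ℕ}
    {S : Set (MvPolynomial (Fin (n + 1)) k)} {φ : k →+* F} (hS : NR S) (T : Two S φ d)
    {K : Subfield F} (hφ : ∀ a, φ a ∈ K) (l : List (Option (Fin (d + 1) → Fin (n + 1)) → F))
    (hl : ∀ w ∈ l, w ≠ 0) (hF : FF K (l.length + 3)) (a b : Fin 2) :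
    XX K (T.z :: T.zz (T.p a) :: T.zz (T.p b) :: l) =
      XX K (T.z :: T.zz (T.p 0) :: T.zz (T.p 0) :: l) := by
  have hL : ∀ a b : Fin 2, ∀ w ∈ T.zz (T.p a) :: T.zz (T.p b) :: l, w ≠ 0 := by
    intro a b w hw
    rcases List.mem_cons.1 hw with hw | hw
    · rw [hw]
      exact T.zz_ne (T.p_ne a)
    · rcases List.mem_cons.1 hw with hw | hw
      · rw [hw]
        exact T.zz_ne (T.p_ne b)
      · exact hl w hw
  have h1 := B2_sum T (K := K) (T.zz (T.p a) :: T.zz (T.p b) :: l) (hL a b) hF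
  have h2 := B2_sum T (K := K) (T.zz (T.p 0) :: T.zz (T.p 0) :: l) (hL 0 0) hF
  have h3 : ∑ᶠ (v : ValuationSubring F) (_ : Dv K v),
      (XR K v (T.zz (T.p a) :: T.zz (T.p b) :: l) : ℤ) * max 0 (T.CC v) =
      ∑ᶠ (v : ValuationSubring F) (_ : Dv K v),
      (XR K v (T.zz (T.p 0) :: T.zz (T.p 0) :: l) : ℤ) * max 0 (T.CC v) := by
    refine finsum_congr fun v => finsum_congr fun hv => ?_
    rcases le_or_gt (T.CC v) 0 with h4 | h4
    · rw [max_eq_left h4, mul_zero, mul_zero]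
    · have h5 : Pr (rd v (T.pt (T.p 0))) (rd v (T.pt (T.p 1))) :=
        T.l2ii hS hv.1 (fun x => hv.2 _ (hφ x)) h4
      have h6 : ∀ c : Fin 2, Pr (rd v (T.pt (T.p c))) (rd v (T.pt (T.p 0))) := by
        intro c
        fin_cases c
        · exact pr_refl _
        · exact pr_symm h5
      have h7 : ∀ c : Fin 2, Pr (rd v (T.zz (T.p c))) (rd v (T.zz (T.p 0))) := fun c =>
        T.pr_rd_zz hv.1 (T.p_ne c) (T.p_ne 0) (h6 c)
      have h8 : XR K v (T.zz (T.p a) :: T.zz (T.p b) :: l) =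
          XR K v (T.zz (T.p 0) :: T.zz (T.p 0) :: l) := by
        unfold XR
        rw [List.map_cons, List.map_cons, List.map_cons, List.map_cons, List.length_cons,
          List.length_cons, List.length_cons, List.length_cons,
          XX_pr (resS K v) (List.Forall₂.cons (h7 a) (List.Forall₂.cons (h7 b)
            (List.forall₂_same.2 fun w _ => pr_refl w)))]
      rw [h8]
  rw [h3, ← h2] at h1
  exact_mod_cast h1

end Pool.Agent.Lib.MP_1e3e9c_agW
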