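import Mathlib
import Pool.Agent.Lib.MP_1e3e9c_agW.B1

/-!
# MP_1e3e9c_ag, project W, leaf B3: big points

`big_zz`: `zz` has the same coordinates as `pt`. `big_z`: let `i, j` with `pt (p 0) j ≠ 0`. `rho 0 = 0` because
`mu 1 > 0`. Choose `σ` with `σ 0 = j` and `pt (p (rho l)) (σ l) ≠ 0` for all `l`, and `σ' = Function.update σ 0 i`:
`z (some σ') / z (some σ) = pt (p 0) i / pt (p 0) j`. So the field generated by the quotients of `pt (p 0)` is
contained in that of `z`. `big_mono`: larger field. `big_gen`: `Ω = F(C)`, the field generated over `K(C)` (and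
more) by the quotients of `up Ω w`: every element of `F` is algebraic over it, the `C` are in it, so `Ω` is
algebraic over it (a field generated by algebraic elements is algebraic: `algebraicClosure` as an intermediate
field; `hC.2`). `big_fin`: `E/F` is algebraic; transitivity.
-/

set_option autoImplicit false

namespace Pool.Agent.Lib.MP_1e3e9c_agW

open IsLocalRing Pool.Agent.Lib.MP_b197b4_ntK Pool.Agent.Lib.MP_1e3e9c_agU

section

variable {F ι : Type} [Field F] {K : Subfield F}

private theorem B3_map {Ω : Type} [Field Ω] {L : Subfield F} {L' : Subfield Ω} (f : F →+* Ω)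
    (h : ∀ a ∈ L, f a ∈ L') {x : F} (hx : IsAlgebraic L x) : IsAlgebraic L' (f x) := by
  obtain ⟨p, hp, hx⟩ := hx
  let g : L →+* L' := (f.comp L.subtype).codRestrict L' (fun a => h a.1 a.2)
  refine ⟨p.map g, (Polynomial.map_ne_zero_iff g.injective).2 hp, ?_⟩
  rw [Polynomial.aeval_def, Polynomial.eval₂_map]
  rw [Polynomial.aeval_def] at hx
  have h1 : (algebraMap L' Ω).comp g = f.comp (algebraMap L F) := rfl
  rw [h1, ← Polynomial.hom_eval₂, hx, map_zero]

private theorem B3_cl {Ω : Type} [Field Ω] {s : Set F} {L' : Subfield Ω} (f : F →+* Ω)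
    (h : ∀ a ∈ s, f a ∈ L') : ∀ a ∈ Subfield.closure s, f a ∈ L' := by
  intro a ha
  have h1 : Subfield.closure s ≤ L'.comap f := (Subfield.closure_le).2 (fun b hb => h b hb)
  exact h1 ha

private theorem B3_img {Ω : Type} [Field Ω] [Algebra F Ω] {w : ι → F} (K' : Subfield Ω)
    (h1 : ∀ a ∈ K, algebraMap F Ω a ∈ K') {y : F}
    (hy : IsAlgebraic (Subfield.closure ((K : Set F) ∪ {y | ∃ i j, w j ≠ 0 ∧ y = w i / w j})) y) :
    IsAlgebraic (Subfield.closure
      ((K' : Set Ω) ∪ {y | ∃ i j, up Ω w j ≠ 0 ∧ y = up Ω w i / up Ω w j}))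
      (algebraMap F Ω y) := by
  refine B3_map (algebraMap F Ω) (B3_cl (algebraMap F Ω) ?_) hy
  intro a ha
  apply Subfield.subset_closure
  rcases ha with ha | ⟨i, j, hj, rfl⟩
  · exact Or.inl (h1 a ha)
  · refine Or.inr ⟨i, j, ?_, ?_⟩
    · exact fun h => hj ((map_eq_zero (algebraMap F Ω)).1 h)
    · exact map_div₀ _ _ _

private theorem B3_up_ne {Ω : Type} [Field Ω] [Algebra F Ω] {w : ι → F} (hw : w ≠ 0) :
    up Ω w ≠ 0 := by
  intro h
  apply hw
  funext j
  exact (map_eq_zero (algebraMap F Ω)).1 (congrFun h j)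

private theorem B3_sub {ι' : Type} {w : ι → F} {w' : ι' → F} (h0 : w' ≠ 0)
    (h : ∀ i j, w j ≠ 0 → ∃ i' j', w' j' ≠ 0 ∧ w i / w j = w' i' / w' j') (hw : Big K w) :
    Big K w' := by
  refine ⟨h0, fun x => ?_⟩
  refine B3_map (RingHom.id F) ?_ (hw.2 x)
  intro a ha
  refine B3_cl (RingHom.id F) ?_ a ha
  intro b hb
  apply Subfield.subset_closure
  rcases hb with hb | ⟨i, j, hj, rfl⟩
  · exact Or.inl hb
  · obtain ⟨i', j', hj', e⟩ := h i j hj
    exact Or.inr ⟨i', j', hj', e⟩

theorem big_mono {K' : Subfield F} (h : K ≤ K') {w : ι → F} (hw : Big K w) : Big K' w := by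
  refine ⟨hw.1, fun x => ?_⟩
  refine B3_map (RingHom.id F) ?_ (hw.2 x)
  intro a ha
  exact Subfield.closure_mono (Set.union_subset_union_left _ h) ha

theorem big_gen {Ω σ : Type} [Field Ω] [Algebra F Ω] {C : σ → Ω} (hC : Gn F C) {w : ι → F}
    (hw : Big K w) (K' : Subfield Ω) (h1 : ∀ a ∈ K, algebraMap F Ω a ∈ K') (h2 : ∀ q, C q ∈ K') :
    Big K' (up Ω w) := by
  refine ⟨B3_up_ne hw.1, ?_⟩
  set L' := Subfield.closure
      ((K' : Set Ω) ∪ {y | ∃ i j, up Ω w j ≠ 0 ∧ y = up Ω w i / up Ω w j}) with hL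
  have hF : ∀ y : F, IsAlgebraic L' (algebraMap F Ω y) := fun y => B3_img K' h1 (hw.2 y)
  let A := algebraicClosure L' Ω
  let B : IntermediateField F Ω :=
    { A.toSubfield with
      algebraMap_mem' := fun y => (mem_algebraicClosure_iff).2 (hF y) }
  have hB : (⊤ : IntermediateField F Ω) ≤ B := by
    rw [← hC.2, IntermediateField.adjoin_le_iff]
    rintro _ ⟨q, rfl⟩
    have h3 : C q ∈ L' := Subfield.subset_closure (Or.inl (h2 q))
    exact (mem_algebraicClosure_iff).2 (isAlgebraic_algebraMap (⟨C q, h3⟩ : L'))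
  intro x
  have hx : x ∈ B := hB trivial
  exact (mem_algebraicClosure_iff).1 hx

theorem big_fin {E : Type} [Field E] [Algebra F E] [FiniteDimensional F E] {w : ι → F}
    (hw : Big K w) : Big (upK E K) (up E w) := by
  refine ⟨B3_up_ne hw.1, ?_⟩
  set L' := Subfield.closure
      ((upK E K : Set E) ∪ {y | ∃ i j, up E w j ≠ 0 ∧ y = up E w i / up E w j}) with hL
  have hF : ∀ y : F, IsAlgebraic L' (algebraMap F E y) :=
    fun y => B3_img (upK E K) (fun a ha => ⟨a, ha, rfl⟩) (hw.2 y)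
  intro x
  let A := algebraicClosure L' E
  have hx : IsAlgebraic F x := Algebra.IsAlgebraic.isAlgebraic x
  obtain ⟨p, hp, hx⟩ := hx
  let g : F →+* A := (algebraMap F E).codRestrict A.toSubring
    (fun y => (mem_algebraicClosure_iff).2 (hF y))
  have h1 : IsAlgebraic A x := by
    refine ⟨p.map g, (Polynomial.map_ne_zero_iff g.injective).2 hp, ?_⟩
    rw [Polynomial.aeval_def, Polynomial.eval₂_map]
    rw [Polynomial.aeval_def] at hx
    exact hx
  have h2 : IsIntegral L' x := isIntegral_trans (R := L') (A := A) x h1.isIntegral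
  exact h2.isAlgebraic

end

variable {k F : Type} [Field k] [Field F] [CharZero F] {n d : ℕ}
  {S : Set (MvPolynomial (Fin (n + 1)) k)} {φ : k →+* F} {K : Subfield F}

theorem Two.big_zz (T : Two S φ d) {q : Fin 2 → F} (h : Big K (T.pt q)) : Big K (T.zz q) := by
  refine B3_sub ?_ ?_ h
  · intro h0
    apply h.1
    funext i
    exact congrFun h0 (some fun _ => i)
  · intro i j hj
    exact ⟨some fun _ => i, some fun _ => j, hj, rfl⟩

theorem Two.big_z (T : Two S φ d) (h : Big K (T.pt (T.p 0))) : Big K T.z := by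
  refine B3_sub T.z_ne ?_ h
  intro i j hj
  have hp : ∀ a, T.p a ≠ 0 := by
    intro a ha
    apply T.wne
    fin_cases a
    · have h1 : T.p 0 = 0 := ha
      simp [wd, h1]
    · have h1 : T.p 1 = 0 := ha
      simp [wd, h1]
  have hex : ∀ l : Fin (d + 1), ∃ m, T.pt (T.p (T.rho l)) m ≠ 0 := by
    intro l
    exact T.bpf F (RingHom.id F) (T.p (T.rho l)) (hp _)
  choose τ hτ using hex
  have hr : T.rho 0 = 0 := by
    unfold Two.rho
    rw [if_pos]
    exact T.mupos 1
  have hz : ∀ m, T.z (some (Function.update τ 0 m)) =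
      T.pt (T.p 0) m * ∏ l : Fin d, T.pt (T.p (T.rho l.succ)) (τ l.succ) := by
    intro m
    show ∏ l, T.pt (T.p (T.rho l)) (Function.update τ 0 m l) = _
    rw [Fin.prod_univ_succ, hr, Function.update_self]
    refine congrArg (fun y => T.pt (T.p 0) m * y) ?_
    refine Finset.prod_congr rfl fun l _ => ?_
    rw [Function.update_of_ne (Fin.succ_ne_zero l)]
  have hP : ∏ l : Fin d, T.pt (T.p (T.rho l.succ)) (τ l.succ) ≠ 0 :=
    Finset.prod_ne_zero_iff.2 fun l _ => hτ l.succ
  refine ⟨some (Function.update τ 0 i), some (Function.update τ 0 j), ?_, ?_⟩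
  · rw [hz]
    exact mul_ne_zero hj hP
  · rw [hz, hz, mul_div_mul_right _ _ hP]

end Pool.Agent.Lib.MP_1e3e9c_agW
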