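import Mathlib
import Pool.Agent.Lib.MP_1e3e9c_agU.C4
import Pool.Agent.Lib.MP_1e3e9c_agU.C5
import Pool.Agent.Lib.MP_1e3e9c_agU.C5d
import Pool.Agent.Lib.MP_1e3e9c_agW.B3

/-!
# MP_1e3e9c_ag, project W, leaf B4: mixed degrees of big points are positive

Induction on the length (for all fields `F`). `[]`: `XX_nil`, `FF_zero_pos`. `w :: l`: let
`Ω = GF F (Unit × Bool × ι)`, `C = gc F _` (`gn_gc`), `κ = cb K C (fun _ => w) Set.univ`. `cut_dich`: `Con K w` is
impossible (the quotients of `w` would be algebraic over `K`, so `F` too, but the transcendence degree is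
`l.length + 1 > 0`); so `FF κ l.length`. The points `up Ω w'`, `w' ∈ l`, are big over `κ` (`big_gen`), so
`0 < XX κ (l.map (up Ω))` by induction, and this is `XX K (l ++ [w])` (`XX_tower` with `s = [()]`,
`{i | i ∈ [()]} = Set.univ`), `= XX K (w :: l)` (`XX_perm`).
-/

set_option autoImplicit false

namespace Pool.Agent.Lib.MP_1e3e9c_agW

open IsLocalRing Pool.Agent.Lib.MP_b197b4_ntK Pool.Agent.Lib.MP_1e3e9c_agU

/-- If `w` is constant and big, the field is algebraic. -/
private theorem B4_con {F ι : Type} [Field F] {K : Subfield F} {w : ι → F} (hw : Big K w)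
    (hc : Con K w) : Algebra.IsAlgebraic K F := by
  refine ⟨fun x => ?_⟩
  have h1 : Subfield.closure ((K : Set F) ∪ {y | ∃ i j, w j ≠ 0 ∧ y = w i / w j}) ≤
      (algebraicClosure K F).toSubfield := by
    rw [Subfield.closure_le]
    rintro y (hy | ⟨i, j, hj, rfl⟩)
    · exact (algebraicClosure K F).algebraMap_mem (⟨y, hy⟩ : K)
    · exact mem_algebraicClosure_iff.2 (hc i j hj)
  have h2 : IsAlgebraic (algebraicClosure K F) x := by
    obtain ⟨p, hp0, hp⟩ := hw.2 x
    refine ⟨p.map (Subfield.inclusion h1 : _ →+* (algebraicClosure K F).toSubfield), ?_, ?_⟩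
    · exact (Polynomial.map_ne_zero_iff (Subfield.inclusion h1).injective).2 hp0
    · rw [Polynomial.aeval_def] at hp ⊢
      rw [Polynomial.eval₂_map]
      exact hp
  exact h2.restrictScalars K

theorem pos_of_big {ι : Type} [Fintype ι] (m : ℕ) : ∀ (F : Type) [Field F] [CharZero F]
    (K : Subfield F) (l : List (ι → F)), l.length = m → FF K m → (∀ w ∈ l, Big K w) →
      0 < XX K l := by
  induction m with
  | zero =>
    intro F _ _ K l hl hF _
    rw [List.length_eq_zero_iff] at hl
    subst hl
    rw [XX_nil]
    exact FF_zero_pos hF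
  | succ m ih =>
    intro F _ _ K l hl hF hb
    obtain ⟨w, l', rfl⟩ : ∃ w l', l = w :: l' := by
      cases l with
      | nil => simp at hl
      | cons w l' => exact ⟨w, l', rfl⟩
    rw [List.length_cons, Nat.add_right_cancel_iff] at hl
    have hC := gn_gc F (Unit × Bool × ι)
    have hw := hb w List.mem_cons_self
    rcases cut_dich hF hC hw.1 with hc | hc
    · exfalso
      have h1 := B4_con hw hc
      have h2 : Algebra.trdeg K F = 0 := trdeg_eq_zero_iff.2 h1
      rw [hF.2] at h2
      exact absurd h2 (by exact_mod_cast Nat.succ_ne_zero m)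
    · have hchar : CharZero (GF F (Unit × Bool × ι)) :=
        charZero_of_injective_algebraMap (algebraMap F (GF F (Unit × Bool × ι))).injective
      have h1 := ih (GF F (Unit × Bool × ι)) (cb K (gc F (Unit × Bool × ι)) (fun _ => w) Set.univ)
        (l'.map (up (GF F (Unit × Bool × ι)))) (by rw [List.length_map, hl]) hc (by
          intro v hv
          obtain ⟨v', hv', rfl⟩ := List.mem_map.1 hv
          refine big_gen hC (hb v' (List.mem_cons_of_mem _ hv')) _ ?_ ?_
          · intro a ha
            exact Subfield.subset_closure (Or.inl (Or.inl ⟨a, ha, rfl⟩))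
          · intro q
            exact Subfield.subset_closure (Or.inl (Or.inr ⟨q, rfl⟩)))
      have h2 := XX_tower K hC (fun _ => w) [()] (List.nodup_singleton _) l'
      have h3 : {i : Unit | i ∈ [()]} = Set.univ := by
        ext i
        simp
      rw [h3] at h2
      rw [h2] at h1
      have h4 : (w :: l').Perm (l' ++ [()].map (fun _ => w)) := by
        rw [List.map_singleton]
        exact (List.perm_append_singleton w l').symm
      rw [XX_perm K h4]
      exact h1

end Pool.Agent.Lib.MP_1e3e9c_agW
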