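import Mathlib
import Pool.Agent.Lib.MP_1e3e9c_agW.B2
import Pool.Agent.Lib.MP_1e3e9c_agW.B4

/-!
# MP_1e3e9c_ag, project W, leaf B9: the generic surface

`s = List.finRange (m + 1)`, `{i | i ∈ s} = Set.univ`, `s.map (fun _ => T.z) = List.replicate (m + 1) T.z`. All of
`T.zz (T.p 0)`, `T.z` are big (leaf B3). `FF_cb` with `l = [zz (p 0), zz (p 0)]` (positive by `pos_of_big`):
`FF κ 2`. `c = XX K (zz (p 0) :: zz (p 0) :: s.map ..) > 0`. `XX_tower`, `up_zz`, `(T.up Ω).p a = algebraMap ∘ T.p a`: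
`XX κ [(T.up Ω).zz ((T.up Ω).p a), (T.up Ω).zz ((T.up Ω).p b)] = XX K (zz (p a) :: zz (p b) :: s.map ..)`, and this
does not depend on `a`, `b`: `XX_perm` (move one `z` to the front) and `Two.XX_indep` with `l = replicate m T.z`.
-/

set_option autoImplicit false

namespace Pool.Agent.Lib.MP_1e3e9c_agW

open IsLocalRing Pool.Agent.Lib.MP_b197b4_ntK Pool.Agent.Lib.MP_1e3e9c_agU

theorem Two.gen_surf {k F : Type} [Field k] [Field F] [CharZero F] {n d : ℕ}
    {S : Set (MvPolynomial (Fin (n + 1)) k)} {φ : k →+* F} (hS : NR S) (T : Two S φ d)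
    {K : Subfield F} (hφ : ∀ a, φ a ∈ K) (m : ℕ) (hF : FF K (m + 3))
    (hb : Big K (T.pt (T.p 0))) {Ω : Type} [Field Ω] [Algebra F Ω]
    {C : Fin (m + 1) × Bool × (Option (Fin (d + 1) → Fin (n + 1))) → Ω} (hC : Gn F C) :
    FF (cb K C (fun _ => T.z) Set.univ) 2 ∧ ∃ c : ℕ, 0 < c ∧ ∀ a b : Fin 2,
      XX (cb K C (fun _ => T.z) Set.univ)
        [(T.up Ω).zz ((T.up Ω).p a), (T.up Ω).zz ((T.up Ω).p b)] = c := by
  obtain ⟨s, hsdef⟩ : ∃ s : List (Fin (m + 1)), s = List.finRange (m + 1) := ⟨_, rfl⟩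
  have hnd : s.Nodup := by rw [hsdef]; exact List.nodup_finRange _
  have hlen : s.length = m + 1 := by rw [hsdef]; exact List.length_finRange
  have hset : {i : Fin (m + 1) | i ∈ s} = Set.univ := by
    ext i
    simp [hsdef]
  have hmap : s.map (fun _ => T.z) = List.replicate (m + 1) T.z := by
    rw [List.map_const', hlen]
  -- independence of the zeros
  have hind : ∀ a b : Fin 2,
      XX K ([T.zz (T.p a), T.zz (T.p b)] ++ s.map (fun _ => T.z)) =
        XX K (T.z :: T.zz (T.p 0) :: T.zz (T.p 0) :: List.replicate m T.z) := by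
    intro a b
    rw [hmap, List.replicate_succ]
    have hp : ([T.zz (T.p a), T.zz (T.p b)] ++ (T.z :: List.replicate m T.z)).Perm
        (T.z :: T.zz (T.p a) :: T.zz (T.p b) :: List.replicate m T.z) := by
      exact List.perm_middle (l₁ := [T.zz (T.p a), T.zz (T.p b)])
    rw [XX_perm K hp]
    apply T.XX_indep hS hφ
    · intro w hw
      rw [List.eq_of_mem_replicate hw]
      exact T.z_ne
    · rw [List.length_replicate]
      exact hF
  have hbz : Big K T.z := T.big_z hb
  have hbzz : Big K (T.zz (T.p 0)) := T.big_zz hb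
  have hpos : 0 < XX K ([T.zz (T.p 0), T.zz (T.p 0)] ++ s.map (fun _ => T.z)) := by
    apply pos_of_big (m + 3) F K _ _ hF
    · intro w hw
      rw [hmap] at hw
      rcases List.mem_append.1 hw with h | h
      · have : w = T.zz (T.p 0) := by simpa using h
        rw [this]; exact hbzz
      · rw [List.eq_of_mem_replicate h]; exact hbz
    · rw [List.length_append, List.length_map, hlen]
      simp only [List.length_cons, List.length_nil]
      omega
  have hF2 : FF K (2 + s.length) := by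
    rw [hlen]
    have e : 2 + (m + 1) = m + 3 := by omega
    rw [e]
    exact hF
  refine ⟨?_, XX K ([T.zz (T.p 0), T.zz (T.p 0)] ++ s.map (fun _ => T.z)), hpos, ?_⟩
  · have h1 := FF_cb hC (fun _ => T.z) s hnd hF2 [T.zz (T.p 0), T.zz (T.p 0)] rfl hpos
    rw [hset] at h1
    exact h1
  · intro a b
    have h1 := XX_tower K hC (fun _ => T.z) s hnd [T.zz (T.p a), T.zz (T.p b)]
    rw [hset, hind a b, ← hind 0 0] at h1
    rw [← h1]
    have ha : (T.up Ω).zz ((T.up Ω).p a) = MP_1e3e9c_agU.up Ω (T.zz (T.p a)) :=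
      T.up_zz Ω (T.p a)
    have hb' : (T.up Ω).zz ((T.up Ω).p b) = MP_1e3e9c_agU.up Ω (T.zz (T.p b)) :=
      T.up_zz Ω (T.p b)
    rw [ha, hb']
    rfl

end Pool.Agent.Lib.MP_1e3e9c_agW
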