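import Mathlib
import Pool.Agent.Lib.MP_1e3e9c_agU.Vl
import Pool.Agent.Lib.MP_1e3e9c_agU.C6
import Pool.Agent.Lib.MP_1e3e9c_agU.C10
import Pool.Agent.Lib.MP_1e3e9c_agU.Defs2

/-!
# MP_1e3e9c_ag, project W, leaf B5: repeated coordinates

`r : κ → ι` surjective, `z' = z ∘ r`: `al V z' = al V z`; `rd V z'` is proportional to `(rd V z) ∘ r`
(`rd_spec`, `rd_unique`). `ht` depends only on the `al`. `XR_comap`: if `FF (resS K v) 1` then
`XR K v [y'] = XX (resS K v) [rd v y'] = ht (resS K v) (rd v y')` (`XX_one`; the residue field has characteristic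
`0`, as in leaf C7) `= ht (resS K v) (rd v y)` (`ht_smul`); otherwise both are `0`. `XX_comap2`:
`XX_ht_sum` with `l = [z']` and `l = [z]`. (`XR K v [y]` : `[y].length = 1`, `simp` the `List.map`.)
-/

set_option autoImplicit false

namespace Pool.Agent.Lib.MP_1e3e9c_agW

open IsLocalRing Pool.Agent.Lib.MP_b197b4_ntK Pool.Agent.Lib.MP_1e3e9c_agU

section B5aux

variable {F ι κ : Type} [Field F] [Fintype ι] [Fintype κ] {K : Subfield F}

omit [Fintype ι] [Fintype κ] in
private theorem B5_ne {r : κ → ι} (hr : Function.Surjective r) {z : ι → F} (hz : z ≠ 0) :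
    (fun a => z (r a)) ≠ 0 := by
  intro h
  apply hz
  funext j
  obtain ⟨a, rfl⟩ := hr j
  exact congrFun h a

private theorem B5_al {V : ValuationSubring F} {r : κ → ι} (hr : Function.Surjective r) (z : ι → F) :
    al V (fun a => z (r a)) = al V z := by
  by_cases hz : z = 0
  · subst hz
    have h1 : (fun a => (0 : ι → F) (r a)) = (0 : κ → F) := rfl
    rw [h1, al_zero, al_zero]
  · apply le_antisymm
    · obtain ⟨j, hj, e⟩ := exists_al (V := V) hz
      obtain ⟨a, rfl⟩ := hr j
      rw [← e]
      exact al_le (V := V) (z := fun a => z (r a)) (j := a) hj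
    · obtain ⟨a, ha, e⟩ := exists_al (V := V) (B5_ne hr hz)
      rw [← e]
      exact al_le (V := V) ha

private theorem B5_ht {r : κ → ι} (hr : Function.Surjective r) (z : ι → F) :
    ht K (fun a => z (r a)) = ht K z := by
  unfold ht
  congr 1
  exact finsum_congr fun V => finsum_congr fun _ => by rw [B5_al hr]

private theorem B5_char [CharZero F] {v : ValuationSubring F} (hv : Dv K v) :
    CharZero (ResidueField v) :=
  charZero_of_injective_ringHom (resk K.subtype v fun a => hv.2 a a.2).injective

private theorem B5_rd {v : ValuationSubring F} (hv : IsDiscreteValuationRing v) {r : κ → ι}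
    (hr : Function.Surjective r) {y : ι → F} (hy : y ≠ 0) :
    Pr (rd v fun a => y (r a)) (fun a => rd v y (r a)) := by
  obtain ⟨h0, a, ha, -, hm, hrd⟩ := rd_spec hv hy
  have h1 : ∃ j, res v (a * y (r j)) ≠ 0 := by
    by_contra hcon
    push Not at hcon
    apply h0
    funext j
    obtain ⟨i, rfl⟩ := hr j
    rw [hrd, hcon]
    rfl
  have h2 := rd_unique hv (z := fun i => y (r i)) (w := fun i => a * y (r i)) ha (fun _ => rfl)
    (fun i => hm (r i)) h1
  have h3 : (fun i => rd v y (r i)) = fun i => res v (a * y (r i)) := funext fun i => hrd (r i)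
  rw [h3]
  exact h2

end B5aux

variable {F ι κ : Type} [Field F] [CharZero F] [Fintype ι] [Fintype κ] {K : Subfield F}

theorem XR_comap {v : ValuationSubring F} (hv : Dv K v) {r : κ → ι}
    (hr : Function.Surjective r) {y : ι → F} (hy : y ≠ 0) :
    XR K v [fun a => y (r a)] = XR K v [y] := by
  classical
  have hch : CharZero (ResidueField v) := B5_char hv
  unfold XR
  have hl : ([fun a => y (r a)] : List (κ → F)).length = ([y] : List (ι → F)).length := rfl
  rw [hl]
  split_ifs with h
  · have h1 : FF (resS K v) 1 := h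
    have h2 : rd v (fun a => y (r a)) ≠ 0 := (rd_spec hv.1 (B5_ne hr hy)).1
    have h3 : rd v y ≠ 0 := (rd_spec hv.1 hy).1
    have h4 : (XX (resS K v) [rd v fun a => y (r a)] : ℤ) = XX (resS K v) [rd v y] := by
      rw [XX_one h1 h2, XX_one h1 h3]
      obtain ⟨b, hb, e⟩ := B5_rd hv.1 hr hy
      rw [← B5_ht hr (rd v y), ← ht_smul h1 h2 hb]
      congr 1
      funext i
      exact (e i).symm
    exact_mod_cast h4
  · rfl

theorem XX_comap2 (hF : FF K 2) {r : κ → ι} (hr : Function.Surjective r) {y z : ι → F}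
    (hy : y ≠ 0) (hz : z ≠ 0) : XX K [fun a => y (r a), fun a => z (r a)] = XX K [y, z] := by
  have h1 := XX_ht_sum (K := K) [fun a => z (r a)] (by
    intro w hw
    rw [List.mem_singleton] at hw
    rw [hw]
    exact B5_ne hr hz) hF (B5_ne hr hy)
  have h2 := XX_ht_sum (K := K) [z] (by
    intro w hw
    rw [List.mem_singleton] at hw
    rw [hw]
    exact hz) hF hy
  have h3 : (XX K [fun a => y (r a), fun a => z (r a)] : ℤ) = XX K [y, z] := by
    rw [h1, h2]
    congr 1
    exact finsum_congr fun v => finsum_congr fun hv => by rw [XR_comap hv hr hz, B5_al hr]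
  exact_mod_cast h3

end Pool.Agent.Lib.MP_1e3e9c_agW
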