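import Mathlib
import Pool.Agent.Lib.MP_1e3e9c_agU.D4
import Pool.Agent.Lib.MP_1e3e9c_agW.B5

/-!
# MP_1e3e9c_ag, project W, leaf B6: numerically equal points

Write `α = XX K [y₁ ∘ fst, W ∘ snd]`, `β = XX K [y₂ ∘ fst, W ∘ snd]`, index set `ι × κ`. By symmetry it is enough
to show `α ≤ β`. For `a : ℕ` let `A q = y₁ q.1 ^ a * W q.2`: `A ≠ 0`, and `al V A = a al V y₁ + al V W
= a al V (y₁ ∘ fst) + al V (W ∘ snd)` for every discrete valuation ring `V`. By `XX_ht_sum` (`l = [w]`):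
`XX K [A, w] = a XX K [y₁ ∘ fst, w] + XX K [W ∘ snd, w]` for all `w ≠ 0` (finite sums, `XR_fin`). With
`w = y₂ ∘ fst`, `XX_comap2`, `XX_perm`: `XX K [A, y₂ ∘ fst] = a c + β`; twice:
`XX K [A, A] = a² c + 2 a α + ω`, `ω = XX K [W ∘ snd, W ∘ snd]`. `index_ineq`:
`(a² c + 2 a α + ω) c ≤ (a c + β)²`, so `2 a α c ≤ 2 a c β + β²` for all `a`; if `α ≥ β + 1` take `a > β²`:
contradiction.
-/

set_option autoImplicit false

namespace Pool.Agent.Lib.MP_1e3e9c_agW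

open IsLocalRing Pool.Agent.Lib.MP_b197b4_ntK Pool.Agent.Lib.MP_1e3e9c_agU

section

variable {F ι κ : Type} [Field F] [Fintype ι] [Fintype κ]

omit [Fintype ι] in
private theorem B6_ne {z : ι → F} (hz : z ≠ 0) : ∃ i, z i ≠ 0 := Function.ne_iff.1 hz

private theorem B6_al_fst {V : ValuationSubring F} {y : ι → F} (hy : y ≠ 0) (k₀ : κ) :
    al V (fun q : ι × κ => y q.1) = al V y := by
  have hne : (fun q : ι × κ => y q.1) ≠ 0 := by
    obtain ⟨i, hi⟩ := B6_ne hy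
    intro h
    exact hi (congrFun h (i, k₀))
  apply le_antisymm
  · obtain ⟨i, hi, e⟩ := exists_al (V := V) hy
    rw [← e]
    exact al_le (z := fun q : ι × κ => y q.1) (j := (i, k₀)) hi
  · exact le_al hne fun q hq => al_le hq

private theorem B6_al_snd {V : ValuationSubring F} {y : κ → F} (hy : y ≠ 0) (i₀ : ι) :
    al V (fun q : ι × κ => y q.2) = al V y := by
  have hne : (fun q : ι × κ => y q.2) ≠ 0 := by
    obtain ⟨i, hi⟩ := B6_ne hy
    intro h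
    exact hi (congrFun h (i₀, i))
  apply le_antisymm
  · obtain ⟨i, hi, e⟩ := exists_al (V := V) hy
    rw [← e]
    exact al_le (z := fun q : ι × κ => y q.2) (j := (i₀, i)) hi
  · exact le_al hne fun q hq => al_le hq

private theorem B6_al_mul {V : ValuationSubring F} (hV : IsDiscreteValuationRing V) {y : ι → F} {W : κ → F} (hy : y ≠ 0)
    (hW : W ≠ 0) (a : ℕ) (ha : 0 < a) :
    al V (fun q : ι × κ => y q.1 ^ a * W q.2) = (a : ℤ) * al V y + al V W := by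
  have hord : ∀ q : ι × κ, y q.1 ≠ 0 → W q.2 ≠ 0 →
      ord V (y q.1 ^ a * W q.2) = (a : ℤ) * ord V (y q.1) + ord V (W q.2) := by
    intro q h1 h2
    rw [ord_mul hV (pow_ne_zero a h1) h2, ord_pow hV h1]
  have hne : (fun q : ι × κ => y q.1 ^ a * W q.2) ≠ 0 := by
    obtain ⟨i, hi⟩ := B6_ne hy
    obtain ⟨j, hj⟩ := B6_ne hW
    intro h
    exact mul_ne_zero (pow_ne_zero a hi) hj (congrFun h (i, j))
  apply le_antisymm
  · obtain ⟨i, hi, e1⟩ := exists_al (V := V) hy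
    obtain ⟨j, hj, e2⟩ := exists_al (V := V) hW
    rw [← e1, ← e2, ← hord (i, j) hi hj]
    exact al_le (z := fun q : ι × κ => y q.1 ^ a * W q.2) (j := (i, j)) (mul_ne_zero (pow_ne_zero a hi) hj)
  · refine le_al hne fun q hq => ?_
    have h1 : y q.1 ≠ 0 := by
      intro h
      apply hq
      show y q.1 ^ a * W q.2 = 0
      rw [h, zero_pow ha.ne', zero_mul]
    have h2 : W q.2 ≠ 0 := by
      intro h
      apply hq
      show y q.1 ^ a * W q.2 = 0
      rw [h, mul_zero]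
    rw [hord q h1 h2]
    exact add_le_add (mul_le_mul_of_nonneg_left (al_le h1) (Nat.cast_nonneg a)) (al_le h2)

end

section

variable {F ι κ : Type} [Field F] [CharZero F] [Fintype ι] [Fintype κ] {K : Subfield F}

private theorem B6_fin {w : ι → F} (hw : w ≠ 0) (hF : FF K 2) {z : ι → F} (hz : z ≠ 0) :
    {v : ValuationSubring F | Dv K v ∧ (XR K v [w] : ℤ) * al v z ≠ 0}.Finite := by
  classical
  have hl : ∀ u ∈ [w], u ≠ 0 := by
    intro u hu
    rw [List.mem_singleton] at hu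
    rw [hu]
    exact hw
  have h1 : (⋃ j : {j : ι // z j ≠ 0},
      {v : ValuationSubring F | Dv K v ∧ (XR K v [w] : ℤ) * ord v (z j) ≠ 0}).Finite :=
    Set.finite_iUnion fun j => XR_fin [w] hl hF j.2
  refine h1.subset ?_
  rintro v ⟨hv, hne⟩
  obtain ⟨j, hj, e⟩ := exists_al (V := v) hz
  refine Set.mem_iUnion.2 ⟨⟨j, hj⟩, hv, ?_⟩
  rw [e]
  exact hne

private theorem B6_lin {w : ι → F} (hw : w ≠ 0) (hF : FF K 2) {z z' z'' : ι → F} (hz : z ≠ 0) (hz' : z' ≠ 0)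
    (hz'' : z'' ≠ 0) (a : ℕ) (h : ∀ v : ValuationSubring F, Dv K v → al v z'' = (a : ℤ) * al v z + al v z') :
    XX K [z'', w] = a * XX K [z, w] + XX K [z', w] := by
  classical
  have hl : ∀ u ∈ [w], u ≠ 0 := by
    intro u hu
    rw [List.mem_singleton] at hu
    rw [hu]
    exact hw
  have h1 := XX_ht_sum [w] hl hF hz
  have h2 := XX_ht_sum [w] hl hF hz'
  have h3 := XX_ht_sum [w] hl hF hz''
  have hs : ∀ {y : ι → F}, y ≠ 0 → (Function.support fun v : ValuationSubring F =>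
      ∑ᶠ (_ : Dv K v), (XR K v [w] : ℤ) * al v y).Finite := by
    intro y hy
    refine (B6_fin hw hF hy).subset ?_
    intro v hv
    rw [Function.mem_support] at hv
    by_cases hd : Dv K v
    · rw [finsum_eq_if, if_pos hd] at hv
      exact ⟨hd, hv⟩
    · rw [finsum_eq_if, if_neg hd] at hv
      exact absurd rfl hv
  have hsa : (Function.support fun v : ValuationSubring F =>
      (a : ℤ) * ∑ᶠ (_ : Dv K v), (XR K v [w] : ℤ) * al v z).Finite := by
    refine (hs hz).subset ?_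
    intro v hv
    rw [Function.mem_support] at hv ⊢
    exact right_ne_zero_of_mul hv
  have h4 : ∑ᶠ (v : ValuationSubring F) (_ : Dv K v), (XR K v [w] : ℤ) * al v z'' =
      (a : ℤ) * (∑ᶠ (v : ValuationSubring F) (_ : Dv K v), (XR K v [w] : ℤ) * al v z) +
        ∑ᶠ (v : ValuationSubring F) (_ : Dv K v), (XR K v [w] : ℤ) * al v z' := by
    rw [mul_finsum, ← finsum_add_distrib hsa (hs hz')]
    refine finsum_congr fun v => ?_
    by_cases hd : Dv K v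
    · rw [finsum_eq_if, finsum_eq_if, finsum_eq_if, if_pos hd, if_pos hd, if_pos hd, h v hd]
      ring
    · rw [finsum_eq_if, finsum_eq_if, finsum_eq_if, if_neg hd, if_neg hd, if_neg hd]
      ring
  rw [h4] at h3
  have h5 : (XX K [z'', w] : ℤ) = a * XX K [z, w] + XX K [z', w] := by
    rw [h3, h1, h2]
    ring
  exact_mod_cast h5

omit [CharZero F] in
private theorem B6_sw (y z : ι → F) : XX K [y, z] = XX K [z, y] := XX_perm K (List.Perm.swap z y [])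

private theorem B6_half (hF : FF K 2) {y₁ y₂ : ι → F} (h₁ : y₁ ≠ 0) (h₂ : y₂ ≠ 0) (c : ℕ) (hc : 0 < c)
    (h11 : XX K [y₁, y₁] = c) (h12 : XX K [y₁, y₂] = c) (h22 : XX K [y₂, y₂] = c) {W : κ → F}
    (hW : W ≠ 0) :
    XX K [fun q : ι × κ => y₁ q.1, fun q : ι × κ => W q.2] ≤
      XX K [fun q : ι × κ => y₂ q.1, fun q : ι × κ => W q.2] := by
  obtain ⟨k₀, hk₀⟩ := B6_ne hW
  obtain ⟨i₀, hi₀⟩ := B6_ne h₁
  have hr : Function.Surjective (Prod.fst : ι × κ → ι) := fun i => ⟨(i, k₀), rfl⟩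
  have hY1 : (fun q : ι × κ => y₁ q.1) ≠ 0 := fun h => hi₀ (congrFun h (i₀, k₀))
  have hY2 : (fun q : ι × κ => y₂ q.1) ≠ 0 := by
    obtain ⟨i, hi⟩ := B6_ne h₂
    exact fun h => hi (congrFun h (i, k₀))
  have hWW : (fun q : ι × κ => W q.2) ≠ 0 := fun h => hk₀ (congrFun h (i₀, k₀))
  have e11 : XX K [fun q : ι × κ => y₁ q.1, fun q : ι × κ => y₁ q.1] = c :=
    (XX_comap2 hF hr h₁ h₁).trans h11
  have e12 : XX K [fun q : ι × κ => y₁ q.1, fun q : ι × κ => y₂ q.1] = c :=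
    (XX_comap2 hF hr h₁ h₂).trans h12
  have e22 : XX K [fun q : ι × κ => y₂ q.1, fun q : ι × κ => y₂ q.1] = c :=
    (XX_comap2 hF hr h₂ h₂).trans h22
  by_contra hlt
  rw [not_le] at hlt
  obtain ⟨β, hβ⟩ : ∃ β, β = XX K [fun q : ι × κ => y₂ q.1, fun q : ι × κ => W q.2] := ⟨_, rfl⟩
  obtain ⟨α, hα⟩ : ∃ α, α = XX K [fun q : ι × κ => y₁ q.1, fun q : ι × κ => W q.2] := ⟨_, rfl⟩
  rw [← hβ, ← hα] at hlt
  obtain ⟨a, ha⟩ : ∃ a, a = β ^ 2 + 1 := ⟨_, rfl⟩
  have hapos : 0 < a := by rw [ha]; exact Nat.succ_pos _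
  have hA : (fun q : ι × κ => y₁ q.1 ^ a * W q.2) ≠ 0 :=
    fun h => mul_ne_zero (pow_ne_zero a hi₀) hk₀ (congrFun h (i₀, k₀))
  have hal : ∀ v : ValuationSubring F, Dv K v → al v (fun q : ι × κ => y₁ q.1 ^ a * W q.2) =
      (a : ℤ) * al v (fun q : ι × κ => y₁ q.1) + al v (fun q : ι × κ => W q.2) := by
    intro v hv
    rw [B6_al_mul hv.1 h₁ hW a hapos, B6_al_fst h₁ k₀, B6_al_snd hW i₀]
  have f1 := B6_lin hY2 hF hY1 hWW hA a hal
  have f2 := B6_lin hA hF hY1 hWW hA a hal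
  have f3 := B6_lin hY1 hF hY1 hWW hA a hal
  have f4 := B6_lin hWW hF hY1 hWW hA a hal
  rw [B6_sw (fun q : ι × κ => y₁ q.1) (fun q : ι × κ => y₁ q.1 ^ a * W q.2),
    B6_sw (fun q : ι × κ => W q.2) (fun q : ι × κ => y₁ q.1 ^ a * W q.2), f3, f4, e11,
    B6_sw (fun q : ι × κ => W q.2) (fun q : ι × κ => y₁ q.1), ← hα] at f2
  rw [e12, B6_sw (fun q : ι × κ => W q.2) (fun q : ι × κ => y₂ q.1), ← hβ] at f1
  have h := index_ineq hF hA hY2
  rw [f1, f2, e22] at h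
  obtain ⟨ω, hω⟩ : ∃ ω, ω = XX K [fun q : ι × κ => W q.2, fun q : ι × κ => W q.2] := ⟨_, rfl⟩
  rw [← hω] at h
  have h6 : 2 * (a * α * c) ≤ 2 * (a * c * β) + β ^ 2 := by
    have h7 : (a * (a * c + α) + (a * α + ω)) * c = (a * c) ^ 2 + 2 * (a * α * c) + ω * c := by ring
    have h8 : (a * c + β) ^ 2 = (a * c) ^ 2 + 2 * (a * c * β) + β ^ 2 := by ring
    rw [h7, h8] at h
    have h9 := Nat.zero_le (ω * c)
    omega
  have h10 : a * c * (β + 1) ≤ a * c * α := Nat.mul_le_mul_left _ hlt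
  have h11' : a * c * (β + 1) = a * c * β + a * c := by ring
  have h12' : a * α * c = a * c * α := by ring
  have h13 : a ≤ a * c := Nat.le_mul_of_pos_right a hc
  rw [h12'] at h6
  rw [h11'] at h10
  omega

end

theorem nt_num {F ι κ : Type} [Field F] [CharZero F] [Fintype ι] [Fintype κ] {K : Subfield F}
    (hF : FF K 2) {y₁ y₂ : ι → F} (h₁ : y₁ ≠ 0) (h₂ : y₂ ≠ 0) (c : ℕ) (hc : 0 < c)
    (h11 : XX K [y₁, y₁] = c) (h12 : XX K [y₁, y₂] = c) (h22 : XX K [y₂, y₂] = c) {W : κ → F}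
    (hW : W ≠ 0) :
    XX K [fun q : ι × κ => y₁ q.1, fun q : ι × κ => W q.2] =
      XX K [fun q : ι × κ => y₂ q.1, fun q : ι × κ => W q.2] := by
  have h21 : XX K [y₂, y₁] = c := (B6_sw y₂ y₁).trans h12
  exact le_antisymm (B6_half hF h₁ h₂ c hc h11 h12 h22 hW) (B6_half hF h₂ h₁ c hc h22 h21 h11 hW)

end Pool.Agent.Lib.MP_1e3e9c_agW
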