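import Mathlib
import Pool.Agent.Lib.MP_1e3e9c_agU.B2
import Pool.Agent.Lib.MP_1e3e9c_agU.Vl

/-!
# MP_1e3e9c_ag, project W, leaf B7: weak approximation

`two`: `v ≠ v'` discrete valuation rings of `F`. Neither contains the other (a discrete valuation ring is a
maximal proper subring of its field of fractions: if `v ⊆ v'` and `x ∈ v' \ v` then `x⁻¹` has positive order in `v`
and every element of `F` is an element of `v` times a power of `x`, so `v' = ⊤`, not a DVR). So there is
`x ∈ v'`, `x ∉ v`: `w = x⁻¹`: `ord v w > 0`, `ord v' w ≤ 0`.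
`weak`: induction on the finite set `T`: let `w` be good for `T` and `w₁` for one more ring `v₁` (`two`). If
`ord v₁ w ≤ 0` take `w`. Otherwise take `w ^ N + m * w₁` with natural numbers `N ≥ 1`, `m ≥ 1` (`m` is a unit of
all the rings, because `(m : F)⁻¹ ∈ K`): `ord v (..) > 0` (if the sum is not `0`); `ord v₁ (w^N) > 0 ≥ ord v₁ w₁`,
so `ord v₁ (..) = ord v₁ w₁ ≤ 0` and the sum is not `0`. For `v' ∈ T`: if `ord v' w < 0`, for large `N` the
order is `N ord v' w < 0`. If `ord v' w = 0`: the order is `ord v' w₁` if this is negative, `0` if it is positive;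
if it is `0` the order is `0` unless `m = - res (w^N) / res w₁` in the residue field (characteristic `0`): at most
one `m` for each `v'`. Choose first `N`, then `m` outside a finite set.
-/

set_option autoImplicit false

namespace Pool.Agent.Lib.MP_1e3e9c_agW

open IsLocalRing Pool.Agent.Lib.MP_b197b4_ntK Pool.Agent.Lib.MP_1e3e9c_agU

private theorem B7_exists_pos {F : Type} [Field F] {v : ValuationSubring F}
    (hv : IsDiscreteValuationRing v) : ∃ x : F, x ≠ 0 ∧ 0 < ord v x := by
  obtain ⟨p, hp⟩ := IsDiscreteValuationRing.exists_irreducible v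
  have h0 : (p : F) ≠ 0 := by
    intro h
    apply hp.ne_zero
    exact Subtype.ext h
  exact ⟨p, h0, (ord_pos_iff hv h0).2 (val_irr_lt hp)⟩

theorem two {F : Type} [Field F] {v v' : ValuationSubring F} (hv : IsDiscreteValuationRing v)
    (hv' : IsDiscreteValuationRing v') (h : v ≠ v') :
    ∃ w : F, w ≠ 0 ∧ 0 < ord v w ∧ ord v' w ≤ 0 := by
  by_contra hcon
  push Not at hcon
  apply h
  obtain ⟨p, hp0, hp⟩ := B7_exists_pos hv
  have hzero : ∀ x : F, x ≠ 0 → ord v x = 0 → ord v' x = 0 := by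
    intro x hx hox
    have hk : ∀ k : ℤ, 0 < ord v' p + k * ord v' x := by
      intro k
      have h1 : p * x ^ k ≠ 0 := mul_ne_zero hp0 (zpow_ne_zero _ hx)
      have h2 : 0 < ord v (p * x ^ k) := by
        rw [ord_mul hv hp0 (zpow_ne_zero _ hx), ord_zpow hv hx, hox]
        simpa using hp
      have h3 := hcon _ h1 h2
      rw [ord_mul hv' hp0 (zpow_ne_zero _ hx), ord_zpow hv' hx] at h3
      exact h3
    by_contra hne
    have h4 := hk (-(ord v' p + 1) * ord v' x)
    have h6 : 1 ≤ ord v' x * ord v' x := by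
      have : 0 < ord v' x * ord v' x := mul_self_pos.2 hne
      omega
    have h7 := hcon p hp0 hp
    nlinarith
  have hiff : ∀ x : F, x ∈ v ↔ x ∈ v' := by
    intro x
    by_cases hx : x = 0
    · rw [hx]
      exact ⟨fun _ => v'.zero_mem, fun _ => v.zero_mem⟩
    · rw [← ord_nonneg_iff hv hx, ← ord_nonneg_iff hv' hx]
      constructor
      · intro h1
        rcases h1.lt_or_eq with h2 | h2
        · exact (hcon x hx h2).le
        · rw [hzero x hx h2.symm]
      · intro h1
        by_contra h2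
        push Not at h2
        have h3 : 0 < ord v x⁻¹ := by
          rw [ord_inv hv hx]
          omega
        have h4 := hcon x⁻¹ (inv_ne_zero hx) h3
        rw [ord_inv hv' hx] at h4
        omega
  exact SetLike.ext hiff

private theorem B7_one_add {F : Type} [Field F] {v : ValuationSubring F}
    (hv : IsDiscreteValuationRing v) {u : F} (hu : u ≠ 0) (h : 0 < ord v u) :
    1 + u ≠ 0 ∧ ord v (1 + u) = 0 := by
  have h1 : v.valuation (1 + u) = 1 := Valuation.map_one_add_of_lt _ ((ord_pos_iff hv hu).1 h)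
  have h2 : 1 + u ≠ 0 := by
    intro h3
    rw [h3, map_zero] at h1
    exact zero_ne_one h1
  exact ⟨h2, (ord_eq_zero_iff hv h2).2 h1⟩

private theorem B7_pair {F : Type} [Field F] {v v' : ValuationSubring F}
    (hv : IsDiscreteValuationRing v) (hv' : IsDiscreteValuationRing v') (h : v ≠ v') :
    ∃ z : F, z ≠ 0 ∧ ord v z < 0 ∧ 0 < ord v' z := by
  obtain ⟨a, ha0, ha, ha'⟩ := two hv hv' h
  obtain ⟨b, hb0, hb, hb'⟩ := two hv' hv h.symm
  refine ⟨b / a, div_ne_zero hb0 ha0, ?_, ?_⟩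
  · rw [ord_div hv hb0 ha0]
    omega
  · rw [ord_div hv' hb0 ha0]
    omega

private theorem B7_strong {F : Type} [Field F] {v : ValuationSubring F}
    (hv : IsDiscreteValuationRing v) (T : Finset (ValuationSubring F))
    (hT : ∀ v' ∈ T, IsDiscreteValuationRing v' ∧ v' ≠ v) :
    ∃ y : F, y ≠ 0 ∧ ord v y < 0 ∧ ∀ v' ∈ T, 0 < ord v' y := by
  classical
  induction T using Finset.induction_on with
  | empty =>
    obtain ⟨p, hp0, hp⟩ := B7_exists_pos hv
    refine ⟨p⁻¹, inv_ne_zero hp0, ?_, fun v' hv' => absurd hv' (Finset.notMem_empty _)⟩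
    rw [ord_inv hv hp0]
    omega
  | insert v₁ T hv₁ ih =>
    obtain ⟨y, hy0, hy, hyT⟩ := ih fun v' hv' => hT v' (Finset.mem_insert_of_mem hv')
    obtain ⟨hd₁, hne₁⟩ := hT v₁ (Finset.mem_insert_self _ _)
    obtain ⟨z, hz0, hz, hz₁⟩ := B7_pair hv hd₁ hne₁.symm
    obtain ⟨k, hk1, hk⟩ : ∃ k : ℕ, 1 ≤ k ∧ ∀ v' ∈ T, 0 < (k : ℤ) + ord v' z := by
      refine ⟨1 + ∑ v' ∈ T, (ord v' z).natAbs, by omega, ?_⟩
      intro v' hv'
      have h1 : (ord v' z).natAbs ≤ ∑ v' ∈ T, (ord v' z).natAbs :=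
        Finset.single_le_sum (f := fun v' : ValuationSubring F => (ord v' z).natAbs)
          (fun _ _ => Nat.zero_le _) hv'
      omega
    have hyk0 : y ^ k ≠ 0 := pow_ne_zero _ hy0
    have hkpos : (0 : ℤ) < k := by exact_mod_cast hk1
    have hdT : ∀ v' ∈ T, IsDiscreteValuationRing v' := fun v' hv' =>
      (hT v' (Finset.mem_insert_of_mem hv')).1
    have hbig : ∀ v' ∈ T, 0 < ord v' z + (k : ℤ) * ord v' y := by
      intro v' hv'
      have h1 := hk v' hv'
      have h2 := hyT v' hv'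
      nlinarith
    rcases le_or_gt 0 (ord v₁ y) with hc | hc
    · refine ⟨z * y ^ k, mul_ne_zero hz0 hyk0, ?_, ?_⟩
      · rw [ord_mul hv hz0 hyk0, ord_pow hv hy0]
        nlinarith
      · intro v' hv'
        rcases Finset.mem_insert.1 hv' with h1 | h1
        · rw [h1, ord_mul hd₁ hz0 hyk0, ord_pow hd₁ hy0]
          positivity
        · rw [ord_mul (hdT v' h1) hz0 hyk0, ord_pow (hdT v' h1) hy0]
          exact hbig v' h1
    · have hinv0 : (y ^ k)⁻¹ ≠ 0 := inv_ne_zero hyk0
      have hp : 0 < ord v (y ^ k)⁻¹ := by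
        rw [ord_inv hv hyk0, ord_pow hv hy0]
        nlinarith
      have hp₁ : 0 < ord v₁ (y ^ k)⁻¹ := by
        rw [ord_inv hd₁ hyk0, ord_pow hd₁ hy0]
        nlinarith
      obtain ⟨hs0, hs⟩ := B7_one_add hv hinv0 hp
      obtain ⟨_, hs₁⟩ := B7_one_add hd₁ hinv0 hp₁
      have hx0 : z / (1 + (y ^ k)⁻¹) ≠ 0 := div_ne_zero hz0 hs0
      refine ⟨z / (1 + (y ^ k)⁻¹), hx0, ?_, ?_⟩
      · rw [ord_div hv hz0 hs0, hs]
        omega
      · intro v' hv'
        rcases Finset.mem_insert.1 hv' with h1 | h1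
        · rw [h1, ord_div hd₁ hz0 hs0, hs₁]
          omega
        · have hd' := hdT v' h1
          have h2 : 0 < ord v' (y ^ k) := by
            rw [ord_pow hd' hy0]
            exact mul_pos hkpos (hyT v' h1)
          obtain ⟨h3, h4⟩ := B7_one_add hd' hyk0 h2
          have h5 : z / (1 + (y ^ k)⁻¹) = z * y ^ k / (1 + y ^ k) := by
            have h6 : 1 + (y ^ k)⁻¹ = (1 + y ^ k) / y ^ k := by
              field_simp
              ring
            rw [h6, div_div_eq_mul_div]
          rw [h5, ord_div hd' (mul_ne_zero hz0 hyk0) h3, ord_mul hd' hz0 hyk0, h4, ord_pow hd' hy0]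
          have := hbig v' h1
          omega

theorem weak {F : Type} [Field F] [CharZero F] {K : Subfield F} {v : ValuationSubring F}
    (hv : Dv K v) (T : Finset (ValuationSubring F)) (hT : ∀ v' ∈ T, Dv K v' ∧ v' ≠ v) :
    ∃ w : F, w ≠ 0 ∧ 0 < ord v w ∧ ∀ v' ∈ T, ord v' w ≤ 0 := by
  obtain ⟨y, hy0, hy, hyT⟩ := B7_strong hv.1 T fun v' hv' => ⟨(hT v' hv').1.1, (hT v' hv').2⟩
  refine ⟨y⁻¹, inv_ne_zero hy0, ?_, ?_⟩
  · rw [ord_inv hv.1 hy0]
    omega
  · intro v' hv'
    rw [ord_inv (hT v' hv').1.1 hy0]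
    have := hyT v' hv'
    omega

end Pool.Agent.Lib.MP_1e3e9c_agW
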