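import Mathlib
import Pool.Agent.Lib.MP_1e3e9c_agW.B6
import Pool.Agent.Lib.MP_1e3e9c_agW.B7

/-!
# MP_1e3e9c_ag, project W, leaf B8: equal degrees of the reductions

Let `δ v = XR K v [y₁] - XR K v [y₂]` (integers). `nt_sum`: for `W : Fin 3 → F`, `W ≠ 0`:
`∑_v δ v al v W = 0`: by `XX_ht_sum` (with `z = W ∘ snd`, `l = [y₁ ∘ fst]`, index set `ι × Fin 3`; `XX_perm`) and
`XR_comap`, `al v (W ∘ snd) = al v W`: `XX K [y₁ ∘ fst, W ∘ snd] = - ∑_v XR K v [y₁] al v W`; the same for `y₂`;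
`nt_num`. (Finite supports: `XR_fin` for the coordinates of `W`.)
`nt_res`: suppose `δ v ≠ 0`. Let `w₁` be a uniformizer of `v`, `ord v w₁ > 0`; `T` = the set of the `v' ≠ v` with
`Dv K v'`, `ord v' w₁ ≠ 0` and (`XR K v' [y₁] ≠ 0` or `XR K v' [y₂] ≠ 0`), finite by `XR_fin` (`l = [y₁]`, `[y₂]`).
`weak`: `w₂`. `nt_sum` for `W = ![1, w₁⁻¹, w₁⁻¹]`, `![1, w₂⁻¹, w₂⁻¹]`, `![1, w₁⁻¹, w₂⁻¹]`:
`al v' W = - max 0 (ord v' w₁)`, `- max 0 (ord v' w₂)`, `- max 0 (max (ord v' w₁) (ord v' w₂))`. So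
`∑_v' δ v' m v' = 0`, `m = max 0 o₁ + max 0 o₂ - max 0 (max o₁ o₂) = min (max 0 o₁) (max 0 o₂)`. For `v' ≠ v` one of
`δ v' = 0`, `o₁ ≤ 0`, `o₂ ≤ 0` holds, so the sum is `δ v m v`, `m v > 0`: contradiction.
-/

set_option autoImplicit false

namespace Pool.Agent.Lib.MP_1e3e9c_agW

open IsLocalRing Pool.Agent.Lib.MP_b197b4_ntK Pool.Agent.Lib.MP_1e3e9c_agU

variable {F ι : Type} [Field F] [CharZero F] [Fintype ι] {K : Subfield F}

omit [CharZero F] in
private theorem B8_al {κ : Type} [Fintype κ] {v : ValuationSubring F} {r : κ → ι}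
    (hr : Function.Surjective r) {z : ι → F} (hz : z ≠ 0) :
    al v (fun q => z (r q)) = al v z := by
  have hz' : (fun q => z (r q)) ≠ 0 := by
    obtain ⟨j, hj⟩ := Function.ne_iff.1 hz
    obtain ⟨q, rfl⟩ := hr j
    intro h
    exact hj (congrFun h q)
  apply le_antisymm
  · obtain ⟨j, hj, e⟩ := exists_al (V := v) hz
    obtain ⟨q, rfl⟩ := hr j
    rw [← e]
    exact al_le (V := v) (z := fun q => z (r q)) (j := q) hj
  · obtain ⟨q, hq, e⟩ := exists_al (V := v) hz'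
    rw [← e]
    exact al_le (V := v) (z := z) (j := r q) hq

private theorem B8_fin (hF : FF K 2) {y : ι → F} (hy : y ≠ 0) {κ : Type} [Fintype κ] {W : κ → F}
    (hW : W ≠ 0) :
    {v : ValuationSubring F | Dv K v ∧ (XR K v [y] : ℤ) * al v W ≠ 0}.Finite := by
  have hl : ∀ w ∈ [y], w ≠ 0 := by
    intro w hw
    rw [List.mem_singleton] at hw
    rw [hw]
    exact hy
  have h1 : (⋃ j : {j : κ // W j ≠ 0},
      {v : ValuationSubring F | Dv K v ∧ (XR K v [y] : ℤ) * ord v (W j) ≠ 0}).Finite :=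
    Set.finite_iUnion fun j => XR_fin [y] hl hF j.2
  refine h1.subset ?_
  rintro v ⟨hv, hne⟩
  obtain ⟨j, hj, e⟩ := exists_al (V := v) hW
  refine Set.mem_iUnion.2 ⟨⟨j, hj⟩, hv, ?_⟩
  rw [e]
  exact hne

private theorem B8_supp (hF : FF K 2) {y : ι → F} (hy : y ≠ 0) {κ : Type} [Fintype κ] {W : κ → F}
    (hW : W ≠ 0) :
    (Function.support fun v : ValuationSubring F =>
      ∑ᶠ (_ : Dv K v), (XR K v [y] : ℤ) * al v W).Finite := by
  classical
  refine (B8_fin hF hy hW).subset ?_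
  intro v hv
  rw [Function.mem_support] at hv
  by_cases hd : Dv K v
  · rw [finsum_eq_if, if_pos hd] at hv
    exact ⟨hd, hv⟩
  · rw [finsum_eq_if, if_neg hd] at hv
    exact absurd rfl hv

private theorem B8_ht (hF : FF K 2) {y : ι → F} (hy : y ≠ 0) {κ : Type} [Fintype κ] {W : κ → F}
    (hW : W ≠ 0) :
    (XX K [fun q : ι × κ => y q.1, fun q : ι × κ => W q.2] : ℤ) =
      -∑ᶠ (v : ValuationSubring F) (_ : Dv K v), (XR K v [y] : ℤ) * al v W := by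
  obtain ⟨i, hi⟩ := Function.ne_iff.1 hy
  obtain ⟨k, hk⟩ := Function.ne_iff.1 hW
  have hy' : (fun q : ι × κ => y q.1) ≠ 0 := fun h => hi (congrFun h (i, k))
  have hW' : (fun q : ι × κ => W q.2) ≠ 0 := fun h => hk (congrFun h (i, k))
  have hr1 : Function.Surjective (fun q : ι × κ => q.1) := fun j => ⟨(j, k), rfl⟩
  have hr2 : Function.Surjective (fun q : ι × κ => q.2) := fun j => ⟨(i, j), rfl⟩
  have hl : ∀ w ∈ [fun q : ι × κ => y q.1], w ≠ 0 := by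
    intro w hw
    rw [List.mem_singleton] at hw
    rw [hw]
    exact hy'
  rw [XX_perm K (List.Perm.swap (fun q : ι × κ => W q.2) (fun q : ι × κ => y q.1) []),
    XX_ht_sum [fun q : ι × κ => y q.1] hl hF hW']
  congr 1
  refine finsum_congr fun v => finsum_congr fun hv => ?_
  have h1 : XR K v [fun q : ι × κ => y q.1] = XR K v [y] := XR_comap hv hr1 hy
  have h2 : al v (fun q : ι × κ => W q.2) = al v W := B8_al hr2 hW
  rw [h1, h2]

theorem nt_sum (hF : FF K 2) {y₁ y₂ : ι → F} (h₁ : y₁ ≠ 0) (h₂ : y₂ ≠ 0) (c : ℕ) (hc : 0 < c)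
    (h11 : XX K [y₁, y₁] = c) (h12 : XX K [y₁, y₂] = c) (h22 : XX K [y₂, y₂] = c)
    (W : Fin 3 → F) (hW : W ≠ 0) :
    ∑ᶠ (v : ValuationSubring F) (_ : Dv K v),
      ((XR K v [y₁] : ℤ) - XR K v [y₂]) * al v W = 0 := by
  classical
  have h0 := nt_num hF h₁ h₂ c hc h11 h12 h22 hW
  have e1 := B8_ht hF h₁ hW
  have e2 := B8_ht hF h₂ hW
  rw [h0] at e1
  have e3 := neg_injective (e1.symm.trans e2)
  have e4 := finsum_sub_distrib (B8_supp hF h₁ hW) (B8_supp hF h₂ hW)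
  rw [e3, sub_self] at e4
  rw [← e4]
  refine finsum_congr fun v => ?_
  by_cases hd : Dv K v
  · simp only [finsum_eq_if, if_pos hd]
    rw [sub_mul]
  · simp only [finsum_eq_if, if_neg hd]
    rw [sub_self]

omit [CharZero F] in
private theorem B8_al3 {v : ValuationSubring F} (hv : IsDiscreteValuationRing v) {a b : F}
    (ha : a ≠ 0) (hb : b ≠ 0) :
    al v ![1, a⁻¹, b⁻¹] = - max 0 (max (ord v a) (ord v b)) := by
  have h0 : (![1, a⁻¹, b⁻¹] : Fin 3 → F) ≠ 0 := by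
    intro h
    exact one_ne_zero (congrFun h 0)
  have o0 : ord v (1 : F) = 0 := ord_one v hv
  have o1 : ord v a⁻¹ = - ord v a := ord_inv hv ha
  have o2 : ord v b⁻¹ = - ord v b := ord_inv hv hb
  apply le_antisymm
  · have l0 : al v ![1, a⁻¹, b⁻¹] ≤ ord v (1 : F) :=
      al_le (V := v) (z := ![1, a⁻¹, b⁻¹]) (j := 0) one_ne_zero
    have l1 : al v ![1, a⁻¹, b⁻¹] ≤ ord v a⁻¹ :=
      al_le (V := v) (z := ![1, a⁻¹, b⁻¹]) (j := 1) (inv_ne_zero ha)
    have l2 : al v ![1, a⁻¹, b⁻¹] ≤ ord v b⁻¹ :=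
      al_le (V := v) (z := ![1, a⁻¹, b⁻¹]) (j := 2) (inv_ne_zero hb)
    omega
  · refine le_al h0 ?_
    intro j hj
    fin_cases j
    · change _ ≤ ord v (1 : F)
      omega
    · change _ ≤ ord v a⁻¹
      omega
    · change _ ≤ ord v b⁻¹
      omega

private theorem B8_supp2 (hF : FF K 2) {y₁ y₂ : ι → F} (h₁ : y₁ ≠ 0) (h₂ : y₂ ≠ 0)
    {W : Fin 3 → F} (hW : W ≠ 0) :
    (Function.support fun v : ValuationSubring F =>
      ∑ᶠ (_ : Dv K v), ((XR K v [y₁] : ℤ) - XR K v [y₂]) * al v W).Finite := by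
  classical
  refine ((B8_supp hF h₁ hW).union (B8_supp hF h₂ hW)).subset ?_
  intro v hv
  rw [Function.mem_support] at hv
  by_contra hcon
  rw [Set.mem_union, not_or, Function.notMem_support, Function.notMem_support] at hcon
  obtain ⟨c1, c2⟩ := hcon
  apply hv
  by_cases hd : Dv K v
  · simp only [finsum_eq_if, if_pos hd] at c1 c2 ⊢
    rw [sub_mul, c1, c2, sub_self]
  · simp only [finsum_eq_if, if_neg hd]

theorem nt_res (hF : FF K 2) {y₁ y₂ : ι → F} (h₁ : y₁ ≠ 0) (h₂ : y₂ ≠ 0) (c : ℕ) (hc : 0 < c)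
    (h11 : XX K [y₁, y₁] = c) (h12 : XX K [y₁, y₂] = c) (h22 : XX K [y₂, y₂] = c)
    {v : ValuationSubring F} (hv : Dv K v) : XR K v [y₁] = XR K v [y₂] := by
  classical
  by_contra hne
  have hl : ∀ y : ι → F, y ≠ 0 → ∀ w ∈ [y], w ≠ 0 := by
    intro y hy w hw
    rw [List.mem_singleton] at hw
    rw [hw]
    exact hy
  have hV := hv.1
  obtain ⟨p, hp⟩ := IsDiscreteValuationRing.exists_irreducible v
  have hw1 : (p : F) ≠ 0 := fun h => hp.ne_zero (Subtype.ext h)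
  have hp1 : 0 < ord v (p : F) := (ord_pos_iff hV hw1).2 (val_irr_lt hp)
  obtain ⟨w₁, hw₁⟩ : ∃ w₁ : F, w₁ = (p : F) := ⟨_, rfl⟩
  rw [← hw₁] at hw1 hp1
  have f1 := XR_fin [y₁] (hl y₁ h₁) hF hw1
  have f2 := XR_fin [y₂] (hl y₂ h₂) hF hw1
  obtain ⟨w₂, hw2, hp2, hT⟩ := weak hv ((f1.union f2).toFinset.erase v) (by
    intro v' hv'
    rw [Finset.mem_erase, Set.Finite.mem_toFinset, Set.mem_union] at hv'
    obtain ⟨hn, h3 | h3⟩ := hv'
    · exact ⟨h3.1, hn⟩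
    · exact ⟨h3.1, hn⟩)
  have hWne : ∀ a b : F, (![1, a⁻¹, b⁻¹] : Fin 3 → F) ≠ 0 := by
    intro a b h
    exact one_ne_zero (congrFun h 0)
  have s1 := nt_sum hF h₁ h₂ c hc h11 h12 h22 ![1, w₁⁻¹, w₁⁻¹] (hWne w₁ w₁)
  have s2 := nt_sum hF h₁ h₂ c hc h11 h12 h22 ![1, w₂⁻¹, w₂⁻¹] (hWne w₂ w₂)
  have s3 := nt_sum hF h₁ h₂ c hc h11 h12 h22 ![1, w₁⁻¹, w₂⁻¹] (hWne w₁ w₂)
  have u1 := B8_supp2 hF h₁ h₂ (hWne w₁ w₁)
  have u2 := B8_supp2 hF h₁ h₂ (hWne w₂ w₂)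
  have u3 := B8_supp2 hF h₁ h₂ (hWne w₁ w₂)
  have t1 := finsum_add_distrib u1 u2
  have t2 := finsum_sub_distrib ((u1.union u2).subset (Function.support_add _ _)) u3
  rw [t1, s1, s2, s3, add_zero, sub_zero] at t2
  have key : ∀ v' : ValuationSubring F, Dv K v' → v' ≠ v →
      ((XR K v' [y₁] : ℤ) - XR K v' [y₂]) * (min (max 0 (ord v' w₁)) (max 0 (ord v' w₂))) = 0 := by
    intro v' hv' hn
    by_cases hδ : (XR K v' [y₁] : ℤ) - XR K v' [y₂] = 0
    · rw [hδ, zero_mul]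
    · have hm : min (max 0 (ord v' w₁)) (max 0 (ord v' w₂)) = 0 := by
        by_cases ho : ord v' w₁ = 0
        · rw [ho]
          omega
        · have h4 : ord v' w₂ ≤ 0 := by
            apply hT
            rw [Finset.mem_erase, Set.Finite.mem_toFinset, Set.mem_union]
            refine ⟨hn, ?_⟩
            by_cases h5 : (XR K v' [y₁] : ℤ) = 0
            · right
              refine ⟨hv', mul_ne_zero ?_ ho⟩
              intro h6
              rw [h5, h6, sub_self] at hδ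
              exact hδ rfl
            · left
              exact ⟨hv', mul_ne_zero h5 ho⟩
          omega
      rw [hm, mul_zero]
  have hrw : ∀ v' : ValuationSubring F,
      (∑ᶠ (_ : Dv K v'), ((XR K v' [y₁] : ℤ) - XR K v' [y₂]) * al v' ![1, w₁⁻¹, w₁⁻¹]) +
        (∑ᶠ (_ : Dv K v'), ((XR K v' [y₁] : ℤ) - XR K v' [y₂]) * al v' ![1, w₂⁻¹, w₂⁻¹]) -
        (∑ᶠ (_ : Dv K v'), ((XR K v' [y₁] : ℤ) - XR K v' [y₂]) * al v' ![1, w₁⁻¹, w₂⁻¹]) =
      if Dv K v' then -(((XR K v' [y₁] : ℤ) - XR K v' [y₂]) *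
        (min (max 0 (ord v' w₁)) (max 0 (ord v' w₂)))) else 0 := by
    intro v'
    by_cases hd : Dv K v'
    · simp only [finsum_eq_if, if_pos hd]
      rw [B8_al3 hd.1 hw1 hw1, B8_al3 hd.1 hw2 hw2, B8_al3 hd.1 hw1 hw2, ← mul_add, ← mul_sub,
        ← mul_neg]
      congr 1
      omega
    · simp only [finsum_eq_if, if_neg hd]
      rw [add_zero, sub_zero]
  rw [finsum_congr hrw, finsum_eq_single _ v] at t2
  · rw [if_pos hv, neg_eq_zero] at t2
    rcases mul_eq_zero.1 t2 with h6 | h6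
    · apply hne
      omega
    · omega
  · intro v' hn
    by_cases hd : Dv K v'
    · rw [if_pos hd, key v' hd hn, neg_zero]
    · rw [if_neg hd]

end Pool.Agent.Lib.MP_1e3e9c_agW
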