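import Mathlib
import Pool.Agent.Lib.MP_1e3e9c_agU.C10
import Pool.Agent.Lib.MP_1e3e9c_agU.D4
import Pool.Agent.Lib.MP_1e3e9c_agW.B1
import Pool.Agent.Lib.MP_1e3e9c_agW.B8

/-!
# MP_1e3e9c_ag, project W, leaf C1: the dichotomy on a surface

Let `g = ev (T.c 0) q ≠ 0`. `XX_psi`: `XX_ht_sum` for `zz q`, `l = [y]`, and `XR_prod` for `g`
(`al_zz`; finite supports by `XR_fin`).
`self`: if `g = 0`: `wd (p a) q = 0` for some `a` (`wd_of_zero`), `zz q ∼ zz (p a)` (`pr_pt_of_wd`, `pr_zz`), so by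
`XX_pr` both numbers are `c`. If `g ≠ 0`: by `XX_psi` with `y = zz q` and `y = zz (p 0)` it is enough that
`XR K v [zz q] ψ = XR K v [zz (p 0)] ψ`, `ψ = ord v g - al v (pt q)`, for every `v` with `Dv K v`. `ψ ≥ 0` (`al_le`).
If `ψ > 0` then `rd v (pt q)` is proportional to some `rd v (pt (p a))` (`Two.l2i`), so
`XR K v [zz q] = XR K v [zz (p a)]` (`pr_rd_zz`, `XX_pr`) `= XR K v [zz (p 0)]` (`nt_res`).
`dich`: `index_ineq` for `zz (p 0)`, `zz q`: `c A ≤ A²`, `A = XX K [zz q, zz (p 0)]` (`XX_perm`).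
-/

set_option autoImplicit false
set_option linter.unusedSectionVars false

namespace Pool.Agent.Lib.MP_1e3e9c_agW

open IsLocalRing Pool.Agent.Lib.MP_b197b4_ntK Pool.Agent.Lib.MP_1e3e9c_agU

variable {k F : Type} [Field k] [CharZero k] [Field F] [CharZero F] {n d : ℕ}
  {S : Set (MvPolynomial (Fin (n + 1)) k)} {φ : k →+* F} {K : Subfield F}

private lemma C1_fs {α : Type} {P : α → Prop} (T : Finset α) (hT : ∀ v ∈ T, P v) (f : α → ℤ)
    (hf : ∀ v, P v → f v ≠ 0 → v ∈ T) : ∑ᶠ (v : α) (_ : P v), f v = ∑ v ∈ T, f v := by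
  refine finsum_mem_eq_sum_of_inter_support_eq f (s := {v | P v}) (t := T) ?_
  ext v
  constructor
  · rintro ⟨h1, h2⟩
    exact ⟨hf v h1 h2, h2⟩
  · rintro ⟨h1, h2⟩
    exact ⟨hT v h1, h2⟩

private lemma C1_alfin {F ι : Type} [Field F] [CharZero F] [Fintype ι] {K : Subfield F}
    {κ : Type} [Fintype κ] (l : List (κ → F)) (hl : ∀ w ∈ l, w ≠ 0)
    (hF : FF K (l.length + 1)) {z : ι → F} (hz : z ≠ 0) :
    {v : ValuationSubring F | Dv K v ∧ (XR K v l : ℤ) * al v z ≠ 0}.Finite := by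
  have h1 : (⋃ j : ι, {v : ValuationSubring F | z j ≠ 0 ∧ Dv K v ∧
      (XR K v l : ℤ) * ord v (z j) ≠ 0}).Finite := by
    refine Set.finite_iUnion fun j => ?_
    by_cases hj : z j = 0
    · refine Set.Finite.subset (Set.finite_empty) ?_
      rintro v ⟨h, _⟩
      exact (h hj).elim
    · refine Set.Finite.subset (XR_fin l hl hF hj) ?_
      rintro v ⟨_, h⟩
      exact h
  refine h1.subset ?_
  rintro v ⟨hv, h⟩
  obtain ⟨j, hj, hj'⟩ := exists_al (V := v) hz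
  rw [← hj'] at h
  exact Set.mem_iUnion.2 ⟨j, hj, hv, h⟩

private lemma C1_XR {F ι : Type} [Field F] [Fintype ι] {K : Subfield F} {v : ValuationSubring F}
    {z z' : ι → F} (h : Pr (rd v z) (rd v z')) : XR K v [z] = XR K v [z'] := by
  unfold XR
  have h1 : XX (resS K v) ([z].map (rd v)) = XX (resS K v) ([z'].map (rd v)) :=
    XX_pr (resS K v) (List.Forall₂.cons h List.Forall₂.nil)
  rw [h1]
  rfl

theorem Two.XX_psi (T : Two S φ d) (hF : FF K 2) {q : Fin 2 → F} (h0 : ev (T.c 0) q ≠ 0)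
    {y : Option (Fin (d + 1) → Fin (n + 1)) → F} (hy : y ≠ 0) :
    (XX K [T.zz q, y] : ℤ) = ∑ᶠ (v : ValuationSubring F) (_ : Dv K v),
      (XR K v [y] : ℤ) * (ord v (ev (T.c 0) q) - al v (T.pt q)) := by
  classical
  have hpt : T.pt q ≠ 0 := fun h => h0 (congrFun h 0)
  have hzz : T.zz q ≠ 0 := fun h => h0 (congrFun h none)
  have hl : ∀ w ∈ [y], w ≠ 0 := by
    intro w hw
    rw [List.mem_singleton] at hw
    rw [hw]
    exact hy
  have hF' : FF K ([y].length + 1) := hF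
  have f1 := XR_fin [y] hl hF' h0
  have f2 := C1_alfin (K := K) [y] hl hF' hpt
  let A : Finset (ValuationSubring F) := f1.toFinset ∪ f2.toFinset
  have hA : ∀ v ∈ A, Dv K v := by
    intro v hv
    simp only [A, Finset.mem_union, Set.Finite.mem_toFinset] at hv
    rcases hv with hv | hv
    · exact hv.1
    · exact hv.1
  have s1 : ∑ v ∈ A, (XR K v [y] : ℤ) * ord v (ev (T.c 0) q) = 0 := by
    rw [← C1_fs A hA (fun v => (XR K v [y] : ℤ) * ord v (ev (T.c 0) q)) fun v hv hn => ?_]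
    · exact XR_prod [y] hl hF' h0
    · simp only [A, Finset.mem_union, Set.Finite.mem_toFinset]
      exact Or.inl ⟨hv, hn⟩
  have s2 : (XX K [T.zz q, y] : ℤ) = -∑ v ∈ A, (XR K v [y] : ℤ) * al v (T.pt q) := by
    rw [XX_ht_sum [y] hl hF' hzz]
    simp only [Two.al_zz]
    rw [C1_fs A hA (fun v => (XR K v [y] : ℤ) * al v (T.pt q)) fun v hv hn => ?_]
    simp only [A, Finset.mem_union, Set.Finite.mem_toFinset]
    exact Or.inr ⟨hv, hn⟩
  have s3 : ∑ᶠ (v : ValuationSubring F) (_ : Dv K v),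
      (XR K v [y] : ℤ) * (ord v (ev (T.c 0) q) - al v (T.pt q)) =
      ∑ v ∈ A, (XR K v [y] : ℤ) * (ord v (ev (T.c 0) q) - al v (T.pt q)) := by
    refine C1_fs A hA _ fun v hv hn => ?_
    by_contra hc
    simp only [A, Finset.mem_union, Set.Finite.mem_toFinset, Set.mem_ofPred_eq, not_or, not_and,
      not_not] at hc
    apply hn
    rw [mul_sub, hc.1 hv, hc.2 hv, sub_zero]
  rw [s3, s2]
  simp only [mul_sub]
  rw [Finset.sum_sub_distrib, s1, zero_sub]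

theorem Two.self (hS : NR S) (T : Two S φ d) (hφ : ∀ a, φ a ∈ K) (hF : FF K 2) (c : ℕ)
    (hc : 0 < c) (hab : ∀ a b, XX K [T.zz (T.p a), T.zz (T.p b)] = c) {q : Fin 2 → F}
    (hq : q ≠ 0) : XX K [T.zz q, T.zz q] = XX K [T.zz q, T.zz (T.p 0)] := by
  by_cases h0 : ev (T.c 0) q = 0
  · obtain ⟨a, ha⟩ := T.wd_of_zero h0
    have h1 : Pr (T.zz (T.p a)) (T.zz q) := T.pr_zz (T.pr_pt_of_wd (T.p_ne a) hq ha)
    have h2 : XX K [T.zz (T.p a), T.zz (T.p a)] = XX K [T.zz q, T.zz q] :=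
      XX_pr K (List.Forall₂.cons h1 (List.Forall₂.cons h1 List.Forall₂.nil))
    have h3 : XX K [T.zz (T.p a), T.zz (T.p 0)] = XX K [T.zz q, T.zz (T.p 0)] :=
      XX_pr K (List.Forall₂.cons h1 (List.Forall₂.cons (pr_refl _) List.Forall₂.nil))
    rw [← h2, ← h3, hab, hab]
  · have h1 := T.XX_psi hF h0 (T.zz_ne hq)
    have h2 := T.XX_psi hF h0 (T.zz_ne (T.p_ne 0))
    have h3 : (XX K [T.zz q, T.zz q] : ℤ) = XX K [T.zz q, T.zz (T.p 0)] := by
      rw [h1, h2]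
      refine finsum_congr fun v => finsum_congr fun hv => ?_
      have h4 : al v (T.pt q) ≤ ord v (ev (T.c 0) q) := al_le (V := v) (z := T.pt q) (j := 0) h0
      rcases h4.lt_or_eq with h5 | h5
      · obtain ⟨a, ha⟩ := T.l2i hS hv.1 (fun b => hv.2 _ (hφ b)) h0 h5
        rw [C1_XR (K := K) (T.pr_rd_zz hv.1 hq (T.p_ne a) ha),
          nt_res hF (T.zz_ne (T.p_ne a)) (T.zz_ne (T.p_ne 0)) c hc (hab a a) (hab a 0) (hab 0 0) hv]
      · rw [← h5, sub_self, mul_zero, mul_zero]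
    exact_mod_cast h3

theorem Two.dich (hS : NR S) (T : Two S φ d) (hφ : ∀ a, φ a ∈ K) (hF : FF K 2) (c : ℕ)
    (hc : 0 < c) (hab : ∀ a b, XX K [T.zz (T.p a), T.zz (T.p b)] = c) {q : Fin 2 → F}
    (hq : q ≠ 0) : XX K [T.zz q, T.zz (T.p 0)] = 0 ∨ c ≤ XX K [T.zz q, T.zz (T.p 0)] := by
  have h1 := index_ineq hF (T.zz_ne (T.p_ne 0)) (T.zz_ne hq)
  rw [hab, T.self hS hφ hF c hc hab hq, XX_perm K (List.Perm.swap (T.zz q) (T.zz (T.p 0)) [])] at h1
  rcases Nat.eq_zero_or_pos (XX K [T.zz q, T.zz (T.p 0)]) with h2 | h2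
  · exact Or.inl h2
  · right
    rw [pow_two] at h1
    exact Nat.le_of_mul_le_mul_right h1 h2

end Pool.Agent.Lib.MP_1e3e9c_agW
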