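import Mathlib
import Pool.Agent.Lib.MP_1e3e9c_agW.Defs

/-!
# MP_1e3e9c_ag, project W, leaf A9: a linear form with natural coefficients; products of values

`nat_form`: induction on the finite set of vectors: if `g` works for some of them and `z ≠ 0` is a further one,
`z i₀ ≠ 0`: `g + t e_(i₀)`... or: `g i = t^i`; for each vector `z l ≠ 0` the polynomial `∑ z l i X^i` is not `0` and
has finitely many roots; the natural numbers `t` are infinitely many elements of `κ` (`CharZero`): choose `t`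
which is not a root of the product of these polynomials.
`prod_id`: `wd a b = - wd b a`; exchange the two products. `prod_id'`: `∏_i (e wd p₀ (t i)^m₀ wd p₁ (t i)^m₁)`, in the
same way.
-/

set_option autoImplicit false

namespace Pool.Agent.Lib.MP_1e3e9c_agW

open IsLocalRing Pool.Agent.Lib.MP_b197b4_ntK Pool.Agent.Lib.MP_1e3e9c_agU

private theorem A9_wd_swap {E : Type} [Field E] (a b : Fin 2 → E) : wd a b = (-1) * wd b a := by
  simp only [wd]; ring

theorem nat_form {κ : Type} [Field κ] [CharZero κ] {n N : ℕ} (z : Fin N → Fin (n + 1) → κ)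
    (hz : ∀ l, z l ≠ 0) : ∃ g : Fin (n + 1) → ℕ, ∀ l, ∑ i, (g i : κ) * z l i ≠ 0 := by
  classical
  have key : ∀ l, (∑ i : Fin (n + 1), Polynomial.monomial (i : ℕ) (z l i)) ≠ 0 := by
    intro l h0
    apply hz l
    funext i
    have h1 := congrArg (fun p => Polynomial.coeff p (i : ℕ)) h0
    simp only [Polynomial.finsetSum_coeff, Polynomial.coeff_monomial, Polynomial.coeff_zero] at h1
    rw [Finset.sum_eq_single i] at h1
    · simpa using h1
    · intro b _ hb
      rw [if_neg]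
      intro hbi
      exact hb (Fin.ext hbi)
    · intro hi
      exact absurd (Finset.mem_univ i) hi
  have hP : (∏ l, ∑ i : Fin (n + 1), Polynomial.monomial (i : ℕ) (z l i)) ≠ 0 :=
    Finset.prod_ne_zero_iff.2 fun l _ => key l
  have hinf : (Set.range (Nat.cast : ℕ → κ)).Infinite :=
    Set.infinite_range_of_injective Nat.cast_injective
  obtain ⟨x, ⟨t, rfl⟩, ht⟩ : ∃ x ∈ Set.range (Nat.cast : ℕ → κ),
      (∏ l, ∑ i : Fin (n + 1), Polynomial.monomial (i : ℕ) (z l i)).eval x ≠ 0 := by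
    by_contra hcon
    push Not at hcon
    exact hP (Polynomial.eq_zero_of_infinite_isRoot _ (hinf.mono fun x hx => hcon x hx))
  refine ⟨fun i => t ^ (i : ℕ), fun l h => ?_⟩
  rw [Polynomial.eval_prod, Finset.prod_ne_zero_iff] at ht
  apply ht l (Finset.mem_univ l)
  rw [Polynomial.eval_finsetSum, ← h]
  refine Finset.sum_congr rfl fun i _ => ?_
  rw [Polynomial.eval_monomial]
  push_cast
  ring

theorem prod_id {E : Type} [Field E] {m M : ℕ} (β b : E) (t : Fin m → Fin 2 → E)
    (q : Fin M → Fin 2 → E) :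
    (∏ l, (β * ∏ i, wd (t i) (q l))) * b ^ m =
      (-1) ^ (m * M) * (β ^ M * ∏ i, (b * ∏ l, wd (q l) (t i))) := by
  have h1 : (∏ l : Fin M, ∏ i : Fin m, wd (t i) (q l)) =
      (-1) ^ (m * M) * ∏ i : Fin m, ∏ l : Fin M, wd (q l) (t i) := by
    have h2 : (∏ l : Fin M, ∏ i : Fin m, wd (t i) (q l)) =
        ∏ l : Fin M, ((-1) ^ m * ∏ i : Fin m, wd (q l) (t i)) := by
      refine Finset.prod_congr rfl fun l _ => ?_
      rw [Finset.prod_congr rfl fun i _ => A9_wd_swap (t i) (q l), Finset.prod_mul_distrib]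
      simp
    rw [h2, Finset.prod_mul_distrib, Finset.prod_comm]
    simp [pow_mul]
  rw [Finset.prod_mul_distrib, Finset.prod_mul_distrib, h1]
  simp only [Finset.prod_const, Finset.card_univ, Fintype.card_fin]
  ring

theorem prod_id' {E : Type} [Field E] {m m₀ m₁ : ℕ} (hm : m₀ + m₁ = m) (β e : E)
    (t : Fin m → Fin 2 → E) (p₀ p₁ : Fin 2 → E) :
    β ^ m * ∏ i, (e * wd p₀ (t i) ^ m₀ * wd p₁ (t i) ^ m₁) =
      (-1) ^ (m * m) * (e ^ m * ((β * ∏ i, wd (t i) p₀) ^ m₀ * (β * ∏ i, wd (t i) p₁) ^ m₁)) := by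
  have h1 : ∀ p : Fin 2 → E, (∏ i, wd p (t i)) = (-1) ^ m * ∏ i, wd (t i) p := by
    intro p
    rw [Finset.prod_congr rfl fun i _ => A9_wd_swap p (t i), Finset.prod_mul_distrib]
    simp
  rw [Finset.prod_mul_distrib, Finset.prod_mul_distrib, Finset.prod_pow, Finset.prod_pow, h1 p₀,
    h1 p₁]
  simp only [Finset.prod_const, Finset.card_univ, Fintype.card_fin, mul_pow, ← pow_mul]
  have h2 : β ^ m = β ^ m₀ * β ^ m₁ := by rw [← pow_add, hm]
  have h3 : ((-1 : E)) ^ (m * m) = (-1) ^ (m * m₀) * (-1) ^ (m * m₁) := by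
    rw [← pow_add, ← mul_add, hm]
  rw [h2, h3]
  ring

end Pool.Agent.Lib.MP_1e3e9c_agW
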