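import Mathlib
import Pool.Agent.Lib.MP_1e3e9c_agU.FmC
import Pool.Agent.Lib.MP_1e3e9c_agU.Vl
import Pool.Agent.Lib.MP_1e3e9c_agU.A3
import Pool.Agent.Lib.MP_1e3e9c_agU.A5
import Pool.Agent.Lib.MP_1e3e9c_agW.A8
import Pool.Agent.Lib.MP_1e3e9c_agW.A9

/-!
# MP_1e3e9c_ag, project W, leaf A10: the mean inequality at one valuation

The residue field of `V` has characteristic `0` (`φ`, `CharZero k`). `nat_form` for the vectors
`rd V (pt (q l))`, `rd V (pt (p a))`: natural numbers `g i`; `ℓ(y) = ∑ g i * y i`. By the definition of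
`rd` (`rd_spec`): `ord V (ℓ(pt (q l))) = al V (pt (q l))` (and `ℓ(..) ≠ 0`), the same for `p a`.
`ℓ(f(x))` is the form with coefficients `c' j = ∑ g i * c i j`, not `0` (its value at `p 0` is not). `exists_fac`:
over a finite extension `E`: `ℓ(f(x)) = β ∏_(i < d+1) wd (t i) x`, `β ≠ 0`, `t i ≠ 0`. `exists_over`: `W` on `E` above
`V`, ramification `a`, `rh`; `T' = T.up E`, `W` contains the image of `k`. The value of `ℓ` at `T'.pt (t i)` is `0`, so
`ℓ(rd W (T'.pt (t i))) = 0` (reduce `ℓ(μ⁻¹ pt) = 0`), but `ℓ(rd W (T'.pt (p a))) ≠ 0`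
(`rd W (up) ∼ rh (rd V ..)`, or directly: `ord W ℓ(pt) = a ord V = al W`). So `rd W (T'.pt (t i))` is not
proportional to `rd W (T'.pt (p a))`, `a = 0, 1`, and `ev (T'.c 0) (t i) ≠ 0` (`fac`; otherwise `wd (p a) (t i) = 0`,
`t i` is a multiple of `p a`, but `ℓ(pt (p a)) ≠ 0`). By `Two.l2i` (over `E`, `W`):
`al W (T'.pt (t i)) = ord W (ev (T'.c 0) (t i))` (`≤` always: `al_le`).
`H(f(t i)) = b ∏_l wd (q l) (t i)` (`hf`) is `0` or has `ord W ≥ s al W (T'.pt (t i))` (`H` homogeneous of degree `s` with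
coefficients in `V`). If one of them is `0` then `wd (q l) (t i) = 0` for some `l`, `q l` is a multiple of `t i`,
and `ℓ(pt (q l)) = 0`: impossible. Take `ord W` of `prod_id` (`m = d+1`, `M = (d+1) s`) and of `prod_id'`:
`∑_l ord ℓ(pt (q l)) + (d+1) ord b = (d+1) s ord β + ∑_i ord H(f(t i)) ≥ (d+1) s ord β + s ∑_i ord f_0(t i)` and
`(d+1) ord β + ∑_i ord f_0(t i) = (d+1) ord e + mu_0 ord ℓ(pt (p 0)) + mu_1 ord ℓ(pt (p 1))` (all `ord W = a ord V`, divide
by `a > 0`).
-/

set_option autoImplicit false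

namespace Pool.Agent.Lib.MP_1e3e9c_agW

open IsLocalRing Pool.Agent.Lib.MP_b197b4_ntK Pool.Agent.Lib.MP_1e3e9c_agU

private theorem A10_ell {K : Type} [Field K] {n : ℕ} {V : ValuationSubring K}
    (g : Fin (n + 1) → ℕ) (y : Fin (n + 1) → K) (hy : ∀ i, y i ∈ V) :
    (∑ i, (g i : K) * y i) ∈ V ∧
      res V (∑ i, (g i : K) * y i) = ∑ i, (g i : ResidueField V) * res V (y i) := by
  have h : (∑ i, (g i : K) * y i) = ((∑ i, (g i : V) * (⟨y i, hy i⟩ : V) : V) : K) := by
    push_cast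
    rfl
  constructor
  · rw [h]
    exact SetLike.coe_mem _
  · rw [h, res_coe, map_sum]
    refine Finset.sum_congr rfl fun i _ => ?_
    rw [map_mul, map_natCast, res_of_mem (hy i)]

/-- The value of the form and of its reduction. -/
private theorem A10_key {K : Type} [Field K] {n : ℕ} {V : ValuationSubring K}
    (hV : IsDiscreteValuationRing V) (g : Fin (n + 1) → ℕ) {z : Fin (n + 1) → K} (hz : z ≠ 0) :
    (∑ i, (g i : ResidueField V) * rd V z i ≠ 0 ↔
      (∑ i, (g i : K) * z i ≠ 0 ∧ ord V (∑ i, (g i : K) * z i) = al V z)) := by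
  obtain ⟨-, a, ha, hoa, hmem, hrd⟩ := rd_spec hV hz
  obtain ⟨h1, h2⟩ := A10_ell (V := V) g (fun i => a * z i) hmem
  have h3 : (∑ i, (g i : K) * (a * z i)) = a * ∑ i, (g i : K) * z i := by
    rw [Finset.mul_sum]
    exact Finset.sum_congr rfl fun i _ => by ring
  rw [h3] at h1 h2
  have h4 : (∑ i, (g i : ResidueField V) * rd V z i) = res V (a * ∑ i, (g i : K) * z i) := by
    rw [h2]
    exact Finset.sum_congr rfl fun i _ => by rw [hrd i]
  rw [h4]
  constructor
  · intro h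
    have h5 : (∑ i, (g i : K) * z i) ≠ 0 := by
      intro h0
      rw [h0, mul_zero, res_zero] at h
      exact h rfl
    refine ⟨h5, ?_⟩
    have h6 := (res_ne_zero_iff h1).1 h
    rw [← ord_eq_zero_iff hV (mul_ne_zero ha h5), ord_mul hV ha h5, hoa] at h6
    omega
  · rintro ⟨h5, h6⟩
    rw [res_ne_zero_iff h1, ← ord_eq_zero_iff hV (mul_ne_zero ha h5), ord_mul hV ha h5, hoa, h6]
    omega

private theorem A10_ord_prod {K : Type} [Field K] {V : ValuationSubring K}
    (hV : IsDiscreteValuationRing V) {σ : Type} (s : Finset σ) (f : σ → K)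
    (hf : ∀ i ∈ s, f i ≠ 0) : ord V (∏ i ∈ s, f i) = ∑ i ∈ s, ord V (f i) := by
  classical
  induction s using Finset.induction_on with
  | empty => rw [Finset.prod_empty, Finset.sum_empty, ord_one V hV]
  | insert i s hi ih =>
    rw [Finset.prod_insert hi, Finset.sum_insert hi,
      ord_mul hV (hf i (Finset.mem_insert_self i s))
        (Finset.prod_ne_zero_iff.2 fun j hj => hf j (Finset.mem_insert_of_mem hj)),
      ih fun j hj => hf j (Finset.mem_insert_of_mem hj)]

private theorem A10_ord_sign {K : Type} [Field K] {V : ValuationSubring K}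
    (hV : IsDiscreteValuationRing V) (m : ℕ) : ord V ((-1 : K) ^ m) = 0 := by
  have h1 : ord V (-1 : K) = 0 := by
    have h := ord_mul hV (neg_ne_zero.2 (one_ne_zero (α := K))) (neg_ne_zero.2 (one_ne_zero (α := K)))
    rw [neg_mul_neg, one_mul, ord_one V hV] at h
    omega
  rw [ord_pow hV (neg_ne_zero.2 one_ne_zero), h1, mul_zero]

/-- The order of the value of a form of degree `s` with integral coefficients. -/
private theorem A10_hom {F E : Type} [Field F] [Field E] (ψ : F →+* E) {n s : ℕ}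
    {V : ValuationSubring F} {W : ValuationSubring E} (hW : IsDiscreteValuationRing W)
    (hVW : ∀ x ∈ V, ψ x ∈ W) (H : MvPolynomial (Fin (n + 1)) F) (hH : H.IsHomogeneous s)
    (hHV : ∀ t, H.coeff t ∈ V) (z : Fin (n + 1) → E) (hne : MvPolynomial.eval₂ ψ z H ≠ 0) :
    (s : ℤ) * al W z ≤ ord W (MvPolynomial.eval₂ ψ z H) := by
  rw [MvPolynomial.eval₂_eq] at hne ⊢
  refine le_ord_sum hW _ _ (fun m hm hm0 => ?_) hne
  have hc0 : ψ (H.coeff m) ≠ 0 := left_ne_zero_of_mul hm0
  have hp0 : (∏ i ∈ m.support, z i ^ m i) ≠ 0 := right_ne_zero_of_mul hm0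
  have hz0 : ∀ i ∈ m.support, z i ^ m i ≠ 0 := Finset.prod_ne_zero_iff.1 hp0
  have hz1 : ∀ i ∈ m.support, z i ≠ 0 := by
    intro i hi h
    apply hz0 i hi
    rw [h, zero_pow]
    exact Finsupp.mem_support_iff.1 hi
  rw [ord_mul hW hc0 hp0, A10_ord_prod hW _ _ hz0]
  have h1 : 0 ≤ ord W (ψ (H.coeff m)) := (ord_nonneg_iff hW hc0).2 (hVW _ (hHV m))
  have h2 : (s : ℤ) = ∑ i ∈ m.support, (m i : ℤ) := by
    have h3 := hH (MvPolynomial.mem_support_iff.1 hm)
    rw [← h3, Finsupp.weight_apply, Finsupp.sum]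
    simp
  have h3 : (s : ℤ) * al W z ≤ ∑ i ∈ m.support, ord W (z i ^ m i) := by
    rw [h2, Finset.sum_mul]
    refine Finset.sum_le_sum fun i hi => ?_
    rw [ord_pow hW (hz1 i hi)]
    exact mul_le_mul_of_nonneg_left (al_le (hz1 i hi)) (by positivity)
  linarith

theorem Two.mean_loc {k F : Type} [Field k] [CharZero k] [Field F] [CharZero F] {n d : ℕ}
    {S : Set (MvPolynomial (Fin (n + 1)) k)} {φ : k →+* F} (hS : NR S) (T : Two S φ d)
    {V : ValuationSubring F} (hV : IsDiscreteValuationRing V) (hφ : ∀ a, φ a ∈ V) (s : ℕ)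
    (H : MvPolynomial (Fin (n + 1)) F) (hH : H.IsHomogeneous s) (hHV : ∀ t, H.coeff t ∈ V)
    (b : F) (hb : b ≠ 0) (q : Fin ((d + 1) * s) → Fin 2 → F) (hq : ∀ l, q l ≠ 0)
    (hf : ∀ (M : Type) [Field M] (ψ : F →+* M) (x : Fin 2 → M),
      MvPolynomial.eval₂ ψ (fun i => ev (fun j => ψ (T.c i j)) x) H =
        ψ b * ∏ l, wd (fun a => ψ (q l a)) x) :
    (s : ℤ) * ((T.mu 0 : ℤ) * al V (T.pt (T.p 0)) + (T.mu 1 : ℤ) * al V (T.pt (T.p 1)) +
      ((d : ℤ) + 1) * ord V T.e) ≤ ∑ l, al V (T.pt (q l)) + ((d : ℤ) + 1) * ord V b := by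
  have : CharZero (ResidueField V) := charZero_of_injective_ringHom (resk φ V hφ).injective
  -- the form
  obtain ⟨g, hg⟩ := nat_form (κ := ResidueField V) (n := n) (N := (d + 1) * s + 2)
    (Fin.append (fun l => rd V (T.pt (q l))) (fun a : Fin 2 => rd V (T.pt (T.p a)))) (by
      intro l
      refine Fin.addCases (fun l => ?_) (fun a => ?_) l
      · rw [Fin.append_left]
        exact (rd_spec hV (T.pt_ne (hq l))).1
      · rw [Fin.append_right]
        exact (rd_spec hV (T.pt_ne (T.p_ne a))).1)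
  have hgq : ∀ l, ∑ i, (g i : F) * T.pt (q l) i ≠ 0 ∧
      ord V (∑ i, (g i : F) * T.pt (q l) i) = al V (T.pt (q l)) := by
    intro l
    have h := hg (Fin.castAdd 2 l)
    simp only [Fin.append_left] at h
    exact (A10_key hV g (T.pt_ne (hq l))).1 h
  have hgp : ∀ a, ∑ i, (g i : F) * T.pt (T.p a) i ≠ 0 ∧
      ord V (∑ i, (g i : F) * T.pt (T.p a) i) = al V (T.pt (T.p a)) := by
    intro a
    have h := hg (Fin.natAdd ((d + 1) * s) a)
    simp only [Fin.append_right] at h
    exact (A10_key hV g (T.pt_ne (T.p_ne a))).1 h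
  -- its restriction to the curve
  have hform : ∀ (M : Type) [Field M] (ψ : F →+* M) (x : Fin 2 → M),
      ev (fun j => ψ (∑ i, (g i : F) * T.c i j)) x =
        ∑ i, (g i : M) * ev (fun j => ψ (T.c i j)) x := by
    intro M _ ψ x
    simp only [ev, map_sum, map_mul, map_natCast, Finset.sum_mul, Finset.mul_sum]
    rw [Finset.sum_comm]
    exact Finset.sum_congr rfl fun i _ => Finset.sum_congr rfl fun j _ => by ring
  have hc' : (fun j => ∑ i, (g i : F) * T.c i j) ≠ 0 := by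
    intro h
    apply (hgp 0).1
    have h1 := hform F (RingHom.id F) (T.p 0)
    simp only [RingHom.id_apply] at h1
    have h2 : ev (fun j => ∑ i, (g i : F) * T.c i j) (T.p 0) = 0 := by
      rw [h]
      simp [ev]
    rw [h2] at h1
    exact h1.symm
  obtain ⟨E, _, _, _, β, t, hβ, ht, hfac⟩ := exists_fac (fun j => ∑ i, (g i : F) * T.c i j) hc'
  have : CharZero E := charZero_of_injective_algebraMap (algebraMap F E).injective
  obtain ⟨W, a, rh, hA⟩ := exists_over (E := E) V hV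
  have hW := hA.dvr
  set T' := T.up E with hT'
  have hpt : ∀ (x : Fin 2 → F) (i), T'.pt (fun a => algebraMap F E (x a)) i =
      algebraMap F E (T.pt x i) := by
    intro x i
    exact (ev_map (algebraMap F E) (T.c i) x).symm
  have hl : ∀ x : Fin 2 → E, ∑ i, (g i : E) * T'.pt x i = β * ∏ l, wd (t l) x := by
    intro x
    have h1 := hfac E (RingHom.id E) x
    simp only [RingHom.id_apply] at h1
    rw [← h1]
    exact (hform E (algebraMap F E) x).symm
  have hlF : ∀ x : Fin 2 → F, ∑ i, (g i : E) * T'.pt (fun a => algebraMap F E (x a)) i =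
      algebraMap F E (∑ i, (g i : F) * T.pt x i) := by
    intro x
    rw [map_sum]
    refine Finset.sum_congr rfl fun i _ => ?_
    rw [hpt, map_mul, map_natCast]
  have hmem : ∀ x ∈ V, algebraMap F E x ∈ W := by
    intro x hx
    have h := hA.com
    rw [← h] at hx
    exact hx
  have hφ' : ∀ x, ((algebraMap F E).comp φ) x ∈ W := fun x => hmem _ (hφ x)
  -- multiples
  have hsc : ∀ (r : E) (x : Fin 2 → E),
      ∑ i, (g i : E) * T'.pt (fun b => r * x b) i = r ^ (d + 1) * ∑ i, (g i : E) * T'.pt x i := by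
    intro r x
    rw [Finset.mul_sum]
    refine Finset.sum_congr rfl fun i _ => ?_
    have h : T'.pt (fun b => r * x b) i = r ^ (d + 1) * T'.pt x i := ev_scale r (T'.c i) x
    rw [h]
    ring
  have hl0 : ∀ i, ∑ i', (g i' : E) * T'.pt (t i) i' = 0 := by
    intro i
    rw [hl]
    have h : wd (t i) (t i) = 0 := by
      simp only [wd]
      ring
    rw [Finset.prod_eq_zero (Finset.mem_univ i) h, mul_zero]
  have hnm : ∀ (x : Fin 2 → F) (i), x ≠ 0 → (∑ i, (g i : F) * T.pt x i ≠ 0) →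
      wd (fun a => algebraMap F E (x a)) (t i) ≠ 0 := by
    intro x i hx hx1 h
    have hx' : (fun a => algebraMap F E (x a)) ≠ 0 := by
      intro h0
      apply hx
      funext b
      exact (map_eq_zero (algebraMap F E)).1 (congrFun h0 b)
    obtain ⟨r, hr⟩ := (wd_eq_zero_iff hx' (t i)).1 h
    have hr0 : r ≠ 0 := by
      intro h0
      apply ht i
      funext b
      rw [hr b, h0, zero_mul]
      rfl
    have h1 : t i = fun b => r * (fun a => algebraMap F E (x a)) b := funext hr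
    have h2 := hl0 i
    rw [h1, hsc, hlF] at h2
    rcases mul_eq_zero.1 h2 with h3 | h3
    · exact hr0 (pow_eq_zero_iff (Nat.succ_ne_zero d) |>.1 h3)
    · exact hx1 ((map_eq_zero (algebraMap F E)).1 h3)
  -- the values of `f_0`
  have hf0 : ∀ i, ev (T'.c 0) (t i) = T'.e * wd (T'.p 0) (t i) ^ T.mu 0 *
      wd (T'.p 1) (t i) ^ T.mu 1 := by
    intro i
    exact T'.fac E (RingHom.id E) (t i)
  have hwp : ∀ b i, wd (T'.p b) (t i) ≠ 0 := fun b i => hnm (T.p b) i (T.p_ne b) (hgp b).1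
  have he' : T'.e ≠ 0 := T'.ene
  have hf0' : ∀ i, ev (T'.c 0) (t i) ≠ 0 := by
    intro i
    rw [hf0]
    exact mul_ne_zero (mul_ne_zero he' (pow_ne_zero _ (hwp 0 i))) (pow_ne_zero _ (hwp 1 i))
  have hle : ∀ i, ord W (ev (T'.c 0) (t i)) ≤ al W (T'.pt (t i)) := by
    intro i
    by_contra hlt
    push Not at hlt
    obtain ⟨b, r, hr, hr1⟩ := T'.l2i hS hW hφ' (hf0' i) hlt
    have h1 : ∑ j, (g j : ResidueField W) * rd W (T'.pt (T'.p b)) j ≠ 0 := by
      refine (A10_key hW g (T'.pt_ne (T'.p_ne b))).2 ?_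
      have h2 : T'.pt (T'.p b) = fun j => algebraMap F E (T.pt (T.p b) j) := by
        funext j
        exact hpt (T.p b) j
      have h3 : ∑ j, (g j : E) * T'.pt (T'.p b) j =
          algebraMap F E (∑ i, (g i : F) * T.pt (T.p b) i) := hlF (T.p b)
      rw [h3, h2, al_abv hA, hA.ram _ (hgp b).1, (hgp b).2]
      exact ⟨fun h => (hgp b).1 ((map_eq_zero (algebraMap F E)).1 h), rfl⟩
    have h2 : ∑ j, (g j : ResidueField W) * rd W (T'.pt (t i)) j = 0 := by
      by_contra h3
      exact ((A10_key hW g (T'.pt_ne (ht i))).1 h3).1 (hl0 i)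
    apply h1
    calc ∑ j, (g j : ResidueField W) * rd W (T'.pt (T'.p b)) j
        = r * ∑ j, (g j : ResidueField W) * rd W (T'.pt (t i)) j := by
          rw [Finset.mul_sum]
          refine Finset.sum_congr rfl fun j _ => ?_
          rw [hr1 j]
          ring
      _ = 0 := by rw [h2, mul_zero]
  -- the values of `H`
  have hwq : ∀ l i, wd (fun a => algebraMap F E (q l a)) (t i) ≠ 0 :=
    fun l i => hnm (q l) i (hq l) (hgq l).1
  have hb' : algebraMap F E b ≠ 0 := fun h => hb ((map_eq_zero (algebraMap F E)).1 h)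
  have hH0 : ∀ i, algebraMap F E b * ∏ l, wd (fun a => algebraMap F E (q l a)) (t i) ≠ 0 :=
    fun i => mul_ne_zero hb' (Finset.prod_ne_zero_iff.2 fun l _ => hwq l i)
  have hHle : ∀ i, (s : ℤ) * al W (T'.pt (t i)) ≤
      ord W (algebraMap F E b * ∏ l, wd (fun a => algebraMap F E (q l a)) (t i)) := by
    intro i
    have h1 := hf E (algebraMap F E) (t i)
    have h2 := hH0 i
    rw [← h1] at h2 ⊢
    exact A10_hom (algebraMap F E) hW hmem H hH hHV (T'.pt (t i)) h2
  -- the two product formulas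
  have hP1 := prod_id β (algebraMap F E b) t (fun l a => algebraMap F E (q l a))
  have hP2 := prod_id' T.musum β T'.e t (T'.p 0) (T'.p 1)
  have hlq : ∀ l, β * ∏ i, wd (t i) (fun a => algebraMap F E (q l a)) =
      algebraMap F E (∑ i, (g i : F) * T.pt (q l) i) := by
    intro l
    rw [← hlF, hl]
  have hlp : ∀ b, β * ∏ i, wd (t i) (T'.p b) =
      algebraMap F E (∑ i, (g i : F) * T.pt (T.p b) i) := by
    intro b
    rw [← hlF (T.p b), hl]
    rfl
  have hlq0 : ∀ l, algebraMap F E (∑ i, (g i : F) * T.pt (q l) i) ≠ 0 :=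
    fun l h => (hgq l).1 ((map_eq_zero (algebraMap F E)).1 h)
  have hlp0 : ∀ b, algebraMap F E (∑ i, (g i : F) * T.pt (T.p b) i) ≠ 0 :=
    fun b h => (hgp b).1 ((map_eq_zero (algebraMap F E)).1 h)
  have hsg : ∀ m : ℕ, ((-1 : E) ^ m) ≠ 0 := fun m => pow_ne_zero _ (neg_ne_zero.2 one_ne_zero)
  have h1 : (a : ℤ) * ∑ l, al V (T.pt (q l)) + ((d : ℤ) + 1) * ((a : ℤ) * ord V b) =
      ((d : ℤ) + 1) * s * ord W β + ∑ i, ord W (algebraMap F E b *
        ∏ l, wd (fun a => algebraMap F E (q l a)) (t i)) := by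
    have h := congrArg (ord W) hP1
    simp only [hlq] at h
    rw [ord_mul hW (Finset.prod_ne_zero_iff.2 fun l _ => hlq0 l) (pow_ne_zero _ hb'),
      A10_ord_prod hW _ _ (fun l _ => hlq0 l), ord_pow hW hb', hA.ram b hb,
      ord_mul hW (hsg _) (mul_ne_zero (pow_ne_zero _ hβ)
        (Finset.prod_ne_zero_iff.2 fun i _ => hH0 i)), A10_ord_sign hW,
      ord_mul hW (pow_ne_zero _ hβ) (Finset.prod_ne_zero_iff.2 fun i _ => hH0 i),
      ord_pow hW hβ, A10_ord_prod hW _ _ (fun i _ => hH0 i)] at h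
    have h' : ∀ l, ord W (algebraMap F E (∑ i, (g i : F) * T.pt (q l) i)) =
        (a : ℤ) * al V (T.pt (q l)) := fun l => by rw [hA.ram _ (hgq l).1, (hgq l).2]
    simp only [h'] at h
    rw [← Finset.mul_sum] at h
    push_cast at h
    linarith
  have h2 : ((d : ℤ) + 1) * ord W β + ∑ i, ord W (ev (T'.c 0) (t i)) =
      (a : ℤ) * (((d : ℤ) + 1) * ord V T.e + ((T.mu 0 : ℤ) * al V (T.pt (T.p 0)) +
        (T.mu 1 : ℤ) * al V (T.pt (T.p 1)))) := by
    have h := congrArg (ord W) hP2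
    simp only [← hf0, hlp] at h
    rw [ord_mul hW (pow_ne_zero _ hβ) (Finset.prod_ne_zero_iff.2 fun i _ => hf0' i),
      ord_pow hW hβ, A10_ord_prod hW _ _ (fun i _ => hf0' i),
      ord_mul hW (hsg _) (mul_ne_zero (pow_ne_zero _ he')
        (mul_ne_zero (pow_ne_zero _ (hlp0 0)) (pow_ne_zero _ (hlp0 1)))), A10_ord_sign hW,
      ord_mul hW (pow_ne_zero _ he') (mul_ne_zero (pow_ne_zero _ (hlp0 0))
        (pow_ne_zero _ (hlp0 1))), ord_pow hW he',
      ord_mul hW (pow_ne_zero _ (hlp0 0)) (pow_ne_zero _ (hlp0 1)), ord_pow hW (hlp0 0),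
      ord_pow hW (hlp0 1), hA.ram _ (hgp 0).1, hA.ram _ (hgp 1).1, (hgp 0).2, (hgp 1).2] at h
    have h3 : ord W T'.e = (a : ℤ) * ord V T.e := hA.ram _ T.ene
    rw [h3] at h
    push_cast at h
    linarith
  have h3 : (s : ℤ) * ∑ i, ord W (ev (T'.c 0) (t i)) ≤ ∑ i, ord W (algebraMap F E b *
        ∏ l, wd (fun a => algebraMap F E (q l a)) (t i)) := by
    rw [Finset.mul_sum]
    refine Finset.sum_le_sum fun i _ => ?_
    exact (mul_le_mul_of_nonneg_left (hle i) (by positivity)).trans (hHle i)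
  have ha : (0 : ℤ) < a := by exact_mod_cast hA.apos
  refine le_of_mul_le_mul_left ?_ ha
  nlinarith [h1, h2, h3]

end Pool.Agent.Lib.MP_1e3e9c_agW
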