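import Mathlib
import Pool.Agent.Lib.MP_1e3e9c_agU.C10
import Pool.Agent.Lib.MP_1e3e9c_agW.A10
import Pool.Agent.Lib.MP_1e3e9c_agW.B1

/-!
# MP_1e3e9c_ag, project W, leaf C2: the mean over the zeros of a form

Compare `mean_le` (leaf F2, with `F2_aux`) and `form_sum` (leaf E2) of project U. `form_sum`: `FF K 1`; sum
`Two.mean_loc` over the places with weights `deg K V`: `∑ deg ord V e = 0 = ∑ deg ord V b` (`prod_formula`),
`∑ deg al V z = - ht K z` (definition of `ht`; finite supports `al_fin`, `ord_fin`):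
`∑_l ht (pt (q l)) ≤ s (mu_0 ht (pt (p 0)) + mu_1 ht (pt (p 1)))` (multiply out the signs).
`mean_le`: cut by `y = zz (p 0)`: `Ω = GF F (Unit × Bool × _)`, `C = gc F _`, `κ = cb K C (fun _ => y) {i | i ∈ [()]}`,
`FF κ 1` (`FF_cb` with `l = [y]`, `XX K [y, y] = c > 0`), `XX K [w, y] = ht κ (up Ω w)` (`XX_ht`). `form_sum` for
`T.up Ω`, `κ`, the form `H.map (algebraMap F Ω)` (`K ⊆ κ`) and the roots `algebraMap ∘ q l` (`up_pt`, `up_zz`,
`ht_zz`): `∑_l XX K [zz (q l), y] ≤ s (mu_0 c + mu_1 c) = s (d+1) c`.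
-/

set_option autoImplicit false

namespace Pool.Agent.Lib.MP_1e3e9c_agW

open IsLocalRing Pool.Agent.Lib.MP_b197b4_ntK Pool.Agent.Lib.MP_1e3e9c_agU

variable {k F : Type} [Field k] [CharZero k] [Field F] [CharZero F] {n d : ℕ}
  {S : Set (MvPolynomial (Fin (n + 1)) k)} {φ : k →+* F} {K : Subfield F}

omit [CharZero k] in
/-- The finite set of places where one of the local terms is not zero. -/
private theorem C2_T (hF : FF K 1) (T : Two S φ d) (N : ℕ) (q : Fin N → Fin 2 → F) {w : F}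
    (hw : w ≠ 0) :
    {V : ValuationSubring F | Dv K V ∧ (ord V w ≠ 0 ∨ ord V T.e ≠ 0 ∨
      (∃ a, al V (T.pt (T.p a)) ≠ 0) ∨ (∃ l, al V (T.pt (q l)) ≠ 0))}.Finite := by
  have h1 : {V : ValuationSubring F | Dv K V ∧ (ord V w ≠ 0 ∨ ord V T.e ≠ 0 ∨
      (∃ a, al V (T.pt (T.p a)) ≠ 0) ∨ (∃ l, al V (T.pt (q l)) ≠ 0))} ⊆
      {V | Dv K V ∧ ord V w ≠ 0} ∪ ({V | Dv K V ∧ ord V T.e ≠ 0} ∪
        ((⋃ a, {V | Dv K V ∧ al V (T.pt (T.p a)) ≠ 0}) ∪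
          (⋃ l, {V | Dv K V ∧ al V (T.pt (q l)) ≠ 0}))) := by
    rintro V ⟨hV, h | h | ⟨l, h⟩ | ⟨l, h⟩⟩
    · exact Or.inl ⟨hV, h⟩
    · exact Or.inr (Or.inl ⟨hV, h⟩)
    · exact Or.inr (Or.inr (Or.inl (Set.mem_iUnion.2 ⟨l, hV, h⟩)))
    · exact Or.inr (Or.inr (Or.inr (Set.mem_iUnion.2 ⟨l, hV, h⟩)))
  refine Set.Finite.subset ((ord_fin hF hw).union ((ord_fin hF T.ene).union
    ((Set.finite_iUnion fun l => al_fin hF _).union (Set.finite_iUnion fun l => al_fin hF _)))) h1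

omit [CharZero F] in
/-- A sum over the places as a finite sum. -/
private theorem C2_sum {A : Finset (ValuationSubring F)} (hA : ∀ V ∈ A, Dv K V)
    (f : ValuationSubring F → ℤ) (h : ∀ V, Dv K V → f V ≠ 0 → V ∈ A) :
    ∑ᶠ (V : ValuationSubring F) (_ : Dv K V), (deg K V : ℤ) * f V =
      ∑ V ∈ A, (deg K V : ℤ) * f V := by
  refine finsum_mem_eq_sum_of_inter_support_eq (s := {V | Dv K V})
    (fun V => (deg K V : ℤ) * f V) ?_
  ext V
  constructor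
  · rintro ⟨h1, h2⟩
    refine ⟨h V h1 ?_, h2⟩
    intro h3
    apply h2
    show (deg K V : ℤ) * f V = 0
    rw [h3, mul_zero]
  · rintro ⟨h1, h2⟩
    exact ⟨hA V h1, h2⟩

theorem Two.form_sum (hS : NR S) (T : Two S φ d) (hφ : ∀ a, φ a ∈ K) (hF : FF K 1) (s : ℕ)
    (H : MvPolynomial (Fin (n + 1)) F) (hH : H.IsHomogeneous s) (hHK : ∀ t, H.coeff t ∈ K)
    (b : F) (hb : b ≠ 0) (q : Fin ((d + 1) * s) → Fin 2 → F) (hq : ∀ l, q l ≠ 0)
    (hf : ∀ (M : Type) [Field M] (ψ : F →+* M) (x : Fin 2 → M),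
      MvPolynomial.eval₂ ψ (fun i => ev (fun j => ψ (T.c i j)) x) H =
        ψ b * ∏ l, wd (fun a => ψ (q l a)) x) :
    ∑ l, ht K (T.pt (q l)) ≤
      (s : ℤ) * ((T.mu 0 : ℤ) * ht K (T.pt (T.p 0)) + (T.mu 1 : ℤ) * ht K (T.pt (T.p 1))) := by
  have hfin := C2_T hF T ((d + 1) * s) q hb
  set A := hfin.toFinset with hAdef
  have hA : ∀ V ∈ A, Dv K V := fun V hV => ((Set.Finite.mem_toFinset hfin).1 hV).1
  have hin : ∀ V, Dv K V → (ord V b ≠ 0 ∨ ord V T.e ≠ 0 ∨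
      (∃ a, al V (T.pt (T.p a)) ≠ 0) ∨ (∃ l, al V (T.pt (q l)) ≠ 0)) →
      V ∈ A := fun V h1 h2 => (Set.Finite.mem_toFinset hfin).2 ⟨h1, h2⟩
  have e1 : ∑ V ∈ A, (deg K V : ℤ) * ord V b = 0 := by
    rw [← C2_sum hA (fun V => ord V b) (fun V h1 h2 => hin V h1 (Or.inl h2))]
    exact prod_formula hF hb
  have e2 : ∑ V ∈ A, (deg K V : ℤ) * ord V T.e = 0 := by
    rw [← C2_sum hA (fun V => ord V T.e) (fun V h1 h2 => hin V h1 (Or.inr (Or.inl h2)))]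
    exact prod_formula hF T.ene
  have e3 : ∀ a, ∑ V ∈ A, (deg K V : ℤ) * al V (T.pt (T.p a)) = -ht K (T.pt (T.p a)) := by
    intro a
    rw [← C2_sum hA (fun V => al V (T.pt (T.p a)))
      (fun V h1 h2 => hin V h1 (Or.inr (Or.inr (Or.inl ⟨a, h2⟩))))]
    unfold ht
    rw [neg_neg]
  have e4 : ∀ l, ∑ V ∈ A, (deg K V : ℤ) * al V (T.pt (q l)) = -ht K (T.pt (q l)) := by
    intro l
    rw [← C2_sum hA (fun V => al V (T.pt (q l)))
      (fun V h1 h2 => hin V h1 (Or.inr (Or.inr (Or.inr ⟨l, h2⟩))))]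
    unfold ht
    rw [neg_neg]
  have e5 : ∑ V ∈ A, (deg K V : ℤ) * ((s : ℤ) * ((T.mu 0 : ℤ) * al V (T.pt (T.p 0)) +
        (T.mu 1 : ℤ) * al V (T.pt (T.p 1)) + ((d : ℤ) + 1) * ord V T.e)) ≤
      ∑ V ∈ A, (deg K V : ℤ) * (∑ l, al V (T.pt (q l)) + ((d : ℤ) + 1) * ord V b) := by
    refine Finset.sum_le_sum (fun V hV => ?_)
    have hD := hA V hV
    exact mul_le_mul_of_nonneg_left
      (T.mean_loc hS hD.1 (fun a => hD.2 _ (hφ a)) s H hH (fun t => hD.2 _ (hHK t)) b hb q hq hf)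
      (Int.natCast_nonneg _)
  have e6 : ∑ V ∈ A, (deg K V : ℤ) * ((s : ℤ) * ((T.mu 0 : ℤ) * al V (T.pt (T.p 0)) +
        (T.mu 1 : ℤ) * al V (T.pt (T.p 1)) + ((d : ℤ) + 1) * ord V T.e)) =
      (s : ℤ) * ((T.mu 0 : ℤ) * (∑ V ∈ A, (deg K V : ℤ) * al V (T.pt (T.p 0))) +
        (T.mu 1 : ℤ) * (∑ V ∈ A, (deg K V : ℤ) * al V (T.pt (T.p 1))) +
        ((d : ℤ) + 1) * ∑ V ∈ A, (deg K V : ℤ) * ord V T.e) := by
    rw [Finset.mul_sum, Finset.mul_sum, Finset.mul_sum, ← Finset.sum_add_distrib,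
      ← Finset.sum_add_distrib, Finset.mul_sum]
    exact Finset.sum_congr rfl (fun V _ => by ring)
  have e7 : ∑ V ∈ A, (deg K V : ℤ) * (∑ l, al V (T.pt (q l)) + ((d : ℤ) + 1) * ord V b) =
      ∑ l, ∑ V ∈ A, (deg K V : ℤ) * al V (T.pt (q l)) +
        ((d : ℤ) + 1) * ∑ V ∈ A, (deg K V : ℤ) * ord V b := by
    rw [Finset.sum_comm (s := Finset.univ) (t := A), Finset.mul_sum, ← Finset.sum_add_distrib]
    refine Finset.sum_congr rfl (fun V _ => ?_)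
    rw [← Finset.mul_sum]
    ring
  rw [e6, e7, e1, e2, e3, e3, Finset.sum_congr rfl (fun l _ => e4 l),
    Finset.sum_neg_distrib] at e5
  linarith

omit [CharZero k] [CharZero F] in
private theorem C2_pne (T : Two S φ d) (a : Fin 2) : T.p a ≠ 0 := by
  intro h
  apply T.wne
  have h2 : ∀ a : Fin 2, a = 0 ∨ a = 1 := by decide
  rcases h2 a with rfl | rfl
  · unfold wd
    rw [h]
    simp
  · unfold wd
    rw [h]
    simp

private theorem C2_aux {Ω : Type} [Field Ω] [CharZero Ω] [Algebra F Ω]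
    {C : Unit × Bool × (Option (Fin (d + 1) → Fin (n + 1))) → Ω} (hC : Gn F C)
    (hS : NR S) (T : Two S φ d) (hφ : ∀ a, φ a ∈ K) (hF : FF K 2) (c : ℕ)
    (hc : 0 < c) (hab : ∀ a b, XX K [T.zz (T.p a), T.zz (T.p b)] = c) (s : ℕ)
    (H : MvPolynomial (Fin (n + 1)) F) (hH : H.IsHomogeneous s) (hHK : ∀ t, H.coeff t ∈ K)
    (b : F) (hb : b ≠ 0) (q : Fin ((d + 1) * s) → Fin 2 → F) (hq : ∀ l, q l ≠ 0)
    (hf : ∀ (M : Type) [Field M] (ψ : F →+* M) (x : Fin 2 → M),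
      MvPolynomial.eval₂ ψ (fun i => ev (fun j => ψ (T.c i j)) x) H =
        ψ b * ∏ l, wd (fun a => ψ (q l a)) x) :
    ∑ l, XX K [T.zz (q l), T.zz (T.p 0)] ≤ s * ((d + 1) * c) := by
  obtain ⟨β, hβ⟩ : ∃ β : Unit → (Option (Fin (d + 1) → Fin (n + 1))) → F,
      β = fun _ => T.zz (T.p 0) := ⟨_, rfl⟩
  have hmap : [()].map β = [T.zz (T.p 0)] := by
    rw [hβ]
    rfl
  have hnd : [()].Nodup := List.nodup_singleton ()
  have h1 : FF (cb K C β {i | i ∈ [()]}) 1 := by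
    refine FF_cb (e := 1) hC β [()] hnd hF [T.zz (T.p 0)] rfl ?_
    rw [hmap]
    exact lt_of_lt_of_eq hc (hab 0 0).symm
  obtain ⟨κ, hκ⟩ : ∃ κ, κ = cb K C β {i | i ∈ [()]} := ⟨_, rfl⟩
  have hKκ : ∀ a ∈ K, algebraMap F Ω a ∈ κ := by
    intro a ha
    rw [hκ]
    exact Subfield.subset_closure (Or.inl (Or.inl ⟨a, ha, rfl⟩))
  have hht : ∀ {y : Fin 2 → F}, y ≠ 0 →
      (XX K [T.zz y, T.zz (T.p 0)] : ℤ) = ht κ ((T.up Ω).pt (fun a => algebraMap F Ω (y a))) := by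
    intro y hy
    have h2 := XX_ht hC β [()] hnd h1 (T.zz_ne hy)
    rw [hmap] at h2
    rw [h2, ← hκ, ← T.up_zz, Two.ht_zz]
  rw [← hκ] at h1
  have h3 := Two.form_sum (K := κ) hS (φ := (algebraMap F Ω).comp φ) (T.up Ω)
    (fun a => hKκ _ (hφ a)) h1 s (MvPolynomial.map (algebraMap F Ω) H) (hH.map _)
    (fun t => by
      rw [MvPolynomial.coeff_map]
      exact hKκ _ (hHK t))
    (algebraMap F Ω b) (fun h => hb ((map_eq_zero (algebraMap F Ω)).1 h))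
    (fun l a => algebraMap F Ω (q l a))
    (fun l h => hq l (funext fun a => (map_eq_zero (algebraMap F Ω)).1 (congrFun h a)))
    (fun M _ ψ x => by
      rw [MvPolynomial.eval₂_map]
      exact hf M (ψ.comp (algebraMap F Ω)) x)
  have h4 : ∀ a, ht κ ((T.up Ω).pt ((T.up Ω).p a)) = (c : ℤ) := by
    intro a
    rw [← hab a 0]
    exact (hht (C2_pne T a)).symm
  have h8 : (∑ l, (XX K [T.zz (q l), T.zz (T.p 0)] : ℤ)) ≤ (s : ℤ) * (((d : ℤ) + 1) * c) := by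
    rw [Finset.sum_congr rfl fun l _ => hht (hq l)]
    refine h3.trans (le_of_eq ?_)
    rw [h4, h4]
    have h9 : ((T.up Ω).mu 0 : ℤ) + ((T.up Ω).mu 1 : ℤ) = (d : ℤ) + 1 := by
      exact_mod_cast (T.up Ω).musum
    rw [← add_mul, h9]
  exact_mod_cast h8

theorem Two.mean_le (hS : NR S) (T : Two S φ d) (hφ : ∀ a, φ a ∈ K) (hF : FF K 2) (c : ℕ)
    (hc : 0 < c) (hab : ∀ a b, XX K [T.zz (T.p a), T.zz (T.p b)] = c) (s : ℕ)
    (H : MvPolynomial (Fin (n + 1)) F) (hH : H.IsHomogeneous s) (hHK : ∀ t, H.coeff t ∈ K)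
    (b : F) (hb : b ≠ 0) (q : Fin ((d + 1) * s) → Fin 2 → F) (hq : ∀ l, q l ≠ 0)
    (hf : ∀ (M : Type) [Field M] (ψ : F →+* M) (x : Fin 2 → M),
      MvPolynomial.eval₂ ψ (fun i => ev (fun j => ψ (T.c i j)) x) H =
        ψ b * ∏ l, wd (fun a => ψ (q l a)) x) :
    ∑ l, XX K [T.zz (q l), T.zz (T.p 0)] ≤ s * ((d + 1) * c) := by
  have hch : CharZero (GF F (Unit × Bool × (Option (Fin (d + 1) → Fin (n + 1))))) :=
    charZero_of_injective_algebraMap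
      (algebraMap F (GF F (Unit × Bool × (Option (Fin (d + 1) → Fin (n + 1)))))).injective
  exact C2_aux (gn_gc F _) hS T hφ hF c hc hab s H hH hHK b hb q hq hf

end Pool.Agent.Lib.MP_1e3e9c_agW
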