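import Mathlib
import Pool.Agent.Lib.MP_1e3e9c_agU.F4a
import Pool.Agent.Lib.MP_1e3e9c_agU.C9
import Pool.Agent.Lib.MP_1e3e9c_agW.B1

/-!
# MP_1e3e9c_ag, project W, leaf C3: a form through a given point

Copy leaf F4 of project U (`F4_key`, `F4_ft`, ...) and adapt: `indep3` for `z = zz (p 0)`
(`XX K [zz (p 0), zz (p 0)] > 0`) gives (`zz` repeats the coordinates of `pt`) `i_1, i_2, i_3 : Fin (n+1)` such that
`pt (p 0) i_1, ...` satisfy no nonzero homogeneous relation over `K`. `dep4` for
`w = (pt q 0, pt q i_1, pt q i_2, pt q i_3)`: `P ≠ 0` homogeneous of degree `s > 0` over `K`, `P(w) = 0`. `H = P`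
with the variables `y_0, y_(i_1), ...` (`rename`), coefficients mapped to `F`. If `H(pt x) = 0` for all `x`:
`P = y_0^a P'` with `P'(0, y_1, y_2, y_3) ≠ 0`; `f_0 ≠ 0` (`T.fac`, `T.ene`; e.g. `ev (T.c 0) (p 0 + p 1) ≠ 0`), so
`P'(f_0(x), ...) = 0` for all `x`; for `x = p 0`: `f_0(p 0) = 0` (`zero_p`), so `P'(0, pt (p 0) i_1, ...) = 0`:
contradiction.
-/

set_option autoImplicit false

namespace Pool.Agent.Lib.MP_1e3e9c_agW

open IsLocalRing Pool.Agent.Lib.MP_b197b4_ntK Pool.Agent.Lib.MP_1e3e9c_agU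

variable {k F : Type} [Field k] [CharZero k] [Field F] [CharZero F] {n d : ℕ}
  {S : Set (MvPolynomial (Fin (n + 1)) k)} {φ : k →+* F} {K : Subfield F}

open Polynomial in
private theorem C3_key {F : Type} [Field F] {K : Subfield F} {P : MvPolynomial (Fin 4) K} (hP : P ≠ 0) {s : ℕ}
    (hs : P.IsHomogeneous s) (g : Fin 4 → Polynomial F) (hg0 : g 0 ≠ 0) (h0 : (g 0).eval 0 = 0)
    (hz : MvPolynomial.aeval g P = 0) :
    ∃ (s' : ℕ) (P' : MvPolynomial (Fin 3) K), P' ≠ 0 ∧ P'.IsHomogeneous s' ∧
      MvPolynomial.aeval (fun b : Fin 3 => (g b.succ).eval 0) P' = 0 := by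
  set A : MvPolynomial (Fin 3) K →ₐ[K] Polynomial F := MvPolynomial.aeval (fun b : Fin 3 => g b.succ) with hA
  set Ψ : Polynomial (MvPolynomial (Fin 3) K) →+* Polynomial F := Polynomial.eval₂RingHom A.toRingHom (g 0) with hΨ
  have h1 : Ψ (MvPolynomial.finSuccEquiv K 3 P) = MvPolynomial.aeval g P := by
    have h : Ψ.comp (MvPolynomial.finSuccEquiv K 3).toAlgHom.toRingHom = (MvPolynomial.aeval g).toRingHom := by
      apply MvPolynomial.ringHom_ext
      · intro r
        have e1 : MvPolynomial.finSuccEquiv K 3 (MvPolynomial.C r) = Polynomial.C (MvPolynomial.C r) := by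
          have := (MvPolynomial.finSuccEquiv K 3).commutes r
          rw [MvPolynomial.algebraMap_eq] at this
          rw [this]
          rfl
        change Ψ (MvPolynomial.finSuccEquiv K 3 (MvPolynomial.C r)) = MvPolynomial.aeval g (MvPolynomial.C r)
        rw [e1, hΨ, Polynomial.coe_eval₂RingHom, Polynomial.eval₂_C, MvPolynomial.aeval_C]
        change A (MvPolynomial.C r) = _
        rw [hA, MvPolynomial.aeval_C]
      · intro i
        change Ψ (MvPolynomial.finSuccEquiv K 3 (MvPolynomial.X i)) = MvPolynomial.aeval g (MvPolynomial.X i)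
        rw [MvPolynomial.aeval_X]
        refine Fin.cases ?_ (fun j => ?_) i
        · rw [MvPolynomial.finSuccEquiv_X_zero, hΨ, Polynomial.coe_eval₂RingHom, Polynomial.eval₂_X]
        · rw [MvPolynomial.finSuccEquiv_X_succ, hΨ, Polynomial.coe_eval₂RingHom, Polynomial.eval₂_C]
          change A (MvPolynomial.X j) = _
          rw [hA, MvPolynomial.aeval_X]
    exact DFunLike.congr_fun h P
  set Pf := MvPolynomial.finSuccEquiv K 3 P with hPf
  have hPf0 : Pf ≠ 0 := by
    intro h
    exact hP ((MvPolynomial.finSuccEquiv K 3).injective (by rw [← hPf, h, map_zero]))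
  set a := Pf.natTrailingDegree with ha
  have hc : Pf.coeff a ≠ 0 := Polynomial.trailingCoeff_nonzero_iff_nonzero.2 hPf0
  have has : a ≤ s := by
    have e1 : Pf.natDegree ≤ s := by
      rw [hPf, MvPolynomial.natDegree_finSuccEquiv]
      exact (MvPolynomial.degreeOf_le_totalDegree P 0).trans (hs.totalDegree hP).le
    exact (Polynomial.natTrailingDegree_le_natDegree _).trans e1
  obtain ⟨R, hR⟩ : X ^ a ∣ Pf := Polynomial.X_pow_dvd_iff.2 fun d hd =>
    Polynomial.coeff_eq_zero_of_lt_natTrailingDegree hd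
  have hR0 : Pf.coeff a = R.coeff 0 := by
    conv_lhs => rw [hR]
    have := Polynomial.coeff_X_pow_mul R a 0
    rwa [zero_add] at this
  have h2 : Ψ R = 0 := by
    have h3 : Ψ Pf = (g 0) ^ a * Ψ R := by
      conv_lhs => rw [hR]
      rw [map_mul, map_pow, hΨ, Polynomial.coe_eval₂RingHom, Polynomial.eval₂_X]
    rw [h1, hz] at h3
    exact (mul_eq_zero.1 h3.symm).resolve_left (pow_ne_zero _ hg0)
  refine ⟨s - a, Pf.coeff a, hc, hs.finSuccEquiv_coeff_isHomogeneous a (s - a) (by omega), ?_⟩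
  have h4 : Polynomial.evalRingHom (0 : F) (Ψ R) = 0 := by rw [h2, map_zero]
  rw [hΨ, Polynomial.coe_eval₂RingHom, Polynomial.hom_eval₂, Polynomial.coe_evalRingHom, h0,
    Polynomial.eval₂_at_zero, ← hR0] at h4
  have h5 := MvPolynomial.comp_aeval_apply (fun b : Fin 3 => g b.succ)
    ((Polynomial.aeval (0 : F)).restrictScalars K) (Pf.coeff a)
  have h6 : ∀ x : Polynomial F, ((Polynomial.aeval (0 : F)).restrictScalars K : Polynomial F →ₐ[K] F) x = x.eval 0 := by
    intro x
    exact congrFun (Polynomial.coe_aeval_eq_eval 0) x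
  simp only [h6] at h5
  rw [← h5]
  exact h4

/-- The coordinate on the line through `p` in the direction `v`. -/
private noncomputable def C3_ft {F : Type} [Field F] {D : ℕ} (c : Fin (D + 1) → F) (p v : Fin 2 → F) :
    Polynomial F :=
  ∑ j : Fin (D + 1), Polynomial.C (c j) * (Polynomial.C (p 0) + Polynomial.X * Polynomial.C (v 0)) ^ (D - (j : ℕ)) *
    (Polynomial.C (p 1) + Polynomial.X * Polynomial.C (v 1)) ^ (j : ℕ)

private theorem C3_eval {F : Type} [Field F] {D : ℕ} (c : Fin (D + 1) → F) (p v : Fin 2 → F) (t : F) :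
    (C3_ft c p v).eval t = ev c (fun a => p a + t * v a) := by
  unfold C3_ft ev
  rw [Polynomial.eval_finsetSum]
  refine Finset.sum_congr rfl fun j _ => ?_
  simp [mul_comm t]

private theorem C3_pt {F : Type} [Field F] [Infinite F] {m : ℕ} (p : Fin m → Fin 2 → F) (hp : ∀ l, p l ≠ 0) :
    ∃ w : Fin 2 → F, ∀ l, wd (p l) w ≠ 0 := by
  classical
  obtain ⟨x, hx⟩ := Infinite.exists_notMem_finset (Finset.univ.image fun l => p l 1 / p l 0)
  refine ⟨![1, x], fun l h => ?_⟩
  have h1 : p l 0 * x - p l 1 * 1 = 0 := h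
  by_cases h0 : p l 0 = 0
  · apply hp l
    funext a
    rw [h0, zero_mul, zero_sub, mul_one, neg_eq_zero] at h1
    fin_cases a
    · exact h0
    · exact h1
  · apply hx
    rw [Finset.mem_image]
    refine ⟨l, Finset.mem_univ _, ?_⟩
    rw [div_eq_iff h0]
    linear_combination -h1

theorem Two.exists_form (T : Two S φ d) (hF : FF K 2)
    (hpos : 0 < XX K [T.zz (T.p 0), T.zz (T.p 0)]) (q : Fin 2 → F) (hq : q ≠ 0) :
    ∃ (s : ℕ) (H : MvPolynomial (Fin (n + 1)) F), 0 < s ∧ H.IsHomogeneous s ∧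
      (∀ t, H.coeff t ∈ K) ∧ MvPolynomial.eval (T.pt q) H = 0 ∧
      ∃ x : Fin 2 → F, MvPolynomial.eval (T.pt x) H ≠ 0 := by
  have hp0 : T.p 0 ≠ 0 := by
    intro h
    apply T.wne
    rw [h]
    unfold wd
    simp
  obtain ⟨i, hi⟩ := indep3 hF (T.zz_ne hp0) hpos
  set ix : Option (Fin (d + 1) → Fin (n + 1)) → Fin (n + 1) := fun o => o.elim 0 (fun σ => σ 0) with hix
  have hzz : ∀ (x : Fin 2 → F) (o : Option (Fin (d + 1) → Fin (n + 1))), T.zz x o = T.pt x (ix o) := by
    intro x o
    cases o <;> rfl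
  set j : Fin 4 → Fin (n + 1) := Fin.cons 0 fun b => ix (i b) with hj
  obtain ⟨s, P, hs, hP, hPs, hPw⟩ := dep4 hF fun a => T.pt q (j a)
  have hev : ∀ x : Fin 2 → F, MvPolynomial.eval (T.pt x)
      (MvPolynomial.map (algebraMap K F) (MvPolynomial.rename j P)) =
        MvPolynomial.aeval (fun a => T.pt x (j a)) P := by
    intro x
    rw [MvPolynomial.eval_map, ← MvPolynomial.aeval_def, MvPolynomial.aeval_rename]
    rfl
  refine ⟨s, MvPolynomial.map (algebraMap K F) (MvPolynomial.rename j P), hs, hPs.rename_isHomogeneous.map _,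
    fun t => ?_, ?_, ?_⟩
  · rw [MvPolynomial.coeff_map]
    exact (MvPolynomial.coeff t (MvPolynomial.rename j P)).2
  · rw [hev]
    exact hPw
  · by_contra hcon
    push Not at hcon
    obtain ⟨w, hw⟩ := C3_pt T.p fun l => by
      intro h
      apply T.wne
      fin_cases l
      · change T.p 0 = 0 at h
        rw [h]
        unfold wd
        simp
      · change T.p 1 = 0 at h
        rw [h]
        unfold wd
        simp
    have hfac : ∀ x, ev (T.c 0) x = T.e * wd (T.p 0) x ^ T.mu 0 * wd (T.p 1) x ^ T.mu 1 :=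
      fun x => T.fac F (RingHom.id F) x
    set g : Fin 4 → Polynomial F := fun a => C3_ft (T.c (j a)) (T.p 0) (fun b => w b - T.p 0 b) with hg
    have hgt : ∀ a t, (g a).eval t = T.pt (fun b => T.p 0 b + t * (w b - T.p 0 b)) (j a) := fun a t =>
      C3_eval _ _ _ _
    have hj0 : j 0 = 0 := rfl
    have hjs : ∀ b : Fin 3, j b.succ = ix (i b) := fun b => rfl
    have key := C3_key hP hPs g ?_ ?_ ?_
    · obtain ⟨s', P', hP', hs', hz'⟩ := key
      apply hP'
      refine hi s' P' hs' ?_
      have h1 : (fun b : Fin 3 => (g b.succ).eval 0) = fun a => T.zz (T.p 0) (i a) := by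
        funext b
        rw [hgt, hjs, hzz]
        have : (fun c => T.p 0 c + 0 * (w c - T.p 0 c)) = T.p 0 := by
          funext c
          ring
        rw [this]
      rw [h1] at hz'
      exact hz'
    · intro h0
      have h1 : (g 0).eval 1 = 0 := by rw [h0, Polynomial.eval_zero]
      rw [hgt, hj0] at h1
      have h2 : (fun b => T.p 0 b + 1 * (w b - T.p 0 b)) = w := by
        funext b
        ring
      rw [h2] at h1
      have h3 : ev (T.c 0) w = 0 := h1
      rw [hfac] at h3
      exact (mul_ne_zero (mul_ne_zero T.ene (pow_ne_zero _ (hw 0))) (pow_ne_zero _ (hw 1))) h3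
    · rw [hgt, hj0]
      have h2 : (fun b => T.p 0 b + 0 * (w b - T.p 0 b)) = T.p 0 := by
        funext b
        ring
      rw [h2]
      exact T.zero_p 0
    · apply Polynomial.funext
      intro t
      rw [Polynomial.eval_zero]
      have h5 := MvPolynomial.comp_aeval_apply g ((Polynomial.aeval t).restrictScalars K) P
      have h6 : ∀ x : Polynomial F,
          ((Polynomial.aeval t).restrictScalars K : Polynomial F →ₐ[K] F) x = x.eval t := by
        intro x
        exact congrFun (Polynomial.coe_aeval_eq_eval t) x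
      simp only [h6] at h5
      rw [h5]
      simp only [hgt]
      rw [← hev]
      exact hcon _

end Pool.Agent.Lib.MP_1e3e9c_agW
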