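import Mathlib
import Pool.Agent.Lib.MP_1e3e9c_agU.FmC
import Pool.Agent.Lib.MP_1e3e9c_agW.C1
import Pool.Agent.Lib.MP_1e3e9c_agW.C2
import Pool.Agent.Lib.MP_1e3e9c_agW.C3

/-!
# MP_1e3e9c_ag, project W, leaf C4: constant mean

Compare leaf F5 of project U. `H`, `s` as in `exists_form` for `q`. `comp_form`: `c' : Fin ((d+1) s + 1) → F`, the
coefficients of `H(f(x))`, not all `0`. `exists_fac`: a finite extension `E`, `b`, `q_l` (`l < (d+1) s`) with
`H(f(x)) = b ∏ wd (q_l) x`. Suppose the first alternative is false: for every `q' ≠ 0` in `E²`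
`XX (upK E K) [zz q', zz (p 0)] ≠ 0` (`T.up E`). Over `E`: `FF (upK E K) 2` (`FF_up`),
`XX (upK E K) [zz (p a), zz (p b)] = [E : F] c` (`XX_up`, `up_zz`). `dich` (for `T.up E`, `upK E K`, `[E : F] c`): all
`XX [zz (q_l), zz (p 0)] ≥ [E : F] c`; `mean_le` (for `T.up E` and `H.map`): the sum over the `(d+1) s` indices is
`≤ s (d+1) [E : F] c`, so all are equal to `[E : F] c`. As `H(pt q) = 0`, `wd (q_l) q = 0` for some `l`,
`zz (q_l) ∼ up (zz q)` (`pr_pt_of_wd`, `pr_zz`, `up_zz`), `XX_pr`, `XX_up`, divide by `[E : F]`.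
-/

set_option autoImplicit false

namespace Pool.Agent.Lib.MP_1e3e9c_agW

open IsLocalRing Pool.Agent.Lib.MP_b197b4_ntK Pool.Agent.Lib.MP_1e3e9c_agU

variable {k F : Type} [Field k] [CharZero k] [Field F] [CharZero F] {n d : ℕ}
  {S : Set (MvPolynomial (Fin (n + 1)) k)} {φ : k →+* F} {K : Subfield F}

/-- If all the terms are at least `A` and their sum is at most `(number) A`, they are equal to `A`. -/
private theorem C4_mean {m N A : ℕ} (hm : m = N) (t : Fin m → ℕ) (h1 : ∀ l, A ≤ t l)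
    (h2 : ∑ l, t l ≤ N * A) (l : Fin m) : t l = A := by
  have h3 : ∑ l, t l ≤ ∑ _l : Fin m, A := by
    rw [Finset.sum_const, Finset.card_univ, Fintype.card_fin, smul_eq_mul]
    exact h2.trans (le_of_eq (by rw [hm]))
  have h4 : ∑ _l : Fin m, A = ∑ l, t l :=
    le_antisymm (Finset.sum_le_sum fun l _ => h1 l) h3
  exact ((Finset.sum_eq_sum_iff_of_le fun l _ => h1 l).1 h4 l (Finset.mem_univ l)).symm

theorem Two.const_mean (hS : NR S) (T : Two S φ d) (hφ : ∀ a, φ a ∈ K) (hF : FF K 2) (c : ℕ)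
    (hc : 0 < c) (hab : ∀ a b, XX K [T.zz (T.p a), T.zz (T.p b)] = c) (q : Fin 2 → F)
    (hq : q ≠ 0) :
    (∃ (E : Type) (_ : Field E) (_ : Algebra F E) (_ : FiniteDimensional F E) (q' : Fin 2 → E),
      q' ≠ 0 ∧ XX (upK E K) [(T.up E).zz q', (T.up E).zz ((T.up E).p 0)] = 0) ∨
    XX K [T.zz q, T.zz (T.p 0)] = c := by
  by_cases halt : ∃ (E : Type) (_ : Field E) (_ : Algebra F E) (_ : FiniteDimensional F E)
      (q' : Fin 2 → E), q' ≠ 0 ∧
        XX (upK E K) [(T.up E).zz q', (T.up E).zz ((T.up E).p 0)] = 0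
  · exact Or.inl halt
  right
  obtain ⟨s, G, hs, hG, hGK, hGq, x0, hx0⟩ := T.exists_form hF (by rw [hab]; exact hc) q hq
  obtain ⟨c', hc'⟩ := comp_form T.c s G hG
  have hcne : c' ≠ 0 := by
    intro h
    apply hx0
    have h1 := hc' F (RingHom.id F) x0
    rw [h] at h1
    have h2 : ev (fun j : Fin ((d + 1) * s + 1) => (RingHom.id F) ((0 : Fin ((d + 1) * s + 1) → F) j))
        x0 = 0 := by
      unfold ev
      refine Finset.sum_eq_zero fun j _ => ?_
      have h3 : (RingHom.id F) ((0 : Fin ((d + 1) * s + 1) → F) j) = 0 := rfl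
      simp only [h3, zero_mul]
    rw [h2] at h1
    exact h1.symm
  obtain ⟨E, iE, iA, iD, e, p, he, hp, hfac⟩ := exists_fac c' hcne
  have : CharZero E := charZero_of_injective_algebraMap (algebraMap F E).injective
  obtain ⟨q1, hq1⟩ : ∃ q1 : Fin 2 → E, q1 = fun a => algebraMap F E (q a) := ⟨_, rfl⟩
  have hq1ne : q1 ≠ 0 := by
    intro h
    apply hq
    funext a
    have h1 := congrFun h a
    rw [hq1] at h1
    exact (map_eq_zero (algebraMap F E)).1 h1
  have hφE : ∀ a, ((algebraMap F E).comp φ) a ∈ upK E K := fun a => ⟨φ a, hφ a, rfl⟩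
  have hFE : FF (upK E K) 2 := FF_up hF
  have hfr : 0 < Module.finrank F E := Module.finrank_pos
  have hcE : 0 < Module.finrank F E * c := Nat.mul_pos hfr hc
  have hzp : ∀ a, (T.up E).zz ((T.up E).p a) = MP_1e3e9c_agU.up E (T.zz (T.p a)) :=
    fun a => T.up_zz E (T.p a)
  have habE : ∀ a b, XX (upK E K) [(T.up E).zz ((T.up E).p a), (T.up E).zz ((T.up E).p b)] =
      Module.finrank F E * c := by
    intro a b
    rw [hzp, hzp, ← hab a b]
    exact XX_up K [T.zz (T.p a), T.zz (T.p b)]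
  have hlow : ∀ q' : Fin 2 → E, q' ≠ 0 → Module.finrank F E * c ≤
      XX (upK E K) [(T.up E).zz q', (T.up E).zz ((T.up E).p 0)] := by
    intro q' hq'
    rcases (T.up E).dich hS hφE hFE _ hcE habE hq' with h | h
    · exact absurd ⟨E, iE, iA, iD, q', hq', h⟩ halt
    · exact h
  have hmean := (T.up E).mean_le hS hφE hFE _ hcE habE s (G.map (algebraMap F E)) (hG.map _)
    (fun t => by
      rw [MvPolynomial.coeff_map]
      exact ⟨G.coeff t, hGK t, rfl⟩) e he p hp (fun M _ ψ x => by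
      rw [MvPolynomial.eval₂_map, ← hfac M ψ x]
      exact (hc' M (ψ.comp (algebraMap F E)) x).symm)
  have heq : ∀ l, XX (upK E K) [(T.up E).zz (p l), (T.up E).zz ((T.up E).p 0)] =
      Module.finrank F E * c :=
    C4_mean rfl _ (fun l => hlow _ (hp l)) (hmean.trans (le_of_eq (by ring)))
  have hprod : ∏ l, wd (p l) q1 = 0 := by
    have h1 := hfac E (RingHom.id E) q1
    have h2 := hc' E (algebraMap F E) q1
    have h3 : MvPolynomial.eval₂ (algebraMap F E)
        (fun i => ev (fun j => algebraMap F E (T.c i j)) q1) G = 0 := by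
      have h4 : (fun i => ev (fun j => algebraMap F E (T.c i j)) q1) =
          fun i => algebraMap F E (T.pt q i) := by
        funext i
        rw [hq1]
        exact (ev_map (algebraMap F E) (T.c i) q).symm
      rw [h4]
      have h5 := MvPolynomial.eval₂_comp_left (algebraMap F E) (RingHom.id F) (T.pt q) G
      have h6 : MvPolynomial.eval₂ (RingHom.id F) (T.pt q) G = 0 := hGq
      rw [h6, map_zero] at h5
      exact h5.symm
    rw [h3] at h2
    have h7 : e * ∏ l, wd (p l) q1 = 0 := h1.symm.trans h2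
    exact (mul_eq_zero.1 h7).resolve_left he
  obtain ⟨l, _, hl⟩ := Finset.prod_eq_zero_iff.1 hprod
  have hXX : XX (upK E K) [(T.up E).zz (p l), (T.up E).zz ((T.up E).p 0)] =
      XX (upK E K) [(T.up E).zz q1, (T.up E).zz ((T.up E).p 0)] :=
    XX_pr _ (List.Forall₂.cons ((T.up E).pr_zz ((T.up E).pr_pt_of_wd (hp l) hq1ne hl))
      (List.Forall₂.cons (pr_refl _) List.Forall₂.nil))
  have hzz : XX (upK E K) [(T.up E).zz q1, (T.up E).zz ((T.up E).p 0)] =
      Module.finrank F E * XX K [T.zz q, T.zz (T.p 0)] := by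
    rw [hq1, T.up_zz, hzp]
    exact XX_up K [T.zz q, T.zz (T.p 0)]
  have h8 := heq l
  rw [hXX, hzz] at h8
  exact Nat.eq_of_mul_eq_mul_left hfr h8

end Pool.Agent.Lib.MP_1e3e9c_agW
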