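import Mathlib
import Pool.Agent.Lib.MP_1e3e9c_agU.C10
import Pool.Agent.Lib.MP_1e3e9c_agU.B3
import Pool.Agent.Lib.MP_1e3e9c_agW.B1

/-!
# MP_1e3e9c_ag, project W, leaf C5: the mean is not constant

Compare leaf F6 of project U (`F6_trans`, `F6_ev`, ... can be copied). Suppose equality for all `q`. Cut by
`y = zz (p 0)`: `Ω`, `C`, `κ` as in leaf C2, `FF κ 1`, `XX K [w, y] = ht κ (up Ω w)`. There is `x ∈ F` not algebraic
over `κ` (otherwise `Ω = F(C)` would be algebraic over `κ`, but `trdeg Ω/κ = 1`); `exists_place`: a place `V` of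
`Ω/κ` and (`x`) an element `w ∈ F` with `ord V w > 0`. Put `q_N = p 0 + w^N p 1` (componentwise),
`g_N = ev (T.c 0) q_N`: by `T.fac`, `wd (p 0) q_N = w^N wd (p 0) (p 1)`, `wd (p 1) q_N = - wd (p 0) (p 1)`, so
`g_N ≠ 0` and `ord V g_N = ord V e + mu_0 N ord V w + (d+1) ord V (wd (p 0) (p 1))` (`mu_0 ≥ 1`).
`ht_eq_excess` (leaf B3 of project U) for `z = up Ω (pt q_N)`, `y = g_N`: `∑ deg (ord g_N - al z) = ht κ (..)
= XX K [zz q_N, y] = c`; all terms are `≥ 0` (`g_N` is a coordinate, `al_le`), `deg ≥ 1` (`deg_pos`), so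
`ord V g_N - al V (pt q_N) ≤ c` for all `N`. But choose `i` with `pt (p 0) i ≠ 0`:
`pt q_N i = pt (p 0) i + w^N (...)` has order `ord V (pt (p 0) i)` for all large `N`, so
`al V (pt q_N) ≤ ord V (pt (p 0) i)` and the left side tends to infinity. Contradiction.
-/

set_option autoImplicit false

namespace Pool.Agent.Lib.MP_1e3e9c_agW

open IsLocalRing Pool.Agent.Lib.MP_b197b4_ntK Pool.Agent.Lib.MP_1e3e9c_agU

variable {k F : Type} [Field k] [CharZero k] [Field F] [CharZero F] {n d : ℕ}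
  {S : Set (MvPolynomial (Fin (n + 1)) k)} {φ : k →+* F} {K : Subfield F}

private theorem C5_ord_neg {Ω : Type} [Field Ω] {V : ValuationSubring Ω}
    (hV : IsDiscreteValuationRing V) {x : Ω} (hx : x ≠ 0) : ord V (-x) = ord V x := by
  have h1 : ord V (-1 : Ω) = 0 := by
    have h := ord_mul hV (x := (-1 : Ω)) (y := -1) (neg_ne_zero.2 one_ne_zero)
      (neg_ne_zero.2 one_ne_zero)
    rw [neg_mul_neg, one_mul, ord_one V hV] at h
    omega
  have h2 : -x = (-1) * x := by ring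
  rw [h2, ord_mul hV (neg_ne_zero.2 one_ne_zero) hx, h1, zero_add]

/-- The order of `∑ a j w ^ (N j)` for large `N`. -/
private theorem C5_ev {Ω : Type} [Field Ω] {V : ValuationSubring Ω}
    (hV : IsDiscreteValuationRing V) {D : ℕ} (a : Fin (D + 1) → Ω) (h0 : a 0 ≠ 0) {w : Ω}
    (hw : 0 < ord V w) (hw0 : w ≠ 0) : ∃ N₁ : ℕ, ∀ N : ℕ, N₁ ≤ N →
      ev a ![1, w ^ N] ≠ 0 ∧ ord V (ev a ![1, w ^ N]) ≤ ord V (a 0) := by
  refine ⟨(ord V (a 0) + 1 + ∑ j, |ord V (a j)|).toNat, fun N hN => ?_⟩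
  have hN1 : ord V (a 0) + 1 + ∑ j, |ord V (a j)| ≤ N := Int.toNat_le.1 hN
  have hev : ev a ![1, w ^ N] = a 0 + ∑ j : Fin D, a j.succ * (w ^ N) ^ (j.succ : ℕ) := by
    unfold ev
    rw [Fin.sum_univ_succ]
    simp
  have hS : ∑ j : Fin D, a j.succ * (w ^ N) ^ (j.succ : ℕ) ≠ 0 →
      ord V (a 0) + 1 ≤ ord V (∑ j : Fin D, a j.succ * (w ^ N) ^ (j.succ : ℕ)) := by
    intro hne
    refine le_ord_sum hV _ _ (fun j _ hj => ?_) hne
    have ha : a j.succ ≠ 0 := left_ne_zero_of_mul hj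
    have hwN : w ^ N ≠ 0 := pow_ne_zero _ hw0
    rw [ord_mul hV ha (pow_ne_zero _ hwN), ord_pow hV hwN, ord_pow hV hw0]
    have h1 : |ord V (a j.succ)| ≤ ∑ j, |ord V (a j)| :=
      Finset.single_le_sum (f := fun j => |ord V (a j)|) (fun i _ => abs_nonneg _)
        (Finset.mem_univ _)
    have h2 : -|ord V (a j.succ)| ≤ ord V (a j.succ) := neg_abs_le _
    have h3 : (N : ℤ) ≤ ((j.succ : ℕ) : ℤ) * ((N : ℤ) * ord V w) := by
      have e1 : (N : ℤ) ≤ (N : ℤ) * ord V w := by nlinarith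
      have e2 : (1 : ℤ) ≤ ((j.succ : ℕ) : ℤ) := by
        rw [Fin.val_succ]
        push_cast
        omega
      nlinarith
    linarith
  by_contra hcon
  have hx : ev a ![1, w ^ N] ≠ 0 → ord V (a 0) + 1 ≤ ord V (ev a ![1, w ^ N]) := by
    intro h
    by_contra h'
    exact hcon ⟨h, by omega⟩
  have hy : -(∑ j : Fin D, a j.succ * (w ^ N) ^ (j.succ : ℕ)) ≠ 0 →
      ord V (a 0) + 1 ≤ ord V (-(∑ j : Fin D, a j.succ * (w ^ N) ^ (j.succ : ℕ))) := by
    intro h
    have h' := neg_ne_zero.1 h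
    rw [C5_ord_neg hV h']
    exact hS h'
  have hsum : ev a ![1, w ^ N] + -(∑ j : Fin D, a j.succ * (w ^ N) ^ (j.succ : ℕ)) = a 0 := by
    rw [hev]
    ring
  have h1 := le_ord_add hV hx hy (by rw [hsum]; exact h0)
  rw [hsum] at h1
  omega

omit [CharZero F] in
/-- There is an element of `F` which is not algebraic over the field of constants of the cut. -/
private theorem C5_trans {Ω μ ι : Type} [Field Ω] [Algebra F Ω] [Fintype ι] {C : μ × Bool × ι → Ω}
    (hC : Gn F C) (β : μ → ι → F) (S : Set μ) (h1 : FF (cb K C β S) 1) :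
    ∃ x : F, ¬ IsAlgebraic (cb K C β S) (algebraMap F Ω x) := by
  by_contra hcon
  push Not at hcon
  let A : IntermediateField (cb K C β S) Ω := algebraicClosure (cb K C β S) Ω
  let B : IntermediateField F Ω := Subfield.toIntermediateField A.toSubfield
    (fun x => mem_algebraicClosure_iff.2 (hcon x))
  have hB : ∀ x : Ω, x ∈ B := by
    intro x
    have h2 : IntermediateField.adjoin F (Set.range C) ≤ B := by
      rw [IntermediateField.adjoin_le_iff]
      rintro _ ⟨q, rfl⟩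
      have h3 : C q ∈ cb K C β S :=
        Subfield.subset_closure (Or.inl (Or.inr ⟨q, rfl⟩))
      exact mem_algebraicClosure_iff.2 (isAlgebraic_algebraMap (⟨C q, h3⟩ : cb K C β S))
    rw [hC.2] at h2
    exact h2 IntermediateField.mem_top
  have halg : Algebra.IsAlgebraic (cb K C β S) Ω := ⟨fun x => mem_algebraicClosure_iff.1 (hB x)⟩
  have h4 := h1.2
  rw [trdeg_eq_zero_iff.2 halg] at h4
  norm_num at h4

/-- One term of a sum over the places with terms `≥ 0`. -/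
private theorem C5_single {Ω : Type} [Field Ω] [CharZero Ω] {κ : Subfield Ω} (h1 : FF κ 1)
    {V : ValuationSubring Ω} (hV : Dv κ V) (f : ValuationSubring Ω → ℤ)
    (hfin : {V' : ValuationSubring Ω | Dv κ V' ∧ f V' ≠ 0}.Finite)
    (hnn : ∀ V', Dv κ V' → 0 ≤ f V') :
    f V ≤ ∑ᶠ (V' : ValuationSubring Ω) (_ : Dv κ V'), (deg κ V' : ℤ) * f V' := by
  classical
  have h3 : ∀ V' : ValuationSubring Ω, (∑ᶠ (_ : Dv κ V'), (deg κ V' : ℤ) * f V') =
      if Dv κ V' then (deg κ V' : ℤ) * f V' else 0 := fun V' => finsum_eq_if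
  rw [finsum_congr h3]
  have h4 := single_le_finsum V (f := fun V' : ValuationSubring Ω => if Dv κ V' then
      (deg κ V' : ℤ) * f V' else 0) ?_ ?_
  · refine le_trans ?_ h4
    rw [if_pos hV]
    have h5 : (1 : ℤ) ≤ (deg κ V : ℤ) := by exact_mod_cast deg_pos h1 hV
    have h6 := hnn V hV
    nlinarith
  · refine hfin.subset fun V' hV' => ?_
    rw [Function.mem_support] at hV'
    by_cases h : Dv κ V'
    · rw [if_pos h] at hV'
      exact ⟨h, right_ne_zero_of_mul hV'⟩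
    · rw [if_neg h] at hV'
      exact absurd rfl hV'
  · intro V'
    by_cases h : Dv κ V'
    · rw [if_pos h]
      exact mul_nonneg (Int.natCast_nonneg _) (hnn V' h)
    · rw [if_neg h]

theorem Two.not_const (T : Two S φ d) (hF : FF K 2) (c : ℕ)
    (hc : 0 < c) (hab : ∀ a b, XX K [T.zz (T.p a), T.zz (T.p b)] = c) :
    ∃ q : Fin 2 → F, q ≠ 0 ∧ XX K [T.zz q, T.zz (T.p 0)] ≠ c := by
  by_contra hcon
  push Not at hcon
  -- the generic cut
  let ι := Option (Fin (d + 1) → Fin (n + 1))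
  let Ω := GF F (Unit × Bool × ι)
  let C : Unit × Bool × ι → Ω := gc F (Unit × Bool × ι)
  have hC : Gn F C := gn_gc F (Unit × Bool × ι)
  let β : Unit → ι → F := fun _ => T.zz (T.p 0)
  have hs : [()].Nodup := List.nodup_singleton ()
  have hpos : 0 < XX K [T.zz (T.p 0), T.zz (T.p 0)] := by
    rw [hab 0 0]
    exact hc
  have h1 : FF (cb K C β {i | i ∈ [()]}) 1 :=
    FF_cb hC β [()] hs (e := 1) hF [T.zz (T.p 0)] rfl hpos
  set κ := cb K C β {i | i ∈ [()]} with hκ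
  have : CharZero Ω := charZero_of_injective_algebraMap (algebraMap F Ω).injective
  -- a place
  obtain ⟨w, hw⟩ := C5_trans hC β {i | i ∈ [()]} h1
  obtain ⟨V, hV, hVw⟩ := exists_place h1 hw
  have hw0 : w ≠ 0 := by
    rintro rfl
    apply hw
    rw [map_zero]
    exact isAlgebraic_zero
  set W : Ω := algebraMap F Ω w with hWdef
  have hW0 : W ≠ 0 := (map_ne_zero (algebraMap F Ω)).2 hw0
  -- the two zeros
  have hp0 : T.p 0 ≠ 0 := by
    intro h
    apply T.wne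
    unfold wd
    rw [h]
    simp
  set P0 : Fin 2 → Ω := fun a => algebraMap F Ω (T.p 0 a) with hP0
  set P1 : Fin 2 → Ω := fun a => algebraMap F Ω (T.p 1 a) with hP1
  have hδ : wd P0 P1 ≠ 0 := (T.up Ω).wne
  have hE : algebraMap F Ω T.e ≠ 0 := (T.up Ω).ene
  -- the points
  let q : ℕ → Fin 2 → F := fun N a => T.p 0 a + w ^ N * T.p 1 a
  have hQ : ∀ N a, algebraMap F Ω (q N a) = P0 a + W ^ N * P1 a := by
    intro N a
    show algebraMap F Ω (T.p 0 a + w ^ N * T.p 1 a) = _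
    rw [map_add, map_mul, map_pow]
  have hwd0 : ∀ N, wd P0 (fun a => algebraMap F Ω (q N a)) = W ^ N * wd P0 P1 := by
    intro N
    show P0 0 * algebraMap F Ω (q N 1) - P0 1 * algebraMap F Ω (q N 0) =
      W ^ N * (P0 0 * P1 1 - P0 1 * P1 0)
    rw [hQ, hQ]
    ring
  have hwd1 : ∀ N, wd P1 (fun a => algebraMap F Ω (q N a)) = -wd P0 P1 := by
    intro N
    show P1 0 * algebraMap F Ω (q N 1) - P1 1 * algebraMap F Ω (q N 0) =
      -(P0 0 * P1 1 - P0 1 * P1 0)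
    rw [hQ, hQ]
    ring
  have hG : ∀ N, (T.up Ω).pt (fun a => algebraMap F Ω (q N a)) 0 =
      algebraMap F Ω T.e * (W ^ N * wd P0 P1) ^ T.mu 0 * (-wd P0 P1) ^ T.mu 1 := by
    intro N
    rw [← hwd0, ← hwd1]
    exact T.fac Ω (algebraMap F Ω) _
  have hG0 : ∀ N, (T.up Ω).pt (fun a => algebraMap F Ω (q N a)) 0 ≠ 0 := by
    intro N
    rw [hG]
    exact mul_ne_zero (mul_ne_zero hE (pow_ne_zero _ (mul_ne_zero (pow_ne_zero _ hW0) hδ)))
      (pow_ne_zero _ (neg_ne_zero.2 hδ))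
  have hGord : ∀ N : ℕ, ord V ((T.up Ω).pt (fun a => algebraMap F Ω (q N a)) 0) =
      ord V (algebraMap F Ω T.e) + (T.mu 0 : ℤ) * ((N : ℤ) * ord V W + ord V (wd P0 P1)) +
        (T.mu 1 : ℤ) * ord V (wd P0 P1) := by
    intro N
    have e1 : (W ^ N * wd P0 P1) ≠ 0 := mul_ne_zero (pow_ne_zero _ hW0) hδ
    rw [hG, ord_mul hV.1 (mul_ne_zero hE (pow_ne_zero _ e1)) (pow_ne_zero _ (neg_ne_zero.2 hδ)),
      ord_mul hV.1 hE (pow_ne_zero _ e1), ord_pow hV.1 e1, ord_pow hV.1 (neg_ne_zero.2 hδ),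
      ord_mul hV.1 (pow_ne_zero _ hW0) hδ, ord_pow hV.1 hW0, C5_ord_neg hV.1 hδ]
  have hq : ∀ N, q N ≠ 0 := by
    intro N h
    apply hG0 N
    rw [hG, ← hwd0]
    have e1 : wd P0 (fun a => algebraMap F Ω (q N a)) = 0 := by
      rw [h]
      unfold wd
      simp
    have e2 : T.mu 0 ≠ 0 := (T.mupos 0).ne'
    rw [e1, zero_pow e2, mul_zero, zero_mul]
  -- heights
  have hht : ∀ N, ht κ ((T.up Ω).pt fun a => algebraMap F Ω (q N a)) = (c : ℤ) := by
    intro N
    have h2 := XX_ht hC β [()] hs h1 (T.zz_ne (hq N))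
    have h3 : XX K (T.zz (q N) :: [()].map β) = c := hcon _ (hq N)
    rw [h3] at h2
    rw [h2, ← Two.ht_zz, Two.up_zz]
  have hZ : ∀ N, (T.up Ω).pt (fun a => algebraMap F Ω (q N a)) ≠ 0 := fun N h =>
    hG0 N (congrFun h 0)
  have hbd : ∀ N : ℕ, ord V ((T.up Ω).pt (fun a => algebraMap F Ω (q N a)) 0) -
      al V ((T.up Ω).pt fun a => algebraMap F Ω (q N a)) ≤ (c : ℤ) := by
    intro N
    rw [← hht N, ← ht_eq_excess h1 (hZ N) (hG0 N)]
    refine C5_single h1 hV (fun V' => ord V' ((T.up Ω).pt (fun a => algebraMap F Ω (q N a)) 0) -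
      al V' ((T.up Ω).pt fun a => algebraMap F Ω (q N a))) ?_ ?_
    · refine ((ord_fin h1 (hG0 N)).union (al_fin h1 ((T.up Ω).pt
        fun a => algebraMap F Ω (q N a)))).subset ?_
      rintro V' ⟨hV', hne⟩
      by_cases h0 : ord V' ((T.up Ω).pt (fun a => algebraMap F Ω (q N a)) 0) = 0
      · refine Or.inr ⟨hV', fun h00 => hne ?_⟩
        show ord V' ((T.up Ω).pt (fun a => algebraMap F Ω (q N a)) 0) -
          al V' ((T.up Ω).pt fun a => algebraMap F Ω (q N a)) = 0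
        rw [h0, h00, sub_zero]
      · exact Or.inl ⟨hV', h0⟩
    · intro V' _
      exact sub_nonneg.2 (al_le (hG0 N))
  -- the local term is not bounded
  obtain ⟨i, hi⟩ := T.bpf.ev_ne hp0
  let g : Matrix (Fin 2) (Fin 2) Ω := fun a b => ![P0 a, P1 a] b
  let a : Fin (d + 1 + 1) → Ω := act g (fun j => algebraMap F Ω (T.c i j))
  have hgx : ∀ x y : Ω, g.mulVec ![x, y] = fun b => P0 b * x + P1 b * y := by
    intro x y
    funext b
    simp [g, Matrix.mulVec, dotProduct, Fin.sum_univ_two]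
  have ha0 : a 0 = algebraMap F Ω (ev (T.c i) (T.p 0)) := by
    have e1 : ev a ![1, 0] = a 0 := by
      unfold ev
      rw [Fin.sum_univ_succ]
      simp
    rw [← e1, ev_map (algebraMap F Ω)]
    show ev (act g (fun j => algebraMap F Ω (T.c i j))) ![1, 0] = _
    rw [ev_act, hgx]
    congr 1
    funext b
    rw [mul_one, mul_zero, add_zero]
  have ha0' : a 0 ≠ 0 := by
    rw [ha0]
    exact (map_ne_zero (algebraMap F Ω)).2 hi
  have haN : ∀ N : ℕ, ev a ![1, W ^ N] = (T.up Ω).pt (fun a => algebraMap F Ω (q N a)) i := by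
    intro N
    show ev (act g (fun j => algebraMap F Ω (T.c i j))) ![1, W ^ N] =
      ev (fun j => algebraMap F Ω (T.c i j)) (fun a => algebraMap F Ω (q N a))
    rw [ev_act, hgx]
    congr 1
    funext b
    rw [hQ, mul_one, mul_comm (P1 b)]
  obtain ⟨N₁, hN₁⟩ := C5_ev hV.1 a ha0' hVw hW0
  obtain ⟨B, hB⟩ : ∃ B : ℤ, B = (c : ℤ) + ord V (a 0) - ord V (algebraMap F Ω T.e) -
      (T.mu 0 : ℤ) * ord V (wd P0 P1) - (T.mu 1 : ℤ) * ord V (wd P0 P1) := ⟨_, rfl⟩
  have hfinal := hbd (N₁ + (B + 1).toNat)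
  have hord := hGord (N₁ + (B + 1).toNat)
  obtain ⟨hne, hle⟩ := hN₁ (N₁ + (B + 1).toNat) (by omega)
  rw [haN] at hne hle
  have hal := al_le (V := V) hne
  rw [hord] at hfinal
  have hNT : B + 1 ≤ ((N₁ + (B + 1).toNat : ℕ) : ℤ) := by
    have := Int.self_le_toNat (B + 1)
    omega
  have hmu : (1 : ℤ) ≤ (T.mu 0 : ℤ) := by exact_mod_cast T.mupos 0
  have hN0 : (0 : ℤ) ≤ ((N₁ + (B + 1).toNat : ℕ) : ℤ) := Int.natCast_nonneg _
  have e1 : ((N₁ + (B + 1).toNat : ℕ) : ℤ) ≤ ((N₁ + (B + 1).toNat : ℕ) : ℤ) * ord V W := by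
    nlinarith
  have e2 : ((N₁ + (B + 1).toNat : ℕ) : ℤ) * ord V W ≤
      (T.mu 0 : ℤ) * (((N₁ + (B + 1).toNat : ℕ) : ℤ) * ord V W) :=
    le_mul_of_one_le_left (by linarith) hmu
  rw [mul_add] at hfinal
  linarith

end Pool.Agent.Lib.MP_1e3e9c_agW
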