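import Mathlib
import Pool.Agent.Lib.MP_1e3e9c_agU.F7
import Pool.Agent.Lib.MP_1e3e9c_agW.C4
import Pool.Agent.Lib.MP_1e3e9c_agW.C5

/-!
# MP_1e3e9c_ag, project W, leaf C6: the surface theorem

Compare leaf F8 of project U. `not_const` gives `q`, `const_mean` then `E`, `q'` with
`XX (upK E K) [zz q', zz (p 0)] = 0` (for `T.up E`); `con_of_XX_zero` over `E` with `y = zz (p 0)`
(`FF_up`; `XX (upK E K) [zz (p 0), zz (p 0)] = [E : F] c > 0`: `XX_up`, `up_zz`), `XX_perm`, `con_zz`.
`f_0(q') ≠ 0`: otherwise `wd ((T.up E).p a) q' = 0` for some `a` (`wd_of_zero`), so `zz q' ∼ zz (p a)` and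
`XX (upK E K) [zz q', zz (p 0)] = [E : F] c ≠ 0`.
-/

set_option autoImplicit false

namespace Pool.Agent.Lib.MP_1e3e9c_agW

open IsLocalRing Pool.Agent.Lib.MP_b197b4_ntK Pool.Agent.Lib.MP_1e3e9c_agU

variable {k F : Type} [Field k] [CharZero k] [Field F] [CharZero F] {n d : ℕ}
  {S : Set (MvPolynomial (Fin (n + 1)) k)} {φ : k →+* F} {K : Subfield F}

theorem Two.surf (hS : NR S) (T : Two S φ d) (hφ : ∀ a, φ a ∈ K) (hF : FF K 2) (c : ℕ)
    (hc : 0 < c) (hab : ∀ a b, XX K [T.zz (T.p a), T.zz (T.p b)] = c) :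
    ∃ (E : Type) (_ : Field E) (_ : Algebra F E) (_ : FiniteDimensional F E) (q' : Fin 2 → E),
      q' ≠ 0 ∧ ev ((T.up E).c 0) q' ≠ 0 ∧ Con (upK E K) ((T.up E).pt q') := by
  obtain ⟨q, hq, hne⟩ := T.not_const hF c hc hab
  rcases T.const_mean hS hφ hF c hc hab q hq with ⟨E, i1, i2, i3, q', hq', h0⟩ | h
  · have : CharZero E := charZero_of_injective_algebraMap (algebraMap F E).injective
    have hval : ∀ a b, XX (upK E K) [(T.up E).zz ((T.up E).p a), (T.up E).zz ((T.up E).p b)] =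
        Module.finrank F E * c := by
      intro a b
      have h2 := XX_up (E := E) K [T.zz (T.p a), T.zz (T.p b)]
      rw [List.map_cons, List.map_cons, List.map_nil, hab a b] at h2
      have e : ∀ a, (T.up E).zz ((T.up E).p a) = MP_1e3e9c_agU.up E (T.zz (T.p a)) :=
        fun a => T.up_zz E (T.p a)
      rw [e a, e b]
      exact h2
    have hpos : 0 < Module.finrank F E * c := Nat.mul_pos Module.finrank_pos hc
    have hp : ∀ a, (T.up E).p a ≠ 0 := by
      intro a ha
      apply (T.up E).wne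
      have h3 : (T.up E).p 0 = 0 ∨ (T.up E).p 1 = 0 := by
        fin_cases a
        · exact Or.inl ha
        · exact Or.inr ha
      rcases h3 with h3 | h3
      · simp [wd, h3]
      · simp [wd, h3]
    refine ⟨E, i1, i2, i3, q', hq', ?_, ?_⟩
    · intro hev
      obtain ⟨a, ha⟩ := (T.up E).wd_of_zero hev
      have h4 := (T.up E).pr_zz ((T.up E).pr_pt_of_wd (hp a) hq' ha)
      have h5 := XX_pr (upK E K) (l := [(T.up E).zz q', (T.up E).zz ((T.up E).p 0)])
        (l' := [(T.up E).zz ((T.up E).p a), (T.up E).zz ((T.up E).p 0)])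
        (List.Forall₂.cons (pr_symm h4) (List.Forall₂.cons (pr_refl _) List.Forall₂.nil))
      rw [h0, hval] at h5
      omega
    · have h6 : XX (upK E K) [(T.up E).zz ((T.up E).p 0), (T.up E).zz q'] = 0 := by
        rw [← h0]
        exact XX_perm _ (List.Perm.swap _ _ _)
      exact ((T.up E).con_zz _ q').1 (con_of_XX_zero (FF_up hF) ((T.up E).zz_ne (hp 0))
        ((T.up E).zz_ne hq') (by rw [hval]; exact hpos) h6)
  · exact absurd h hne

end Pool.Agent.Lib.MP_1e3e9c_agW
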