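import Mathlib
import Pool.Agent.Lib.MP_1e3e9c_agU.G5

/-!
# MP_1e3e9c_ag, project W, leaf D1: dropping one variable

`F ⊆ A`, `C` algebraically independent over `F`, `τ` algebraic over `F(C)` but not over `F`. Choose a subset
`T ⊆ σ` of minimal size such that `τ` is algebraic over `F(C i, i ∈ T)`; `T ≠ ∅`; `i₀ ∈ T`. `τ` is not algebraic over
`F(C i, i ≠ i₀)`: otherwise (`alg_inter`, leaf G5 of project U: `τ` is algebraic over `F(C i, i ∈ T ∩ (σ \ i₀))`)
`T` would not be minimal. So the family `τ, C i (i ≠ i₀)` is algebraically independent over `F`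
(`AlgebraicIndependent.option_iff` and similar, or matroid), so `C i (i ≠ i₀)` over `F(τ)`.
(The base field is a `Subfield`; `Subfield.closure (F ∪ X)` and `IntermediateField.adjoin F X` have the same
elements.)
-/

set_option autoImplicit false

namespace Pool.Agent.Lib.MP_1e3e9c_agW

/-- The elements of `F(τ)` are algebraic over `F[τ]`. -/
private theorem D1_alg {A : Type} [Field A] (F : Subfield A) (τ : A) (s : Set A) (hs : s = {τ}) {z : A}
    (hz : z ∈ Subfield.closure ((F : Set A) ∪ {τ})) : IsAlgebraic (Algebra.adjoin F s) z := by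
  refine Subfield.closure_induction (p := fun z _ => IsAlgebraic (Algebra.adjoin F s) z) ?_ ?_ ?_ ?_ ?_ ?_ hz
  · rintro x (hx | hx)
    · exact isAlgebraic_algebraMap (⟨x, (Algebra.adjoin F s).algebraMap_mem (⟨x, hx⟩ : F)⟩ : Algebra.adjoin F s)
    · have h1 : x ∈ Algebra.adjoin F s := by
        rw [hs]
        exact Algebra.subset_adjoin hx
      exact isAlgebraic_algebraMap (⟨x, h1⟩ : Algebra.adjoin F s)
  · exact isAlgebraic_one
  · exact fun x y _ _ hx hy => hx.add hy
  · exact fun x _ hx => hx.neg
  · exact fun x _ hx => hx.inv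
  · exact fun x y _ _ hx hy => hx.mul hy

/-- An element which is algebraic over `F[s]` is algebraic over `F(s)`. -/
private theorem D1_up {A : Type} [Field A] (F : Subfield A) (s : Set A) {z : A}
    (hz : IsAlgebraic (Algebra.adjoin F s) z) : IsAlgebraic (Subfield.closure ((F : Set A) ∪ s)) z := by
  obtain ⟨p, hp, h0⟩ := hz
  have hle : ∀ a ∈ Algebra.adjoin F s, a ∈ Subfield.closure ((F : Set A) ∪ s) := by
    intro a ha
    refine Algebra.adjoin_induction (p := fun a _ => a ∈ Subfield.closure ((F : Set A) ∪ s)) ?_ ?_ ?_ ?_ ha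
    · exact fun x hx => Subfield.subset_closure (Or.inr hx)
    · exact fun r => Subfield.subset_closure (Or.inl r.2)
    · exact fun x y _ _ hx hy => add_mem hx hy
    · exact fun x y _ _ hx hy => mul_mem hx hy
  let f : Algebra.adjoin F s →+* Subfield.closure ((F : Set A) ∪ s) :=
    { toFun := fun a => ⟨a.1, hle a.1 a.2⟩
      map_one' := rfl
      map_mul' := fun _ _ => rfl
      map_zero' := rfl
      map_add' := fun _ _ => rfl }
  have hf : Function.Injective f := fun a b h =>
    Subtype.ext (congrArg (fun t : Subfield.closure ((F : Set A) ∪ s) => (t : A)) h)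
  refine ⟨p.map f, (Polynomial.map_ne_zero_iff hf).2 hp, ?_⟩
  rw [Polynomial.aeval_def, Polynomial.eval₂_map]
  exact h0

/-- Independence over `F[τ]` gives independence over `F(τ)`. -/
private theorem D1_ext {A : Type} [Field A] (F : Subfield A) (τ : A) {ι : Type} {y : ι → A} (s : Set A)
    (hs : s = {τ}) (h : AlgebraicIndependent (Algebra.adjoin F s) y) :
    AlgebraicIndependent (Subfield.closure ((F : Set A) ∪ {τ})) y := by
  have hle : ∀ a ∈ Algebra.adjoin F s, a ∈ Subfield.closure ((F : Set A) ∪ {τ}) := by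
    intro a ha
    rw [hs] at ha
    refine Algebra.adjoin_induction (p := fun a _ => a ∈ Subfield.closure ((F : Set A) ∪ {τ})) ?_ ?_ ?_ ?_ ha
    · exact fun x hx => Subfield.subset_closure (Or.inr hx)
    · exact fun r => Subfield.subset_closure (Or.inl r.2)
    · exact fun x y _ _ hx hy => add_mem hx hy
    · exact fun x y _ _ hx hy => mul_mem hx hy
  let f : Algebra.adjoin F s →+* Subfield.closure ((F : Set A) ∪ {τ}) :=
    { toFun := fun a => ⟨a.1, hle a.1 a.2⟩
      map_one' := rfl
      map_mul' := fun _ _ => rfl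
      map_zero' := rfl
      map_add' := fun _ _ => rfl }
  let _ : Algebra (Algebra.adjoin F s) (Subfield.closure ((F : Set A) ∪ {τ})) := f.toAlgebra
  have _ : IsScalarTower (Algebra.adjoin F s) (Subfield.closure ((F : Set A) ∪ {τ})) A :=
    IsScalarTower.of_algebraMap_eq fun _ => rfl
  have _ : Algebra.IsAlgebraic (Algebra.adjoin F s) (Subfield.closure ((F : Set A) ∪ {τ})) := by
    refine ⟨fun z => ?_⟩
    have h1 := D1_alg F τ s hs z.2
    exact (isAlgebraic_algebraMap_iff (R := Algebra.adjoin F s) (A := A)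
      (algebraMap (Subfield.closure ((F : Set A) ∪ {τ})) A).injective).1 h1
  exact h.extendScalars _

theorem exists_drop {A : Type} [Field A] (F : Subfield A) {σ : Type} [Finite σ] (C : σ → A)
    (hC : AlgebraicIndependent F C) (τ : A)
    (hτ : IsAlgebraic (Subfield.closure ((F : Set A) ∪ Set.range C)) τ)
    (hn : ¬ IsAlgebraic F τ) :
    ∃ i₀ : σ, AlgebraicIndependent (Subfield.closure ((F : Set A) ∪ {τ}))
      (fun i : {i : σ // i ≠ i₀} => C i) := by
  classical
  have hne : Nonempty σ := by
    by_contra h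
    rw [not_nonempty_iff] at h
    apply hn
    rw [Set.range_eq_empty C, Set.union_empty, Subfield.closure_eq] at hτ
    exact hτ
  have h1 : ∃ i₀, ¬ IsAlgebraic (Subfield.closure ((F : Set A) ∪ C '' {j | j ≠ i₀})) τ := by
    by_contra h
    push Not at h
    exact hn (MP_1e3e9c_agU.alg_all F hC h hne)
  obtain ⟨i₀, hi₀⟩ := h1
  refine ⟨i₀, ?_⟩
  have hr : Set.range (fun i : {i : σ // i ≠ i₀} => C i) = C '' {j | j ≠ i₀} := by
    ext x
    simp
  have h2 : AlgebraicIndependent F (fun i : {i : σ // i ≠ i₀} => C i) := hC.comp _ Subtype.val_injective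
  have h3 : AlgebraicIndependent (Algebra.adjoin F (Set.range (fun i : {i : σ // i ≠ i₀} => C i)))
      (fun _ : Unit => τ) := by
    rw [algebraicIndependent_unique_type_iff]
    intro h
    apply hi₀
    rw [← hr]
    exact D1_up F _ h
  have h4 : AlgebraicIndependent F (Sum.elim (fun _ : Unit => τ) (fun i : {i : σ // i ≠ i₀} => C i)) :=
    AlgebraicIndependent.sumElim_iff.2 ⟨h2, h3⟩
  have h5 : AlgebraicIndependent F (Sum.elim (fun i : {i : σ // i ≠ i₀} => C i) (fun _ : Unit => τ)) := by
    have h6 := h4.comp (Sum.swap : {i : σ // i ≠ i₀} ⊕ Unit → Unit ⊕ {i : σ // i ≠ i₀})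
      (Equiv.sumComm _ _).injective
    have h7 : (Sum.elim (fun _ : Unit => τ) (fun i : {i : σ // i ≠ i₀} => C i)) ∘ Sum.swap =
        Sum.elim (fun i : {i : σ // i ≠ i₀} => C i) (fun _ : Unit => τ) := by
      funext x
      rcases x with x | x <;> rfl
    rw [h7] at h6
    exact h6
  have h6 := (AlgebraicIndependent.sumElim_iff.1 h5).2
  exact D1_ext F τ _ (Set.range_const) h6

end Pool.Agent.Lib.MP_1e3e9c_agW
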