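import Mathlib
import Pool.Agent.Lib.MP_1e3e9c_agW.D1

/-!
# MP_1e3e9c_ag, project W, leaf D2: the parameter is algebraic over `F`

Suppose not. `exists_drop`: `i₀`, `C₁ = (C i)_(i ≠ i₀)` algebraically independent over `F(τ)`, so over the algebraic
closure `M` of `F(τ)` in `A`. `K(g) ⊆ M` (`K ≤ F`, `hgτ`), so `C₁` is algebraically independent over `K(g)`, so
`g, C₁` is algebraically independent over `K` (`AlgebraicIndependent.sumElim` etc.), so `g` is algebraically
independent over `K(C₁)`. But all `g j` are algebraic over `K(C₁)(C i₀, u)` (`hgκ`), which is generated over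
`K(C₁)` by `1 + card ι` elements: `e ≤ 1 + card ι` (transcendence degree / cardinalities of algebraically
independent families), contradiction to `he`.
-/

set_option autoImplicit false

namespace Pool.Agent.Lib.MP_1e3e9c_agW

private theorem D2_mem {K A : Type} [Field K] [Field A] [Algebra K A] {s : Set A} {x : A} :
    x ∈ (AlgebraicIndependent.matroid K A).closure s ↔ IsAlgebraic (IntermediateField.adjoin K s) x := by
  rw [AlgebraicIndependent.matroid_closure_eq, SetLike.mem_coe, Subalgebra.mem_algebraicClosure,
    IntermediateField.isAlgebraic_adjoin_iff]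

private theorem D2_sub {A : Type} [Field A] (K : Subfield A) (S : Set A) {x : A}
    (h : IsAlgebraic (Subfield.closure ((K : Set A) ∪ S)) x) :
    IsAlgebraic (IntermediateField.adjoin K S) x := by
  obtain ⟨p, hp, h0⟩ := h
  have hle : ∀ a ∈ Subfield.closure ((K : Set A) ∪ S), a ∈ IntermediateField.adjoin K S := by
    intro a ha
    exact (Subfield.closure_le (t := (IntermediateField.adjoin K S).toSubfield)).2
      (Set.union_subset (fun y hy => (IntermediateField.adjoin K S).algebraMap_mem (⟨y, hy⟩ : K))
        (IntermediateField.subset_adjoin K S)) ha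
  let f : Subfield.closure ((K : Set A) ∪ S) →+* IntermediateField.adjoin K S :=
    { toFun := fun a => ⟨a.1, hle a.1 a.2⟩
      map_one' := rfl
      map_mul' := fun _ _ => rfl
      map_zero' := rfl
      map_add' := fun _ _ => rfl }
  refine ⟨p.map f, (Polynomial.map_ne_zero_iff f.injective).2 hp, ?_⟩
  rw [Polynomial.aeval_def, Polynomial.eval₂_map]
  exact h0

/-- Two algebraically independent families, the second over the field of the first. -/
private theorem D2_sum {A : Type} [Field A] (K L : Subfield A) (hKL : K ≤ L) {μ ν : Type}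
    (g : μ → A) (hg : AlgebraicIndependent K g) (hgL : ∀ j, IsAlgebraic L (g j)) (c : ν → A)
    (hc : AlgebraicIndependent L c) : AlgebraicIndependent K (Sum.elim c g) := by
  have hmem : ∀ a : K, (a : A) ∈ algebraicClosure L A := fun a =>
    (algebraicClosure L A).algebraMap_mem (⟨a.1, hKL a.2⟩ : L)
  let f : K →+* algebraicClosure L A :=
    { toFun := fun a => ⟨a.1, hmem a⟩
      map_one' := rfl
      map_mul' := fun _ _ => rfl
      map_zero' := rfl
      map_add' := fun _ _ => rfl }
  let _ : Algebra K (algebraicClosure L A) := f.toAlgebra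
  have : IsScalarTower K (algebraicClosure L A) A := IsScalarTower.of_algebraMap_eq fun _ => rfl
  refine hg.sumElim_of_tower (S := algebraicClosure L A) ?_ hc.algebraicClosure
  rintro _ ⟨j, rfl⟩
  exact ⟨⟨g j, mem_algebraicClosure_iff.2 (hgL j)⟩, rfl⟩

/-- An algebraically independent family, algebraic over finitely many elements. -/
private theorem D2_card {A : Type} [Field A] (K : Subfield A) {μ ν : Type} [Fintype μ] [Fintype ν]
    (x : μ → A) (hx : AlgebraicIndependent K x) (y : ν → A)
    (h : ∀ j, IsAlgebraic (IntermediateField.adjoin K (Set.range y)) (x j)) :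
    Fintype.card μ ≤ Fintype.card ν := by
  have hI : (AlgebraicIndependent.matroid K A).Indep (Set.range x) :=
    AlgebraicIndependent.matroid_indep_iff.2 hx.to_subtype_range
  have hsub : Set.range x ⊆ (AlgebraicIndependent.matroid K A).closure (Set.range y) := by
    rintro _ ⟨j, rfl⟩
    exact D2_mem.2 (h j)
  have h1 := hI.encard_le_eRk_of_subset hsub
  rw [Matroid.eRk_closure_eq] at h1
  have h2 := h1.trans (Matroid.eRk_le_encard _ _)
  have h3 : (Set.range x).encard = (Fintype.card μ : ℕ∞) := by
    rw [← Set.image_univ, hx.injective.encard_image, Set.encard_univ, ENat.card_eq_coe_fintype_card]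
  have h4 : (Set.range y).encard ≤ (Fintype.card ν : ℕ∞) := by
    rw [← Set.image_univ]
    refine (Set.encard_image_le _ _).trans ?_
    rw [Set.encard_univ, ENat.card_eq_coe_fintype_card]
  rw [h3] at h2
  exact_mod_cast h2.trans h4

theorem alg_param {A : Type} [Field A] (K F : Subfield A) (hKF : K ≤ F) {σ ι : Type} [Finite σ]
    [Fintype ι] (C : σ → A) (hC : AlgebraicIndependent F C) (u : ι → A) (e : ℕ)
    (he : Fintype.card ι + 2 ≤ e) (g : Fin e → A) (hg : AlgebraicIndependent K g) (τ : A)
    (hgτ : ∀ j, IsAlgebraic (Subfield.closure ((F : Set A) ∪ {τ})) (g j))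
    (hgκ : ∀ j, IsAlgebraic
      (Subfield.closure ((K : Set A) ∪ Set.range C ∪ Set.range u)) (g j))
    (hτ : IsAlgebraic (Subfield.closure ((F : Set A) ∪ Set.range C)) τ) :
    IsAlgebraic F τ := by
  classical
  by_contra hn
  obtain ⟨i₀, h₀⟩ := exists_drop F C hC τ hτ hn
  have := Fintype.ofFinite σ
  have h1 : AlgebraicIndependent K (Sum.elim (fun i : {i : σ // i ≠ i₀} => C i) g) := by
    refine D2_sum K (Subfield.closure ((F : Set A) ∪ {τ})) ?_ g hg hgτ _ h₀
    intro a ha
    exact Subfield.subset_closure (Or.inl (hKF ha))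
  have h2 := D2_card K _ h1 (Sum.elim C u) ?_
  · rw [Fintype.card_sum, Fintype.card_sum, Fintype.card_fin, Fintype.card_subtype_compl,
      Fintype.card_subtype_eq] at h2
    have h3 : 0 < Fintype.card σ := Fintype.card_pos_iff.2 ⟨i₀⟩
    omega
  · rintro (i | j)
    · refine isAlgebraic_algebraMap
        (⟨C i, IntermediateField.subset_adjoin K _ ⟨Sum.inl i.1, rfl⟩⟩ :
          IntermediateField.adjoin K (Set.range (Sum.elim C u)))
    · have h4 := hgκ j
      rw [Set.union_assoc, ← Set.Sum.elim_range] at h4
      exact D2_sub K _ h4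

end Pool.Agent.Lib.MP_1e3e9c_agW
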