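import Mathlib
import Pool.Agent.Lib.MP_1e3e9c_agW.Defs

/-!
# MP_1e3e9c_ag, project W, leaf D3: independent quotients; specialisation

`big_indep`: choose `i₀` with `z i₀ ≠ 0`. The field generated over `K` by all quotients `z i / z j` is generated
by the `z i / z i₀`; `F` is algebraic over it (`Big`), so a subset of the `z i / z i₀` is a transcendence basis of
`F/K` (`exists_isTranscendenceBasis_subset` and similar); it has `m` elements (`FF K m`: `trdeg = m`); number it.
`indep_spec`: let `R ≠ 0` be a polynomial over `K` (identify `K` and `upK A K`) with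
`R(P_j(τ)/Q(τ)) = 0`. Multiply by `Q(τ)^N`, `N` = total degree: a polynomial
`∑_t R_t Q^(N - |t|) ∏ P_j^(t_j)` over `F` vanishes at `τ`, transcendental over `F`, so it is `0`; its value at `0`
divided by `Q(0)^N` is `R(P_j(0)/Q(0)) = 0`: contradiction to `hi`. (`Q(τ) ≠ 0` because `Q ≠ 0`.)
-/

set_option autoImplicit false

namespace Pool.Agent.Lib.MP_1e3e9c_agW

open IsLocalRing Pool.Agent.Lib.MP_b197b4_ntK Pool.Agent.Lib.MP_1e3e9c_agU

open scoped IntermediateField.algebraAdjoinAdjoin in

theorem big_indep {F ι : Type} [Field F] [Finite ι] {K : Subfield F} {m : ℕ} (hF : FF K m)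
    {z : ι → F} (hz : Big K z) :
    ∃ (i₀ : ι) (i : Fin m → ι), z i₀ ≠ 0 ∧ AlgebraicIndependent K (fun j => z (i j) / z i₀) := by
  classical
  obtain ⟨i₀, hi₀⟩ : ∃ i₀, z i₀ ≠ 0 := by
    by_contra h
    push Not at h
    exact hz.1 (funext h)
  set s : Set F := Set.range (fun i => z i / z i₀) with hs
  have hsub : Subfield.closure ((K : Set F) ∪ {y | ∃ i j, z j ≠ 0 ∧ y = z i / z j}) ≤
      (IntermediateField.adjoin K s).toSubfield := by
    rw [Subfield.closure_le]
    rintro y (hy | ⟨i, j, hj, rfl⟩)
    · exact (IntermediateField.adjoin K s).algebraMap_mem ⟨y, hy⟩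
    · have h1 : z i / z i₀ ∈ IntermediateField.adjoin K s :=
        IntermediateField.subset_adjoin K s ⟨i, rfl⟩
      have h2 : z j / z i₀ ∈ IntermediateField.adjoin K s :=
        IntermediateField.subset_adjoin K s ⟨j, rfl⟩
      have h3 : z i / z j = (z i / z i₀) / (z j / z i₀) := by
        field_simp
      rw [h3]
      exact (IntermediateField.adjoin K s).div_mem h1 h2
  have halgL : ∀ x : F, IsAlgebraic (IntermediateField.adjoin K s) x := by
    intro x
    have h := hz.2 x
    exact h.ringHom_of_comp_eq (Subfield.inclusion hsub) (RingHom.id F)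
      (Subfield.inclusion hsub).injective rfl
  have halg : Algebra.IsAlgebraic (Algebra.adjoin K s) F :=
    ⟨fun x => (IsFractionRing.isAlgebraic_iff (Algebra.adjoin K s) (IntermediateField.adjoin K s) F).2 (halgL x)⟩
  obtain ⟨t, hts, ht⟩ := exists_isTranscendenceBasis_subset (R := K) s
  have hcard : Cardinal.mk t = (m : Cardinal) := by
    rw [ht.cardinalMk_eq_trdeg, hF.2]
  obtain ⟨e⟩ : Nonempty (Fin m ≃ t) := by
    have h1 : Cardinal.mk (Fin m) = Cardinal.mk t := by rw [hcard, Cardinal.mk_fin]
    exact Cardinal.eq.1 h1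
  choose i hi using fun j : Fin m => hts (e j).2
  refine ⟨i₀, i, hi₀, ?_⟩
  have h2 : AlgebraicIndependent K (fun j : Fin m => ((e j : t) : F)) := ht.1.comp e e.injective
  have h3 : (fun j : Fin m => z (i j) / z i₀) = fun j : Fin m => ((e j : t) : F) := funext hi
  rw [h3]
  exact h2

theorem indep_spec {F A : Type} [Field F] [Field A] [Algebra F A] {K : Subfield F} {m : ℕ}
    (P : Fin m → Polynomial F) (Q : Polynomial F) (hQ : Q.eval 0 ≠ 0)
    (hi : AlgebraicIndependent K (fun j => (P j).eval 0 / Q.eval 0)) (τ : A)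
    (hτ : ¬ IsAlgebraic F τ) :
    AlgebraicIndependent (upK A K)
      (fun j => Polynomial.aeval τ (P j) / Polynomial.aeval τ Q) := by
  have hQ0 : Q ≠ 0 := by
    intro h
    rw [h, Polynomial.eval_zero] at hQ
    exact hQ rfl
  have hinj : Function.Injective (Polynomial.aeval τ : Polynomial F →ₐ[F] A) :=
    transcendental_iff_injective.1 hτ
  have hQτ : Polynomial.aeval τ Q ≠ 0 := by
    intro h
    exact hQ0 (hinj (by rw [h, map_zero]))
  have u0 : ∀ y : Submonoid.powers Q, IsUnit (Polynomial.evalRingHom (0 : F) y) := by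
    rintro ⟨_, k, rfl⟩
    change IsUnit (Polynomial.evalRingHom (0 : F) (Q ^ k))
    rw [map_pow]
    exact (isUnit_iff_ne_zero.2 hQ).pow k
  have uτ : ∀ y : Submonoid.powers Q, IsUnit ((Polynomial.aeval τ : Polynomial F →ₐ[F] A).toRingHom y) := by
    rintro ⟨_, k, rfl⟩
    change IsUnit ((Polynomial.aeval τ : Polynomial F →ₐ[F] A).toRingHom (Q ^ k))
    rw [map_pow]
    exact (isUnit_iff_ne_zero.2 hQτ).pow k
  let S := Localization (Submonoid.powers Q)
  let e0 : S →+* F := IsLocalization.lift u0
  let eτ : S →+* A := IsLocalization.lift uτ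
  have a0 : ∀ q : Polynomial F, e0 (algebraMap (Polynomial F) S q) = q.eval 0 :=
    fun q => IsLocalization.lift_eq u0 q
  have aτ : ∀ q : Polynomial F, eτ (algebraMap (Polynomial F) S q) = Polynomial.aeval τ q :=
    fun q => IsLocalization.lift_eq uτ q
  have hQm : Q ∈ Submonoid.powers Q := ⟨1, pow_one Q⟩
  let sj : Fin m → S := fun j => IsLocalization.mk' S (P j) (⟨Q, hQm⟩ : Submonoid.powers Q)
  have hsj : ∀ j, sj j * algebraMap (Polynomial F) S Q = algebraMap (Polynomial F) S (P j) :=
    fun j => IsLocalization.mk'_spec S (P j) (⟨Q, hQm⟩ : Submonoid.powers Q)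
  have b0 : e0 ∘ sj = fun j => (P j).eval 0 / Q.eval 0 := by
    funext j
    have h := congrArg e0 (hsj j)
    rw [map_mul, a0, a0] at h
    exact (eq_div_iff hQ).2 h
  have bτ : eτ ∘ sj = fun j => Polynomial.aeval τ (P j) / Polynomial.aeval τ Q := by
    funext j
    have h := congrArg eτ (hsj j)
    rw [map_mul, aτ, aτ] at h
    exact (eq_div_iff hQτ).2 h
  have hS : AlgebraicIndependent K sj := by
    rw [← b0] at hi
    refine hi.of_ringHom_of_comp_eq (RingHom.id K) e0 Function.injective_id ?_
    ext k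
    have h1 : algebraMap K S k = algebraMap (Polynomial F) S (algebraMap K (Polynomial F) k) :=
      IsScalarTower.algebraMap_apply K (Polynomial F) S k
    change (k : F) = e0 (algebraMap K S k)
    rw [h1, a0]
    have h2 : algebraMap K (Polynomial F) k = Polynomial.C (k : F) := rfl
    rw [h2, Polynomial.eval_C]
  have heτ : Function.Injective eτ := by
    rw [injective_iff_map_eq_zero]
    intro x hx
    obtain ⟨q, y, rfl⟩ := IsLocalization.exists_mk'_eq (Submonoid.powers Q) x
    have h := congrArg eτ (IsLocalization.mk'_spec S q y)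
    rw [map_mul, hx, zero_mul, aτ] at h
    have hq : q = 0 := hinj (by rw [← h, map_zero])
    rw [hq, IsLocalization.mk'_zero]
  rw [← bτ]
  let f : K →+* upK A K := (algebraMap F A).restrict K (upK A K) (fun x hx => ⟨x, hx, rfl⟩)
  refine hS.ringHom_of_comp_eq f eτ ?_ heτ ?_
  · rintro ⟨_, x, hx, rfl⟩
    exact ⟨⟨x, hx⟩, rfl⟩
  · ext k
    have h1 : algebraMap K S k = algebraMap (Polynomial F) S (algebraMap K (Polynomial F) k) :=
      IsScalarTower.algebraMap_apply K (Polynomial F) S k
    change algebraMap F A (k : F) = eτ (algebraMap K S k)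
    rw [h1, aτ]
    have h2 : algebraMap K (Polynomial F) k = Polynomial.C (k : F) := rfl
    rw [h2, Polynomial.aeval_C]

end Pool.Agent.Lib.MP_1e3e9c_agW
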