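import Mathlib
import Pool.Agent.Lib.MP_1e3e9c_agU.C5
import Pool.Agent.Lib.MP_1e3e9c_agU.C9
import Pool.Agent.Lib.MP_1e3e9c_agW.B4

/-!
# MP_1e3e9c_ag, project W, leaf D4: constants of a generic cut which are algebraic over `F`

`alg_of_indep`: suppose `x` is not algebraic over `K`. `v` is algebraically independent over `K(x)`, so the family
`x, v` over `K` (`AlgebraicIndependent.option_iff` and similar), so `x` is not algebraic over `K(v)`.
`alg_const`: suppose `x` is not algebraic over `upK A K`. `E` = the field `F(x) ⊆ A`, finite over `F`;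
`K₂` = the subfield of `E` generated by the image of `K` and `x`: `FF K₂ (m - 1)` (`FF_up` gives `FF (upK E K) m`,
`x` is not algebraic over `upK E K`; finitely generated, transcendence degree by additivity). `Ω'` = the subfield
of `A` generated by `E` and the images `C'` of the `C`; `Gn E C'` (the `C'` are algebraically independent over
the image of `F`, so over the algebraic extension `E`). The points `up E (β i)` are big over `K₂` (`big_fin`,
`big_mono`). `pos_of_big` for a list of `m - 1` such points: `s` = the list of all `i : μ`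
(`Finset.univ.toList`) and `m - 1 - card μ` further copies of one of them: `ind_of_pos` (leaf C5 of project U,
`K := K₂`, `F := E`, `Ω := Ω'`): the `gu C' β' i` are algebraically independent over `cb K₂ C' β' ∅ = K₂(C')`, and
`C'` is over `E ⊇ K₂`; so `Sum.elim C' (gu C' β')` is algebraically independent over `K₂ ⊇ K(x)` (compare
`C7a_P1` in leaf C7a). In `A`: `gu C' β' i` is the image of `gu C β i`, and the field generated by `upK A K`, `C'`, `gu`
is `upK A (cb K C β Set.univ)`. `alg_of_indep`.
-/

set_option autoImplicit false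

namespace Pool.Agent.Lib.MP_1e3e9c_agW

open IsLocalRing Pool.Agent.Lib.MP_b197b4_ntK Pool.Agent.Lib.MP_1e3e9c_agU

private lemma D4_hom {R S Ω : Type} [CommRing R] [CommRing S] [Field Ω] [Algebra R Ω] [Algebra S Ω]
    (hR : Function.Injective (algebraMap R Ω)) (hS : Function.Injective (algebraMap S Ω))
    (h : ∀ a : R, ∃ b : S, algebraMap S Ω b = algebraMap R Ω a) :
    ∃ G : R →+* S, Function.Injective G ∧ (algebraMap S Ω).comp G = algebraMap R Ω := by
  choose g hg using h
  let G : R →+* S :=
    { toFun := g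
      map_one' := hS (by rw [hg, map_one, map_one])
      map_mul' := fun a b => hS (by rw [hg, map_mul, map_mul, hg, hg])
      map_zero' := hS (by rw [hg, map_zero, map_zero])
      map_add' := fun a b => hS (by rw [hg, map_add, map_add, hg, hg]) }
  refine ⟨G, fun a b hab => hR ?_, RingHom.ext hg⟩
  have h1 : g a = g b := hab
  rw [← hg, ← hg, h1]

private lemma D4_sub {R S Ω : Type} [CommRing R] [CommRing S] [Field Ω] [Algebra R Ω] [Algebra S Ω]
    (hR : Function.Injective (algebraMap R Ω)) (hS : Function.Injective (algebraMap S Ω))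
    (h : ∀ a : R, ∃ b : S, algebraMap S Ω b = algebraMap R Ω a) {y : Ω} (hy : IsAlgebraic R y) :
    IsAlgebraic S y := by
  obtain ⟨G, hGi, hG⟩ := D4_hom hR hS h
  obtain ⟨p, hp, hpy⟩ := hy
  refine ⟨p.map G, (Polynomial.map_ne_zero_iff hGi).2 hp, ?_⟩
  rw [Polynomial.aeval_def, Polynomial.eval₂_map, hG]
  exact hpy

private lemma D4_res {R S Ω I : Type} [CommRing R] [CommRing S] [Field Ω] [Algebra R Ω]
    [Algebra S Ω] (hR : Function.Injective (algebraMap R Ω))
    (hS : Function.Injective (algebraMap S Ω))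
    (h : ∀ a : R, ∃ b : S, algebraMap S Ω b = algebraMap R Ω a) {v : I → Ω}
    (hv : AlgebraicIndependent S v) : AlgebraicIndependent R v := by
  obtain ⟨G, hGi, hG⟩ := D4_hom hR hS h
  let _ : Algebra R S := G.toAlgebra
  have _ : IsScalarTower R S Ω := IsScalarTower.of_algebraMap_eq fun a => by
    rw [← hG]
    rfl
  exact hv.restrictScalars hGi

open scoped IntermediateField.algebraAdjoinAdjoin in
private lemma D4_alg {k Ω : Type} [Field k] [Field Ω] [Algebra k Ω] {S : Set Ω} {y : Ω}
    (hy : IsAlgebraic (IntermediateField.adjoin k S) y) : IsAlgebraic (Algebra.adjoin k S) y :=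
  (IsFractionRing.isAlgebraic_iff (Algebra.adjoin k S) (IntermediateField.adjoin k S) Ω).2 hy

/-- Adding one transcendental element to the base field lowers the transcendence degree. -/
private lemma D4_gen {E : Type} [Field E] {K₁ K₂ : Subfield E} {m : ℕ} (hF : FF K₁ (m + 1)) (x : E)
    (hK₂ : K₂ = Subfield.closure ((K₁ : Set E) ∪ {x})) (hx : Transcendental K₁ x) :
    FF K₂ m := by
  have hle : ∀ a : K₁, (a : E) ∈ K₂ := fun a => by
    rw [hK₂]
    exact Subfield.subset_closure (Or.inl a.2)
  have hxm : x ∈ K₂ := by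
    rw [hK₂]
    exact Subfield.subset_closure (Or.inr rfl)
  let _ : Algebra K₁ K₂ := ((algebraMap K₁ E).codRestrict K₂.toSubring hle).toAlgebra
  have _ : IsScalarTower K₁ K₂ E := IsScalarTower.of_algebraMap_eq fun a => rfl
  have _ : FaithfulSMul K₁ K₂ :=
    (faithfulSMul_iff_algebraMap_injective K₁ K₂).2 (algebraMap K₁ K₂).injective
  let x' : Unit → K₂ := fun _ => ⟨x, hxm⟩
  have htop : IntermediateField.adjoin K₁ (Set.range x') = ⊤ := by
    rw [eq_top_iff]
    intro b _
    have key : ∀ (z : E) (hz : z ∈ K₂),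
        (⟨z, hz⟩ : K₂) ∈ IntermediateField.adjoin K₁ (Set.range x') := by
      have h1 : K₂ ≤ ((IntermediateField.adjoin K₁ (Set.range x')).toSubfield).map K₂.subtype := by
        intro z hz
        rw [hK₂] at hz
        refine Subfield.closure_le.2 ?_ hz
        rintro w (hw | hw)
        · exact ⟨algebraMap K₁ K₂ ⟨w, hw⟩, IntermediateField.algebraMap_mem _ _, rfl⟩
        · rw [Set.mem_singleton_iff] at hw
          subst hw
          exact ⟨x' (), IntermediateField.subset_adjoin K₁ _ ⟨(), rfl⟩, rfl⟩
      intro z hz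
      obtain ⟨y, hy, hyz⟩ := h1 hz
      have h2 : y = ⟨z, hz⟩ := Subtype.ext hyz
      rw [← h2]
      exact hy
    exact key b.1 b.2
  have halg : Algebra.IsAlgebraic (Algebra.adjoin K₁ (Set.range x')) K₂ := by
    refine ⟨fun b => D4_alg ?_⟩
    have hb : b ∈ IntermediateField.adjoin K₁ (Set.range x') := by
      rw [htop]
      exact IntermediateField.mem_top
    exact isAlgebraic_algebraMap (⟨b, hb⟩ : IntermediateField.adjoin K₁ (Set.range x'))
  have htow : Algebra.trdeg K₁ K₂ + Algebra.trdeg K₂ E = Algebra.trdeg K₁ E := trdeg_add_eq K₁ K₂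
  have h1 : AlgebraicIndependent K₁ x' := by
    refine AlgebraicIndependent.of_comp (IsScalarTower.toAlgHom K₁ K₂ E) ?_
    exact algebraicIndependent_unique_type_iff.2 hx
  have h2 : IsTranscendenceBasis K₁ x' := h1.isTranscendenceBasis_iff_isAlgebraic.2 halg
  have e1 : Algebra.EssFiniteType K₁ E := IntermediateField.fg_top_iff.1 hF.1
  refine ⟨IntermediateField.fg_top_iff.2 (Algebra.EssFiniteType.of_comp K₁ K₂ E), ?_⟩
  rw [← h2.cardinalMk_eq_trdeg, hF.2, Cardinal.mk_unit, Nat.cast_add, Nat.cast_one,
    add_comm (m : Cardinal)] at htow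
  exact Cardinal.eq_of_add_eq_add_left htow Cardinal.one_lt_aleph0

theorem alg_of_indep {A : Type} [Field A] (K : Subfield A) {τ : Type} [Finite τ] (v : τ → A)
    (x : A) (hv : AlgebraicIndependent (Subfield.closure ((K : Set A) ∪ {x})) v)
    (hx : IsAlgebraic (Subfield.closure ((K : Set A) ∪ Set.range v)) x) : IsAlgebraic K x := by
  classical
  by_contra hK
  have hS : ∀ a ∈ Algebra.adjoin K (Set.range fun _ : Unit => x),
      a ∈ Subfield.closure ((K : Set A) ∪ {x}) := by
    intro a ha
    induction ha using Algebra.adjoin_induction with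
    | mem y hy =>
      obtain ⟨_, rfl⟩ := hy
      exact Subfield.subset_closure (Or.inr rfl)
    | algebraMap r => exact Subfield.subset_closure (Or.inl r.2)
    | add y z _ _ hy hz => exact Subfield.add_mem _ hy hz
    | mul y z _ _ hy hz => exact Subfield.mul_mem _ hy hz
  have h1 : AlgebraicIndependent (Algebra.adjoin K (Set.range fun _ : Unit => x)) v :=
    D4_res (R := Algebra.adjoin K (Set.range fun _ : Unit => x))
      (S := Subfield.closure ((K : Set A) ∪ {x})) Subtype.val_injective
      (algebraMap (Subfield.closure ((K : Set A) ∪ {x})) A).injective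
      (fun a => ⟨⟨a, hS a a.2⟩, rfl⟩) hv
  have h2 : AlgebraicIndependent K (Sum.elim v (fun _ : Unit => x)) :=
    AlgebraicIndependent.sumElim_iff.2 ⟨algebraicIndependent_unique_type_iff.2 hK, h1⟩
  have h3 : AlgebraicIndependent K (Sum.elim (fun _ : Unit => x) v) := by
    have h4 := h2.comp Sum.swap Sum.swap_leftInverse.injective
    have h5 : Sum.elim v (fun _ : Unit => x) ∘ Sum.swap = Sum.elim (fun _ : Unit => x) v := by
      funext z
      rcases z with z | z <;> rfl
    rwa [h5] at h4
  have h4 : Transcendental (Algebra.adjoin K (Set.range v)) x :=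
    algebraicIndependent_unique_type_iff.1 (AlgebraicIndependent.sumElim_iff.1 h3).2
  apply h4
  apply D4_alg
  refine D4_sub (algebraMap (Subfield.closure ((K : Set A) ∪ Set.range v)) A).injective
    (algebraMap (IntermediateField.adjoin K (Set.range v)) A).injective (fun a => ?_) hx
  have h5 : Subfield.closure ((K : Set A) ∪ Set.range v) ≤
      (IntermediateField.adjoin K (Set.range v)).toSubfield := by
    rw [Subfield.closure_le]
    rintro z (hz | hz)
    · exact (IntermediateField.adjoin K (Set.range v)).algebraMap_mem ⟨z, hz⟩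
    · exact IntermediateField.subset_adjoin K _ hz
  exact ⟨⟨a, h5 a.2⟩, rfl⟩

theorem alg_const {F ι : Type} [Field F] [CharZero F] [Fintype ι] {K : Subfield F} {m : ℕ}
    (hF : FF K m) {Ω μ : Type} [Field Ω] [Algebra F Ω] [Fintype μ] [Nonempty μ]
    {C : μ × Bool × ι → Ω} (hC : Gn F C) (β : μ → ι → F) (hβ : ∀ i, Big K (β i))
    (hμ : Fintype.card μ < m) (A : Type) [Field A] [Algebra Ω A] [Algebra F A]
    [IsScalarTower F Ω A] (x : A) (h1 : IsAlgebraic F x)
    (h2 : IsAlgebraic (upK A (cb K C β Set.univ)) x) : IsAlgebraic (upK A K) x := by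
  classical
  by_contra hx0
  obtain ⟨m, rfl⟩ : ∃ m', m = m' + 1 := ⟨m - 1, by omega⟩
  -- the finite extension
  have hint : IsIntegral F x := h1.isIntegral
  obtain ⟨E, hE⟩ : ∃ E : IntermediateField F A, E = IntermediateField.adjoin F {x} := ⟨_, rfl⟩
  have hfd : FiniteDimensional F E := by
    rw [hE]
    exact IntermediateField.adjoin.finiteDimensional hint
  have hxE : x ∈ E := by
    rw [hE]
    exact IntermediateField.mem_adjoin_simple_self F x
  have _ : CharZero E := charZero_of_injective_algebraMap (algebraMap F E).injective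
  obtain ⟨K₂, hK₂⟩ : ∃ K₂ : Subfield E,
      K₂ = Subfield.closure ((upK E K : Set E) ∪ {(⟨x, hxE⟩ : E)}) := ⟨_, rfl⟩
  have htr : Transcendental (upK E K) (⟨x, hxE⟩ : E) := by
    intro h
    apply hx0
    have h3 : IsAlgebraic (upK E K) (algebraMap E A ⟨x, hxE⟩) := h.algebraMap
    refine D4_sub (algebraMap (upK E K) A).injective (algebraMap (upK A K) A).injective
      (fun a => ?_) h3
    obtain ⟨b, hb, hab⟩ := a.2
    refine ⟨⟨algebraMap F A b, ⟨b, hb, rfl⟩⟩, ?_⟩
    show algebraMap F A b = algebraMap E A (a : E)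
    rw [← hab]
    rfl
  have hF2 : FF K₂ m := D4_gen (FF_up hF) _ hK₂ htr
  have hle : upK E K ≤ K₂ := by
    rw [hK₂]
    exact fun a ha => Subfield.subset_closure (Or.inl ha)
  have hxK : (⟨x, hxE⟩ : E) ∈ K₂ := by
    rw [hK₂]
    exact Subfield.subset_closure (Or.inr rfl)
  -- the generic coefficients
  have hCA : AlgebraicIndependent F fun q => algebraMap Ω A (C q) :=
    hC.1.map' (f := IsScalarTower.toAlgHom F Ω A) (algebraMap Ω A).injective
  have hCE : AlgebraicIndependent E fun q => algebraMap Ω A (C q) := hCA.extendScalars E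
  obtain ⟨Ω', hΩ'⟩ : ∃ Ω' : IntermediateField E A,
      Ω' = IntermediateField.adjoin E (Set.range fun q => algebraMap Ω A (C q)) := ⟨_, rfl⟩
  have hCm : ∀ q, algebraMap Ω A (C q) ∈ Ω' := fun q => by
    rw [hΩ']
    exact IntermediateField.subset_adjoin E _ ⟨q, rfl⟩
  obtain ⟨C', hC'⟩ : ∃ C' : μ × Bool × ι → Ω', C' = fun q => ⟨algebraMap Ω A (C q), hCm q⟩ :=
    ⟨_, rfl⟩
  have hG : Gn E C' := by
    refine ⟨AlgebraicIndependent.of_comp Ω'.val ?_, ?_⟩
    · rw [hC']
      exact hCE
    · apply IntermediateField.map_injective Ω'.val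
      have h5 : Ω'.val ∘ C' = fun q => algebraMap Ω A (C q) := by
        rw [hC']
        rfl
      rw [IntermediateField.adjoin_map, ← AlgHom.fieldRange_eq_map, IntermediateField.fieldRange_val,
        ← Set.range_comp, h5]
      exact hΩ'.symm
  -- the generic functions are independent
  have hbig : ∀ i, Big K₂ (up E (β i)) := fun i => big_mono hle (big_fin (hβ i))
  have i₀ : μ := Classical.arbitrary μ
  have hlen : (Finset.univ : Finset μ).toList.length = Fintype.card μ := by
    rw [Finset.length_toList, Finset.card_univ]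
  have hpos := pos_of_big m E K₂ (List.replicate (m - Fintype.card μ) (up E (β i₀)) ++
    (Finset.univ : Finset μ).toList.map fun i => up E (β i)) (by
      rw [List.length_append, List.length_replicate, List.length_map, hlen]
      omega) hF2 (by
      intro w hw
      rcases List.mem_append.1 hw with hw | hw
      · rw [List.eq_of_mem_replicate hw]
        exact hbig i₀
      · obtain ⟨i, _, rfl⟩ := List.mem_map.1 hw
        exact hbig i)
  have hind := ind_of_pos hF2 hG (fun i => up E (β i)) (Finset.univ : Finset μ).toList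
    (Finset.nodup_toList _) (List.replicate (m - Fintype.card μ) (up E (β i₀))) (by
      rw [List.length_replicate, hlen]
      omega) hpos
  have hgu : ∀ i, algebraMap Ω A (gu C β i) = algebraMap Ω' A (gu C' (fun i => up E (β i)) i) := by
    intro i
    unfold gu up
    rw [map_div₀, map_div₀, map_sum, map_sum, map_sum, map_sum]
    congr 1
    · refine Finset.sum_congr rfl fun j _ => ?_
      rw [map_mul, map_mul, ← IsScalarTower.algebraMap_apply F Ω A, hC']
      rfl
    · refine Finset.sum_congr rfl fun j _ => ?_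
      rw [map_mul, map_mul, ← IsScalarTower.algebraMap_apply F Ω A, hC']
      rfl
  have hindA : AlgebraicIndependent (cb K₂ C' (fun i => up E (β i)) ∅)
      (fun i : {i // i ∈ (Finset.univ : Finset μ).toList} => algebraMap Ω A (gu C β i)) := by
    have h3 := hind.map' (f := IsScalarTower.toAlgHom (cb K₂ C' (fun i => up E (β i)) ∅) Ω' A)
      (algebraMap Ω' A).injective
    have h4 : (IsScalarTower.toAlgHom (cb K₂ C' (fun i => up E (β i)) ∅) Ω' A) ∘
        (fun i : {i // i ∈ (Finset.univ : Finset μ).toList} => gu C' (fun i => up E (β i)) i) =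
        fun i : {i // i ∈ (Finset.univ : Finset μ).toList} => algebraMap Ω A (gu C β i) :=
      funext fun i => (hgu i).symm
    rwa [h4] at h3
  have hK2A : AlgebraicIndependent K₂ fun q => algebraMap Ω A (C q) :=
    hCE.restrictScalars (algebraMap K₂ E).injective
  have hadj : ∀ a ∈ Algebra.adjoin K₂ (Set.range fun q => algebraMap Ω A (C q)),
      ∃ b : cb K₂ C' (fun i => up E (β i)) ∅, algebraMap Ω' A b = a := by
    intro a ha
    induction ha using Algebra.adjoin_induction with
    | mem y hy =>
      obtain ⟨q, rfl⟩ := hy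
      refine ⟨⟨C' q, Subfield.subset_closure (Or.inl (Or.inr ⟨q, rfl⟩))⟩, ?_⟩
      rw [hC']
      rfl
    | algebraMap r =>
      exact ⟨⟨algebraMap E Ω' r, Subfield.subset_closure (Or.inl (Or.inl ⟨r, r.2, rfl⟩))⟩, rfl⟩
    | add y z _ _ hy hz =>
      obtain ⟨b, hb⟩ := hy
      obtain ⟨c, hc⟩ := hz
      refine ⟨b + c, ?_⟩
      rw [← hb, ← hc, ← map_add]
      rfl
    | mul y z _ _ hy hz =>
      obtain ⟨b, hb⟩ := hy
      obtain ⟨c, hc⟩ := hz
      refine ⟨b * c, ?_⟩
      rw [← hb, ← hc, ← map_mul]
      rfl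
  have hindB : AlgebraicIndependent (Algebra.adjoin K₂ (Set.range fun q => algebraMap Ω A (C q)))
      (fun i : {i // i ∈ (Finset.univ : Finset μ).toList} => algebraMap Ω A (gu C β i)) :=
    D4_res (R := Algebra.adjoin K₂ (Set.range fun q => algebraMap Ω A (C q)))
      (S := cb K₂ C' (fun i => up E (β i)) ∅) Subtype.val_injective
      (algebraMap (cb K₂ C' (fun i => up E (β i)) ∅) A).injective
      (fun a => by
        obtain ⟨b, hb⟩ := hadj a a.2
        exact ⟨b, hb⟩) hindA
  have hsum : AlgebraicIndependent K₂ (Sum.elim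
      (fun i : {i // i ∈ (Finset.univ : Finset μ).toList} => algebraMap Ω A (gu C β i))
      (fun q => algebraMap Ω A (C q))) :=
    AlgebraicIndependent.sumElim_iff.2 ⟨hK2A, hindB⟩
  have hL : Subfield.closure ((upK A K : Set A) ∪ {x}) ≤ K₂.map (algebraMap E A) := by
    rw [Subfield.closure_le]
    rintro z (⟨b, hb, rfl⟩ | hz)
    · exact ⟨algebraMap F E b, hle ⟨b, hb, rfl⟩, rfl⟩
    · rw [Set.mem_singleton_iff] at hz
      subst hz
      exact ⟨⟨z, hxE⟩, hxK, rfl⟩
  have hsumL : AlgebraicIndependent (Subfield.closure ((upK A K : Set A) ∪ {x})) (Sum.elim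
      (fun i : {i // i ∈ (Finset.univ : Finset μ).toList} => algebraMap Ω A (gu C β i))
      (fun q => algebraMap Ω A (C q))) :=
    D4_res (R := Subfield.closure ((upK A K : Set A) ∪ {x})) (S := K₂)
      (algebraMap (Subfield.closure ((upK A K : Set A) ∪ {x})) A).injective
      (algebraMap K₂ A).injective (fun a => by
      obtain ⟨b, hb, hab⟩ := hL a.2
      exact ⟨⟨b, hb⟩, hab⟩) hsum
  apply hx0
  refine alg_of_indep (upK A K) _ x hsumL ?_
  have hcb : upK A (cb K C β Set.univ) ≤ Subfield.closure ((upK A K : Set A) ∪ Set.range (Sum.elim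
      (fun i : {i // i ∈ (Finset.univ : Finset μ).toList} => algebraMap Ω A (gu C β i))
      (fun q => algebraMap Ω A (C q)))) := by
    unfold upK cb
    rw [RingHom.map_field_closure, Subfield.closure_le]
    rintro _ ⟨w, ((⟨b, hb, rfl⟩ | ⟨q, rfl⟩) | ⟨i, _, rfl⟩), rfl⟩
    · refine Subfield.subset_closure (Or.inl ⟨b, hb, ?_⟩)
      exact IsScalarTower.algebraMap_apply F Ω A b
    · exact Subfield.subset_closure (Or.inr ⟨Sum.inr q, rfl⟩)
    · exact Subfield.subset_closure (Or.inr ⟨Sum.inl ⟨i, Finset.mem_toList.2 (Finset.mem_univ i)⟩, rfl⟩)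
  exact D4_sub (algebraMap (upK A (cb K C β Set.univ)) A).injective
    (FaithfulSMul.algebraMap_injective _ _) (fun a => ⟨⟨a, hcb a.2⟩, rfl⟩) h2

end Pool.Agent.Lib.MP_1e3e9c_agW
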