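import Mathlib
import Pool.Agent.Lib.MP_1e3e9c_agU.C1
import Pool.Agent.Lib.MP_1e3e9c_agW.B9
import Pool.Agent.Lib.MP_1e3e9c_agW.C6
import Pool.Agent.Lib.MP_1e3e9c_agW.D2
import Pool.Agent.Lib.MP_1e3e9c_agW.D3
import Pool.Agent.Lib.MP_1e3e9c_agW.D4

/-!
# MP_1e3e9c_ag, project W, leaf D5: a constant point

`Ω = GF F (Fin (m+1) × Bool × _)`, `C = gc F _` (`gn_gc`), `κ = cb K C (fun _ => T.z) Set.univ`. `Two.gen_surf`: `FF κ 2`
and `c`. `Two.surf` for `T.up Ω` over `κ` (`φ(k) ⊆ κ`): `E` finite over `Ω`, `q'`. `A = E`, an algebra over `F` through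
`Ω`. Let `p_a` be the images of `T.p a` in `E²`; `q' = a p_0 + b p_1` (`wd p_0 p_1 ≠ 0`), `a ≠ 0` because
`f_0(q') ≠ 0` (`fac`). `τ = b / a`, `q'' = p_0 + τ p_1`: `f(q') = a^(d+1) f(q'')` (`ev_scale`), so
`Con (upK E κ) f(q'')`. `big_indep` for `pt (p 0)`: `i₀`, `i : Fin (m+3) → Fin (n+1)`. Let
`P_i` be the polynomial `f_i(p_0 + X p_1)` over `F`. Suppose `τ` is not algebraic over `F`: `indep_spec` for `P_(i j)`,
`P_(i₀)`: `g_j = f_(i j)(q'') / f_(i₀)(q'')` is algebraically independent over `upK E K`; `g_j` is algebraic over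
`upK E κ` (`Con`), which is the subfield of `E` generated by `upK E K`, the `C` and the `gu C _ i`, `i : Fin (m+1)`
(`Subfield.map_closure`); `g_j` is in the field generated by `F` and `τ`; `E` is algebraic over `Ω = F(C)`.
`alg_param` (`m + 1 + 2 ≤ m + 3`; `K := upK E K`, `F := ` the range of `F`): contradiction. So `τ` is algebraic over
`F`, hence so are all quotients of the coordinates of `f(q'')`; they are algebraic over `upK E κ`; by `alg_const`
(`β i = T.z` big, `Two.big_z`; `m + 1 < m + 3`) over `upK E K`.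
-/

set_option autoImplicit false

namespace Pool.Agent.Lib.MP_1e3e9c_agW

open IsLocalRing Pool.Agent.Lib.MP_b197b4_ntK Pool.Agent.Lib.MP_1e3e9c_agU

/-- The polynomial `f(p + X p')` of one form. -/
private noncomputable def D5_P {F : Type} [Field F] {D : ℕ} (c : Fin (D + 1) → F)
    (p p' : Fin 2 → F) : Polynomial F :=
  ∑ j : Fin (D + 1), Polynomial.C (c j) *
    (Polynomial.C (p 0) + Polynomial.C (p' 0) * Polynomial.X) ^ (D - (j : ℕ)) *
    (Polynomial.C (p 1) + Polynomial.C (p' 1) * Polynomial.X) ^ (j : ℕ)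

private theorem D5_aeval {F A : Type} [Field F] [Field A] [Algebra F A] {D : ℕ}
    (c : Fin (D + 1) → F) (p p' : Fin 2 → F) (τ : A) :
    Polynomial.aeval τ (D5_P c p p') = ev (fun j => algebraMap F A (c j))
      (fun b => algebraMap F A (p b) + τ * algebraMap F A (p' b)) := by
  unfold D5_P ev
  rw [map_sum]
  refine Finset.sum_congr rfl fun j _ => ?_
  simp only [map_mul, map_pow, map_add, Polynomial.aeval_C, Polynomial.aeval_X]
  rw [mul_comm (algebraMap F A (p' 0)) τ, mul_comm (algebraMap F A (p' 1)) τ]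

private theorem D5_eval {F : Type} [Field F] {D : ℕ}
    (c : Fin (D + 1) → F) (p p' : Fin 2 → F) :
    (D5_P c p p').eval 0 = ev c p := by
  unfold D5_P ev
  rw [Polynomial.eval_finsetSum]
  refine Finset.sum_congr rfl fun j _ => ?_
  simp only [Polynomial.eval_mul, Polynomial.eval_pow, Polynomial.eval_add, Polynomial.eval_C,
    Polynomial.eval_X, mul_zero, add_zero]

/-- An algebraic independence over a field is one over its image. -/
private theorem D5_indep {F Ω A σ : Type} [Field F] [Field Ω] [Field A] [Algebra F Ω]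
    [Algebra F A] [Algebra Ω A] [IsScalarTower F Ω A] {C : σ → Ω}
    (h : AlgebraicIndependent F C) :
    AlgebraicIndependent (algebraMap F A).fieldRange (fun q => algebraMap Ω A (C q)) := by
  have h1 : AlgebraicIndependent F (fun q => algebraMap Ω A (C q)) :=
    h.map' (f := IsScalarTower.toAlgHom F Ω A) (algebraMap Ω A).injective
  exact h1.ringHom_of_comp_eq (S := (algebraMap F A).fieldRange) (B := A)
    (algebraMap F A).rangeRestrictField (RingHom.id A)
    (fun y => by
      obtain ⟨y, x, rfl⟩ := y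
      exact ⟨x, rfl⟩)
    Function.injective_id (by ext x; rfl)

/-- Algebraic over a field, so algebraic over each subfield containing its image. -/
private theorem D5_alg {F A : Type} [Field F] [Field A] [Algebra F A] (K : Subfield A)
    (h : ∀ a, algebraMap F A a ∈ K) {x : A} (hx : IsAlgebraic F x) : IsAlgebraic K x := by
  obtain ⟨p, hp, hp0⟩ := hx
  refine ⟨p.map ((algebraMap F A).codRestrict K.toSubring h), ?_, ?_⟩
  · rw [Polynomial.map_ne_zero_iff]
    · exact hp
    · intro a b hab
      exact (algebraMap F A).injective (congrArg Subtype.val hab)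
  · rw [Polynomial.aeval_def, Polynomial.eval₂_map]
    rw [Polynomial.aeval_def] at hp0
    exact hp0

private theorem D5_mono {A : Type} [Field A] {K K' : Subfield A} (h : K ≤ K') {x : A}
    (hx : IsAlgebraic K x) : IsAlgebraic K' x := by
  obtain ⟨p, hp, hp0⟩ := hx
  refine ⟨p.map (Subfield.inclusion h), ?_, ?_⟩
  · rw [Polynomial.map_ne_zero_iff]
    · exact hp
    · exact (Subfield.inclusion h).injective
  · rw [Polynomial.aeval_def, Polynomial.eval₂_map]
    rw [Polynomial.aeval_def] at hp0
    exact hp0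

/-- Algebraic over the image of a field, so algebraic over the field. -/
private theorem D5_range {F A : Type} [Field F] [Field A] [Algebra F A] {x : A}
    (hx : IsAlgebraic (algebraMap F A).fieldRange x) : IsAlgebraic F x := by
  obtain ⟨p, hp, hp0⟩ := hx
  have hs : Function.Surjective (algebraMap F A).rangeRestrictField := by
    intro y
    obtain ⟨y, x, rfl⟩ := y
    exact ⟨x, rfl⟩
  obtain ⟨q, rfl⟩ := Polynomial.map_surjective _ hs p
  refine ⟨q, ?_, ?_⟩
  · rintro rfl
    exact hp (Polynomial.map_zero _)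
  · rw [Polynomial.aeval_def, Polynomial.eval₂_map] at hp0
    rw [Polynomial.aeval_def]
    exact hp0

private theorem D5_aeval_mem {F A : Type} [Field F] [Field A] [Algebra F A] (K : Subfield A)
    (h : ∀ a, algebraMap F A a ∈ K) {τ : A} (hτ : τ ∈ K) (P : Polynomial F) :
    Polynomial.aeval τ P ∈ K := by
  rw [Polynomial.aeval_eq_sum_range]
  refine sum_mem fun i _ => ?_
  rw [Algebra.smul_def]
  exact mul_mem (h _) (pow_mem hτ _)

theorem Two.core {k F : Type} [Field k] [CharZero k] [Field F] [CharZero F] {n d : ℕ}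
    {S : Set (MvPolynomial (Fin (n + 1)) k)} {φ : k →+* F} (hS : NR S) (T : Two S φ d)
    {K : Subfield F} (hφ : ∀ a, φ a ∈ K) (m : ℕ) (hF : FF K (m + 3))
    (hb : Big K (T.pt (T.p 0))) :
    ∃ (A : Type) (_ : Field A) (_ : Algebra F A) (q : Fin 2 → A), q ≠ 0 ∧
      ev (fun j => algebraMap F A (T.c 0 j)) q ≠ 0 ∧
      Con (upK A K) (fun i => ev (fun j => algebraMap F A (T.c i j)) q) := by
  classical
  obtain ⟨hFF, c, hc, hab⟩ := T.gen_surf hS hφ m hF hb
    (gn_gc F (Fin (m + 1) × Bool × (Option (Fin (d + 1) → Fin (n + 1)))))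
  set σ : Type := Fin (m + 1) × Bool × (Option (Fin (d + 1) → Fin (n + 1))) with hσ
  set κ : Subfield (GF F σ) := cb K (gc F σ) (fun _ => T.z) Set.univ with hκ
  obtain ⟨E, _, _, _, q', hq', hev, hCon⟩ := Two.surf hS (T.up (GF F σ)) (K := κ)
    (fun a => Subfield.subset_closure (Or.inl (Or.inl ⟨φ a, hφ a, rfl⟩))) hFF c hc hab
  let _ : Algebra F E := ((algebraMap (GF F σ) E).comp (algebraMap F (GF F σ))).toAlgebra
  have _ : IsScalarTower F (GF F σ) E := IsScalarTower.of_algebraMap_eq (fun x => rfl)
  have hcE : ∀ i j, ((T.up (GF F σ)).up E).c i j = algebraMap F E (T.c i j) := fun i j => rfl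
  set f : Fin (n + 1) → (Fin 2 → E) → E := fun i x => ev (fun j => algebraMap F E (T.c i j)) x
    with hf
  have hev' : f 0 q' ≠ 0 := hev
  have hCon' : Con (upK E κ) (fun i => f i q') := hCon
  -- the points
  set p : Fin 2 → Fin 2 → E := fun a b => algebraMap F E (T.p a b) with hp
  have hw : wd (p 0) (p 1) ≠ 0 := by
    intro h
    apply T.wne
    apply (map_eq_zero (algebraMap F E)).1
    simpa only [wd, map_sub, map_mul, hp] using h
  have hfac := T.fac E (algebraMap F E) q'
  set a : E := wd q' (p 1) / wd (p 0) (p 1) with ha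
  set b : E := wd (p 0) q' / wd (p 0) (p 1) with hb'
  have hw' : p 0 0 * p 1 1 - p 0 1 * p 1 0 ≠ 0 := hw
  have hq : ∀ i, q' i = a * p 0 i + b * p 1 i := by
    intro i
    have : wd (p 0) (p 1) * q' i = wd q' (p 1) * p 0 i + wd (p 0) q' * p 1 i := by
      fin_cases i
      · change wd (p 0) (p 1) * q' 0 = wd q' (p 1) * p 0 0 + wd (p 0) q' * p 1 0
        unfold wd
        ring
      · change wd (p 0) (p 1) * q' 1 = wd q' (p 1) * p 0 1 + wd (p 0) q' * p 1 1
        unfold wd
        ring
    rw [ha, hb', div_mul_eq_mul_div, div_mul_eq_mul_div, ← add_div, ← this, mul_div_assoc,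
      mul_comm, div_mul_cancel₀ _ hw]
  have ha0 : a ≠ 0 := by
    intro h0
    have h1 : wd q' (p 1) = 0 := by
      rcases div_eq_zero_iff.1 h0 with h | h
      · exact h
      · exact absurd h hw
    have h2 : wd (p 1) q' = 0 := by
      have : wd (p 1) q' = - wd q' (p 1) := by unfold wd; ring
      rw [this, h1, neg_zero]
    apply hev'
    rw [hf]
    change ev (fun j => algebraMap F E (T.c 0 j)) q' = 0
    rw [hfac]
    have h3 : wd (fun a => algebraMap F E (T.p 1 a)) q' = 0 := h2
    rw [h3, zero_pow (T.mupos 1).ne', mul_zero]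
  set τ : E := b / a with hτ
  set q'' : Fin 2 → E := fun i => p 0 i + τ * p 1 i with hq''
  have hqq : q' = fun i => a * q'' i := by
    funext i
    rw [hq i, hq'']
    change _ = a * (p 0 i + b / a * p 1 i)
    field_simp
  have hfq : ∀ i, f i q' = a ^ (d + 1) * f i q'' := by
    intro i
    rw [hqq]
    exact ev_scale a _ q''
  have hpow : a ^ (d + 1) ≠ 0 := pow_ne_zero _ ha0
  have hconq : Con (upK E κ) (fun i => f i q'') := by
    intro i j hj
    have h1 := hCon' i j (by
      change f j q' ≠ 0
      rw [hfq]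
      exact mul_ne_zero hpow hj)
    have h2 : f i q' / f j q' = f i q'' / f j q'' := by
      rw [hfq, hfq, mul_div_mul_left _ _ hpow]
    change IsAlgebraic _ (f i q'' / f j q'')
    rw [← h2]
    exact h1
  obtain ⟨i₀, i, hi₀, hind⟩ := big_indep hF hb
  set P : Fin (n + 1) → Polynomial F := fun i => D5_P (T.c i) (T.p 0) (T.p 1) with hP
  have hPa : ∀ i, Polynomial.aeval τ (P i) = f i q'' := fun i => D5_aeval _ _ _ _
  have hPe : ∀ i, (P i).eval 0 = T.pt (T.p 0) i := fun i => D5_eval _ _ _
  -- the subfields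
  have hKF : upK E K ≤ (algebraMap F E).fieldRange := by
    rintro x ⟨y, -, rfl⟩
    exact ⟨y, rfl⟩
  have hupκ : upK E κ = Subfield.closure ((upK E K : Set E) ∪
      Set.range (fun q => algebraMap (GF F σ) E (gc F σ q)) ∪
      Set.range (fun i => algebraMap (GF F σ) E (gu (gc F σ) (fun _ => T.z) i))) := by
    have h1 : (upK E K : Set E) =
        algebraMap (GF F σ) E '' (algebraMap F (GF F σ) '' (K : Set F)) := by
      rw [Set.image_image]
      rfl
    have h2 : Set.range (fun q => algebraMap (GF F σ) E (gc F σ q)) =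
        algebraMap (GF F σ) E '' Set.range (gc F σ) := by
      rw [← Set.range_comp]
      rfl
    have h3 : Set.range (fun i => algebraMap (GF F σ) E (gu (gc F σ) (fun _ => T.z) i)) =
        algebraMap (GF F σ) E '' (gu (gc F σ) (fun _ : Fin (m + 1) => T.z) '' Set.univ) := by
      rw [Set.image_univ, ← Set.range_comp]
      rfl
    rw [h1, h2, h3, ← Set.image_union, ← Set.image_union, ← RingHom.map_field_closure]
    rfl
  have halgτ : IsAlgebraic F τ := by
    by_contra hcon
    have hg := indep_spec (A := E) (K := K) (fun j => P (i j)) (P i₀)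
      (by rw [hPe]; exact hi₀) (by
        have : (fun j => (P (i j)).eval 0 / (P i₀).eval 0) =
            fun j => T.pt (T.p 0) (i j) / T.pt (T.p 0) i₀ := by
          funext j
          rw [hPe, hPe]
        rw [this]
        exact hind) τ hcon
    apply hcon
    apply D5_range
    have hP0 : Polynomial.aeval τ (P i₀) ≠ 0 := by
      intro h0
      have := hg.ne_zero (⟨0, by omega⟩ : Fin (m + 3))
      apply this
      simp only [h0, div_zero]
    refine alg_param (upK E K) (algebraMap F E).fieldRange hKF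
      (fun q => algebraMap (GF F σ) E (gc F σ q)) (D5_indep (gn_gc F σ).1)
      (fun i => algebraMap (GF F σ) E (gu (gc F σ) (fun _ => T.z) i)) (m + 3)
      (by rw [Fintype.card_fin]) _ hg τ ?_ ?_ ?_
    · intro j
      have hmem : Polynomial.aeval τ (P (i j)) / Polynomial.aeval τ (P i₀) ∈
          Subfield.closure (((algebraMap F E).fieldRange : Set E) ∪ {τ}) := by
        have h1 : ∀ x, algebraMap F E x ∈
            Subfield.closure (((algebraMap F E).fieldRange : Set E) ∪ {τ}) :=
          fun x => Subfield.subset_closure (Or.inl ⟨x, rfl⟩)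
        have h2 : τ ∈ Subfield.closure (((algebraMap F E).fieldRange : Set E) ∪ {τ}) :=
          Subfield.subset_closure (Or.inr rfl)
        exact div_mem (D5_aeval_mem _ h1 h2 _) (D5_aeval_mem _ h1 h2 _)
      exact isAlgebraic_algebraMap (A := E) (⟨_, hmem⟩ :
        Subfield.closure (((algebraMap F E).fieldRange : Set E) ∪ {τ}))
    · intro j
      rw [← hupκ]
      have h1 := hconq (i j) i₀ (by
        change f i₀ q'' ≠ 0
        rw [← hPa]
        exact hP0)
      change IsAlgebraic _ (Polynomial.aeval τ (P (i j)) / Polynomial.aeval τ (P i₀))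
      rw [hPa, hPa]
      exact h1
    · have h1 : IsAlgebraic (GF F σ) τ := Algebra.IsAlgebraic.isAlgebraic τ
      refine D5_alg _ ?_ h1
      have h2 : ((IntermediateField.adjoin F (Set.range (gc F σ))).toSubfield.map
          (algebraMap (GF F σ) E)) ≤ Subfield.closure (((algebraMap F E).fieldRange : Set E) ∪
          Set.range (fun q => algebraMap (GF F σ) E (gc F σ q))) := by
        have h3 : (IntermediateField.adjoin F (Set.range (gc F σ))).toSubfield =
          Subfield.closure (Set.range (algebraMap F (GF F σ)) ∪ Set.range (gc F σ)) := rfl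
        rw [h3, RingHom.map_field_closure]
        apply Subfield.closure_mono
        rintro _ ⟨_, (⟨x, rfl⟩ | ⟨x, rfl⟩), rfl⟩
        · exact Or.inl ⟨x, rfl⟩
        · exact Or.inr ⟨x, rfl⟩
      intro y
      apply h2
      refine ⟨y, ?_, rfl⟩
      rw [(gn_gc F σ).2]
      trivial
  refine ⟨E, inferInstance, inferInstance, q'', ?_, ?_, ?_⟩
  · intro h0
    apply hev'
    rw [hqq, h0]
    exfalso
    apply hq'
    rw [hqq, h0]
    funext i
    exact mul_zero a
  · intro h0
    apply hev'
    rw [hfq]
    change a ^ (d + 1) * ev (fun j => algebraMap F E (T.c 0 j)) q'' = 0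
    rw [h0, mul_zero]
  · intro i₁ j₁ hj₁
    have h1 := hconq i₁ j₁ hj₁
    have h2 : IsAlgebraic F (f i₁ q'' / f j₁ q'') := by
      have h3 : ∀ i, IsAlgebraic F (f i q'') := by
        intro i
        rw [← hPa]
        have h4 := D5_aeval_mem (algebraicClosure F E).toSubfield
          (fun x => (algebraicClosure F E).algebraMap_mem x) (τ := τ)
          (mem_algebraicClosure_iff.2 halgτ) (P i)
        exact mem_algebraicClosure_iff.1 h4
      rw [div_eq_mul_inv]
      exact (h3 i₁).mul (h3 j₁).inv
    exact alg_const hF (gn_gc F σ) (fun _ => T.z) (fun _ => T.big_z hb)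
      (by rw [Fintype.card_fin]; omega) E _ h2 h1

end Pool.Agent.Lib.MP_1e3e9c_agW
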