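import Mathlib
import Pool.Agent.Lib.MP_1e3e9c_agU.C5
import Pool.Agent.Lib.MP_1e3e9c_agU.C7a
import Pool.Agent.Lib.MP_1e3e9c_agW.B4

/-!
# MP_1e3e9c_ag, project W, leaf H1: big points exist; cutting down to three variables

`exists_big`: `w = (1, x_1, ..., x_m)`, `x` a transcendence basis of `F/K` (`FF K m`: `trdeg = m`).
`big_cut`: `κ = cb K C (fun _ => w) Set.univ = K(C)(u)`, `u_a = gu C _ a`, `a : Fin t`. `FF κ 3`: `FF_cb` with
`s = List.finRange t` (`{i | i ∈ s} = Set.univ`) and `l` = three copies of `w` (positive by `pos_of_big`). Let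
`ρ_j = z (i j) / z i₀`, `K₂ = K(ρ_1, ρ_2, ρ_3) ⊆ F` (`Subfield.closure`): `FF K₂ t` (finitely generated over `K`, so
over `K₂`; `trdeg F/K₂ = t + 3 - 3`). `w` is big over `K₂` (`big_mono`), so `0 < XX K₂ (List.replicate t w)`
(`pos_of_big`), and by `ind_of_pos` (`K := K₂`, `l = []`) the `u` are algebraically independent over
`cb K₂ C _ ∅ = K₂(C)`. `C` is over `F ⊇ K₂`. So `C, u` are algebraically independent over `K₂` (compare `C7a_P1`,
leaf C7a), so `ρ, C, u` over `K` and `ρ` over `K(C, u) = κ` (in `Ω`). As `trdeg Ω/κ = 3`, `Ω` is algebraic over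
`κ(ρ)`, and the `ρ_j` are quotients of coordinates of `up Ω z`.
-/

set_option autoImplicit false

namespace Pool.Agent.Lib.MP_1e3e9c_agW

open IsLocalRing Pool.Agent.Lib.MP_b197b4_ntK Pool.Agent.Lib.MP_1e3e9c_agU

/-- A field generated by a set is algebraic over the ring generated by the set. -/
private theorem H1_alg {A B : Type} [Field A] [Field B] [Algebra A B] {S : Set B}
    (h : IntermediateField.adjoin A S = ⊤) : Algebra.IsAlgebraic (Algebra.adjoin A S) B := by
  refine ⟨fun b => ?_⟩
  have hb : b ∈ IntermediateField.adjoin A S := by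
    rw [h]
    exact IntermediateField.mem_top
  induction hb using IntermediateField.adjoin_induction with
  | mem x hx =>
    exact isAlgebraic_algebraMap (⟨x, Algebra.subset_adjoin hx⟩ : Algebra.adjoin A S)
  | algebraMap x =>
    exact isAlgebraic_algebraMap (algebraMap A (Algebra.adjoin A S) x)
  | add x y _ _ hx hy => exact hx.add hy
  | inv x _ hx => exact hx.inv
  | mul x y _ _ hx hy => exact hx.mul hy

/-- The transcendence degrees in a tower `A ⊆ B = A(x) ⊆ Ω`. -/
private theorem H1_gen {A Ω I : Type} [Field A] [Field Ω] [Algebra A Ω] (x : I → Ω)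
    (B : Subfield Ω) (hB : B = Subfield.closure (Set.range (algebraMap A Ω) ∪ Set.range x))
    (hi : AlgebraicIndependent A x) : Algebra.trdeg A Ω = Cardinal.mk I + Algebra.trdeg B Ω := by
  have hA : ∀ a : A, algebraMap A Ω a ∈ B := fun a => by
    rw [hB]
    exact Subfield.subset_closure (Or.inl ⟨a, rfl⟩)
  have hx : ∀ i, x i ∈ B := fun i => by
    rw [hB]
    exact Subfield.subset_closure (Or.inr ⟨i, rfl⟩)
  let _ : Algebra A B := ((algebraMap A Ω).codRestrict B.toSubring hA).toAlgebra
  have _ : IsScalarTower A B Ω := IsScalarTower.of_algebraMap_eq fun a => rfl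
  have _ : FaithfulSMul A B :=
    (faithfulSMul_iff_algebraMap_injective A B).2 (algebraMap A B).injective
  let x' : I → B := fun i => ⟨x i, hx i⟩
  have htop : IntermediateField.adjoin A (Set.range x') = ⊤ := by
    rw [eq_top_iff]
    intro b _
    have key : ∀ (z : Ω) (hz : z ∈ B), (⟨z, hz⟩ : B) ∈ IntermediateField.adjoin A (Set.range x') := by
      have h1 : B ≤ ((IntermediateField.adjoin A (Set.range x')).toSubfield).map B.subtype := by
        intro z hz
        rw [hB] at hz
        refine Subfield.closure_le.2 ?_ hz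
        rintro w (⟨a, rfl⟩ | ⟨i, rfl⟩)
        · exact ⟨algebraMap A B a, IntermediateField.algebraMap_mem _ a, rfl⟩
        · exact ⟨x' i, IntermediateField.subset_adjoin A _ ⟨i, rfl⟩, rfl⟩
      intro z hz
      obtain ⟨y, hy, hyz⟩ := h1 hz
      have h2 : y = ⟨z, hz⟩ := Subtype.ext hyz
      rw [← h2]
      exact hy
    exact key b.1 b.2
  have halg : Algebra.IsAlgebraic (Algebra.adjoin A (Set.range x')) B := H1_alg htop
  have htow : Algebra.trdeg A B + Algebra.trdeg B Ω = Algebra.trdeg A Ω := trdeg_add_eq A B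
  have hcomp : (IsScalarTower.toAlgHom A B Ω) ∘ x' = x := rfl
  have h1 : AlgebraicIndependent A x' := by
    refine AlgebraicIndependent.of_comp (IsScalarTower.toAlgHom A B Ω) ?_
    rw [hcomp]
    exact hi
  have h2 : IsTranscendenceBasis A x' := h1.isTranscendenceBasis_iff_isAlgebraic.2 halg
  rw [← htow, h2.cardinalMk_eq_trdeg]

private theorem H1_map {A E Ω : Type} [Field A] [Field E] [Field Ω] [Algebra A E] (f : E →+* Ω)
    {L : Subfield Ω} (h : ∀ a : A, f (algebraMap A E a) ∈ L) {x : E} (hx : IsAlgebraic A x) :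
    IsAlgebraic L (f x) := by
  obtain ⟨p, hp, hx⟩ := hx
  let g : A →+* L := (f.comp (algebraMap A E)).codRestrict L h
  refine ⟨p.map g, (Polynomial.map_ne_zero_iff g.injective).2 hp, ?_⟩
  rw [Polynomial.aeval_def, Polynomial.eval₂_map]
  rw [Polynomial.aeval_def] at hx
  have h1 : (algebraMap L Ω).comp g = f.comp (algebraMap A E) := rfl
  rw [h1, ← Polynomial.hom_eval₂, hx, map_zero]

private theorem H1_fg {F : Type} [Field F] {K K₂ : Subfield F} (h : K ≤ K₂)
    (hF : (⊤ : IntermediateField K F).FG) : (⊤ : IntermediateField K₂ F).FG := by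
  obtain ⟨s, hs⟩ := hF
  refine ⟨s, ?_⟩
  have h1 : (IntermediateField.adjoin K (s : Set F)).toSubfield ≤
      (IntermediateField.adjoin K₂ (s : Set F)).toSubfield := by
    rw [IntermediateField.adjoin_toSubfield, Subfield.closure_le]
    rintro z (⟨c, rfl⟩ | hz)
    · exact (IntermediateField.adjoin K₂ (s : Set F)).algebraMap_mem ⟨c.1, h c.2⟩
    · exact IntermediateField.subset_adjoin K₂ _ hz
  rw [eq_top_iff]
  intro x _
  have h2 : x ∈ IntermediateField.adjoin K (s : Set F) := by
    rw [hs]
    exact IntermediateField.mem_top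
  exact h1 h2

theorem exists_big {F : Type} [Field F] {K : Subfield F} {m : ℕ} (hF : FF K m) :
    ∃ w : Fin (m + 1) → F, Big K w := by
  obtain ⟨b, hb⟩ := exists_isTranscendenceBasis K F
  have h1 : Cardinal.mk b = m := by
    rw [hb.cardinalMk_eq_trdeg, hF.2]
  have h2 : Cardinal.mk (Fin m) = Cardinal.mk b := by
    rw [h1, Cardinal.mk_fin]
  obtain ⟨f⟩ := Cardinal.eq.1 h2
  let w : Fin (m + 1) → F := Fin.cons 1 fun i => (f i : F)
  have hw0 : w 0 = 1 := rfl
  refine ⟨w, fun h => one_ne_zero (hw0.symm.trans (congrFun h 0)), fun x => ?_⟩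
  have h3 := hb.isAlgebraic_field.isAlgebraic x
  refine H1_map (RingHom.id F) (fun a => ?_) h3
  have h4 : (IntermediateField.adjoin K (Set.range ((↑) : b → F))).toSubfield ≤
      Subfield.closure ((K : Set F) ∪ {y | ∃ i j, w j ≠ 0 ∧ y = w i / w j}) := by
    rw [IntermediateField.adjoin_toSubfield, Subfield.closure_le]
    rintro z (⟨c, rfl⟩ | ⟨c, rfl⟩)
    · exact Subfield.subset_closure (Or.inl c.2)
    · refine Subfield.subset_closure (Or.inr ⟨Fin.succ (f.symm c), 0, ?_, ?_⟩)
      · rw [hw0]
        exact one_ne_zero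
      · have h5 : w (Fin.succ (f.symm c)) = c := by
          show ((f (f.symm c) : b) : F) = c
          rw [Equiv.apply_symm_apply]
        rw [hw0, h5, div_one]
  exact h4 a.2

theorem big_cut {F ι ι' : Type} [Field F] [CharZero F] [Fintype ι] [Fintype ι']
    {K : Subfield F} {t : ℕ} (hF : FF K (t + 3)) {w : ι' → F} (hw : Big K w) {z : ι → F}
    (i₀ : ι) (i : Fin 3 → ι) (h₀ : z i₀ ≠ 0)
    (hi : AlgebraicIndependent K (fun j => z (i j) / z i₀)) {Ω : Type} [Field Ω] [Algebra F Ω]
    {C : Fin t × Bool × ι' → Ω} (hC : Gn F C) :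
    FF (cb K C (fun _ => w) Set.univ) 3 ∧ Big (cb K C (fun _ => w) Set.univ) (up Ω z) := by
  classical
  have hs : {i : Fin t | i ∈ List.finRange t} = Set.univ := by
    ext i
    simp
  have hnd : (List.finRange t).Nodup := List.nodup_finRange t
  constructor
  · have h1 := FF_cb (K := K) (e := 3) hC (fun _ : Fin t => w) (List.finRange t) hnd (by
      rw [List.length_finRange, add_comm]
      exact hF) (List.replicate 3 w) (List.length_replicate) (by
      refine pos_of_big (t + 3) F K _ ?_ hF ?_
      · rw [List.length_append, List.length_replicate, List.length_map, List.length_finRange, add_comm]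
      · intro v hv
        rw [List.mem_append] at hv
        rcases hv with hv | hv
        · rw [List.eq_of_mem_replicate hv]
          exact hw
        · obtain ⟨a, -, rfl⟩ := List.mem_map.1 hv
          exact hw)
    rw [hs] at h1
    exact h1
  · let ρ : Fin 3 → F := fun j => z (i j) / z i₀
    obtain ⟨K₂, hK₂⟩ : ∃ K₂ : Subfield F, K₂ = Subfield.closure (Set.range (algebraMap K F) ∪ Set.range ρ) :=
      ⟨_, rfl⟩
    have hle : K ≤ K₂ := by
      intro a ha
      rw [hK₂]
      exact Subfield.subset_closure (Or.inl ⟨⟨a, ha⟩, rfl⟩)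
    have htr := H1_gen ρ K₂ hK₂ hi
    rw [hF.2, Cardinal.mk_fin, Nat.cast_add, add_comm] at htr
    have hF₂ : FF K₂ t := ⟨H1_fg hle hF.1, (Cardinal.eq_of_add_eq_add_left htr Cardinal.natCast_lt_aleph0).symm⟩
    have hpos : 0 < XX K₂ ((List.finRange t).map fun _ => w) := by
      refine pos_of_big t F K₂ _ ?_ hF₂ ?_
      · rw [List.length_map, List.length_finRange]
      · intro v hv
        obtain ⟨a, -, rfl⟩ := List.mem_map.1 hv
        exact big_mono hle hw
    have h1 := XX_tower K₂ hC (fun _ : Fin t => w) (List.finRange t) hnd []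
    rw [List.map_nil, XX_nil, List.nil_append, hs] at h1
    rw [← h1] at hpos
    have h2 : Module.Finite (cb K₂ C (fun _ : Fin t => w) Set.univ) Ω := Module.finite_of_finrank_pos hpos
    have h3 : Algebra.IsAlgebraic (cb K₂ C (fun _ : Fin t => w) Set.univ) Ω := Algebra.IsAlgebraic.of_finite _ _
    refine ⟨fun h0 => h₀ ((map_eq_zero (algebraMap F Ω)).1 (congrFun h0 i₀)), fun x => ?_⟩
    refine H1_map (RingHom.id Ω) (fun a => ?_) (h3.isAlgebraic x)
    have h4 : cb K₂ C (fun _ : Fin t => w) Set.univ ≤ Subfield.closure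
        ((cb K C (fun _ : Fin t => w) Set.univ : Set Ω) ∪ {y | ∃ i j, up Ω z j ≠ 0 ∧ y = up Ω z i / up Ω z j}) := by
      rw [cb, Subfield.closure_le]
      rintro y ((⟨c, hc, rfl⟩ | hy) | hy)
      · have h5 : K₂ ≤ (Subfield.closure ((cb K C (fun _ : Fin t => w) Set.univ : Set Ω) ∪
            {y | ∃ i j, up Ω z j ≠ 0 ∧ y = up Ω z i / up Ω z j})).comap (algebraMap F Ω) := by
          rw [hK₂, Subfield.closure_le]
          rintro y (⟨c, rfl⟩ | ⟨j, rfl⟩)
          · refine Subfield.subset_closure (Or.inl ?_)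
            exact Subfield.subset_closure (Or.inl (Or.inl ⟨c.1, c.2, rfl⟩))
          · refine Subfield.subset_closure (Or.inr ⟨i j, i₀, ?_, ?_⟩)
            · exact fun h => h₀ ((map_eq_zero (algebraMap F Ω)).1 h)
            · exact map_div₀ (algebraMap F Ω) _ _
        exact h5 hc
      · refine Subfield.subset_closure (Or.inl ?_)
        exact Subfield.subset_closure (Or.inl (Or.inr hy))
      · refine Subfield.subset_closure (Or.inl ?_)
        exact Subfield.subset_closure (Or.inr hy)
    exact h4 a.2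

end Pool.Agent.Lib.MP_1e3e9c_agW
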