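import Mathlib

/-!
# MP_1e3e9c_ag, project W, leaf H2: two independent copies

`κ ⊆ A`, `b` algebraically independent over `κ`, `A` algebraic over `κ(b)`. Let `R` be the algebraic closure of `κ` in
`A` (a subfield), `A'` = an algebraic closure of the field of rational functions in `T_1, T_2, T_3` over `A`
(`FractionRing (MvPolynomial (Fin 3) A)`), `j : A → A'`. `b` is algebraically independent over `R`, the `T_i` are
over `j(A) ⊇ j(R)`, so there is a homomorphism `R(b) → A'` which is `j` on `R` and `b_i ↦ T_i` (`R(b)` is the field of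
fractions of the polynomial ring `R[b]`; `IsFractionRing.lift` or `AlgebraicIndependent` API). `A` is algebraic over
`R(b)` (subfield of `A` generated by `R` and `b`), `A'` is algebraically closed: extend to `σ : A → A'`
(`IsAlgClosed.lift`). An element of `A` algebraic over `κ` is in `R`.
-/

set_option autoImplicit false

namespace Pool.Agent.Lib.MP_1e3e9c_agW

open scoped IntermediateField.algebraAdjoinAdjoin in
private theorem H2_alg {A : Type} [Field A] (κ : Subfield A) {N : ℕ} (b : Fin N → A)
    (hA : ∀ x : A, IsAlgebraic (Subfield.closure ((κ : Set A) ∪ Set.range b)) x) :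
    Algebra.IsAlgebraic (Algebra.adjoin κ (Set.range b)) A := by
  have h0 : Subfield.closure ((κ : Set A) ∪ Set.range b) =
      (IntermediateField.adjoin κ (Set.range b)).toSubfield := by
    show Subfield.closure ((κ : Set A) ∪ Set.range b) =
      Subfield.closure (Set.range (algebraMap κ A) ∪ Set.range b)
    congr 2
    ext x
    constructor
    · intro hx
      exact ⟨⟨x, hx⟩, rfl⟩
    · rintro ⟨y, rfl⟩
      exact y.2
  have h1 : Algebra.IsAlgebraic (IntermediateField.adjoin κ (Set.range b)) A := by
    refine ⟨fun x => ?_⟩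
    have h2 := hA x
    rw [h0] at h2
    exact h2
  exact Algebra.IsAlgebraic.trans _ (IntermediateField.adjoin κ (Set.range b)) _

private theorem H2_main {A A' : Type} [Field A] [Field A'] [IsAlgClosed A'] (κ : Subfield A)
    {N : ℕ} (b : Fin N → A) (θ : MvPolynomial (Fin N) A →+* A') (hθ : Function.Injective θ)
    (h3 : IsTranscendenceBasis (algebraicClosure κ A) b) :
    ∃ σ : A →+* A', (∀ x, IsAlgebraic κ x → σ x = θ (MvPolynomial.C x)) ∧
      ∀ i, σ (b i) = θ (MvPolynomial.X i) := by
  have h4 : Algebra.IsAlgebraic (Algebra.adjoin (algebraicClosure κ A) (Set.range b)) A :=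
    h3.isAlgebraic
  let ψ : MvPolynomial (Fin N) (algebraicClosure κ A) →+* A' :=
    θ.comp (MvPolynomial.map (algebraMap (algebraicClosure κ A) A))
  have hψ : Function.Injective ψ :=
    hθ.comp (MvPolynomial.map_injective _ (algebraMap (algebraicClosure κ A) A).injective)
  let e := h3.1.aevalEquiv
  let φ : Algebra.adjoin (algebraicClosure κ A) (Set.range b) →+* A' :=
    ψ.comp (e.symm : _ →+* _)
  have hφ : Function.Injective φ := hψ.comp e.symm.injective
  let i1 : Algebra (Algebra.adjoin (algebraicClosure κ A) (Set.range b)) A' := φ.toAlgebra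
  have i2 : FaithfulSMul (Algebra.adjoin (algebraicClosure κ A) (Set.range b)) A' :=
    (faithfulSMul_iff_algebraMap_injective _ _).2 hφ
  let σ : A →ₐ[Algebra.adjoin (algebraicClosure κ A) (Set.range b)] A' := IsAlgClosed.lift
  have hσ : ∀ p : MvPolynomial (Fin N) (algebraicClosure κ A), σ (MvPolynomial.aeval b p) = ψ p := by
    intro p
    have h5 : σ (algebraMap (Algebra.adjoin (algebraicClosure κ A) (Set.range b)) A (e p)) =
        φ (e p) := σ.commutes (e p)
    rw [h3.1.algebraMap_aevalEquiv] at h5
    rw [h5]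
    show ψ (e.symm (e p)) = ψ p
    rw [e.symm_apply_apply]
  refine ⟨σ.toRingHom, fun x hx => ?_, fun i => ?_⟩
  · have h5 := hσ (MvPolynomial.C (⟨x, mem_algebraicClosure_iff.2 hx⟩ : algebraicClosure κ A))
    rw [MvPolynomial.aeval_C] at h5
    refine Eq.trans h5 ?_
    show θ (MvPolynomial.map (algebraMap (algebraicClosure κ A) A) (MvPolynomial.C _)) = _
    rw [MvPolynomial.map_C]
    rfl
  · have h5 := hσ (MvPolynomial.X i)
    rw [MvPolynomial.aeval_X] at h5
    refine Eq.trans h5 ?_
    show θ (MvPolynomial.map (algebraMap (algebraicClosure κ A) A) (MvPolynomial.X i)) = _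
    rw [MvPolynomial.map_X]

theorem two_copies {A : Type} [Field A] (κ : Subfield A) {N : ℕ} (b : Fin N → A)
    (hb : AlgebraicIndependent κ b)
    (hA : ∀ x : A, IsAlgebraic (Subfield.closure ((κ : Set A) ∪ Set.range b)) x) :
    ∃ (A' : Type) (_ : Field A') (j σ : A →+* A'), (∀ x, IsAlgebraic κ x → σ x = j x) ∧
      AlgebraicIndependent j.fieldRange (fun i => σ (b i)) := by
  classical
  have h1 := H2_alg κ b hA
  have h2 : IsTranscendenceBasis κ b := hb.isTranscendenceBasis_iff_isAlgebraic.2 h1
  have h3 : IsTranscendenceBasis (algebraicClosure κ A) b :=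
    (Algebra.IsAlgebraic.isTranscendenceBasis_iff κ (algebraicClosure κ A)).1 h2
  let L : Type := FractionRing (MvPolynomial (Fin N) A)
  let A' : Type := AlgebraicClosure L
  let θ : MvPolynomial (Fin N) A →+* A' := (algebraMap L A').comp (algebraMap (MvPolynomial (Fin N) A) L)
  have hθ : Function.Injective θ :=
    (algebraMap L A').injective.comp (IsFractionRing.injective (MvPolynomial (Fin N) A) L)
  let j : A →+* A' := θ.comp MvPolynomial.C
  obtain ⟨σ, hσ1, hσ2⟩ := H2_main κ b θ hθ h3
  refine ⟨A', inferInstance, j, σ, hσ1, ?_⟩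
  have h6 : (fun i => σ (b i)) = θ ∘ MvPolynomial.X := by
    funext i
    exact hσ2 i
  rw [h6]
  refine (MvPolynomial.algebraicIndependent_X (Fin N) A).ringHom_of_comp_eq
    j.rangeRestrictField θ ?_ hθ ?_
  · intro y
    obtain ⟨x, hx⟩ := y.2
    exact ⟨x, Subtype.ext hx⟩
  · rfl

end Pool.Agent.Lib.MP_1e3e9c_agW
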