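import Mathlib

/-!
# MP_1e3e9c_ag, project W, leaf H3: a rank count

Write `r(X | B)` for the transcendence degree over `B` of the field generated by `B` and `X`; `c = card` of the index
set of `C`, `G = {g_1, g_2, g_3}`. (Proved lemmas on `Algebra.trdeg` of subfields which may help: store
MP_1e3e9c_agW_D0_help.lean by helper53.)
(1) `r(F | K(G)) ≤ t + 1`: `F ∪ {τ}` is algebraic over `K(x, τ)`, `r(F ∪ τ | K) ≤ t + 4`, and `G` is algebraic over `F(τ)` and
independent over `K`: `r(F ∪ τ | K(G)) ≤ t + 4 - 3`. In the same way `r(F₂ | K(G)) ≤ t + 1`.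
(2) `r(C | F ∪ F₂) ≤ c - t`: for every `j : Fin t` the block `C (j, ·, ·)` satisfies the relation `heq j` over the field
generated by `F ∪ F₂`: the polynomial `(∑ X_(0,i) w_i) (∑ X_(1,i) w₂_i) - (∑ X_(0,i) w₂_i) (∑ X_(1,i) w_i)` is not `0`: its
coefficient at `X_(0,i) X_(1,i')` is `w_i w₂_i' - w₂_i w_i' ≠ 0` for the indices of `hww`. So `r(block | F ∪ F₂)` is at
most the size of the block minus one; add over `j`.
(3) So `r(F ∪ F₂ ∪ C | K(G)) ≤ 2 (t + 1) + c - t = t + c + 2`.
(4) `r(F ∪ C | K) = t + 3 + c` (`hxi`, `hxa`, `hC`), `G` is algebraic over `F(C)` (`hgC`) and independent over `K`: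
`r(F ∪ C | K(G)) = t + c`. `T` is independent over `F(C)` (so over its algebraic closure, which contains `G`), and in
`F₂`: `r(F ∪ F₂ ∪ C | K(G)) ≥ t + c + 3`. Contradiction.
-/

set_option autoImplicit false

namespace Pool.Agent.Lib.MP_1e3e9c_agW

section H3

open Set

private theorem H3_incl {A : Type} [Field A] (K : Subfield A) (s : Set A) :
    ∀ z ∈ Algebra.adjoin K s, z ∈ Subfield.closure ((K : Set A) ∪ s) := by
  intro z hz
  induction hz using Algebra.adjoin_induction with
  | mem x hx => exact Subfield.subset_closure (Or.inr hx)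
  | algebraMap r => exact Subfield.subset_closure (Or.inl r.2)
  | add x y _ _ hx hy => exact add_mem hx hy
  | mul x y _ _ hx hy => exact mul_mem hx hy

open scoped IntermediateField.algebraAdjoinAdjoin in
private theorem H3_alg {k Ω : Type} [Field k] [Field Ω] [Algebra k Ω] {S : Set Ω} {y : Ω}
    (hy : IsAlgebraic (IntermediateField.adjoin k S) y) : IsAlgebraic (Algebra.adjoin k S) y :=
  (IsFractionRing.isAlgebraic_iff (Algebra.adjoin k S) (IntermediateField.adjoin k S) Ω).2 hy

private theorem H3_mem {A : Type} [Field A] (K : Subfield A) (s : Set A) (y : A) :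
    y ∈ (AlgebraicIndependent.matroid K A).closure s ↔
      IsAlgebraic (Subfield.closure ((K : Set A) ∪ s)) y := by
  rw [AlgebraicIndependent.matroid_closure_eq, SetLike.mem_coe, Subalgebra.mem_algebraicClosure]
  constructor
  · intro h
    have h1 : (Algebra.adjoin K s).toSubring ≤ (Subfield.closure ((K : Set A) ∪ s)).toSubring :=
      H3_incl K s
    exact h.ringHom_of_comp_eq (Subring.inclusion h1) (RingHom.id A)
      (Subring.inclusion_injective h1) rfl
  · intro h
    have h3 : Subfield.closure ((K : Set A) ∪ s) ≤ (IntermediateField.adjoin K s).toSubfield := by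
      rw [Subfield.closure_le]
      rintro w (hw | hw)
      · exact IntermediateField.algebraMap_mem _ (⟨w, hw⟩ : K)
      · exact IntermediateField.subset_adjoin _ _ hw
    exact H3_alg (h.ringHom_of_comp_eq (Subfield.inclusion h3) (RingHom.id A)
      (Subfield.inclusion h3).injective rfl)

private theorem H3_rk {A : Type} [Field A] (K : Subfield A) {I : Type} [Fintype I] {x : I → A}
    (hx : AlgebraicIndependent K x) :
    (AlgebraicIndependent.matroid K A).eRk (range x) = (Fintype.card I : ℕ∞) := by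
  have h1 : (AlgebraicIndependent.matroid K A).Indep (range x) := hx.to_subtype_range
  rw [h1.eRk_eq_encard, ← image_univ, hx.injective.encard_image, encard_univ, ENat.card_eq_coe_fintype_card]

private theorem H3_le {A : Type} {I : Type} [Fintype I] (M : Matroid A) (x : I → A) :
    M.eRk (range x) ≤ (Fintype.card I : ℕ∞) := by
  refine (M.eRk_le_encard _).trans ?_
  rw [← image_univ]
  refine (encard_image_le x univ).trans ?_
  rw [encard_univ, ENat.card_eq_coe_fintype_card]

/-- The rank of `F ∪ {τ} ∪ G`. -/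
private theorem H3_one {A : Type} [Field A] (K F : Subfield A) {t : ℕ} (x : Fin (t + 3) → A)
    (hxa : ∀ y ∈ F, IsAlgebraic (Subfield.closure ((K : Set A) ∪ range x)) y) (τ : A)
    (g : Fin 3 → A) (hKF : K ≤ F)
    (hgτ : ∀ j, IsAlgebraic (Subfield.closure ((F : Set A) ∪ {τ})) (g j)) :
    (AlgebraicIndependent.matroid K A).eRk ((F : Set A) ∪ {τ} ∪ range g) ≤ ((t + 4 : ℕ) : ℕ∞) := by
  set M := AlgebraicIndependent.matroid K A with hM
  have h1 : (F : Set A) ∪ {τ} ∪ range g ⊆ M.closure ((F : Set A) ∪ {τ}) := by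
    refine union_subset (M.subset_closure _ (subset_univ _)) ?_
    rintro _ ⟨j, rfl⟩
    rw [hM, H3_mem]
    have h2 : (K : Set A) ∪ ((F : Set A) ∪ {τ}) = (F : Set A) ∪ {τ} := by
      rw [← union_assoc, union_eq_self_of_subset_left (fun a ha => hKF ha)]
    rw [h2]
    exact hgτ j
  have h3 : (F : Set A) ⊆ M.closure (range x) := fun y hy => (H3_mem K _ y).2 (hxa y hy)
  refine (M.eRk_mono h1).trans ?_
  rw [M.eRk_closure_eq]
  refine (M.eRk_union_le_eRk_add_encard _ _).trans ?_
  rw [encard_singleton]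
  have h4 : M.eRk (F : Set A) ≤ ((t + 3 : ℕ) : ℕ∞) := by
    refine (M.eRk_mono h3).trans ?_
    rw [M.eRk_closure_eq]
    refine (H3_le M x).trans ?_
    rw [Fintype.card_fin]
  refine (add_le_add_left h4 1).trans (le_of_eq ?_)
  push_cast
  ring

/-- A block of coefficients is dependent over `F ∪ F₂`. -/
private theorem H3_two {A : Type} [Field A] (L : Subfield A) {ι : Type} [Fintype ι]
    (c : Bool × ι → A) (w w₂ : ι → A) (hw : ∀ i, w i ∈ L) (hw₂ : ∀ i, w₂ i ∈ L)
    (hww : ∃ i i', w i * w₂ i' ≠ w₂ i * w i')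
    (heq : (∑ i, c (false, i) * w i) * (∑ i, c (true, i) * w₂ i) =
      (∑ i, c (false, i) * w₂ i) * (∑ i, c (true, i) * w i)) : ¬ AlgebraicIndependent L c := by
  classical
  intro h
  obtain ⟨a, b, hab⟩ := hww
  let u : ι → L := fun i => ⟨w i, hw i⟩
  let u₂ : ι → L := fun i => ⟨w₂ i, hw₂ i⟩
  let P : MvPolynomial (Bool × ι) L :=
    (∑ i, MvPolynomial.X (false, i) * MvPolynomial.C (u i)) *
      (∑ i, MvPolynomial.X (true, i) * MvPolynomial.C (u₂ i)) -
    (∑ i, MvPolynomial.X (false, i) * MvPolynomial.C (u₂ i)) *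
      (∑ i, MvPolynomial.X (true, i) * MvPolynomial.C (u i))
  have hP : MvPolynomial.aeval c P = 0 := by
    simp only [P, map_sub, map_mul, map_sum, MvPolynomial.aeval_X, MvPolynomial.aeval_C]
    rw [sub_eq_zero]
    exact heq
  have hP0 : P = 0 := algebraicIndependent_iff.1 h P hP
  let v : Bool × ι → L := fun q => if q.1 then (if q.2 = b then 1 else 0) else (if q.2 = a then 1 else 0)
  have h1 : MvPolynomial.eval v P = 0 := by rw [hP0, map_zero]
  have h2 : MvPolynomial.eval v P = u a * u₂ b - u₂ a * u b := by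
    simp [P, v]
  rw [h2, sub_eq_zero] at h1
  exact hab (congrArg Subtype.val h1)

end H3

theorem rank_count {A : Type} [Field A] (K F F₂ : Subfield A) (hKF : K ≤ F) (hKF₂ : K ≤ F₂)
    {t : ℕ} (x x₂ : Fin (t + 3) → A) (hxF : ∀ i, x i ∈ F) (hxi : AlgebraicIndependent K x)
    (hxa : ∀ y ∈ F, IsAlgebraic (Subfield.closure ((K : Set A) ∪ Set.range x)) y)
    (hxa₂ : ∀ y ∈ F₂, IsAlgebraic (Subfield.closure ((K : Set A) ∪ Set.range x₂)) y)
    {ι : Type} [Fintype ι] (C : Fin t × Bool × ι → A) (hC : AlgebraicIndependent F C)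
    (w w₂ : ι → A) (hw : ∀ i, w i ∈ F) (hw₂ : ∀ i, w₂ i ∈ F₂)
    (hww : ∃ i i', w i * w₂ i' ≠ w₂ i * w i')
    (heq : ∀ j, (∑ i, C (j, false, i) * w i) * (∑ i, C (j, true, i) * w₂ i) =
      (∑ i, C (j, false, i) * w₂ i) * (∑ i, C (j, true, i) * w i))
    (T : Fin 3 → A) (hT : ∀ i, T i ∈ F₂)
    (hTi : AlgebraicIndependent (Subfield.closure ((F : Set A) ∪ Set.range C)) T)
    (τ τ₂ : A) (g : Fin 3 → A) (hg : AlgebraicIndependent K g)
    (hgτ : ∀ j, IsAlgebraic (Subfield.closure ((F : Set A) ∪ {τ})) (g j))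
    (hgτ₂ : ∀ j, IsAlgebraic (Subfield.closure ((F₂ : Set A) ∪ {τ₂})) (g j))
    (hgC : ∀ j, IsAlgebraic (Subfield.closure ((F : Set A) ∪ Set.range C)) (g j)) : False := by
  classical
  set M := AlgebraicIndependent.matroid K A with hM
  -- (1) the rank of `F ∪ F₂`
  have h1 := H3_one K F x hxa τ g hKF hgτ
  have h2 := H3_one K F₂ x₂ hxa₂ τ₂ g hKF₂ hgτ₂
  have h3 : (3 : ℕ∞) + M.eRk ((F : Set A) ∪ F₂) ≤ ((2 * t + 8 : ℕ) : ℕ∞) := by
    have e1 := M.eRk_inter_add_eRk_union_le ((F : Set A) ∪ {τ} ∪ Set.range g)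
      ((F₂ : Set A) ∪ {τ₂} ∪ Set.range g)
    have e2 : (3 : ℕ∞) ≤ M.eRk (((F : Set A) ∪ {τ} ∪ Set.range g) ∩
        ((F₂ : Set A) ∪ {τ₂} ∪ Set.range g)) := by
      have e3 := H3_rk K hg
      rw [Fintype.card_fin] at e3
      refine (le_of_eq e3.symm).trans (M.eRk_mono ?_)
      exact Set.subset_inter Set.subset_union_right Set.subset_union_right
    have e4 : M.eRk ((F : Set A) ∪ F₂) ≤ M.eRk (((F : Set A) ∪ {τ} ∪ Set.range g) ∪
        ((F₂ : Set A) ∪ {τ₂} ∪ Set.range g)) := by
      refine M.eRk_mono (Set.union_subset_union ?_ ?_)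
      · exact fun a ha => Or.inl (Or.inl ha)
      · exact fun a ha => Or.inl (Or.inl ha)
    refine (add_le_add e2 e4).trans (e1.trans ((add_le_add h1 h2).trans (le_of_eq ?_)))
    push_cast
    ring
  -- (2) every block has an element which is algebraic over the others
  have hCi := hC.injective
  have h4 : ∀ j : Fin t, ∃ e : Bool × ι, C (j, e) ∈ M.closure (((F : Set A) ∪ F₂) ∪
      (fun b => C (j, b)) '' {b | b ≠ e}) := by
    intro j
    by_contra hcon
    push Not at hcon
    set L := Subfield.closure ((F : Set A) ∪ F₂) with hL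
    have hci : Function.Injective (fun b : Bool × ι => C (j, b)) := fun b b' hb =>
      (Prod.mk.inj (hCi hb)).2
    refine H3_two L (fun b => C (j, b)) w w₂ (fun i => Subfield.subset_closure (Or.inl (hw i)))
      (fun i => Subfield.subset_closure (Or.inr (hw₂ i))) hww (heq j) ?_
    rw [← algebraicIndependent_subtype_range hci]
    have h5 : (AlgebraicIndependent.matroid L A).Indep (Set.range fun b : Bool × ι => C (j, b)) := by
      rw [Matroid.indep_iff_forall_notMem_closure_sdiff (Set.subset_univ _)]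
      rintro _ ⟨e, rfl⟩ hmem
      rw [H3_mem] at hmem
      apply hcon e
      rw [hM, H3_mem]
      have h6 : Subfield.closure ((L : Set A) ∪ ((Set.range fun b : Bool × ι => C (j, b)) \ {C (j, e)})) ≤
          Subfield.closure ((K : Set A) ∪ (((F : Set A) ∪ F₂) ∪
            (fun b => C (j, b)) '' {b | b ≠ e})) := by
        rw [Subfield.closure_le]
        rintro y (hy | ⟨⟨b, rfl⟩, hb⟩)
        · have h7 : L ≤ Subfield.closure ((K : Set A) ∪ (((F : Set A) ∪ F₂) ∪
              (fun b => C (j, b)) '' {b | b ≠ e})) := by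
            rw [hL]
            exact Subfield.closure_mono fun z hz => Or.inr (Or.inl hz)
          exact h7 hy
        · refine Subfield.subset_closure (Or.inr (Or.inr ⟨b, fun hbe => hb ?_, rfl⟩))
          rw [hbe]
          rfl
      exact hmem.ringHom_of_comp_eq (Subfield.inclusion h6) (RingHom.id A)
        (Subfield.inclusion h6).injective rfl
    exact h5
  choose e he using h4
  -- (3) the upper bound
  set S : Set (Fin t × Bool × ι) := {q | q.2 ≠ e q.1} with hS
  have h8 : (F : Set A) ∪ F₂ ∪ Set.range C ⊆ M.closure (((F : Set A) ∪ F₂) ∪ C '' S) := by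
    refine Set.union_subset ?_ ?_
    · exact Set.subset_union_left.trans (M.subset_closure _ (Set.subset_univ _))
    · rintro _ ⟨⟨j, b⟩, rfl⟩
      by_cases hb : b = e j
      · have h9 : ((F : Set A) ∪ F₂) ∪ (fun b => C (j, b)) '' {b | b ≠ e j} ⊆
            ((F : Set A) ∪ F₂) ∪ C '' S := by
          refine Set.union_subset_union_right _ ?_
          rintro _ ⟨b', hb', rfl⟩
          exact ⟨(j, b'), hb', rfl⟩
        rw [hb]
        exact M.closure_subset_closure h9 (he j)
      · exact M.subset_closure _ (Set.subset_univ _) (Or.inr ⟨(j, b), hb, rfl⟩)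
  have h10 : M.eRk ((F : Set A) ∪ F₂ ∪ Set.range C) ≤ M.eRk ((F : Set A) ∪ F₂) + S.encard := by
    refine (M.eRk_mono h8).trans ?_
    rw [M.eRk_closure_eq]
    refine (M.eRk_union_le_eRk_add_encard _ _).trans ?_
    exact add_le_add le_rfl (Set.encard_image_le C S)
  have h11 : S.encard + (t : ℕ∞) = ((Fintype.card (Fin t × Bool × ι) : ℕ) : ℕ∞) := by
    have e1 : Sᶜ = Set.range fun j : Fin t => (j, e j) := by
      ext ⟨j, b⟩
      simp only [hS, Set.mem_compl_iff, Set.mem_ofPred_eq, ne_eq, not_not, Set.mem_range,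
        Prod.mk.injEq]
      exact ⟨fun h => ⟨j, rfl, h.symm⟩, fun ⟨j', h', h''⟩ => by rw [← h'', h']⟩
    have e2 : Sᶜ.encard = (t : ℕ∞) := by
      rw [e1, ← Set.image_univ, Function.Injective.encard_image (fun j j' h => (Prod.mk.inj h).1),
        Set.encard_univ, ENat.card_eq_coe_fintype_card, Fintype.card_fin]
    rw [← e2, Set.encard_add_encard_compl, Set.encard_univ, ENat.card_eq_coe_fintype_card]
  -- (4) the lower bound
  have h12 : AlgebraicIndependent K (Sum.elim C x) := by
    let _ : Algebra K F := (Subfield.inclusion hKF).toAlgebra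
    have _ : IsScalarTower K F A := IsScalarTower.of_algebraMap_eq fun a => rfl
    refine hxi.sumElim_of_tower (S := F) ?_ hC
    rintro _ ⟨i, rfl⟩
    exact ⟨⟨x i, hxF i⟩, rfl⟩
  have h13 : AlgebraicIndependent K (Sum.elim T (Sum.elim C x)) := by
    have hKL : K ≤ Subfield.closure ((F : Set A) ∪ Set.range C) := fun a ha =>
      Subfield.subset_closure (Or.inl (hKF ha))
    let _ : Algebra K (Subfield.closure ((F : Set A) ∪ Set.range C)) :=
      (Subfield.inclusion hKL).toAlgebra
    have _ : IsScalarTower K (Subfield.closure ((F : Set A) ∪ Set.range C)) A :=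
      IsScalarTower.of_algebraMap_eq fun a => rfl
    refine h12.sumElim_of_tower (S := Subfield.closure ((F : Set A) ∪ Set.range C)) ?_ hTi
    rintro _ ⟨i | i, rfl⟩
    · exact ⟨⟨C i, Subfield.subset_closure (Or.inr ⟨i, rfl⟩)⟩, rfl⟩
    · exact ⟨⟨x i, Subfield.subset_closure (Or.inl (hxF i))⟩, rfl⟩
  have h14 : ((3 + (Fintype.card (Fin t × Bool × ι) + (t + 3)) : ℕ) : ℕ∞) ≤
      M.eRk ((F : Set A) ∪ F₂ ∪ Set.range C) := by
    have e1 := H3_rk K h13
    rw [Fintype.card_sum, Fintype.card_sum, Fintype.card_fin, Fintype.card_fin] at e1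
    refine (le_of_eq e1.symm).trans (M.eRk_mono ?_)
    rintro _ ⟨i | i | i, rfl⟩
    · exact Or.inl (Or.inr (hT i))
    · exact Or.inr ⟨i, rfl⟩
    · exact Or.inl (Or.inl (hxF i))
  have h15 : ((3 + (Fintype.card (Fin t × Bool × ι) + (t + 3)) : ℕ) : ℕ∞) + ((3 + t : ℕ) : ℕ∞) ≤
      ((2 * t + 8 : ℕ) : ℕ∞) + ((Fintype.card (Fin t × Bool × ι) : ℕ) : ℕ∞) := by
    refine (add_le_add_left (h14.trans h10) _).trans ?_
    rw [← h11]
    refine le_trans (le_of_eq ?_) (add_le_add_left h3 _)
    push_cast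
    ring
  have h16 : (3 + (Fintype.card (Fin t × Bool × ι) + (t + 3))) + (3 + t) ≤
      (2 * t + 8) + Fintype.card (Fin t × Bool × ι) := by exact_mod_cast h15
  omega

end Pool.Agent.Lib.MP_1e3e9c_agW
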