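import Mathlib
import Pool.Agent.Lib.MP_1e3e9c_agU.C1
import Pool.Agent.Lib.MP_1e3e9c_agU.C9
import Pool.Agent.Lib.MP_1e3e9c_agW.H1
import Pool.Agent.Lib.MP_1e3e9c_agW.H2
import Pool.Agent.Lib.MP_1e3e9c_agW.H3

/-!
# MP_1e3e9c_ag, project W, leaf H4: no three independent constants

`κ = cb K C (fun _ => w) Set.univ`, `κ_A = upK A κ`. `Ω` is generated over `κ` by the image of `F` (`Ω = F(C)`,
`C ⊆ κ`), so there are `b : Fin 3 → F` whose images in `Ω` are a transcendence basis of `Ω/κ`
(`exists_isTranscendenceBasis_subset` or similar, `FF κ 3`); `A` is algebraic over `κ_A(b)`. `two_copies` for `κ_A`,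
`b`: `A'`, `j`, `σ`. Apply `rank_count` in `A'` to `K' = j(K)` (the image of `upK A K`; `σ` is equal to `j` on it, as
`K ⊆ κ`), `F' = j(F)`, `F₂ = σ(F)` (images of `F → A`), `x = j ∘ y`, `x₂ = σ ∘ y`, `y : Fin (t+3) → F` a transcendence
basis of `F/K` (`hF`), `C' = j ∘ C = σ ∘ C` (algebraically independent over `j(F)` by `hC`), `w' = j ∘ w`,
`w₂ = σ ∘ w`, `T = σ ∘ b` (independent over `j(A)`), `j τ`, `σ τ`, `g' = j ∘ g = σ ∘ g` (`hgκ`). `hgC`: `A` is algebraic
over `Ω = F(C)`. `heq`: `u_a = gu C _ a ∈ κ`, so `σ u_a = j u_a`: multiply out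
`(∑ C' w') / (∑ C' w') = (∑ C' w₂) / (∑ C' w₂)`; the denominators are not `0` (`C` algebraically independent over `F`,
`w ≠ 0`). `hww`: otherwise `w₂` is proportional to `w'`, the quotients of its coordinates are in `j(F)`, and
`F₂ = σ(F)` is algebraic over the field generated over `K'` by them (`hw`, transported by `σ`), so `T 0 ∈ F₂` is
algebraic over `j(F)`: contradiction to the independence of `T` over `j(A)`.
-/

set_option autoImplicit false

namespace Pool.Agent.Lib.MP_1e3e9c_agW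

open IsLocalRing Pool.Agent.Lib.MP_b197b4_ntK Pool.Agent.Lib.MP_1e3e9c_agU

private theorem H4_alg_map {A A' : Type} [Field A] [Field A'] (f : A →+* A') {S : Subfield A}
    {S' : Subfield A'} (h : ∀ y ∈ S, f y ∈ S') {x : A} (hx : IsAlgebraic S x) :
    IsAlgebraic S' (f x) :=
  hx.ringHom_of_comp_eq ((f.comp S.subtype).codRestrict S' fun y => h y y.2) f
    (RingHom.injective _) rfl

private theorem H4_ind_map {A A' : Type} [Field A] [Field A'] (f : A →+* A') {S : Subfield A}
    {I : Type} {g : I → A} (hg : AlgebraicIndependent S g) :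
    AlgebraicIndependent (S.map f) (fun i => f (g i)) := by
  refine hg.ringHom_of_comp_eq ((f.comp S.subtype).codRestrict (S.map f) fun y => ⟨y, y.2, rfl⟩) f
    ?_ f.injective rfl
  rintro ⟨_, y, hy, rfl⟩
  exact ⟨⟨y, hy⟩, rfl⟩

private theorem H4_ind_mono {A : Type} [Field A] {S S' : Subfield A} (h : S ≤ S') {I : Type}
    {g : I → A} (hg : AlgebraicIndependent S' g) : AlgebraicIndependent S g := by
  let _ : Algebra S S' := (Subfield.inclusion h).toAlgebra
  have _ : IsScalarTower S S' A := IsScalarTower.of_algebraMap_eq fun a => rfl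
  exact hg.restrictScalars (algebraMap S S').injective

private theorem H4_trans {A : Type} [Field A] {S S' : Subfield A} (h : ∀ y ∈ S', IsAlgebraic S y)
    {x : A} (hx : IsAlgebraic S' x) : IsAlgebraic S x := by
  have h1 : IsAlgebraic (algebraicClosure S A) x :=
    hx.ringHom_of_comp_eq (S'.subtype.codRestrict (algebraicClosure S A)
      fun y => mem_algebraicClosure_iff.2 (h y y.2)) (RingHom.id A) (RingHom.injective _) rfl
  exact h1.restrictScalars S

private theorem H4_clos {A A' : Type} [Field A] [Field A'] (f : A →+* A') {s : Set A}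
    {S' : Subfield A'} (h : ∀ y ∈ s, f y ∈ S') : ∀ y ∈ Subfield.closure s, f y ∈ S' := by
  have h1 : Subfield.closure s ≤ S'.comap f := Subfield.closure_le.2 h
  exact h1

private theorem H4_of {Ω A A' : Type} [Field Ω] [Field A] [Algebra Ω A] [Field A'] (f : A →+* A')
    {S' : Subfield A'} (h : ∀ y, f (algebraMap Ω A y) ∈ S') {x : A} (hx : IsAlgebraic Ω x) :
    IsAlgebraic S' (f x) :=
  hx.ringHom_of_comp_eq ((f.comp (algebraMap Ω A)).codRestrict S' h) f (RingHom.injective _) rfl

private theorem H4_self {A : Type} [Field A] {S : Subfield A} {x : A} (hx : x ∈ S) :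
    IsAlgebraic S x := isAlgebraic_algebraMap (⟨x, hx⟩ : S)

private theorem H4_basis {F Ω : Type} [Field Ω] (κ : Subfield Ω) (e : F → Ω)
    {N : ℕ} (hN : Algebra.trdeg κ Ω = N)
    (hgen : ∀ x : Ω, x ∈ Subfield.closure ((κ : Set Ω) ∪ Set.range e)) :
    ∃ b : Fin N → F, AlgebraicIndependent κ (fun i => e (b i)) ∧
      ∀ x : Ω, IsAlgebraic (Subfield.closure ((κ : Set Ω) ∪ Set.range fun i => e (b i))) x := by
  have h1 : Algebra.IsAlgebraic (Algebra.adjoin κ (Set.range e)) Ω := by
    rw [← IntermediateField.isAlgebraic_adjoin_iff_top]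
    refine ⟨fun x => ?_⟩
    have h3 : Subfield.closure ((κ : Set Ω) ∪ Set.range e) ≤
        (IntermediateField.adjoin κ (Set.range e)).toSubfield := by
      rw [Subfield.closure_le]
      rintro w (hw | hw)
      · exact IntermediateField.algebraMap_mem _ (⟨w, hw⟩ : κ)
      · exact IntermediateField.subset_adjoin _ _ hw
    exact isAlgebraic_algebraMap (⟨x, h3 (hgen x)⟩ : IntermediateField.adjoin κ (Set.range e))
  obtain ⟨t, ht, hb⟩ := exists_isTranscendenceBasis_subset (R := κ) (Set.range e)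
  have hc : Cardinal.mk t = (N : Cardinal) := hb.cardinalMk_eq_trdeg.trans hN
  obtain ⟨E⟩ : Nonempty (Fin N ≃ t) := by
    rw [← Cardinal.eq, Cardinal.mk_fin, hc]
  choose b hbe using fun i : Fin N => ht (E i).2
  have hbe' : (fun i => e (b i)) = (fun i => ((E i : t) : Ω)) := funext hbe
  refine ⟨b, ?_, fun x => ?_⟩
  · rw [hbe']
    exact hb.1.comp E E.injective
  · have h2 : Algebra.IsAlgebraic (IntermediateField.adjoin κ
        (Set.range ((↑) : t → Ω))) Ω := hb.isAlgebraic_field
    have h3 : (IntermediateField.adjoin κ (Set.range ((↑) : t → Ω))).toSubfield ≤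
        Subfield.closure ((κ : Set Ω) ∪ Set.range fun i => e (b i)) := by
      have h4 : (IntermediateField.adjoin κ (Set.range ((↑) : t → Ω))).toSubfield =
        Subfield.closure (Set.range (algebraMap κ Ω) ∪ Set.range ((↑) : t → Ω)) := rfl
      rw [h4, Subfield.closure_le]
      rintro _ (⟨y, rfl⟩ | ⟨y, rfl⟩)
      · exact Subfield.subset_closure (Or.inl y.2)
      · refine Subfield.subset_closure (Or.inr ⟨E.symm y, ?_⟩)
        have h5 := hbe (E.symm y)
        rw [Equiv.apply_symm_apply] at h5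
        exact h5
    exact (h2.isAlgebraic x).ringHom_of_comp_eq (Subfield.inclusion h3) (RingHom.id Ω)
      (Subfield.inclusion h3).injective rfl

theorem no_three {F ι' : Type} [Field F] [CharZero F] [Fintype ι'] {K : Subfield F} {t : ℕ}
    (hF : FF K (t + 3)) {w : ι' → F} (hw : Big K w) {Ω : Type} [Field Ω] [Algebra F Ω]
    {C : Fin t × Bool × ι' → Ω} (hC : Gn F C) (hκ : FF (cb K C (fun _ => w) Set.univ) 3)
    (A : Type) [Field A] [Algebra Ω A] [Algebra F A] [IsScalarTower F Ω A]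
    (hA : Algebra.IsAlgebraic Ω A) (τ : A) (g : Fin 3 → A)
    (hg : AlgebraicIndependent (upK A K) g)
    (hgτ : ∀ j, IsAlgebraic
      (Subfield.closure (Set.range (algebraMap F A) ∪ {τ})) (g j))
    (hgκ : ∀ j, IsAlgebraic (upK A (cb K C (fun _ => w) Set.univ)) (g j)) : False := by
  classical
  obtain ⟨κ, hκe⟩ : ∃ κ, κ = cb K C (fun _ => w) Set.univ := ⟨_, rfl⟩
  rw [← hκe] at hκ hgκ
  have hCκ : ∀ q, C q ∈ κ := fun q => by
    rw [hκe]
    exact Subfield.subset_closure (Or.inl (Or.inr ⟨q, rfl⟩))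
  have hKκ : ∀ y ∈ K, algebraMap F Ω y ∈ κ := fun y hy => by
    rw [hκe]
    exact Subfield.subset_closure (Or.inl (Or.inl ⟨y, hy, rfl⟩))
  have huκ : ∀ a, gu C (fun _ => w) a ∈ κ := fun a => by
    rw [hκe]
    exact Subfield.subset_closure (Or.inr ⟨a, trivial, rfl⟩)
  have hΩ : ∀ x : Ω, x ∈ Subfield.closure (Set.range (algebraMap F Ω) ∪ Set.range C) := by
    intro x
    have h1 : x ∈ (IntermediateField.adjoin F (Set.range C)).toSubfield := by
      rw [hC.2]
      trivial
    exact h1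
  have hgen : ∀ x : Ω, x ∈ Subfield.closure ((κ : Set Ω) ∪ Set.range (algebraMap F Ω)) := by
    intro x
    refine Subfield.closure_le.2 ?_ (hΩ x)
    rintro _ (⟨y, rfl⟩ | ⟨q, rfl⟩)
    · exact Subfield.subset_closure (Or.inr ⟨y, rfl⟩)
    · exact Subfield.subset_closure (Or.inl (hCκ q))
  obtain ⟨b, hb, hbA⟩ := H4_basis κ (algebraMap F Ω) hκ.2 hgen
  have he : ∀ x, algebraMap F A x = algebraMap Ω A (algebraMap F Ω x) :=
    IsScalarTower.algebraMap_apply F Ω A
  have hb2 : AlgebraicIndependent (upK A κ) (fun i => algebraMap F A (b i)) := by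
    have h1 := H4_ind_map (algebraMap Ω A) hb
    have h2 : (fun i => algebraMap F A (b i)) =
        fun i => algebraMap Ω A (algebraMap F Ω (b i)) := funext fun i => he _
    rw [h2]
    exact h1
  have hA2 : ∀ x : A, IsAlgebraic (Subfield.closure ((upK A κ : Set A) ∪
      Set.range fun i => algebraMap F A (b i))) x := by
    intro x
    have h1 : IsAlgebraic (algebraMap Ω A).fieldRange x :=
      H4_of (S' := (algebraMap Ω A).fieldRange) (RingHom.id A) (fun y => ⟨y, rfl⟩)
        (hA.isAlgebraic x)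
    refine H4_trans ?_ h1
    rintro _ ⟨y, rfl⟩
    refine H4_alg_map (algebraMap Ω A) ?_ (hbA y)
    refine H4_clos (algebraMap Ω A) ?_
    rintro _ (hz | ⟨i, rfl⟩)
    · exact Subfield.subset_closure (Or.inl ⟨_, hz, rfl⟩)
    · exact Subfield.subset_closure (Or.inr ⟨i, he _⟩)
  obtain ⟨A', _, j, σ, hjσ, hT⟩ := two_copies (upK A κ) (fun i => algebraMap F A (b i)) hb2 hA2
  obtain ⟨y, hy, hyA⟩ := H4_basis K (id : F → F) hF.2
    (fun x => Subfield.subset_closure (Or.inr ⟨x, rfl⟩))
  -- `σ = j` on the elements of `κ`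
  have hσκ : ∀ z ∈ κ, σ (algebraMap Ω A z) = j (algebraMap Ω A z) := fun z hz =>
    hjσ _ (H4_self ⟨z, hz, rfl⟩)
  have hσK : ∀ z ∈ K, σ (algebraMap F A z) = j (algebraMap F A z) := fun z hz => by
    rw [he]
    exact hσκ _ (hKκ z hz)
  have hw0 : ∃ i, w i ≠ 0 := by
    by_contra h
    push Not at h
    exact hw.1 (funext h)
  have hD : ∀ (a : Fin t) (s : Bool), ∑ i, C (a, s, i) * algebraMap F Ω (w i) ≠ 0 := by
    intro a s h0
    obtain ⟨i₀, hi₀⟩ := hw0
    have h1 : LinearIndependent F (fun i : ι' => C (a, s, i)) :=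
      hC.1.linearIndependent.comp (fun i => (a, s, i)) (fun i i' h => by
        simpa using h)
    rw [Fintype.linearIndependent_iff] at h1
    apply hi₀
    refine h1 w ?_ i₀
    rw [← h0]
    refine Finset.sum_congr rfl fun i _ => ?_
    rw [Algebra.smul_def, mul_comm]
  refine rank_count ((upK A K).map j) (j.comp (algebraMap F A)).fieldRange
    (σ.comp (algebraMap F A)).fieldRange ?_ ?_ (fun i => j (algebraMap F A (y i)))
    (fun i => σ (algebraMap F A (y i))) (fun i => ⟨y i, rfl⟩) (H4_ind_map j (H4_ind_map (algebraMap F A) hy)) ?_ ?_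
    (fun q => j (algebraMap Ω A (C q))) ?_ (fun i => j (algebraMap F A (w i)))
    (fun i => σ (algebraMap F A (w i))) (fun i => ⟨w i, rfl⟩) (fun i => ⟨w i, rfl⟩) ?_ ?_
    (fun i => σ (algebraMap F A (b i))) (fun i => ⟨b i, rfl⟩) ?_ (j τ) (σ τ) (fun i => j (g i))
    (H4_ind_map j hg) ?_ ?_ ?_
  · rintro _ ⟨_, ⟨z, -, rfl⟩, rfl⟩
    exact ⟨z, rfl⟩
  · rintro _ ⟨_, ⟨z, hz, rfl⟩, rfl⟩
    exact ⟨z, hσK z hz⟩
  · rintro _ ⟨z, rfl⟩
    refine H4_alg_map (j.comp (algebraMap F A)) ?_ (hyA z)
    refine H4_clos _ ?_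
    rintro v (hv | ⟨i, rfl⟩)
    · exact Subfield.subset_closure (Or.inl ⟨_, ⟨v, hv, rfl⟩, rfl⟩)
    · exact Subfield.subset_closure (Or.inr ⟨i, rfl⟩)
  · rintro _ ⟨z, rfl⟩
    refine H4_alg_map (σ.comp (algebraMap F A)) ?_ (hyA z)
    refine H4_clos _ ?_
    rintro v (hv | ⟨i, rfl⟩)
    · exact Subfield.subset_closure (Or.inl ⟨_, ⟨v, hv, rfl⟩, (hσK v hv).symm⟩)
    · exact Subfield.subset_closure (Or.inr ⟨i, rfl⟩)
  · refine AlgebraicIndependent.ringHom_of_comp_eq (S := (j.comp (algebraMap F A)).fieldRange)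
      (B := A') (j.comp (algebraMap F A)).rangeRestrictField (j.comp (algebraMap Ω A)) hC.1 ?_
      (j.comp (algebraMap Ω A)).injective ?_
    · rintro ⟨_, x, rfl⟩
      exact ⟨x, rfl⟩
    · ext x
      change j (algebraMap F A x) = j (algebraMap Ω A (algebraMap F Ω x))
      rw [he]
  · by_contra h
    push Not at h
    have h1 : ∀ v ∈ Subfield.closure ((K : Set F) ∪ {y | ∃ i j, w j ≠ 0 ∧ y = w i / w j}),
        σ (algebraMap F A v) = j (algebraMap F A v) := by
      have h2 : Subfield.closure ((K : Set F) ∪ {y | ∃ i j, w j ≠ 0 ∧ y = w i / w j}) ≤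
          (σ.comp (algebraMap F A)).eqLocusField (j.comp (algebraMap F A)) := by
        rw [Subfield.closure_le]
        rintro v (hv | ⟨i, i', hi', rfl⟩)
        · exact hσK v hv
        · change σ (algebraMap F A (w i / w i')) = j (algebraMap F A (w i / w i'))
          have h3 : j (algebraMap F A (w i')) ≠ 0 := by
            intro h0
            exact hi' ((map_eq_zero (algebraMap F A)).1 ((map_eq_zero j).1 h0))
          have h4 : σ (algebraMap F A (w i')) ≠ 0 := by
            intro h0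
            exact hi' ((map_eq_zero (algebraMap F A)).1 ((map_eq_zero σ).1 h0))
          rw [map_div₀, map_div₀, map_div₀, div_eq_div_iff h4 h3]
          exact (h i i').symm
      exact h2
    have h5 : IsAlgebraic j.fieldRange (σ (algebraMap F A (b 0))) := by
      refine H4_alg_map (σ.comp (algebraMap F A)) ?_ (hw.2 (b 0))
      intro v hv
      exact ⟨algebraMap F A v, (h1 v hv).symm⟩
    exact hT.transcendental 0 h5
  · intro a
    have h1 := hσκ _ (huκ a)
    unfold gu at h1
    have hj : ∀ s : Bool, j (algebraMap Ω A (∑ i, C (a, s, i) * algebraMap F Ω (w i))) =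
        ∑ i, j (algebraMap Ω A (C (a, s, i))) * j (algebraMap F A (w i)) := by
      intro s
      simp only [map_sum, map_mul, he]
    have hs : ∀ s : Bool, σ (algebraMap Ω A (∑ i, C (a, s, i) * algebraMap F Ω (w i))) =
        ∑ i, j (algebraMap Ω A (C (a, s, i))) * σ (algebraMap F A (w i)) := by
      intro s
      simp only [map_sum, map_mul, he, hσκ _ (hCκ _)]
    have hj0 : j (algebraMap Ω A (∑ i, C (a, true, i) * algebraMap F Ω (w i))) ≠ 0 := by
      intro h0
      exact hD a true ((map_eq_zero (algebraMap Ω A)).1 ((map_eq_zero j).1 h0))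
    have hs0 : σ (algebraMap Ω A (∑ i, C (a, true, i) * algebraMap F Ω (w i))) ≠ 0 := by
      intro h0
      exact hD a true ((map_eq_zero (algebraMap Ω A)).1 ((map_eq_zero σ).1 h0))
    rw [map_div₀, map_div₀, map_div₀] at h1
    beta_reduce at h1
    rw [div_eq_div_iff hs0 hj0, hj, hj, hs, hs] at h1
    exact h1.symm
  · refine H4_ind_mono ?_ hT
    rw [Subfield.closure_le]
    rintro _ (⟨v, rfl⟩ | ⟨q, rfl⟩)
    · exact ⟨algebraMap F A v, rfl⟩
    · exact ⟨algebraMap Ω A (C q), rfl⟩
  · intro i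
    refine H4_alg_map j ?_ (hgτ i)
    refine H4_clos _ ?_
    rintro _ (⟨v, rfl⟩ | rfl)
    · exact Subfield.subset_closure (Or.inl ⟨v, rfl⟩)
    · exact Subfield.subset_closure (Or.inr rfl)
  · intro i
    rw [← hjσ (g i) (hgκ i)]
    refine H4_alg_map σ ?_ (hgτ i)
    refine H4_clos _ ?_
    rintro _ (⟨v, rfl⟩ | rfl)
    · exact Subfield.subset_closure (Or.inl ⟨v, rfl⟩)
    · exact Subfield.subset_closure (Or.inr rfl)
  · intro i
    refine H4_of j ?_ (hA.isAlgebraic (g i))
    intro z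
    refine H4_clos (j.comp (algebraMap Ω A)) ?_ z (hΩ z)
    rintro _ (⟨v, rfl⟩ | ⟨q, rfl⟩)
    · refine Subfield.subset_closure (Or.inl ⟨v, ?_⟩)
      change j (algebraMap F A v) = j (algebraMap Ω A (algebraMap F Ω v))
      rw [he]
    · exact Subfield.subset_closure (Or.inr ⟨q, rfl⟩)

end Pool.Agent.Lib.MP_1e3e9c_agW
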