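import Mathlib
import Pool.Agent.Lib.MP_1e3e9c_agW.D5
import Pool.Agent.Lib.MP_1e3e9c_agW.H4

/-!
# MP_1e3e9c_ag, project W, leaf H5: the constant point, general case

`exists_big`: `w : Fin (t + 4) → F` big over `K`. If `t = 0`: `F` is algebraic over `K(ρ)`, `ρ_j` the three independent
quotients (`trdeg F/K = 3`), so `pt (p 0)` is big over `K`: `Two.core` with `m = 0`. (The general argument also works for
`t = 0`, except for `Nonempty (Fin t)` in `alg_const`.)
General: `Ω = GF F (Fin t × Bool × Fin (t + 4))`, `C = gc F _`, `κ = cb K C (fun _ => w) Set.univ`. `big_cut` for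
`z = pt (p 0)`: `FF κ 3` and `up Ω (pt (p 0)) = (T.up Ω).pt ((T.up Ω).p 0)` is big over `κ` (`up_pt`). `Two.core` for
`T.up Ω`, `κ`, `m = 0` (`φ(k) ⊆ κ`): `A`, `q`. Replace `A` by the algebraic closure of the image of `Ω` in `A`: let
`q = a p_0 + b p_1` (images of `T.p 0`, `T.p 1` in `A²`), `a ≠ 0` because `f_0(q) ≠ 0`, `τ = b / a`,
`q'' = p_0 + τ p_1`, `f(q) = a^(d+1) f(q'')` (`ev_scale`), so `Con (upK A κ) f(q'')`, `f_0(q'') ≠ 0`. `τ` is algebraic over
`Ω`: otherwise (`indep_spec` with `F := Ω`, `K := κ`, and one of the three independent quotients of `up Ω (pt (p 0))`, or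
directly: a quotient `f_i(q'')/f_j(q'')` with nonconstant `f_i(p_0 + X p_1)/f_j(p_0 + X p_1)`, e.g. `i = 0`:
`f_0(p_0) = 0`, is algebraic over `κ`, and `τ` is algebraic over `Ω` and this quotient). So let `A₁` = the set of the
elements of `A` algebraic over `Ω` (`algebraicClosure Ω A`, an intermediate field), `A₁/Ω` algebraic, `τ ∈ A₁`,
everything takes place in `A₁`. Suppose `τ` is not algebraic over `F`: `indep_spec` with
`P_j = f_(i j)(p_0 + X p_1)`, `Q = f_(i₀)(p_0 + X p_1)`, `K`, `F`: the `g_j = f_(i j)(q'')/f_(i₀)(q'')` are algebraically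
independent over `upK A₁ K`; they are algebraic over `upK A₁ κ` (`Con`) and in `F(τ)`: `no_three` is a contradiction.
So `τ` is algebraic over `F`, hence so are the quotients of the coordinates of `f(q'')`; by `alg_const` (`β = w`,
`t < t + 3`) they are algebraic over `upK A₁ K`: `Con (upK A₁ K) f(q'')`.
-/

set_option autoImplicit false

namespace Pool.Agent.Lib.MP_1e3e9c_agW

open IsLocalRing Pool.Agent.Lib.MP_b197b4_ntK Pool.Agent.Lib.MP_1e3e9c_agU

/-- The polynomial `f(p + X p')` of one form. -/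
private noncomputable def H5_P {F : Type} [Field F] {D : ℕ} (c : Fin (D + 1) → F)
    (p p' : Fin 2 → F) : Polynomial F :=
  ∑ j : Fin (D + 1), Polynomial.C (c j) *
    (Polynomial.C (p 0) + Polynomial.C (p' 0) * Polynomial.X) ^ (D - (j : ℕ)) *
    (Polynomial.C (p 1) + Polynomial.C (p' 1) * Polynomial.X) ^ (j : ℕ)

private theorem H5_aeval {F A : Type} [Field F] [Field A] [Algebra F A] {D : ℕ}
    (c : Fin (D + 1) → F) (p p' : Fin 2 → F) (τ : A) :
    Polynomial.aeval τ (H5_P c p p') = ev (fun j => algebraMap F A (c j))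
      (fun b => algebraMap F A (p b) + τ * algebraMap F A (p' b)) := by
  unfold H5_P ev
  rw [map_sum]
  refine Finset.sum_congr rfl fun j _ => ?_
  simp only [map_mul, map_pow, map_add, Polynomial.aeval_C, Polynomial.aeval_X]
  rw [mul_comm (algebraMap F A (p' 0)) τ, mul_comm (algebraMap F A (p' 1)) τ]

private theorem H5_eval {F : Type} [Field F] {D : ℕ}
    (c : Fin (D + 1) → F) (p p' : Fin 2 → F) :
    (H5_P c p p').eval 0 = ev c p := by
  unfold H5_P ev
  rw [Polynomial.eval_finsetSum]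
  refine Finset.sum_congr rfl fun j _ => ?_
  simp only [Polynomial.eval_mul, Polynomial.eval_pow, Polynomial.eval_add, Polynomial.eval_C,
    Polynomial.eval_X, mul_zero, add_zero]

private theorem H5_aeval_mem {F A : Type} [Field F] [Field A] [Algebra F A] (K : Subfield A)
    (h : ∀ a, algebraMap F A a ∈ K) {τ : A} (hτ : τ ∈ K) (P : Polynomial F) :
    Polynomial.aeval τ P ∈ K := by
  rw [Polynomial.aeval_eq_sum_range]
  refine sum_mem fun i _ => ?_
  rw [Algebra.smul_def]
  exact mul_mem (h _) (pow_mem hτ _)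

/-- The point `q` may be replaced by a point `p_0 + τ p_1`. -/
private theorem H5_norm {k F : Type} [Field k] [Field F] {n d : ℕ}
    {S : Set (MvPolynomial (Fin (n + 1)) k)} {φ : k →+* F} (T : Two S φ d) (A : Type) [Field A]
    [Algebra F A] (q' : Fin 2 → A)
    (h0 : ev (fun j => algebraMap F A (T.c 0 j)) q' ≠ 0) :
    ∃ (τ : A) (c : A), c ≠ 0 ∧ ∀ i, ev (fun j => algebraMap F A (T.c i j)) q' =
      c * Polynomial.aeval τ (H5_P (T.c i) (T.p 0) (T.p 1)) := by
  set p : Fin 2 → Fin 2 → A := fun a b => algebraMap F A (T.p a b) with hp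
  have hw : wd (p 0) (p 1) ≠ 0 := by
    intro h
    apply T.wne
    apply (map_eq_zero (algebraMap F A)).1
    simpa only [wd, map_sub, map_mul, hp] using h
  have hfac := T.fac A (algebraMap F A) q'
  set a : A := wd q' (p 1) / wd (p 0) (p 1) with ha
  set b : A := wd (p 0) q' / wd (p 0) (p 1) with hb'
  have hq : ∀ i, q' i = a * p 0 i + b * p 1 i := by
    intro i
    have : wd (p 0) (p 1) * q' i = wd q' (p 1) * p 0 i + wd (p 0) q' * p 1 i := by
      fin_cases i
      · change wd (p 0) (p 1) * q' 0 = wd q' (p 1) * p 0 0 + wd (p 0) q' * p 1 0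
        unfold wd
        ring
      · change wd (p 0) (p 1) * q' 1 = wd q' (p 1) * p 0 1 + wd (p 0) q' * p 1 1
        unfold wd
        ring
    rw [ha, hb', div_mul_eq_mul_div, div_mul_eq_mul_div, ← add_div, ← this, mul_div_assoc,
      mul_comm, div_mul_cancel₀ _ hw]
  have ha0 : a ≠ 0 := by
    intro h1
    have h1 : wd q' (p 1) = 0 := by
      rcases div_eq_zero_iff.1 h1 with h | h
      · exact h
      · exact absurd h hw
    have h2 : wd (p 1) q' = 0 := by
      have : wd (p 1) q' = - wd q' (p 1) := by unfold wd; ring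
      rw [this, h1, neg_zero]
    apply h0
    rw [hfac]
    have h3 : wd (fun a => algebraMap F A (T.p 1 a)) q' = 0 := h2
    rw [h3, zero_pow (T.mupos 1).ne', mul_zero]
  refine ⟨b / a, a ^ (d + 1), pow_ne_zero _ ha0, fun i => ?_⟩
  rw [H5_aeval, ← ev_scale a]
  refine congrArg _ ?_
  funext i
  rw [hq i]
  change _ = a * (p 0 i + b / a * p 1 i)
  field_simp

/-- The parameter is algebraic over `Ω`. -/
private theorem H5_alg {Ω A : Type} [Field Ω] [Field A] [Algebra Ω A] {κ : Subfield Ω} {m n : ℕ}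
    (P : Fin (n + 1) → Polynomial Ω) (i₀ : Fin (n + 1)) (i : Fin (m + 1) → Fin (n + 1))
    (h₀ : (P i₀).eval 0 ≠ 0)
    (hi : AlgebraicIndependent κ (fun j => (P (i j)).eval 0 / (P i₀).eval 0)) (τ : A)
    (hC : Con (upK A κ) (fun i => Polynomial.aeval τ (P i))) : IsAlgebraic Ω τ := by
  by_contra hcon
  have hg := indep_spec (A := A) (K := κ) (fun j => P (i j)) (P i₀) h₀ hi τ hcon
  have hP0 : Polynomial.aeval τ (P i₀) ≠ 0 := by
    intro h0
    have := hg.ne_zero (0 : Fin (m + 1))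
    apply this
    simp only [h0, div_zero]
  exact (hg.transcendental 0) (hC (i 0) i₀ hP0)

/-- The case `Ω ⊆ A₁` algebraic. -/
private theorem H5_main {F : Type} [Field F] [CharZero F] {n : ℕ} {K : Subfield F} {t : ℕ}
    (ht : 0 < t) (hF : FF K (t + 3)) {ι' : Type} [Fintype ι'] {w : ι' → F} (hw : Big K w)
    {Ω : Type} [Field Ω] [Algebra F Ω] {C : Fin t × Bool × ι' → Ω} (hC : Gn F C)
    (hκ : FF (cb K C (fun _ => w) Set.univ) 3) (P : Fin (n + 1) → Polynomial F)
    (i₀ : Fin (n + 1)) (i : Fin 3 → Fin (n + 1)) (h₀ : (P i₀).eval 0 ≠ 0)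
    (hi : AlgebraicIndependent K (fun j => (P (i j)).eval 0 / (P i₀).eval 0))
    (A : Type) [Field A] [Algebra Ω A] [Algebra F A] [IsScalarTower F Ω A]
    (hA : Algebra.IsAlgebraic Ω A) (τ : A)
    (hcon : Con (upK A (cb K C (fun _ => w) Set.univ)) (fun i => Polynomial.aeval τ (P i))) :
    Con (upK A K) (fun i => Polynomial.aeval τ (P i)) := by
  have halgτ : IsAlgebraic F τ := by
    by_contra hc
    have hg := indep_spec (A := A) (K := K) (fun j => P (i j)) (P i₀) h₀ hi τ hc
    have hP0 : Polynomial.aeval τ (P i₀) ≠ 0 := by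
      intro h0
      have := hg.ne_zero (0 : Fin 3)
      apply this
      simp only [h0, div_zero]
    refine no_three hF hw hC hκ A hA τ _ hg ?_ ?_
    · intro j
      have hmem : Polynomial.aeval τ (P (i j)) / Polynomial.aeval τ (P i₀) ∈
          Subfield.closure (Set.range (algebraMap F A) ∪ {τ}) := by
        have h1 : ∀ x, algebraMap F A x ∈ Subfield.closure (Set.range (algebraMap F A) ∪ {τ}) :=
          fun x => Subfield.subset_closure (Or.inl ⟨x, rfl⟩)
        have h2 : τ ∈ Subfield.closure (Set.range (algebraMap F A) ∪ {τ}) :=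
          Subfield.subset_closure (Or.inr rfl)
        exact div_mem (H5_aeval_mem _ h1 h2 _) (H5_aeval_mem _ h1 h2 _)
      exact isAlgebraic_algebraMap (A := A) (⟨_, hmem⟩ :
        Subfield.closure (Set.range (algebraMap F A) ∪ {τ}))
    · intro j
      exact hcon (i j) i₀ hP0
  intro i₁ j₁ hj₁
  have h1 := hcon i₁ j₁ hj₁
  have h2 : IsAlgebraic F (Polynomial.aeval τ (P i₁) / Polynomial.aeval τ (P j₁)) := by
    have h3 : ∀ i, IsAlgebraic F (Polynomial.aeval τ (P i)) := by
      intro i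
      have h4 := H5_aeval_mem (algebraicClosure F A).toSubfield
        (fun x => (algebraicClosure F A).algebraMap_mem x) (τ := τ)
        (mem_algebraicClosure_iff.2 halgτ) (P i)
      exact mem_algebraicClosure_iff.1 h4
    rw [div_eq_mul_inv]
    exact (h3 i₁).mul (h3 j₁).inv
  have : Nonempty (Fin t) := ⟨⟨0, ht⟩⟩
  exact alg_const hF hC (fun _ => w) (fun _ => hw) (by rw [Fintype.card_fin]; omega) A _ h2 h1

/-- Descent of an algebraicity to an intermediate field. -/
private theorem H5_down {A : Type} [Field A] {L Ω : Type} [Field Ω] [Algebra Ω A] [Field L]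
    [Algebra Ω L] (j : L →ₐ[Ω] A) (κ : Subfield Ω) {x : L}
    (hx : IsAlgebraic (upK A κ) (j x)) : IsAlgebraic (upK L κ) x := by
  have h1 : IsAlgebraic κ (j x) := by
    obtain ⟨p, hp, hp0⟩ := hx
    let f : κ →+* upK A κ :=
      { toFun := fun a => ⟨algebraMap Ω A a, ⟨a, a.2, rfl⟩⟩
        map_one' := Subtype.ext (map_one _)
        map_mul' := fun a b => Subtype.ext (map_mul _ _ _)
        map_zero' := Subtype.ext (map_zero _)
        map_add' := fun a b => Subtype.ext (map_add _ _ _) }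
    have hs : Function.Surjective f := by
      rintro ⟨_, y, hy, rfl⟩
      exact ⟨⟨y, hy⟩, rfl⟩
    obtain ⟨q, rfl⟩ := Polynomial.map_surjective _ hs p
    refine ⟨q, ?_, ?_⟩
    · rintro rfl
      exact hp (Polynomial.map_zero _)
    · rw [Polynomial.aeval_def, Polynomial.eval₂_map] at hp0
      rw [Polynomial.aeval_def]
      exact hp0
  obtain ⟨p, hp, hp0⟩ := h1
  have h2 : Polynomial.aeval x p = 0 := by
    apply j.toRingHom.injective
    rw [map_zero]
    rw [Polynomial.aeval_def, Polynomial.eval₂_eq_sum_range] at hp0 ⊢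
    rw [map_sum]
    rw [← hp0]
    refine Finset.sum_congr rfl fun i _ => ?_
    rw [map_mul, map_pow]
    refine congrArg₂ (· * ·) ?_ rfl
    exact j.commutes _
  let g : κ →+* upK L κ :=
    { toFun := fun a => ⟨algebraMap Ω L a, ⟨a, a.2, rfl⟩⟩
      map_one' := Subtype.ext (map_one _)
      map_mul' := fun a b => Subtype.ext (map_mul _ _ _)
      map_zero' := Subtype.ext (map_zero _)
      map_add' := fun a b => Subtype.ext (map_add _ _ _) }
  refine ⟨p.map g, (Polynomial.map_ne_zero_iff g.injective).2 hp, ?_⟩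
  rw [Polynomial.aeval_def, Polynomial.eval₂_map]
  rw [Polynomial.aeval_def] at h2
  exact h2

/-- The case of three variables. -/
private theorem H5_zero {F ι : Type} [Field F] {K : Subfield F} (hF : FF K (0 + 3)) (z : ι → F)
    (i₀ : ι) (i : Fin 3 → ι) (h₀ : z i₀ ≠ 0)
    (hi : AlgebraicIndependent K (fun j => z (i j) / z i₀)) (x : F) :
    IsAlgebraic (Subfield.closure ((K : Set F) ∪ {y | ∃ i j, z j ≠ 0 ∧ y = z i / z j})) x := by
  have htb := hi.isTranscendenceBasis_of_trdeg_le_of_finite (by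
    rw [hF.2, Cardinal.mk_fin])
  have hal := htb.isAlgebraic
  have hx : IsAlgebraic (Algebra.adjoin K (Set.range fun j => z (i j) / z i₀)) x := hal.isAlgebraic x
  obtain ⟨p, hp, h0⟩ := hx
  have hle : ∀ a ∈ Algebra.adjoin K (Set.range fun j => z (i j) / z i₀),
      a ∈ Subfield.closure ((K : Set F) ∪ {y | ∃ i j, z j ≠ 0 ∧ y = z i / z j}) := by
    intro a ha
    refine Algebra.adjoin_induction (p := fun a _ =>
      a ∈ Subfield.closure ((K : Set F) ∪ {y | ∃ i j, z j ≠ 0 ∧ y = z i / z j})) ?_ ?_ ?_ ?_ ha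
    · rintro _ ⟨j, rfl⟩
      exact Subfield.subset_closure (Or.inr ⟨i j, i₀, h₀, rfl⟩)
    · exact fun r => Subfield.subset_closure (Or.inl r.2)
    · exact fun x y _ _ hx hy => add_mem hx hy
    · exact fun x y _ _ hx hy => mul_mem hx hy
  let f : Algebra.adjoin K (Set.range fun j => z (i j) / z i₀) →+*
      Subfield.closure ((K : Set F) ∪ {y | ∃ i j, z j ≠ 0 ∧ y = z i / z j}) :=
    { toFun := fun a => ⟨a.1, hle a.1 a.2⟩
      map_one' := rfl
      map_mul' := fun _ _ => rfl
      map_zero' := rfl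
      map_add' := fun _ _ => rfl }
  have hf : Function.Injective f := fun a b h =>
    Subtype.ext (congrArg (fun t : Subfield.closure ((K : Set F) ∪
      {y | ∃ i j, z j ≠ 0 ∧ y = z i / z j}) => (t : F)) h)
  refine ⟨p.map f, (Polynomial.map_ne_zero_iff hf).2 hp, ?_⟩
  rw [Polynomial.aeval_def, Polynomial.eval₂_map]
  exact h0

theorem Two.core2 {k F : Type} [Field k] [CharZero k] [Field F] [CharZero F] {n d : ℕ}
    {S : Set (MvPolynomial (Fin (n + 1)) k)} {φ : k →+* F} (hS : NR S) (T : Two S φ d)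
    {K : Subfield F} (hφ : ∀ a, φ a ∈ K) (t : ℕ) (hF : FF K (t + 3)) (i₀ : Fin (n + 1))
    (i : Fin 3 → Fin (n + 1)) (h₀ : T.pt (T.p 0) i₀ ≠ 0)
    (hi : AlgebraicIndependent K (fun j => T.pt (T.p 0) (i j) / T.pt (T.p 0) i₀)) :
    ∃ (A : Type) (_ : Field A) (_ : Algebra F A) (q : Fin 2 → A), q ≠ 0 ∧
      ev (fun j => algebraMap F A (T.c 0 j)) q ≠ 0 ∧
      Con (upK A K) (fun i => ev (fun j => algebraMap F A (T.c i j)) q) := by
  classical
  rcases Nat.eq_zero_or_pos t with rfl | ht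
  · -- t = 0
    refine Two.core hS T hφ 0 hF ⟨?_, ?_⟩
    · intro h
      exact h₀ (congrFun h i₀)
    · exact H5_zero hF (T.pt (T.p 0)) i₀ i h₀ hi
  obtain ⟨w, hw⟩ := exists_big hF
  set σ : Type := Fin t × Bool × Fin (t + 3 + 1) with hσ
  set Ω : Type := GF F σ with hΩ
  have hGn : Gn F (gc F σ) := gn_gc F σ
  obtain ⟨hκ3, hbig⟩ := big_cut hF hw i₀ i h₀ hi hGn
  set κ : Subfield (GF F σ) := cb K (gc F σ) (fun _ => w) Set.univ with hκ
  have hpt : (T.up (GF F σ)).pt ((T.up (GF F σ)).p 0) =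
      Pool.Agent.Lib.MP_1e3e9c_agU.up (GF F σ) (T.pt (T.p 0)) := by
    funext i
    exact (ev_map (algebraMap F (GF F σ)) (T.c i) (T.p 0)).symm
  have hbig' : Big κ ((T.up (GF F σ)).pt ((T.up (GF F σ)).p 0)) := by
    rw [hpt]
    exact hbig
  obtain ⟨A, _, _, q', hq', hev, hCon⟩ := Two.core hS (T.up (GF F σ)) (K := κ)
    (fun a => Subfield.subset_closure (Or.inl (Or.inl ⟨φ a, hφ a, rfl⟩))) 0 hκ3 hbig'
  obtain ⟨τ, c, hc, hτ⟩ := H5_norm (T.up (GF F σ)) A q' hev
  set P' : Fin (n + 1) → Polynomial (GF F σ) := fun i =>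
    H5_P ((T.up (GF F σ)).c i) ((T.up (GF F σ)).p 0) ((T.up (GF F σ)).p 1) with hP'
  have hCon' : Con (upK A κ) (fun i => Polynomial.aeval τ (P' i)) := by
    intro i₁ j₁ hj₁
    have h1 := hCon i₁ j₁ (by
      change ev (fun j => algebraMap (GF F σ) A ((T.up (GF F σ)).c j₁ j)) q' ≠ 0
      rw [hτ]
      exact mul_ne_zero hc hj₁)
    have h2 : ev (fun j => algebraMap (GF F σ) A ((T.up (GF F σ)).c i₁ j)) q' /
        ev (fun j => algebraMap (GF F σ) A ((T.up (GF F σ)).c j₁ j)) q' =
        Polynomial.aeval τ (P' i₁) / Polynomial.aeval τ (P' j₁) := by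
      rw [hτ, hτ, mul_div_mul_left _ _ hc]
    change IsAlgebraic _ (Polynomial.aeval τ (P' i₁) / Polynomial.aeval τ (P' j₁))
    rw [← h2]
    exact h1
  have hτalg : IsAlgebraic (GF F σ) τ := by
    obtain ⟨i₀', i', h₀', hi'⟩ := big_indep hκ3 hbig'
    refine H5_alg (κ := κ) (m := 2) P' i₀' i' ?_ ?_ τ hCon'
    · rw [hP']
      change (H5_P _ _ _).eval 0 ≠ 0
      rw [H5_eval]
      exact h₀'
    · have : (fun j => (P' (i' j)).eval 0 / (P' i₀').eval 0) =
          fun j => (T.up (GF F σ)).pt ((T.up (GF F σ)).p 0) (i' j) /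
            (T.up (GF F σ)).pt ((T.up (GF F σ)).p 0) i₀' := by
        funext j
        change (H5_P _ _ _).eval 0 / (H5_P _ _ _).eval 0 = _
        rw [H5_eval, H5_eval]
        rfl
      rw [this]
      exact hi'
  -- the algebraic closure of `Ω` in `A`
  let A₁ : Type := algebraicClosure (GF F σ) A
  let _ : Field A₁ := inferInstanceAs (Field (algebraicClosure (GF F σ) A))
  let _ : Algebra (GF F σ) A₁ := inferInstanceAs (Algebra (GF F σ) (algebraicClosure (GF F σ) A))
  let j₁ : A₁ →ₐ[GF F σ] A := (algebraicClosure (GF F σ) A).val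
  have hA₁ : Algebra.IsAlgebraic (GF F σ) A₁ :=
    inferInstanceAs (Algebra.IsAlgebraic (GF F σ) (algebraicClosure (GF F σ) A))
  let _ : Algebra F A₁ := ((algebraMap (GF F σ) A₁).comp (algebraMap F (GF F σ))).toAlgebra
  have _ : IsScalarTower F (GF F σ) A₁ := IsScalarTower.of_algebraMap_eq (fun x => rfl)
  let τ₁ : A₁ := ⟨τ, mem_algebraicClosure_iff.2 hτalg⟩
  set P : Fin (n + 1) → Polynomial F := fun i => H5_P (T.c i) (T.p 0) (T.p 1) with hP
  have hPP : ∀ i, P' i = (P i).map (algebraMap F (GF F σ)) := by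
    intro i
    rw [hP', hP]
    unfold H5_P
    rw [Polynomial.map_sum]
    refine Finset.sum_congr rfl fun j _ => ?_
    simp only [Polynomial.map_mul, Polynomial.map_pow, Polynomial.map_add, Polynomial.map_C,
      Polynomial.map_X]
    rfl
  have hval : ∀ i, j₁ (Polynomial.aeval τ₁ (P i)) = Polynomial.aeval τ (P' i) := by
    intro i
    rw [hPP, ← Polynomial.aeval_map_algebraMap (GF F σ) τ₁ (P i)]
    exact (Polynomial.aeval_algHom_apply j₁ τ₁ _).symm
  have hcon₁ : Con (upK A₁ κ) (fun i => Polynomial.aeval τ₁ (P i)) := by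
    intro i₁ k₁ hk₁
    apply H5_down j₁ κ
    change IsAlgebraic _ (j₁ (Polynomial.aeval τ₁ (P i₁) / Polynomial.aeval τ₁ (P k₁)))
    rw [map_div₀, hval, hval]
    apply hCon'
    change Polynomial.aeval τ (P' k₁) ≠ 0
    rw [← hval]
    exact (map_ne_zero j₁).2 hk₁
  have hPe : ∀ i, (P i).eval 0 = T.pt (T.p 0) i := fun i => H5_eval _ _ _
  have hfin := H5_main ht hF hw hGn hκ3 P i₀ i (by rw [hPe]; exact h₀) (by
    have : (fun j => (P (i j)).eval 0 / (P i₀).eval 0) =
        fun j => T.pt (T.p 0) (i j) / T.pt (T.p 0) i₀ := by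
      funext j
      rw [hPe, hPe]
    rw [this]
    exact hi) A₁ hA₁ τ₁ hcon₁
  have hPa : ∀ i, Polynomial.aeval τ₁ (P i) = ev (fun j => algebraMap F A₁ (T.c i j))
      (fun b => algebraMap F A₁ (T.p 0 b) + τ₁ * algebraMap F A₁ (T.p 1 b)) :=
    fun i => H5_aeval _ _ _ _
  have hne : ev (fun j => algebraMap F A₁ (T.c 0 j))
      (fun b => algebraMap F A₁ (T.p 0 b) + τ₁ * algebraMap F A₁ (T.p 1 b)) ≠ 0 := by
    rw [← hPa]
    intro h
    apply hev
    rw [hτ 0]
    change c * Polynomial.aeval τ (P' 0) = 0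
    rw [← hval, h, map_zero, mul_zero]
  refine ⟨A₁, inferInstance, inferInstance,
    fun b => algebraMap F A₁ (T.p 0 b) + τ₁ * algebraMap F A₁ (T.p 1 b), ?_, hne, ?_⟩
  · intro h
    apply hne
    rw [h]
    have h1 : (0 : Fin 2 → A₁) = fun i => 0 * (0 : Fin 2 → A₁) i := by
      funext i
      simp
    rw [h1, ev_scale, zero_pow (Nat.succ_ne_zero d), zero_mul]
  · intro i₁ k₁ hk₁
    have h1 := hfin i₁ k₁ (by
      change Polynomial.aeval τ₁ (P k₁) ≠ 0
      rw [hPa]
      exact hk₁)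
    change IsAlgebraic _ (Polynomial.aeval τ₁ (P i₁) / Polynomial.aeval τ₁ (P k₁)) at h1
    rw [hPa, hPa] at h1
    exact h1

end Pool.Agent.Lib.MP_1e3e9c_agW
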