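import Mathlib
import Pool.Agent.Lib.MP_1e3e9c_agU.FmC
import Pool.Agent.Lib.MP_1e3e9c_agU.G0a
import Pool.Agent.Lib.MP_1e3e9c_agW.DefsE

/-!
# MP_1e3e9c_ag, project W, leaf N1: from `k` to all extension fields (Nullstellensatz)

Let `r` over `L` satisfy `Eqs S φ r`, `r 0 = 0`, and suppose `r i j * r i' j' ≠ r i j' * r i' j`. Let
`R = k[X_(i,j)]`, and for `P ∈ S` let `P(r(x)) ∈ R[x_0,x_1]` (`MvPolynomial (Fin 2) R`) be the value of `P` at the
forms `∑_j C (X (i,j)) * X 0^(N-j) * X 1^j`. `exists_point φ S' Q (fun q => r q.1 q.2)`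
(`MP_1e3e9c_agU/G0a.lean`) for `S'` = all coefficients of these polynomials and the variables `X (0,j)`,
`Q = X (i,j) X (i',j') - X (i,j') X (i',j)`. The coefficients vanish at `r`: the image of `P(r(x))` in
`MvPolynomial (Fin 2) L` is `0`, because its image in the field of fractions `M` of this ring is `P(f(X 0, X 1))`,
`0` by `Eqs` for `M` and the point `(X 0, X 1)`. The point `y` over `k`: `P(y(x)) = 0` for all `x ∈ k^2`, `y_0 = 0` and
`y` has a nonzero minor: contradiction to `h`.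
-/

set_option autoImplicit false

namespace Pool.Agent.Lib.MP_1e3e9c_agW

open Pool.Agent.Lib.MP_1e3e9c_agU

/-- the value of `P` at the generic forms -/
private noncomputable def N1_t {k : Type} [Field k] {n : ℕ} (N : ℕ) (P : MvPolynomial (Fin (n + 1)) k) :
    MvPolynomial (Fin 2) (MvPolynomial (Fin (n + 1) × Fin (N + 1)) k) :=
  MvPolynomial.eval₂ (MvPolynomial.C.comp MvPolynomial.C)
    (fun i => ∑ j : Fin (N + 1), MvPolynomial.C (MvPolynomial.X (i, j)) * MvPolynomial.X 0 ^ (N - (j : ℕ)) *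
      MvPolynomial.X 1 ^ (j : ℕ)) P

private theorem N1_T {k : Type} [Field k] {n N : ℕ} {B M : Type} [CommRing B] [CommRing M]
    (χ : MvPolynomial (Fin (n + 1) × Fin (N + 1)) k →+* B) (θ : MvPolynomial (Fin 2) B →+* M)
    (P : MvPolynomial (Fin (n + 1)) k) :
    θ (MvPolynomial.map χ (N1_t N P)) =
      MvPolynomial.eval₂ (((θ.comp MvPolynomial.C).comp χ).comp MvPolynomial.C)
        (fun i => ∑ j : Fin (N + 1), θ (MvPolynomial.C (χ (MvPolynomial.X (i, j)))) *
          θ (MvPolynomial.X 0) ^ (N - (j : ℕ)) * θ (MvPolynomial.X 1) ^ (j : ℕ)) P := by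
  have h := MvPolynomial.hom_eval₂ P
    ((MvPolynomial.C : MvPolynomial (Fin (n + 1) × Fin (N + 1)) k →+* _).comp MvPolynomial.C)
    (θ.comp (MvPolynomial.map χ)) (fun i => ∑ j : Fin (N + 1),
      MvPolynomial.C (MvPolynomial.X (i, j)) * MvPolynomial.X (0 : Fin 2) ^ (N - (j : ℕ)) *
        MvPolynomial.X 1 ^ (j : ℕ))
  rw [RingHom.comp_apply] at h
  rw [N1_t, h]
  have e1 : (θ.comp (MvPolynomial.map χ)).comp
      ((MvPolynomial.C : MvPolynomial (Fin (n + 1) × Fin (N + 1)) k →+* _).comp MvPolynomial.C) =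
      ((θ.comp MvPolynomial.C).comp χ).comp MvPolynomial.C := by
    refine RingHom.ext fun a => ?_
    simp only [RingHom.comp_apply, MvPolynomial.map_C]
  rw [e1]
  refine congrArg (fun g => MvPolynomial.eval₂ _ g P) (funext fun i => ?_)
  simp only [map_sum, map_mul, map_pow, RingHom.comp_apply, MvPolynomial.map_C, MvPolynomial.map_X]

theorem nr_of {k : Type} [Field k] [IsAlgClosed k] {n : ℕ}
    {S : Set (MvPolynomial (Fin (n + 1)) k)} (hS : ∀ P ∈ S, ∃ m, P.IsHomogeneous m)
    (h : NRk S) : NR S := by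
  refine ⟨hS, fun L _ φ N r hr h0 i i' j j' => ?_⟩
  classical
  by_contra hne
  let χ : MvPolynomial (Fin (n + 1) × Fin (N + 1)) k →+* L :=
    MvPolynomial.eval₂Hom φ fun q => r q.1 q.2
  have hχX : ∀ q, χ (MvPolynomial.X q) = r q.1 q.2 := fun q => MvPolynomial.eval₂Hom_X' _ _ _
  have hχC : ∀ a, χ (MvPolynomial.C a) = φ a := fun a => MvPolynomial.eval₂Hom_C _ _ _
  have h1 : ∀ P ∈ S, MvPolynomial.map χ (N1_t N P) = 0 := by
    intro P hP
    let θ : MvPolynomial (Fin 2) L →+* FractionRing (MvPolynomial (Fin 2) L) :=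
      algebraMap (MvPolynomial (Fin 2) L) (FractionRing (MvPolynomial (Fin 2) L))
    have h2 := hr P hP (FractionRing (MvPolynomial (Fin 2) L)) (θ.comp MvPolynomial.C)
      fun a => θ (MvPolynomial.X a)
    have h3 := N1_T χ θ P
    have h4 : ((θ.comp MvPolynomial.C).comp χ).comp MvPolynomial.C = (θ.comp MvPolynomial.C).comp φ := by
      refine RingHom.ext fun a => ?_
      simp only [RingHom.comp_apply]
      rw [hχC]
    rw [h4] at h3
    have h5 : (fun i => ∑ j : Fin (N + 1), θ (MvPolynomial.C (χ (MvPolynomial.X (i, j)))) *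
          θ (MvPolynomial.X 0) ^ (N - (j : ℕ)) * θ (MvPolynomial.X 1) ^ (j : ℕ)) =
        fun i => ev (fun j => (θ.comp MvPolynomial.C) (r i j)) fun a => θ (MvPolynomial.X a) := by
      funext i
      unfold ev
      refine Finset.sum_congr rfl fun j _ => ?_
      rw [hχX]
      rfl
    rw [h5, h2] at h3
    exact (map_eq_zero_iff θ (IsFractionRing.injective (MvPolynomial (Fin 2) L) _)).1 h3
  let S' : Set (MvPolynomial (Fin (n + 1) × Fin (N + 1)) k) :=
    {q | (∃ P ∈ S, ∃ m, q = MvPolynomial.coeff m (N1_t N P)) ∨ ∃ j, q = MvPolynomial.X (0, j)}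
  let Q : MvPolynomial (Fin (n + 1) × Fin (N + 1)) k :=
    MvPolynomial.X (i, j) * MvPolynomial.X (i', j') - MvPolynomial.X (i, j') * MvPolynomial.X (i', j)
  have h2 : ∀ q ∈ S', MvPolynomial.eval₂ φ (fun q : Fin (n + 1) × Fin (N + 1) => r q.1 q.2) q = 0 := by
    intro q hq
    change χ q = 0
    rcases hq with ⟨P, hP, m, rfl⟩ | ⟨j, rfl⟩
    · rw [← MvPolynomial.coeff_map, h1 P hP, MvPolynomial.coeff_zero]
    · rw [hχX]
      exact h0 j
  have h3 : MvPolynomial.eval₂ φ (fun q : Fin (n + 1) × Fin (N + 1) => r q.1 q.2) Q ≠ 0 := by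
    change χ Q ≠ 0
    rw [map_sub, map_mul, map_mul, hχX, hχX, hχX, hχX]
    exact sub_ne_zero.2 hne
  obtain ⟨y, hy, hyQ⟩ := exists_point φ S' Q (fun q => r q.1 q.2) h2 h3
  have h4 := h N (fun i j => y (i, j)) ?_ ?_ i i' j j'
  · refine hyQ ?_
    change MvPolynomial.eval y (_ - _) = 0
    rw [map_sub, map_mul, map_mul, MvPolynomial.eval_X, MvPolynomial.eval_X, MvPolynomial.eval_X,
      MvPolynomial.eval_X, h4, sub_self]
  · intro x P hP
    have h5 : MvPolynomial.map (MvPolynomial.eval y) (N1_t N P) = 0 := by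
      refine MvPolynomial.ext _ _ fun m => ?_
      rw [MvPolynomial.coeff_map, MvPolynomial.coeff_zero]
      exact hy _ (Or.inl ⟨P, hP, m, rfl⟩)
    have h6 := N1_T (MvPolynomial.eval y) (MvPolynomial.eval x) P
    rw [h5, map_zero] at h6
    have h7 : (((MvPolynomial.eval x).comp MvPolynomial.C).comp (MvPolynomial.eval y)).comp
        MvPolynomial.C = RingHom.id k := by
      refine RingHom.ext fun a => ?_
      simp only [RingHom.comp_apply, MvPolynomial.eval_C, RingHom.id_apply]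
    rw [h7] at h6
    have h8 : (fun i => ∑ j : Fin (N + 1), MvPolynomial.eval x (MvPolynomial.C
          (MvPolynomial.eval y (MvPolynomial.X (i, j)))) *
          MvPolynomial.eval x (MvPolynomial.X 0) ^ (N - (j : ℕ)) *
          MvPolynomial.eval x (MvPolynomial.X 1) ^ (j : ℕ)) = fun i => ev (fun j => y (i, j)) x := by
      funext i
      unfold ev
      refine Finset.sum_congr rfl fun j _ => ?_
      simp only [MvPolynomial.eval_C, MvPolynomial.eval_X]
    rw [h8] at h6
    exact h6.symm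
  · intro j
    have h5 := hy (MvPolynomial.X (0, j)) (Or.inr ⟨j, rfl⟩)
    rwa [MvPolynomial.eval_X] at h5

end Pool.Agent.Lib.MP_1e3e9c_agW
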