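import Mathlib
import Pool.Agent.Lib.MP_1e3e9c_agU.FmC
import Pool.Agent.Lib.MP_1e3e9c_agU.G0a
import Pool.Agent.Lib.MP_1e3e9c_agU.G0b
import Pool.Agent.Lib.MP_1e3e9c_agU.G0c
import Pool.Agent.Lib.MP_1e3e9c_agW.DefsE

/-!
# MP_1e3e9c_ag, project W, leaf E0: from `k` to all extension fields

Copy of `MP_1e3e9c_agU/G0d.lean` (without `alt`), and `eqs`: if `P(f(x)) ≠ 0` over `M`, `exists_point` over `M`
with the coefficients of `c` and the coordinates of `x` as unknowns gives a member over `k` and a point with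
`P(f(x)) ≠ 0`.
-/

set_option autoImplicit false

namespace Pool.Agent.Lib.MP_1e3e9c_agW

open Pool.Agent.Lib.MP_1e3e9c_agU

/-- the value of a form over a ring -/
private def WE0_ev {R : Type} [CommRing R] {D : ℕ} (f : Fin (D + 1) → R) (x : Fin 2 → R) : R :=
  ∑ j : Fin (D + 1), f j * x 0 ^ (D - (j : ℕ)) * x 1 ^ (j : ℕ)

private theorem WE0_ev_map {R : Type} [CommRing R] {M : Type} [Field M] (χ : R →+* M) {D : ℕ}
    (f : Fin (D + 1) → R) (x : Fin 2 → R) :
    χ (WE0_ev f x) = ev (fun j => χ (f j)) (fun a => χ (x a)) := by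
  unfold WE0_ev ev
  rw [map_sum]
  refine Finset.sum_congr rfl fun j _ => ?_
  rw [map_mul, map_mul, map_pow, map_pow]

private theorem WE0_pt {k : Type} [Field k] [IsAlgClosed k] {L : Type} [Field L] {n D : ℕ}
    {I : Ideal (MvPolynomial (Fin (n + 1) × Fin (D + 1)) k)} (φ : k →+* L)
    (c : Fin (n + 1) → Fin (D + 1) → L) (hc : Mem φ I c) {τ : Type} [Finite τ] (x : τ → L)
    (S : Set (MvPolynomial ((Fin (n + 1) × Fin (D + 1)) ⊕ τ) k))
    (Q : MvPolynomial ((Fin (n + 1) × Fin (D + 1)) ⊕ τ) k)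
    (hS : ∀ P ∈ S, MvPolynomial.eval₂Hom φ (Sum.elim (fun q => c q.1 q.2) x) P = 0)
    (hQ : MvPolynomial.eval₂Hom φ (Sum.elim (fun q => c q.1 q.2) x) Q ≠ 0) :
    ∃ (c' : Fin (n + 1) → Fin (D + 1) → k) (y : τ → k), Mem (RingHom.id k) I c' ∧
      (∀ P ∈ S, MvPolynomial.eval (Sum.elim (fun q => c' q.1 q.2) y) P = 0) ∧
      MvPolynomial.eval (Sum.elim (fun q => c' q.1 q.2) y) Q ≠ 0 := by
  obtain ⟨y, h1, h2⟩ := exists_point φ (S ∪ (MvPolynomial.rename Sum.inl '' (I : Set _))) Q
    (Sum.elim (fun q => c q.1 q.2) x) (by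
      rintro P (hP | ⟨P, hP, rfl⟩)
      · exact hS P hP
      · rw [MvPolynomial.eval₂_rename]
        exact hc P hP) hQ
  have hy : Sum.elim (fun q : Fin (n + 1) × Fin (D + 1) => y (Sum.inl (q.1, q.2)))
      (fun t => y (Sum.inr t)) = y := by
    funext q
    rcases q with q | q <;> rfl
  refine ⟨fun i j => y (Sum.inl (i, j)), fun t => y (Sum.inr t), ?_, ?_, ?_⟩
  · intro P hP
    have h3 := h1 _ (Or.inr ⟨P, hP, rfl⟩)
    rw [MvPolynomial.eval_rename] at h3
    exact h3
  · intro P hP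
    rw [hy]
    exact h1 P (Or.inl hP)
  · rw [hy]
    exact h2

private theorem WE0_bpt {k : Type} [Field k] [IsAlgClosed k] {L : Type} [Field L] {n D : ℕ}
    {I : Ideal (MvPolynomial (Fin (n + 1) × Fin (D + 1)) k)} (φ : k →+* L)
    (c : Fin (n + 1) → Fin (D + 1) → L) (hc : Mem φ I c) (hb : BPF c) {τ : Type} [Finite τ]
    (x : τ → L) (S : Set (MvPolynomial ((Fin (n + 1) × Fin (D + 1)) ⊕ τ) k))
    (Q : MvPolynomial ((Fin (n + 1) × Fin (D + 1)) ⊕ τ) k)
    (hS : ∀ P ∈ S, MvPolynomial.eval₂Hom φ (Sum.elim (fun q => c q.1 q.2) x) P = 0)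
    (hQ : MvPolynomial.eval₂Hom φ (Sum.elim (fun q => c q.1 q.2) x) Q ≠ 0) :
    ∃ (c' : Fin (n + 1) → Fin (D + 1) → k) (y : τ → k), Mem (RingHom.id k) I c' ∧ BPF c' ∧
      (∀ P ∈ S, MvPolynomial.eval (Sum.elim (fun q => c' q.1 q.2) y) P = 0) ∧
      MvPolynomial.eval (Sum.elim (fun q => c' q.1 q.2) y) Q ≠ 0 := by
  obtain ⟨Δ, h1, h2⟩ := bpf_open
    (fun i j => (MvPolynomial.X (i, j) : MvPolynomial (Fin (n + 1) × Fin (D + 1)) k))
    (MvPolynomial.eval₂Hom φ (fun q => c q.1 q.2)) (by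
      have h3 : (fun i j => MvPolynomial.eval₂Hom φ (fun q => c q.1 q.2)
          (MvPolynomial.X (i, j) : MvPolynomial (Fin (n + 1) × Fin (D + 1)) k)) = c := by
        funext i j
        exact MvPolynomial.eval₂Hom_X' _ _ _
      rw [h3]
      exact hb)
  obtain ⟨c', y, h3, h4, h5⟩ := WE0_pt φ c hc x S (MvPolynomial.rename Sum.inl Δ * Q) hS (by
    rw [map_mul]
    refine mul_ne_zero ?_ hQ
    rw [MvPolynomial.coe_eval₂Hom, MvPolynomial.eval₂_rename]
    exact h1)
  rw [map_mul] at h5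
  refine ⟨c', y, h3, ?_, h4, right_ne_zero_of_mul h5⟩
  have h6 := h2 k (MvPolynomial.eval (fun q => c' q.1 q.2)) (by
    have h7 := left_ne_zero_of_mul h5
    rw [MvPolynomial.eval_rename] at h7
    exact h7)
  have h8 : (fun i j => MvPolynomial.eval (fun q => c' q.1 q.2)
      (MvPolynomial.X (i, j) : MvPolynomial (Fin (n + 1) × Fin (D + 1)) k)) = c' := by
    funext i j
    exact MvPolynomial.eval_X _
  rw [h8] at h6
  exact h6

/-- the polynomial `P (act g c)` in the coefficients of `c` and `g` -/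
private theorem WE0_act_poly {k : Type} [Field k] {n D : ℕ}
    (P : MvPolynomial (Fin (n + 1) × Fin (D + 1)) k) :
    ∃ Q : MvPolynomial ((Fin (n + 1) × Fin (D + 1)) ⊕ (Fin 2 × Fin 2)) k,
      ∀ (M : Type) [Field M] (φ : k →+* M) (g : Matrix (Fin 2) (Fin 2) M)
        (c : Fin (n + 1) → Fin (D + 1) → M),
        MvPolynomial.eval₂Hom φ (Sum.elim (fun q => c q.1 q.2)
          (fun q : Fin 2 × Fin 2 => g q.1 q.2)) Q =
          MvPolynomial.eval₂ φ (fun q => act g (c q.1) q.2) P := by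
  obtain ⟨A, hA⟩ := act_univ D
  refine ⟨MvPolynomial.eval₂ MvPolynomial.C (fun q : Fin (n + 1) × Fin (D + 1) =>
    MvPolynomial.eval₂ (Int.castRingHom _) (Sum.elim
      (fun j => MvPolynomial.X (Sum.inl (q.1, j)))
      (fun s : Fin 2 × Fin 2 => MvPolynomial.X (Sum.inr s))) (A q.2)) P, ?_⟩
  intro M _ φ g c
  rw [MvPolynomial.hom_eval₂]
  have h1 : (MvPolynomial.eval₂Hom φ (Sum.elim (fun q : Fin (n + 1) × Fin (D + 1) => c q.1 q.2)
      (fun q : Fin 2 × Fin 2 => g q.1 q.2))).comp MvPolynomial.C = φ := by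
    ext a
    simp
  rw [h1]
  congr 1
  funext q
  rw [MvPolynomial.hom_eval₂, hA]
  congr 1
  · exact Subsingleton.elim _ _
  · funext s
    rcases s with s | s
    · simp
    · simp

private theorem WE0_act_k {k : Type} [Field k] [IsAlgClosed k] {n d : ℕ}
    {S : Set (MvPolynomial (Fin (n + 1)) k)} {I : Ideal (MvPolynomial (Fin (n + 1) × Fin (d + 1 + 1)) k)} (hI : Hyw S I)
    (c : Fin (n + 1) → Fin (d + 1 + 1) → k) (hc : Mem (RingHom.id k) I c)
    (P : MvPolynomial (Fin (n + 1) × Fin (d + 1 + 1)) k) (hP : P ∈ I)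
    (g : Matrix (Fin 2) (Fin 2) k) :
    MvPolynomial.eval₂ (RingHom.id k) (fun q => act g (c q.1) q.2) P = 0 := by
  have : Infinite k := IsAlgClosed.instInfinite
  obtain ⟨Q, hQ⟩ := WE0_act_poly P
  have hreg : ∀ g : Matrix (Fin 2) (Fin 2) k, g.det ≠ 0 →
      MvPolynomial.eval₂ (RingHom.id k) (fun q => act g (c q.1) q.2) P = 0 := by
    intro g hg
    exact hI.act c (fun i => act g (c i)) g hc hg (fun i x => ev_act g (c i) x) P hP
  set Qc : MvPolynomial (Fin 2 × Fin 2) k := MvPolynomial.eval₂Hom MvPolynomial.C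
    (Sum.elim (fun q : Fin (n + 1) × Fin (d + 1 + 1) => MvPolynomial.C (c q.1 q.2))
      MvPolynomial.X) Q with hQc
  have hev : ∀ z : Fin 2 × Fin 2 → k, MvPolynomial.eval z Qc =
      MvPolynomial.eval₂ (RingHom.id k)
        (fun q => act (fun a b => z (a, b) : Matrix (Fin 2) (Fin 2) k) (c q.1) q.2) P := by
    intro z
    rw [← hQ k (RingHom.id k) (fun a b => z (a, b)) c, hQc, MvPolynomial.coe_eval₂Hom,
      MvPolynomial.hom_eval₂, MvPolynomial.coe_eval₂Hom]
    congr 1
    · ext a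
      simp
    · funext s
      rcases s with s | s
      · simp
      · simp
  have hz : (MvPolynomial.X (0, 0) * MvPolynomial.X (1, 1) -
      MvPolynomial.X (0, 1) * MvPolynomial.X (1, 0) : MvPolynomial (Fin 2 × Fin 2) k) * Qc = 0 := by
    refine MvPolynomial.funext fun z => ?_
    rw [map_mul, map_zero, hev]
    by_cases hd : (Matrix.det (fun a b => z (a, b) : Matrix (Fin 2) (Fin 2) k)) = 0
    · rw [Matrix.det_fin_two] at hd
      have h1 : MvPolynomial.eval z (MvPolynomial.X (0, 0) * MvPolynomial.X (1, 1) -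
          MvPolynomial.X (0, 1) * MvPolynomial.X (1, 0) : MvPolynomial (Fin 2 × Fin 2) k) = 0 := by
        rw [map_sub, map_mul, map_mul, MvPolynomial.eval_X, MvPolynomial.eval_X,
          MvPolynomial.eval_X, MvPolynomial.eval_X]
        exact hd
      rw [h1, zero_mul]
    · rw [hreg _ hd, mul_zero]
  have hne : (MvPolynomial.X (0, 0) * MvPolynomial.X (1, 1) -
      MvPolynomial.X (0, 1) * MvPolynomial.X (1, 0) : MvPolynomial (Fin 2 × Fin 2) k) ≠ 0 := by
    intro h
    have h1 := congrArg (MvPolynomial.eval (fun q : Fin 2 × Fin 2 => if q.1 = q.2 then (1 : k) else 0)) h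
    rw [map_sub, map_mul, map_mul, MvPolynomial.eval_X, MvPolynomial.eval_X,
          MvPolynomial.eval_X, MvPolynomial.eval_X, map_zero] at h1
    simp at h1
  have hQ0 : Qc = 0 := (mul_eq_zero.mp hz).resolve_left hne
  have h1 := hev (fun q => g q.1 q.2)
  rw [hQ0, map_zero] at h1
  exact h1.symm

private theorem WE0_act_L {k : Type} [Field k] [IsAlgClosed k] {n d : ℕ}
    {S : Set (MvPolynomial (Fin (n + 1)) k)} {I : Ideal (MvPolynomial (Fin (n + 1) × Fin (d + 1 + 1)) k)} (hI : Hyw S I)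
    (L : Type) [Field L] (φ : k →+* L) (c : Fin (n + 1) → Fin (d + 1 + 1) → L)
    (g : Matrix (Fin 2) (Fin 2) L) (hc : Mem φ I c) : Mem φ I (fun i => act g (c i)) := by
  intro P hP
  by_contra hne
  obtain ⟨Q, hQ⟩ := WE0_act_poly P
  obtain ⟨c', y, h1, _, h3⟩ := WE0_pt φ c hc (fun q : Fin 2 × Fin 2 => g q.1 q.2) ∅ Q
    (fun P hP => absurd hP (Set.notMem_empty P)) (by
      rw [hQ L φ g c]
      exact hne)
  apply h3
  have h4 := hQ k (RingHom.id k) (fun a b => y (a, b)) c'
  rw [WE0_act_k hI c' h1 P hP (fun a b => y (a, b))] at h4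
  exact h4

private theorem WE0_mem_inj {k L M : Type} [Field k] [Field L] [Field M] {n D : ℕ}
    {I : Ideal (MvPolynomial (Fin (n + 1) × Fin (D + 1)) k)} (φ : k →+* L) (ψ : L →+* M)
    (c : Fin (n + 1) → Fin (D + 1) → L) (hc : Mem (ψ.comp φ) I (fun i j => ψ (c i j))) :
    Mem φ I c := by
  intro P hP
  have h1 := hc P hP
  have h2 := MvPolynomial.hom_eval₂ P φ ψ (fun q => c q.1 q.2)
  have h3 : ψ (MvPolynomial.eval₂ φ (fun q => c q.1 q.2) P) = 0 := by
    rw [h2]
    exact h1
  exact (map_eq_zero ψ).mp h3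

theorem faw_of {k : Type} [Field k] [IsAlgClosed k] {n d : ℕ}
    {S : Set (MvPolynomial (Fin (n + 1)) k)}
    {I : Ideal (MvPolynomial (Fin (n + 1) × Fin (d + 1 + 1)) k)} (hI : Hyw S I) : Faw S I where
  eqs := by
    intro L _ φ c hc P hP M _ ψ x
    by_contra hne
    obtain ⟨c', y, h1, _, h3⟩ := WE0_pt (ψ.comp φ) (fun i j => ψ (c i j)) (mem_map φ ψ I c hc) x ∅
      (MvPolynomial.eval₂ MvPolynomial.C (fun i => WE0_ev
        (fun j => (MvPolynomial.X (Sum.inl (i, j)) :
          MvPolynomial ((Fin (n + 1) × Fin (d + 1 + 1)) ⊕ (Fin 2)) k))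
        (fun a => MvPolynomial.X (Sum.inr a))) P)
      (fun P hP => absurd hP (Set.notMem_empty P)) (by
        rw [MvPolynomial.hom_eval₂]
        have e1 : (MvPolynomial.eval₂Hom (ψ.comp φ) (Sum.elim
            (fun q : Fin (n + 1) × Fin (d + 1 + 1) => ψ (c q.1 q.2)) x)).comp MvPolynomial.C =
            ψ.comp φ := by
          ext a
          simp
        rw [e1]
        simp only [WE0_ev_map, MvPolynomial.eval₂Hom_X', Sum.elim_inl, Sum.elim_inr]
        exact hne)
    apply h3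
    have h4 := hI.eqs c' h1 y P hP
    rw [MvPolynomial.hom_eval₂]
    have e1 : (MvPolynomial.eval (Sum.elim
        (fun q : Fin (n + 1) × Fin (d + 1 + 1) => c' q.1 q.2) y)).comp MvPolynomial.C =
        RingHom.id k := by
      ext a
      simp
    rw [e1]
    simp only [WE0_ev_map, MvPolynomial.eval_X, Sum.elim_inl, Sum.elim_inr]
    exact h4
  act := by
    intro L _ φ c g hc
    exact WE0_act_L hI L φ c g hc
  smul := by
    intro L _ φ c a hc
    obtain ⟨b, hb⟩ := IsAlgClosed.exists_pow_nat_eq (algebraMap L (AlgebraicClosure L) a)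
      (Nat.succ_pos d)
    apply WE0_mem_inj φ (algebraMap L (AlgebraicClosure L))
    have h1 := WE0_act_L hI (AlgebraicClosure L) _ _ (b • (1 : Matrix (Fin 2) (Fin 2) _))
      (mem_map φ (algebraMap L (AlgebraicClosure L)) I c hc)
    have : Infinite (AlgebraicClosure L) := IsAlgClosed.instInfinite
    have h2 : (fun i => act (b • (1 : Matrix (Fin 2) (Fin 2) (AlgebraicClosure L)))
        (fun j => algebraMap L (AlgebraicClosure L) (c i j))) =
        (fun i j => algebraMap L (AlgebraicClosure L) (a * c i j)) := by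
      funext i
      refine ev_ext fun x => ?_
      rw [ev_act, Matrix.smul_mulVec, Matrix.one_mulVec]
      have h3 : (b • x) = fun i => b * x i := rfl
      rw [h3, ev_scale, hb]
      simp only [map_mul]
      rw [ev_smul]
    rw [h2] at h1
    exact h1
  zer := by
    intro L _ φ c hc hb h0
    obtain ⟨c', y, h1, h2, h3, _⟩ := WE0_bpt φ c hc hb (fun q : Fin 0 => (0 : L))
      (Set.range (fun j : Fin (d + 1 + 1) => (MvPolynomial.X (Sum.inl (0, j)) :
          MvPolynomial ((Fin (n + 1) × Fin (d + 1 + 1)) ⊕ (Fin 0)) k))) 1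
      (by
        rintro P ⟨j, rfl⟩
        rw [MvPolynomial.eval₂Hom_X', Sum.elim_inl]
        exact congrFun h0 j)
      (by
        rw [map_one]
        exact one_ne_zero)
    apply hI.zer c' h1 (fun x hx => h2.ev_ne hx)
    funext j
    have h4 := h3 _ ⟨j, rfl⟩
    rw [MvPolynomial.eval_X, Sum.elim_inl] at h4
    exact h4
  rts := by
    intro L _ φ c hc hb p hp hp0
    by_contra hcon
    push Not at hcon
    have hpa : ∀ l, ∃ a, p l a ≠ 0 := by
      intro l
      by_contra h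
      push Not at h
      exact hp l (funext h)
    choose a ha using hpa
    classical
    obtain ⟨c', y, h1, h2, h3, h4⟩ := WE0_bpt φ c hc hb
      (fun q : Fin (2 + 1) × Fin 2 => p q.1 q.2)
      (Set.range (fun l : Fin (2 + 1) => WE0_ev
        (fun j => (MvPolynomial.X (Sum.inl (0, j)) :
          MvPolynomial ((Fin (n + 1) × Fin (d + 1 + 1)) ⊕ (Fin (2 + 1) × Fin 2)) k))
        (fun a => MvPolynomial.X (Sum.inr (l, a)))))
      ((∏ l : Fin (2 + 1), ∏ l' : Fin (2 + 1), if l = l' then 1 else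
        ((MvPolynomial.X (Sum.inr (l, 0)) * MvPolynomial.X (Sum.inr (l', 1)) -
          MvPolynomial.X (Sum.inr (l, 1)) * MvPolynomial.X (Sum.inr (l', 0)) :
          MvPolynomial ((Fin (n + 1) × Fin (d + 1 + 1)) ⊕ (Fin (2 + 1) × Fin 2)) k))) *
        ∏ l : Fin (2 + 1), MvPolynomial.X (Sum.inr (l, a l)))
      (by
        rintro P ⟨l, rfl⟩
        have h4 := WE0_ev_map (MvPolynomial.eval₂Hom φ
          (Sum.elim (fun q : Fin (n + 1) × Fin (d + 1 + 1) => c q.1 q.2)
            (fun q : Fin (2 + 1) × Fin 2 => p q.1 q.2)))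
          (fun j => (MvPolynomial.X (Sum.inl (0, j)) :
            MvPolynomial ((Fin (n + 1) × Fin (d + 1 + 1)) ⊕ (Fin (2 + 1) × Fin 2)) k))
          (fun a => MvPolynomial.X (Sum.inr (l, a)))
        simp only [MvPolynomial.eval₂Hom_X', Sum.elim_inl, Sum.elim_inr] at h4
        rw [h4]
        exact hp0 l)
      (by
        rw [map_mul, map_prod, map_prod]
        refine mul_ne_zero (Finset.prod_ne_zero_iff.mpr fun l _ => ?_)
          (Finset.prod_ne_zero_iff.mpr fun l _ => ?_)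
        · rw [map_prod]
          refine Finset.prod_ne_zero_iff.mpr fun l' _ => ?_
          by_cases hll : l = l'
          · rw [if_pos hll, map_one]
            exact one_ne_zero
          · rw [if_neg hll, map_sub, map_mul, map_mul]
            simp only [MvPolynomial.eval₂Hom_X', Sum.elim_inr]
            exact hcon l l' hll
        · rw [MvPolynomial.eval₂Hom_X', Sum.elim_inr]
          exact ha l)
    rw [map_mul, map_prod, map_prod] at h4
    have h5 := Finset.prod_ne_zero_iff.mp (left_ne_zero_of_mul h4)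
    have h6 := Finset.prod_ne_zero_iff.mp (right_ne_zero_of_mul h4)
    obtain ⟨l, l', hll, h7⟩ := hI.rts c' h1 (fun x hx => h2.ev_ne hx) (fun l a => y (l, a))
      (by
        intro l h8
        apply h6 l (Finset.mem_univ l)
        rw [MvPolynomial.eval_X, Sum.elim_inr]
        exact congrFun h8 (a l))
      (by
        intro l
        have h4 := WE0_ev_map (MvPolynomial.eval
          (Sum.elim (fun q : Fin (n + 1) × Fin (d + 1 + 1) => c' q.1 q.2) y))
          (fun j => (MvPolynomial.X (Sum.inl (0, j)) :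
            MvPolynomial ((Fin (n + 1) × Fin (d + 1 + 1)) ⊕ (Fin (2 + 1) × Fin 2)) k))
          (fun a => MvPolynomial.X (Sum.inr (l, a)))
        rw [h3 _ ⟨l, rfl⟩] at h4
        simp only [MvPolynomial.eval_X, Sum.elim_inl, Sum.elim_inr] at h4
        exact h4.symm)
    have h8 := h5 l (Finset.mem_univ l)
    rw [map_prod] at h8
    have h9 := Finset.prod_ne_zero_iff.mp h8 l' (Finset.mem_univ l')
    rw [if_neg hll, map_sub, map_mul, map_mul] at h9
    simp only [MvPolynomial.eval_X, Sum.elim_inr] at h9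
    exact h9 h7

end Pool.Agent.Lib.MP_1e3e9c_agW
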