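import Mathlib
import Pool.Agent.Lib.MP_1e3e9c_agU.FmC
import Pool.Agent.Lib.MP_1e3e9c_agU.Defs3
import Pool.Agent.Lib.MP_1e3e9c_agU.G0b
import Pool.Agent.Lib.MP_1e3e9c_agW.DefsE

/-!
# MP_1e3e9c_ag, project W, leaf E1: the generic member with three marked points

Copy of `MP_1e3e9c_agU/G1a.lean` for `Faw` (families which need not be unsplit).
-/

set_option autoImplicit false

namespace Pool.Agent.Lib.MP_1e3e9c_agW

open Pool.Agent.Lib.MP_1e3e9c_agU

/-- A binary form of positive degree over an algebraically closed field has a zero. -/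
private theorem WE1_zero {L : Type} [Field L] [IsAlgClosed L] {d : ℕ} (c : Fin (d + 1 + 1) → L) :
    ∃ x : Fin 2 → L, x ≠ 0 ∧ ev c x = 0 := by
  by_cases h : c (Fin.last (d + 1)) = 0
  · refine ⟨![0, 1], fun h1 => one_ne_zero (α := L) (congrFun h1 1), ?_⟩
    unfold ev
    rw [Fin.sum_univ_castSucc, h]
    simp only [Matrix.cons_val_zero, Matrix.cons_val_one, one_pow, mul_one, zero_mul, add_zero]
    refine Finset.sum_eq_zero fun j _ => ?_
    rw [zero_pow, mul_zero]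
    have h2 := j.2
    rw [Fin.val_castSucc]
    omega
  · obtain ⟨P, hP⟩ : ∃ P : Polynomial L, P = ∑ j : Fin (d + 1 + 1),
      Polynomial.monomial (j : ℕ) (c j) := ⟨_, rfl⟩
    have hco : P.coeff (d + 1) = c (Fin.last (d + 1)) := by
      rw [hP, Polynomial.finsetSum_coeff, Finset.sum_eq_single (Fin.last (d + 1))]
      · rw [Polynomial.coeff_monomial, if_pos (Fin.val_last _)]
      · intro j _ hj
        rw [Polynomial.coeff_monomial, if_neg]
        intro h1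
        exact hj (Fin.ext (by rw [h1, Fin.val_last]))
      · intro h1
        exact absurd (Finset.mem_univ _) h1
    have hdeg : P.degree ≠ 0 := by
      intro h1
      have h2 : P.coeff (d + 1) = 0 := by
        apply Polynomial.coeff_eq_zero_of_degree_lt
        rw [h1]
        exact_mod_cast Nat.succ_pos d
      exact h (hco ▸ h2)
    obtain ⟨t, ht⟩ := IsAlgClosed.exists_root P hdeg
    refine ⟨![1, t], fun h1 => one_ne_zero (α := L) (congrFun h1 0), ?_⟩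
    rw [Polynomial.IsRoot.def, hP, Polynomial.eval_finsetSum] at ht
    unfold ev
    rw [← ht]
    refine Finset.sum_congr rfl fun j _ => ?_
    rw [Polynomial.eval_monomial]
    simp only [Matrix.cons_val_zero, Matrix.cons_val_one, one_pow, mul_one]

private theorem WE1_prop {L : Type} [Field L] {D : ℕ} {c : Fin (D + 1) → L} {p x : Fin 2 → L}
    (hp : p ≠ 0) (h : ev c p = 0) (hx : ev c x ≠ 0) : wd p x ≠ 0 := by
  intro h1
  obtain ⟨a, ha⟩ := (wd_eq_zero_iff hp x).1 h1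
  apply hx
  have h2 : x = fun i => a * p i := funext ha
  rw [h2, ev_scale, h, mul_zero]

theorem exists_norm_w {k : Type} [Field k] [CharZero k] {n d : ℕ}
    {S : Set (MvPolynomial (Fin (n + 1)) k)}
    {I : Ideal (MvPolynomial (Fin (n + 1) × Fin (d + 1 + 1)) k)} (hI : Faw S I) (hp : I.IsPrime)
    (c₀ : Fin (n + 1) → Fin (d + 1 + 1) → k) (hm : Mem (RingHom.id k) I c₀) (hb : BPF c₀) :
    ∃ (L : Type) (_ : Field L) (_ : IsAlgClosed L) (φ : k →+* L)
      (c : Fin (n + 1) → Fin (d + 1 + 1) → L) (g : Matrix (Fin 2) (Fin 2) L),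
      Mem φ I c ∧ BPF c ∧ Nrm φ c ∧
      ∀ P : MvPolynomial (Fin (n + 1) × Fin (d + 1 + 1)) k,
        MvPolynomial.eval₂ φ (fun q => act g (c q.1) q.2) P = 0 → P ∈ I := by
  -- the generic point
  obtain ⟨L, iL, iA, χ, hχ⟩ : ∃ (L : Type) (_ : Field L) (_ : IsAlgClosed L)
      (χ : MvPolynomial (Fin (n + 1) × Fin (d + 1 + 1)) k →+* L), ∀ P, χ P = 0 ↔ P ∈ I := by
    let Q := FractionRing (MvPolynomial (Fin (n + 1) × Fin (d + 1 + 1)) k ⧸ I)
    refine ⟨AlgebraicClosure Q, inferInstance, inferInstance,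
      (algebraMap Q (AlgebraicClosure Q)).comp ((algebraMap _ Q).comp (Ideal.Quotient.mk I)),
      fun P => ?_⟩
    rw [RingHom.comp_apply, RingHom.comp_apply, map_eq_zero]
    constructor
    · intro h
      exact Ideal.Quotient.eq_zero_iff_mem.1
        ((map_eq_zero_iff _ (IsFractionRing.injective _ Q)).1 h)
    · intro h
      rw [Ideal.Quotient.eq_zero_iff_mem.2 h, map_zero]
  obtain ⟨φ, hφ⟩ : ∃ φ : k →+* L, φ = χ.comp MvPolynomial.C := ⟨_, rfl⟩
  obtain ⟨h, hh⟩ : ∃ h : Fin (n + 1) → Fin (d + 1 + 1) → L,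
    h = fun i j => χ (MvPolynomial.X (i, j)) := ⟨_, rfl⟩
  have hev : ∀ P : MvPolynomial (Fin (n + 1) × Fin (d + 1 + 1)) k,
      MvPolynomial.eval₂ φ (fun q => h q.1 q.2) P = χ P := by
    intro P
    have h1 : MvPolynomial.eval₂Hom φ (fun q : Fin (n + 1) × Fin (d + 1 + 1) => h q.1 q.2) = χ := by
      refine MvPolynomial.ringHom_ext (fun a => ?_) fun q => ?_
      · rw [MvPolynomial.eval₂Hom_C, hφ]
        rfl
      · rw [MvPolynomial.eval₂Hom_X', hh]
    exact RingHom.congr_fun h1 P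
  have hmem : Mem φ I h := fun P hP => by
    rw [hev]
    exact (hχ P).2 hP
  have hbpf : BPF h := by
    obtain ⟨Δ, h1, h2⟩ := bpf_open (A := MvPolynomial (Fin (n + 1) × Fin (d + 1 + 1)) k)
      (fun i j => MvPolynomial.X (i, j)) (MvPolynomial.eval₂Hom (RingHom.id k) fun q => c₀ q.1 q.2)
      (by simpa only [MvPolynomial.eval₂Hom_X'] using hb)
    rw [hh]
    refine h2 L χ fun h3 => h1 ?_
    exact hm Δ ((hχ Δ).1 h3)
  -- the marked points
  obtain ⟨q₁, hq₁, e₁⟩ := WE1_zero (h 0)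
  obtain ⟨j, hj⟩ := hbpf.ev_ne hq₁
  obtain ⟨q₂, hq₂, e₂⟩ := WE1_zero (h j)
  obtain ⟨i', hi'⟩ := hbpf.ev_ne hq₂
  obtain ⟨a, ha₁, ha₂⟩ : ∃ a : Fin (n + 1) → k, ∑ i, φ (a i) * ev (h i) q₁ ≠ 0 ∧
      ∑ i, φ (a i) * ev (h i) q₂ ≠ 0 := by
    have hs : ∀ (i₀ : Fin (n + 1)) (q : Fin 2 → L),
        ∑ i, φ (if i = i₀ then 1 else 0) * ev (h i) q = ev (h i₀) q := by
      intro i₀ q
      rw [Finset.sum_eq_single i₀]
      · rw [if_pos rfl, map_one, one_mul]
      · intro i _ hi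
        rw [if_neg hi, map_zero, zero_mul]
      · intro h1
        exact absurd (Finset.mem_univ _) h1
    by_cases h1 : ev (h i') q₁ = 0
    · refine ⟨fun i => (if i = j then 1 else 0) + (if i = i' then 1 else 0), ?_, ?_⟩
      · simp only [map_add, add_mul, Finset.sum_add_distrib, hs, h1, add_zero]
        exact hj
      · simp only [map_add, add_mul, Finset.sum_add_distrib, hs, e₂, zero_add]
        exact hi'
    · refine ⟨fun i => if i = i' then 1 else 0, ?_, ?_⟩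
      · rw [hs]
        exact h1
      · rw [hs]
        exact hi'
  obtain ⟨f, hf⟩ : ∃ f : Fin (d + 1 + 1) → L, f = fun m => ∑ i, φ (a i) * h i m := ⟨_, rfl⟩
  have hfe : ∀ x, ev f x = ∑ i, φ (a i) * ev (h i) x := by
    intro x
    rw [hf]
    unfold ev
    simp only [Finset.sum_mul, Finset.mul_sum]
    rw [Finset.sum_comm]
    refine Finset.sum_congr rfl fun i _ => Finset.sum_congr rfl fun m _ => ?_
    ring
  obtain ⟨q₃, hq₃, e₃⟩ := WE1_zero f
  have w₂₁ : wd q₂ q₁ ≠ 0 := WE1_prop hq₂ e₂ hj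
  have w₃₁ : wd q₃ q₁ ≠ 0 := WE1_prop hq₃ e₃ (by rwa [hfe])
  have w₃₂ : wd q₃ q₂ ≠ 0 := WE1_prop hq₃ e₃ (by rwa [hfe])
  obtain ⟨α, hα⟩ : ∃ α, α = -(wd q₃ q₂ / wd q₂ q₁) := ⟨_, rfl⟩
  obtain ⟨β, hβ⟩ : ∃ β, β = wd q₃ q₁ / wd q₂ q₁ := ⟨_, rfl⟩
  have hα0 : α ≠ 0 := by
    rw [hα]
    exact neg_ne_zero.2 (div_ne_zero w₃₂ w₂₁)
  have hβ0 : β ≠ 0 := by
    rw [hβ]
    exact div_ne_zero w₃₁ w₂₁
  have h₃ : ∀ l, q₃ l = α * q₁ l + β * q₂ l := by
    intro l
    rw [hα, hβ]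
    field_simp
    unfold wd
    fin_cases l
    · simp only [Fin.zero_eta]
      ring
    · simp only [Fin.mk_one]
      ring
  obtain ⟨g₀, hg₀⟩ : ∃ g₀ : Matrix (Fin 2) (Fin 2) L,
    g₀ = !![α * q₁ 0, β * q₂ 0; α * q₁ 1, β * q₂ 1] := ⟨_, rfl⟩
  have hdet : g₀.det ≠ 0 := by
    have h1 : g₀.det = -(α * β * wd q₂ q₁) := by
      rw [hg₀, Matrix.det_fin_two_of]
      unfold wd
      ring
    rw [h1]
    exact neg_ne_zero.2 (mul_ne_zero (mul_ne_zero hα0 hβ0) w₂₁)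
  have m₁ : g₀.mulVec ![1, 0] = fun l => α * q₁ l := by
    rw [hg₀]
    funext l
    fin_cases l
    · simp [Matrix.mulVec, dotProduct, Fin.sum_univ_two]
    · simp [Matrix.mulVec, dotProduct, Fin.sum_univ_two]
  have m₂ : g₀.mulVec ![0, 1] = fun l => β * q₂ l := by
    rw [hg₀]
    funext l
    fin_cases l
    · simp [Matrix.mulVec, dotProduct, Fin.sum_univ_two]
    · simp [Matrix.mulVec, dotProduct, Fin.sum_univ_two]
  have m₃ : g₀.mulVec ![1, 1] = q₃ := by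
    rw [hg₀]
    funext l
    rw [h₃ l]
    fin_cases l
    · simp [Matrix.mulVec, dotProduct, Fin.sum_univ_two]
    · simp [Matrix.mulVec, dotProduct, Fin.sum_univ_two]
  obtain ⟨ν, hν⟩ : ∃ ν, ν = ev (h j) (fun l => α * q₁ l) := ⟨_, rfl⟩
  have hν0 : ν ≠ 0 := by
    rw [hν, ev_scale]
    exact mul_ne_zero (pow_ne_zero _ hα0) hj
  have hc : ∀ i x, ev (fun m => ν⁻¹ * act g₀ (h i) m) x = ν⁻¹ * ev (h i) (g₀.mulVec x) := by
    intro i x
    rw [ev_smul, ev_act]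
  obtain ⟨t, ht⟩ := IsAlgClosed.exists_pow_nat_eq ν (Nat.succ_pos d)
  refine ⟨L, iL, iA, φ, fun i m => ν⁻¹ * act g₀ (h i) m, t • g₀⁻¹, ?_, ?_, ?_, ?_⟩
  · exact hI.smul L φ _ ν⁻¹ (hI.act L φ h g₀ hmem)
  · exact (hbpf.act hdet).smul (inv_ne_zero hν0)
  · refine ⟨j, a, ?_, ?_, ?_, ?_, ?_⟩
    · rw [hc, m₁, ev_scale, e₁, mul_zero, mul_zero]
    · rw [hc, m₂, ev_scale, e₂, mul_zero, mul_zero]
    · rw [hc, m₁, ← hν, inv_mul_cancel₀ hν0]
    · simp only [hc, m₃]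
      have h1 : ∑ i, φ (a i) * (ν⁻¹ * ev (h i) q₃) = ν⁻¹ * ∑ i, φ (a i) * ev (h i) q₃ := by
        rw [Finset.mul_sum]
        exact Finset.sum_congr rfl fun i _ => by ring
      rw [h1, ← hfe, e₃, mul_zero]
    · simp only [hc, m₁, ev_scale]
      have h1 : ∑ i, φ (a i) * (ν⁻¹ * (α ^ (d + 1) * ev (h i) q₁)) =
          ν⁻¹ * α ^ (d + 1) * ∑ i, φ (a i) * ev (h i) q₁ := by
        rw [Finset.mul_sum]
        exact Finset.sum_congr rfl fun i _ => by ring
      rw [h1]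
      exact mul_ne_zero (mul_ne_zero (inv_ne_zero hν0) (pow_ne_zero _ hα0)) ha₁
  · intro P hP
    have h1 : ∀ i, act (t • g₀⁻¹) (fun m => ν⁻¹ * act g₀ (h i) m) = h i := by
      intro i
      have : Infinite L := inferInstance
      refine ev_ext fun x => ?_
      have h2 : g₀.mulVec ((t • g₀⁻¹).mulVec x) = fun l => t * x l := by
        rw [Matrix.mulVec_mulVec, mul_smul_comm, Matrix.mul_nonsing_inv _ (isUnit_iff_ne_zero.2 hdet),
          Matrix.smul_mulVec, Matrix.one_mulVec]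
        rfl
      rw [ev_act, hc, h2, ev_scale, ht, inv_mul_cancel_left₀ hν0]
    rw [← hχ, ← hev]
    simp only [h1] at hP
    exact hP

end Pool.Agent.Lib.MP_1e3e9c_agW
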