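import Mathlib
import Pool.Agent.Lib.MP_1e3e9c_agU.FmA
import Pool.Agent.Lib.MP_1e3e9c_agW.DefsE

/-!
# MP_1e3e9c_ag, project W, leaf E4: few distinct zeros

Copy of `MP_1e3e9c_agU/G1e.lean` for `Faw` (families which need not be unsplit).
-/

set_option autoImplicit false

namespace Pool.Agent.Lib.MP_1e3e9c_agW

open Pool.Agent.Lib.MP_1e3e9c_agU

variable {k F : Type} [Field k] [Field F] {n d : ℕ} {S : Set (MvPolynomial (Fin (n + 1)) k)}
  {I : Ideal (MvPolynomial (Fin (n + 1) × Fin (d + 1 + 1)) k)} {φ : k →+* F}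

private theorem WE4_wd_self {L : Type} [Field L] (p : Fin 2 → L) : wd p p = 0 := by
  unfold wd
  ring

private theorem WE4_wd_comm {L : Type} [Field L] {p x : Fin 2 → L} (h : wd p x ≠ 0) : wd x p ≠ 0 := by
  intro h0
  apply h
  have : wd p x = -wd x p := by
    unfold wd
    ring
  rw [this, h0, neg_zero]


private theorem WE4_zero (D : Dat I φ) (l : Fin (d + 1)) : ev (D.c 0) (D.p l) = 0 := by
  have h := D.fac F (RingHom.id F) (D.p l)
  have h0 : ∏ m, wd (fun a => RingHom.id F (D.p m a)) (D.p l) = 0 :=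
    Finset.prod_eq_zero (Finset.mem_univ l) (WE4_wd_self (D.p l))
  rw [h0, mul_zero] at h
  exact h

theorem few_of_w (hI : Faw S I) (D : Dat I φ) : D.few 2 := by
  classical
  let A : Finset (Finset (Fin (d + 1))) := Finset.univ.filter fun S =>
    ∀ l ∈ S, ∀ m ∈ S, l ≠ m → wd (D.p l) (D.p m) ≠ 0
  have hA : A.Nonempty := ⟨∅, by simp [A]⟩
  obtain ⟨S, hS, hmax⟩ := Finset.exists_max_image A Finset.card hA
  have hSp : ∀ l ∈ S, ∀ m ∈ S, l ≠ m → wd (D.p l) (D.p m) ≠ 0 := (Finset.mem_filter.1 hS).2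
  refine ⟨S, ?_, ?_⟩
  · by_contra hc
    rw [not_le] at hc
    have hcard : 2 + 1 ≤ S.card := hc
    let e : Fin (2 + 1) → Fin (d + 1) := fun i => S.equivFin.symm (Fin.castLE hcard i)
    have he : Function.Injective e := by
      intro i j hij
      have h1 := S.equivFin.symm.injective (Subtype.ext hij)
      exact Fin.castLE_injective hcard h1
    have heS : ∀ i, e i ∈ S := fun i => (S.equivFin.symm (Fin.castLE hcard i)).2
    obtain ⟨l, l', hne, hw⟩ := hI.rts F φ D.c D.mem D.bpf (fun i => D.p (e i)) (fun i => D.pne _)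
      (fun i => WE4_zero D _)
    exact hSp _ (heS l) _ (heS l') (fun h => hne (he h)) hw
  · intro l
    by_contra hc
    push Not at hc
    have hl : l ∉ S := fun h => hc l h (WE4_wd_self _)
    have hins : insert l S ∈ A := by
      refine Finset.mem_filter.2 ⟨Finset.mem_univ _, ?_⟩
      intro a ha b hb hab
      rcases Finset.mem_insert.1 ha with rfl | ha'
      · rcases Finset.mem_insert.1 hb with rfl | hb'
        · exact absurd rfl hab
        · exact hc b hb'
      · rcases Finset.mem_insert.1 hb with rfl | hb'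
        · exact WE4_wd_comm (hc a ha')
        · exact hSp a ha' b hb' hab
    have h1 := hmax _ hins
    rw [Finset.card_insert_of_notMem hl] at h1
    omega


theorem few_pos_w (D : Dat I φ) {s : ℕ} (h : D.few s) : 1 ≤ s := by
  obtain ⟨S, hS, h⟩ := h
  obtain ⟨m, hm, _⟩ := h 0
  exact le_trans (Finset.card_pos.2 ⟨m, hm⟩) hS

end Pool.Agent.Lib.MP_1e3e9c_agW
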