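import Mathlib
import Pool.Agent.Lib.MP_1e3e9c_agU.FmC
import Pool.Agent.Lib.MP_1e3e9c_agW.DefsE

/-!
# MP_1e3e9c_ag, project W, leaf E6: forms which vanish at the zeros of `f_0`

`D = d + 1`. The form `g = H(f)^(d+1)` is divisible by `f_0` for the generic member, so for all members with
`f_0 ≠ 0`.

PROOF. (1) Change of coordinates: `k` is infinite and `c' 0 ≠ 0`, so there is `y : Fin 2 → k` with
`ev (c' 0) y ≠ 0` (`ev_ext` with the zero tuple); `y ≠ 0`; a matrix `g₀` over `k` with `g₀.det ≠ 0`,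
`g₀.mulVec ![0,1] = y` (e.g. first column `(1,0)` or `(0,1)`). `c'' i = act g₀ (c' i)` is a member (`hact` for
`L = k`), `ev (c'' 0) ![0,1] ≠ 0`, and `x'' = g₀⁻¹ x` is a zero of `f''_0` with `f''(x'') = f'(x)`. So we may
assume `ev (c' 0) ![0,1] = c' 0 (Fin.last _) ≠ 0`; then `x 0 ≠ 0` (otherwise `x = x_1 (0,1)`, `ev_scale`).
(2) Let `A = k[X_(i,j)]` (`MvPolynomial (Fin (n+1) × Fin (d+1+1)) k`), `f_i(T) = ∑_j X_(i,j) T^j ∈ A[T]`,
`g(T) = H(f(T))^(d+1) ∈ A[T]`, `a = X_(0,d+1)` the leading coefficient of `f_0(T)`. Pseudo-division: there are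
`N`, `q, r ∈ A[T]` with `a^N g = q f_0 + r`, `deg r < d + 1` (induction on the degree of `g`; or division by the
monic polynomial `f_0 / a` over the localisation of `A` at `a`).
(3) All coefficients of `r` are in `I`: by `hG` it is enough that their values at `gt D.c` are `0` (in
`Ω = GF F (Fin 2 × Fin 2)`). The value of `f_i(T)` is `∑_j gt(i,j) T^j = F_i(T)`, `F_i(t) = f_i(G (1,t))` for
`t ∈ Ω` (`ev_act`). `F_0 = e * ∏_l (linear or constant polynomial wd(G' p_l, (1,T)))`, where
`wd (p_l) (G x) = wd (adj(G) p_l) x`; in `Ω[T]`: `F_0 = C e * ∏_l L_l`, `L_l = C (u_l) * X - C (v_l)` with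
`(u_l, v_l) = adj(G) p_l`. `L_l` divides `H(F)`: if `u_l ≠ 0` the value at `T = v_l / u_l` is
`H(f(G(1, v_l/u_l))) = H(f(b p_l)) = 0` (`hv`, homogeneity; `G (u_l, v_l) = det G p_l`); `u_l ≠ 0` because
`u_l = G_11 p_l0 - G_01 p_l1` and the four entries of `G` are algebraically independent over `F`, `p_l ≠ 0`. So
`F_0` divides `H(F)^(d+1)` (a product of `d + 1` divisors of `H(F)`), so the value of `r` is divisible by `F_0`,
which has degree `d + 1` (`u_l ≠ 0`, `e ≠ 0`) and `deg r < d + 1`: it is `0`.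
(4) Evaluate at `c'`: `a(c')^N H(f'(T))^(d+1) = q'(T) f'_0(T)` in `k[T]`; at `T = t = x_1/x_0`:
`f'_0(t) = ev (c' 0) (1,t) = 0` (`ev_scale`), so `H(f'(1,t)) = 0`, so `H(f'(x)) = 0` by homogeneity.
-/

set_option autoImplicit false

namespace Pool.Agent.Lib.MP_1e3e9c_agW

open Pool.Agent.Lib.MP_1e3e9c_agU

/-! ### private lemmas -/

/-- The dehomogenised form. -/
private noncomputable def E6_pf {R : Type} [CommRing R] {D : ℕ} (c : Fin (D + 1) → R) :
    Polynomial R :=
  ∑ j : Fin (D + 1), Polynomial.C (c j) * Polynomial.X ^ (j : ℕ)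

private theorem E6_pf_map {R M : Type} [CommRing R] [CommRing M] {D : ℕ} (χ : R →+* M)
    (c : Fin (D + 1) → R) : (E6_pf c).map χ = E6_pf (fun j => χ (c j)) := by
  unfold E6_pf
  rw [Polynomial.map_sum]
  refine Finset.sum_congr rfl fun j _ => ?_
  rw [Polynomial.map_mul, Polynomial.map_pow, Polynomial.map_C, Polynomial.map_X]

private theorem E6_pf_eval {L : Type} [Field L] {D : ℕ} (c : Fin (D + 1) → L) (t : L) :
    (E6_pf c).eval t = ev c ![1, t] := by
  unfold E6_pf ev
  rw [Polynomial.eval_finsetSum]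
  refine Finset.sum_congr rfl fun j _ => ?_
  simp

private theorem E6_pf_coeff {R : Type} [CommRing R] {D : ℕ} (c : Fin (D + 1) → R) :
    (E6_pf c).coeff D = c (Fin.last D) := by
  unfold E6_pf
  rw [Polynomial.finsetSum_coeff, Finset.sum_eq_single (Fin.last D)]
  · rw [Polynomial.coeff_C_mul, Polynomial.coeff_X_pow]
    simp
  · intro j _ hj
    rw [Polynomial.coeff_C_mul, Polynomial.coeff_X_pow, if_neg, mul_zero]
    intro h
    exact hj (Fin.ext h.symm)
  · intro h
    exact absurd (Finset.mem_univ _) h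

private theorem E6_pf_deg {R : Type} [CommRing R] {D : ℕ} (c : Fin (D + 1) → R) :
    (E6_pf c).natDegree ≤ D := by
  unfold E6_pf
  refine Polynomial.natDegree_sum_le_of_forall_le _ _ fun j _ => ?_
  refine (Polynomial.natDegree_C_mul_X_pow_le _ _).trans ?_
  exact Nat.lt_succ_iff.1 j.2

/-- The value of the form `H` at the polynomials. -/
private noncomputable def E6_hp {k R : Type} [Field k] [CommRing R] {n D : ℕ} (φ : k →+* R)
    (H : MvPolynomial (Fin (n + 1)) k) (c : Fin (n + 1) → Fin (D + 1) → R) : Polynomial R :=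
  MvPolynomial.eval₂ (Polynomial.C.comp φ) (fun i => E6_pf (c i)) H

private theorem E6_hp_map {k R M : Type} [Field k] [CommRing R] [CommRing M] {n D : ℕ}
    (φ : k →+* R) (χ : R →+* M)
    (H : MvPolynomial (Fin (n + 1)) k) (c : Fin (n + 1) → Fin (D + 1) → R) :
    (E6_hp φ H c).map χ = E6_hp (χ.comp φ) H (fun i j => χ (c i j)) := by
  unfold E6_hp
  have h := MvPolynomial.hom_eval₂ H (Polynomial.C.comp φ) (Polynomial.mapRingHom χ)
    (fun i => E6_pf (c i))
  rw [Polynomial.coe_mapRingHom] at h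
  rw [h]
  have e1 : (Polynomial.mapRingHom χ).comp (Polynomial.C.comp φ) = Polynomial.C.comp (χ.comp φ) := by
    ext a
    simp
  have e2 : (⇑(Polynomial.mapRingHom χ) ∘ fun i => E6_pf (c i)) =
      fun i => E6_pf (fun j => χ (c i j)) := by
    funext i
    show (E6_pf (c i)).map χ = _
    exact E6_pf_map χ (c i)
  rw [e1]
  exact congrArg (fun v => MvPolynomial.eval₂ (Polynomial.C.comp (χ.comp φ)) v H) e2

private theorem E6_hp_eval {k L : Type} [Field k] [Field L] {n D : ℕ} (φ : k →+* L)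
    (H : MvPolynomial (Fin (n + 1)) k) (c : Fin (n + 1) → Fin (D + 1) → L) (t : L) :
    (E6_hp φ H c).eval t = MvPolynomial.eval₂ φ (fun i => ev (c i) ![1, t]) H := by
  unfold E6_hp
  have h := MvPolynomial.hom_eval₂ H (Polynomial.C.comp φ) (Polynomial.evalRingHom t)
    (fun i => E6_pf (c i))
  rw [Polynomial.coe_evalRingHom] at h
  rw [h]
  have e1 : (Polynomial.evalRingHom t).comp (Polynomial.C.comp φ) = φ := by
    ext a
    simp
  have e2 : (⇑(Polynomial.evalRingHom t) ∘ fun i => E6_pf (c i)) = fun i => ev (c i) ![1, t] := by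
    funext i
    show (E6_pf (c i)).eval t = _
    exact E6_pf_eval (c i) t
  rw [e1]
  exact congrArg (fun v => MvPolynomial.eval₂ φ v H) e2

private theorem E6_hom {k L : Type} [Field k] [Field L] {n s : ℕ} (φ : k →+* L)
    {H : MvPolynomial (Fin (n + 1)) k} (hH : H.IsHomogeneous s) (a : L) (v : Fin (n + 1) → L) :
    MvPolynomial.eval₂ φ (fun i => a * v i) H = a ^ s * MvPolynomial.eval₂ φ v H := by
  rw [MvPolynomial.eval₂_eq, MvPolynomial.eval₂_eq, Finset.mul_sum]
  refine Finset.sum_congr rfl fun m hm => ?_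
  have h1 : ∏ i ∈ m.support, a ^ m i = a ^ s := by
    rw [Finset.prod_pow_eq_pow_sum]
    congr 1
    have h2 := hH (MvPolynomial.mem_support_iff.1 hm)
    rw [← h2]
    simp [Finsupp.weight_apply, Finsupp.sum]
  calc φ (MvPolynomial.coeff m H) * ∏ i ∈ m.support, (a * v i) ^ m i
      = φ (MvPolynomial.coeff m H) * ((∏ i ∈ m.support, a ^ m i) * ∏ i ∈ m.support, v i ^ m i) := by
        rw [← Finset.prod_mul_distrib]
        congr 1
        exact Finset.prod_congr rfl fun i _ => mul_pow _ _ _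
    _ = _ := by
        rw [h1]
        ring

/-- Pseudo-division. -/
private theorem E6_pdiv {A : Type} [CommRing A] {D : ℕ} (hD : 1 ≤ D) (f : Polynomial A)
    (hf : f.natDegree ≤ D) (m : ℕ) : ∀ g : Polynomial A, g.natDegree ≤ m →
    ∃ (N : ℕ) (q r : Polynomial A), Polynomial.C (f.coeff D ^ N) * g = q * f + r ∧
      r.natDegree < D := by
  induction m with
  | zero =>
    intro g hg
    exact ⟨0, 0, g, by simp, by omega⟩
  | succ m ih =>
    intro g hg
    by_cases h1 : g.natDegree < D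
    · exact ⟨0, 0, g, by simp, h1⟩
    by_cases h2 : g.natDegree ≤ m
    · exact ih g h2
    have h3 : g.natDegree = m + 1 := by omega
    have hDm : D ≤ m + 1 := by omega
    obtain ⟨g1, hg1⟩ : ∃ g1 : Polynomial A, g1 = Polynomial.C (f.coeff D) * g -
        Polynomial.C (g.coeff (m + 1)) * Polynomial.X ^ (m + 1 - D) * f := ⟨_, rfl⟩
    have h4 : g1.natDegree ≤ m := by
      rw [Polynomial.natDegree_le_iff_coeff_eq_zero]
      intro N hN
      rw [hg1, Polynomial.coeff_sub, Polynomial.coeff_C_mul, mul_assoc, Polynomial.coeff_C_mul,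
        Polynomial.coeff_X_pow_mul']
      rw [if_pos (by omega)]
      rcases Nat.eq_or_lt_of_le (Nat.succ_le_of_lt hN) with h5 | h5
      · have h6 : N = m + 1 := h5.symm
        rw [h6, show m + 1 - (m + 1 - D) = D by omega]
        ring
      · have h6 : m + 1 < N := h5
        rw [Polynomial.coeff_eq_zero_of_natDegree_lt (by omega : g.natDegree < N),
          Polynomial.coeff_eq_zero_of_natDegree_lt (by omega : f.natDegree < N - (m + 1 - D))]
        ring
    obtain ⟨N, q, r, h5, h6⟩ := ih g1 h4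
    refine ⟨N + 1, q + Polynomial.C (f.coeff D ^ N) * (Polynomial.C (g.coeff (m + 1)) *
      Polynomial.X ^ (m + 1 - D)), r, ?_, h6⟩
    have h7 : Polynomial.C (f.coeff D ^ (N + 1)) * g = Polynomial.C (f.coeff D ^ N) *
        (Polynomial.C (f.coeff D) * g) := by
      rw [pow_succ, Polynomial.C_mul]
      ring
    have h8 : Polynomial.C (f.coeff D) * g = g1 + Polynomial.C (g.coeff (m + 1)) *
        Polynomial.X ^ (m + 1 - D) * f := by
      rw [hg1]
      ring
    rw [h7, h8, mul_add, h5]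
    ring

/-- A nonzero linear form in two entries of the generic matrix is not zero. -/
private theorem E6_lin {F : Type} [Field F] {p : Fin 2 → F} (hp : p ≠ 0) :
    algebraMap F (GF F (Fin 2 × Fin 2)) (p 0) * gc F (Fin 2 × Fin 2) (1, 1) -
      algebraMap F (GF F (Fin 2 × Fin 2)) (p 1) * gc F (Fin 2 × Fin 2) (0, 1) ≠ 0 := by
  intro h
  have hinj : Function.Injective (algebraMap (MvPolynomial (Fin 2 × Fin 2) F)
      (GF F (Fin 2 × Fin 2))) := IsFractionRing.injective _ _
  have h1 : algebraMap (MvPolynomial (Fin 2 × Fin 2) F) (GF F (Fin 2 × Fin 2))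
      (MvPolynomial.C (p 0) * MvPolynomial.X (1, 1) - MvPolynomial.C (p 1) *
        MvPolynomial.X (0, 1)) = 0 := by
    rw [map_sub, map_mul, map_mul]
    have e : ∀ a : F, algebraMap (MvPolynomial (Fin 2 × Fin 2) F) (GF F (Fin 2 × Fin 2))
        (MvPolynomial.C a) = algebraMap F (GF F (Fin 2 × Fin 2)) a := by
      intro a
      rw [IsScalarTower.algebraMap_apply F (MvPolynomial (Fin 2 × Fin 2) F)
        (GF F (Fin 2 × Fin 2)) a]
      rfl
    rw [e, e]
    exact h
  have h2 : (MvPolynomial.C (p 0) * MvPolynomial.X (1, 1) - MvPolynomial.C (p 1) *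
        MvPolynomial.X (0, 1) : MvPolynomial (Fin 2 × Fin 2) F) = 0 :=
    hinj (by rw [h1, map_zero])
  apply hp
  have h3 := congrArg (MvPolynomial.eval fun q : Fin 2 × Fin 2 => if q = (1, 1) then (1 : F) else 0) h2
  have h4 := congrArg (MvPolynomial.eval fun q : Fin 2 × Fin 2 => if q = (0, 1) then (1 : F) else 0) h2
  simp at h3 h4
  funext i
  fin_cases i
  · exact h3
  · exact h4

private theorem E6_ev_last {L : Type} [Field L] {D : ℕ} (c : Fin (D + 1) → L) :
    ev c ![0, 1] = c (Fin.last D) := by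
  unfold ev
  rw [Finset.sum_eq_single (Fin.last D)]
  · simp
  · intro j _ hj
    have h1 : D - (j : ℕ) ≠ 0 := by
      have := Fin.val_lt_last hj
      omega
    simp [h1]
  · intro h
    exact absurd (Finset.mem_univ _) h

private theorem E6_wd {F : Type} [Field F] (p : Fin 2 → F) (x : Fin 2 → GF F (Fin 2 × Fin 2)) :
    wd (fun a => algebraMap F (GF F (Fin 2 × Fin 2)) (p a)) ((gmat F).mulVec x) =
      (algebraMap F (GF F (Fin 2 × Fin 2)) (p 0) * gc F (Fin 2 × Fin 2) (1, 1) -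
        algebraMap F (GF F (Fin 2 × Fin 2)) (p 1) * gc F (Fin 2 × Fin 2) (0, 1)) * x 1 -
      (algebraMap F (GF F (Fin 2 × Fin 2)) (p 1) * gc F (Fin 2 × Fin 2) (0, 0) -
        algebraMap F (GF F (Fin 2 × Fin 2)) (p 0) * gc F (Fin 2 × Fin 2) (1, 0)) * x 0 := by
  unfold wd gmat
  simp only [Matrix.mulVec, dotProduct, Fin.sum_univ_two]
  ring

private theorem E6_top {k F : Type} [Field k] [Field F] {n d : ℕ}
    {I : Ideal (MvPolynomial (Fin (n + 1) × Fin (d + 1 + 1)) k)} {φ : k →+* F} (D : Dat I φ) :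
    gt D.c (0, Fin.last _) ≠ 0 := by
  have h1 : gt D.c (0, Fin.last _) = ev (act (gmat F)
      (fun j => algebraMap F (GF F (Fin 2 × Fin 2)) (D.c 0 j))) ![0, 1] := by
    rw [E6_ev_last]
    rfl
  rw [h1, ev_act, D.fac (GF F (Fin 2 × Fin 2)) (algebraMap F (GF F (Fin 2 × Fin 2)))]
  refine mul_ne_zero ?_ (Finset.prod_ne_zero_iff.2 fun l _ => ?_)
  · exact (map_ne_zero_iff _ (algebraMap F (GF F (Fin 2 × Fin 2))).injective).2 D.ene
  · rw [E6_wd]
    have h2 := E6_lin (D.pne l)
    simpa using h2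

private theorem E6_dvd {k F : Type} [Field k] [Field F] {n d s : ℕ}
    {I : Ideal (MvPolynomial (Fin (n + 1) × Fin (d + 1 + 1)) k)} {φ : k →+* F} (D : Dat I φ)
    (H : MvPolynomial (Fin (n + 1)) k) (hH : H.IsHomogeneous s)
    (hv : ∀ l, MvPolynomial.eval₂ φ (D.pt (D.p l)) H = 0) :
    E6_pf (fun j => gt D.c (0, j)) ∣
      E6_hp ((algebraMap F (GF F (Fin 2 × Fin 2))).comp φ) H (fun i j => gt D.c (i, j)) ^ (d + 1) := by
  have hinf : Infinite (GF F (Fin 2 × Fin 2)) := by
    have hinj : Function.Injective (algebraMap (MvPolynomial (Fin 2 × Fin 2) F)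
      (GF F (Fin 2 × Fin 2))) := IsFractionRing.injective _ _
    exact Infinite.of_injective _ hinj
  have hev : ∀ (i : Fin (n + 1)) (t : GF F (Fin 2 × Fin 2)), ev (fun j => gt D.c (i, j)) ![1, t] =
      ev (fun j => algebraMap F (GF F (Fin 2 × Fin 2)) (D.c i j)) ((gmat F).mulVec ![1, t]) := by
    intro i t
    rw [← ev_act]
    rfl
  obtain ⟨u, hu⟩ : ∃ u : Fin (d + 1) → GF F (Fin 2 × Fin 2), ∀ l, u l =
      algebraMap F (GF F (Fin 2 × Fin 2)) (D.p l 0) * gc F (Fin 2 × Fin 2) (1, 1) -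
        algebraMap F (GF F (Fin 2 × Fin 2)) (D.p l 1) * gc F (Fin 2 × Fin 2) (0, 1) :=
    ⟨_, fun _ => rfl⟩
  obtain ⟨v, hvv⟩ : ∃ v : Fin (d + 1) → GF F (Fin 2 × Fin 2), ∀ l, v l =
      algebraMap F (GF F (Fin 2 × Fin 2)) (D.p l 1) * gc F (Fin 2 × Fin 2) (0, 0) -
        algebraMap F (GF F (Fin 2 × Fin 2)) (D.p l 0) * gc F (Fin 2 × Fin 2) (1, 0) :=
    ⟨_, fun _ => rfl⟩
  have hune : ∀ l, u l ≠ 0 := by
    intro l
    rw [hu]
    exact E6_lin (D.pne l)
  have hwd : ∀ l t, wd (fun a => algebraMap F (GF F (Fin 2 × Fin 2)) (D.p l a))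
      ((gmat F).mulVec ![1, t]) = u l * t - v l := by
    intro l t
    rw [E6_wd, ← hu, ← hvv]
    simp
  have hfac : E6_pf (fun j => gt D.c (0, j)) = Polynomial.C (algebraMap F (GF F (Fin 2 × Fin 2)) D.e) *
      ∏ l, (Polynomial.C (u l) * (Polynomial.X - Polynomial.C (v l / u l))) := by
    refine Polynomial.funext fun t => ?_
    rw [E6_pf_eval, hev, D.fac (GF F (Fin 2 × Fin 2)) (algebraMap F (GF F (Fin 2 × Fin 2))),
      Polynomial.eval_mul, Polynomial.eval_C, Polynomial.eval_prod]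
    congr 1
    refine Finset.prod_congr rfl fun l _ => ?_
    rw [hwd, Polynomial.eval_mul, Polynomial.eval_C, Polynomial.eval_sub, Polynomial.eval_X,
      Polynomial.eval_C, mul_sub, mul_div_cancel₀ _ (hune l)]
  have hroot : ∀ l, Polynomial.X - Polynomial.C (v l / u l) ∣
      E6_hp ((algebraMap F (GF F (Fin 2 × Fin 2))).comp φ) H (fun i j => gt D.c (i, j)) := by
    intro l
    rw [Polynomial.dvd_iff_isRoot, Polynomial.IsRoot, E6_hp_eval]
    have h0 : wd (fun a => algebraMap F (GF F (Fin 2 × Fin 2)) (D.p l a))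
        ((gmat F).mulVec ![1, v l / u l]) = 0 := by
      rw [hwd, mul_div_cancel₀ _ (hune l), sub_self]
    have hp0 : (fun a => algebraMap F (GF F (Fin 2 × Fin 2)) (D.p l a)) ≠ 0 := by
      intro h
      apply D.pne l
      funext a
      have h2 := congrFun h a
      exact (map_eq_zero_iff _ (algebraMap F (GF F (Fin 2 × Fin 2))).injective).1 h2
    obtain ⟨b, hb⟩ := (wd_eq_zero_iff hp0 _).1 h0
    have hb' : (gmat F).mulVec ![1, v l / u l] =
        fun a => b * algebraMap F (GF F (Fin 2 × Fin 2)) (D.p l a) := funext hb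
    have h1 : (fun i => ev (fun j => gt D.c (i, j)) ![1, v l / u l]) =
        fun i => b ^ (d + 1) * algebraMap F (GF F (Fin 2 × Fin 2)) (D.pt (D.p l) i) := by
      funext i
      rw [hev, hb', ev_scale]
      congr 1
      exact (ev_map (algebraMap F (GF F (Fin 2 × Fin 2))) (D.c i) (D.p l)).symm
    rw [h1, E6_hom _ hH]
    have h2 := MvPolynomial.hom_eval₂ H φ (algebraMap F (GF F (Fin 2 × Fin 2))) (D.pt (D.p l))
    rw [hv l, map_zero] at h2
    have h3 : MvPolynomial.eval₂ ((algebraMap F (GF F (Fin 2 × Fin 2))).comp φ)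
        (fun i => algebraMap F (GF F (Fin 2 × Fin 2)) (D.pt (D.p l) i)) H = 0 := h2.symm
    rw [h3, mul_zero]
  rw [hfac]
  have he : IsUnit (Polynomial.C (algebraMap F (GF F (Fin 2 × Fin 2)) D.e)) :=
    Polynomial.isUnit_C.2 (isUnit_iff_ne_zero.2
      ((map_ne_zero_iff _ (algebraMap F (GF F (Fin 2 × Fin 2))).injective).2 D.ene))
  rw [he.mul_left_dvd]
  have h5 : ∏ l : Fin (d + 1), (Polynomial.C (u l) * (Polynomial.X - Polynomial.C (v l / u l))) ∣
      ∏ _l : Fin (d + 1), E6_hp ((algebraMap F (GF F (Fin 2 × Fin 2))).comp φ) H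
        (fun i j => gt D.c (i, j)) := by
    refine Finset.prod_dvd_prod_of_dvd _ _ fun l _ => ?_
    have h6 : IsUnit (Polynomial.C (u l)) := Polynomial.isUnit_C.2 (isUnit_iff_ne_zero.2 (hune l))
    rw [h6.mul_left_dvd]
    exact hroot l
  rw [Finset.prod_const, Finset.card_univ, Fintype.card_fin] at h5
  exact h5

/-- The case of a nonzero leading coefficient. -/
private theorem E6_lead {k F : Type} [Field k] [Field F] {n d s : ℕ}
    {I : Ideal (MvPolynomial (Fin (n + 1) × Fin (d + 1 + 1)) k)} {φ : k →+* F}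
    (D : Dat I φ) (hG : Gen I φ D.c) (H : MvPolynomial (Fin (n + 1)) k) (hH : H.IsHomogeneous s)
    (hv : ∀ l, MvPolynomial.eval₂ φ (D.pt (D.p l)) H = 0)
    (c' : Fin (n + 1) → Fin (d + 1 + 1) → k) (hc' : Mem (RingHom.id k) I c')
    (h0 : c' 0 (Fin.last _) ≠ 0)
    (x : Fin 2 → k) (hx : x ≠ 0) (hx0 : ev (c' 0) x = 0) :
    MvPolynomial.eval (fun i => ev (c' i) x) H = 0 := by
  -- `x 0 ≠ 0`
  have hx1 : x 0 ≠ 0 := by
    intro h
    have h1 : x = fun a => x 1 * (![0, 1] : Fin 2 → k) a := by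
      funext a
      fin_cases a
      · simp [h]
      · simp
    have h2 : x 1 ≠ 0 := by
      intro h3
      apply hx
      funext a
      fin_cases a
      · exact h
      · exact h3
    rw [h1, ev_scale, E6_ev_last] at hx0
    exact mul_ne_zero (pow_ne_zero _ h2) h0 hx0
  obtain ⟨t, ht⟩ : ∃ t : k, t = x 1 / x 0 := ⟨_, rfl⟩
  have hxt : x = fun a => x 0 * (![1, t] : Fin 2 → k) a := by
    funext a
    fin_cases a
    · simp
    · simp [ht, mul_div_cancel₀ _ hx1]
  have hft : ev (c' 0) ![1, t] = 0 := by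
    rw [hxt, ev_scale] at hx0
    exact (mul_eq_zero.1 hx0).resolve_left (pow_ne_zero _ hx1)
  -- pseudo-division over the universal ring
  obtain ⟨cu, hcu⟩ : ∃ cu : Fin (n + 1) → Fin (d + 1 + 1) →
      MvPolynomial (Fin (n + 1) × Fin (d + 1 + 1)) k, ∀ i j, cu i j = MvPolynomial.X (i, j) :=
    ⟨_, fun _ _ => rfl⟩
  obtain ⟨N, q, r, hqr, hr⟩ := E6_pdiv (D := d + 1) (by omega) (E6_pf (cu 0)) (E6_pf_deg _) _
    (E6_hp MvPolynomial.C H cu ^ (d + 1)) le_rfl
  rw [E6_pf_coeff] at hqr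
  -- the remainder vanishes at the generic member
  obtain ⟨ψ, hψ⟩ : ∃ ψ : MvPolynomial (Fin (n + 1) × Fin (d + 1 + 1)) k →+*
      GF F (Fin 2 × Fin 2), ψ = MvPolynomial.eval₂Hom
        ((algebraMap F (GF F (Fin 2 × Fin 2))).comp φ) (gt D.c) := ⟨_, rfl⟩
  have hψX : ∀ i j, ψ (cu i j) = gt D.c (i, j) := by
    intro i j
    rw [hψ, hcu, MvPolynomial.coe_eval₂Hom, MvPolynomial.eval₂_X]
  have hψC : ψ.comp MvPolynomial.C = (algebraMap F (GF F (Fin 2 × Fin 2))).comp φ := by
    rw [hψ]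
    exact RingHom.ext fun a => MvPolynomial.eval₂_C _ _ a
  have hm := congrArg (Polynomial.map ψ) hqr
  rw [Polynomial.map_mul, Polynomial.map_add, Polynomial.map_mul, Polynomial.map_C,
    Polynomial.map_pow, E6_pf_map, E6_hp_map, hψC] at hm
  have e1 : (fun j => ψ (cu 0 j)) = fun j => gt D.c (0, j) := funext fun j => hψX 0 j
  have e2 : (fun i j => ψ (cu i j)) = fun i j => gt D.c (i, j) :=
    funext fun i => funext fun j => hψX i j
  rw [e1, e2] at hm
  have hdv := E6_dvd D H hH hv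
  have hrdvd : E6_pf (fun j => gt D.c (0, j)) ∣ r.map ψ := by
    have h1 : r.map ψ = Polynomial.C (ψ (cu 0 (Fin.last (d + 1)) ^ N)) *
        E6_hp ((algebraMap F (GF F (Fin 2 × Fin 2))).comp φ) H (fun i j => gt D.c (i, j)) ^ (d + 1) -
        q.map ψ * E6_pf (fun j => gt D.c (0, j)) := by
      rw [hm]
      ring
    rw [h1]
    exact dvd_sub (Dvd.dvd.mul_left hdv _) (Dvd.intro_left _ rfl)
  have hdeg : (E6_pf (fun j => gt D.c (0, j))).natDegree = d + 1 := by
    refine le_antisymm (E6_pf_deg _) (Polynomial.le_natDegree_of_ne_zero ?_)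
    rw [E6_pf_coeff]
    exact E6_top D
  have hrz : r.map ψ = 0 := by
    refine Polynomial.eq_zero_of_dvd_of_natDegree_lt hrdvd ?_
    rw [hdeg]
    exact lt_of_le_of_lt Polynomial.natDegree_map_le hr
  have hrI : ∀ m, r.coeff m ∈ I := by
    intro m
    refine hG _ ?_
    have h1 := congrArg (fun p => Polynomial.coeff p m) hrz
    simp only [Polynomial.coeff_map, Polynomial.coeff_zero] at h1
    rw [hψ] at h1
    exact h1
  -- evaluation at `c'`
  obtain ⟨χ, hχ⟩ : ∃ χ : MvPolynomial (Fin (n + 1) × Fin (d + 1 + 1)) k →+* k,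
      χ = MvPolynomial.eval₂Hom (RingHom.id k) (fun q => c' q.1 q.2) := ⟨_, rfl⟩
  have hχX : ∀ i j, χ (cu i j) = c' i j := by
    intro i j
    rw [hχ, hcu, MvPolynomial.coe_eval₂Hom, MvPolynomial.eval₂_X]
  have hχC : χ.comp MvPolynomial.C = RingHom.id k := by
    rw [hχ]
    exact RingHom.ext fun a => MvPolynomial.eval₂_C _ _ a
  have hm' := congrArg (Polynomial.map χ) hqr
  rw [Polynomial.map_mul, Polynomial.map_add, Polynomial.map_mul, Polynomial.map_C,
    Polynomial.map_pow, E6_pf_map, E6_hp_map, hχC] at hm'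
  have e3 : (fun j => χ (cu 0 j)) = fun j => c' 0 j := funext fun j => hχX 0 j
  have e4 : (fun i j => χ (cu i j)) = c' := funext fun i => funext fun j => hχX i j
  rw [e3, e4] at hm'
  have hrz' : r.map χ = 0 := by
    refine Polynomial.ext fun m => ?_
    rw [Polynomial.coeff_map, Polynomial.coeff_zero, hχ]
    exact hc' _ (hrI m)
  rw [hrz', add_zero] at hm'
  have hev := congrArg (Polynomial.eval t) hm'
  rw [Polynomial.eval_mul, Polynomial.eval_mul, Polynomial.eval_C, Polynomial.eval_pow,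
    E6_pf_eval, E6_hp_eval, hft, mul_zero, map_pow, hχX] at hev
  have hz : MvPolynomial.eval₂ (RingHom.id k) (fun i => ev (c' i) ![1, t]) H = 0 := by
    rcases mul_eq_zero.1 hev with h | h
    · exact absurd h (pow_ne_zero _ h0)
    · exact pow_eq_zero_iff (Nat.succ_ne_zero d) |>.1 h
  have hfin : (fun i => ev (c' i) x) = fun i => x 0 ^ (d + 1) * ev (c' i) ![1, t] := by
    funext i
    conv_lhs => rw [hxt]
    rw [ev_scale]
  rw [hfin]
  have h9 := E6_hom (RingHom.id k) hH (x 0 ^ (d + 1)) (fun i => ev (c' i) ![1, t])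
  rw [hz, mul_zero] at h9
  exact h9

theorem van {k F : Type} [Field k] [IsAlgClosed k] [Field F] {n d s : ℕ}
    {I : Ideal (MvPolynomial (Fin (n + 1) × Fin (d + 1 + 1)) k)} {φ : k →+* F}
    (hact : ∀ (L : Type) [Field L] (φ : k →+* L) (c : Fin (n + 1) → Fin (d + 1 + 1) → L)
      (g : Matrix (Fin 2) (Fin 2) L), Mem φ I c → Mem φ I (fun i => act g (c i)))
    (D : Dat I φ) (hG : Gen I φ D.c) (H : MvPolynomial (Fin (n + 1)) k) (hH : H.IsHomogeneous s)
    (hv : ∀ l, MvPolynomial.eval₂ φ (D.pt (D.p l)) H = 0)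
    (c' : Fin (n + 1) → Fin (d + 1 + 1) → k) (hc' : Mem (RingHom.id k) I c') (h0 : c' 0 ≠ 0)
    (x : Fin 2 → k) (hx : x ≠ 0) (hx0 : ev (c' 0) x = 0) :
    MvPolynomial.eval (fun i => ev (c' i) x) H = 0 := by
  have hinf : Infinite k := IsAlgClosed.instInfinite
  -- a vector at which `c' 0` does not vanish
  obtain ⟨y, hy⟩ : ∃ y : Fin 2 → k, ev (c' 0) y ≠ 0 := by
    by_contra hcon
    push Not at hcon
    apply h0
    refine ev_ext fun y => ?_
    rw [hcon y]
    unfold ev
    simp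
  have hyne : y ≠ 0 := by
    intro h
    apply hy
    rw [h]
    unfold ev
    refine Finset.sum_eq_zero fun j _ => ?_
    rcases Nat.eq_zero_or_pos (j : ℕ) with h1 | h1
    · rw [h1]
      simp
    · rw [Pi.zero_apply, Pi.zero_apply, zero_pow (Nat.pos_iff_ne_zero.1 h1), mul_zero]
  obtain ⟨g, hg, hgy⟩ : ∃ g : Matrix (Fin 2) (Fin 2) k, g.det ≠ 0 ∧ g.mulVec ![0, 1] = y := by
    by_cases h1 : y 1 = 0
    · have h2 : y 0 ≠ 0 := by
        intro h3
        apply hyne
        funext a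
        fin_cases a
        · exact h3
        · exact h1
      refine ⟨!![0, y 0; 1, y 1], ?_, ?_⟩
      · rw [Matrix.det_fin_two_of]
        simpa using h2
      · funext a
        fin_cases a
        · simp [Matrix.mulVec, dotProduct, Fin.sum_univ_two]
        · simp [Matrix.mulVec, dotProduct, Fin.sum_univ_two]
    · refine ⟨!![1, y 0; 0, y 1], ?_, ?_⟩
      · rw [Matrix.det_fin_two_of]
        simpa using h1
      · funext a
        fin_cases a
        · simp [Matrix.mulVec, dotProduct, Fin.sum_univ_two]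
        · simp [Matrix.mulVec, dotProduct, Fin.sum_univ_two]
  have hgx : g.mulVec (g⁻¹.mulVec x) = x := by
    rw [Matrix.mulVec_mulVec, Matrix.mul_nonsing_inv g (isUnit_iff_ne_zero.2 hg),
      Matrix.one_mulVec]
  have hxx : g⁻¹.mulVec x ≠ 0 := by
    intro h
    apply hx
    rw [← hgx, h, Matrix.mulVec_zero]
  have hev : ∀ i, ev (act g (c' i)) (g⁻¹.mulVec x) = ev (c' i) x := by
    intro i
    rw [ev_act, hgx]
  have key := E6_lead D hG H hH hv (fun i => act g (c' i)) (hact k (RingHom.id k) c' g hc')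
    (by
      have h1 : act g (c' 0) (Fin.last _) = ev (act g (c' 0)) ![0, 1] := (E6_ev_last _).symm
      show act g (c' 0) (Fin.last _) ≠ 0
      rw [h1, ev_act, hgy]
      exact hy)
    (g⁻¹.mulVec x) hxx (by rw [hev, hx0])
  rw [← key]
  exact congrArg (fun v => MvPolynomial.eval v H) (funext fun i => (hev i).symm)

end Pool.Agent.Lib.MP_1e3e9c_agW
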