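import Mathlib
import Pool.Agent.Lib.MP_1e3e9c_agU.G8
import Pool.Agent.Lib.MP_1e3e9c_agW.E0
import Pool.Agent.Lib.MP_1e3e9c_agW.E1
import Pool.Agent.Lib.MP_1e3e9c_agW.E2
import Pool.Agent.Lib.MP_1e3e9c_agW.E4
import Pool.Agent.Lib.MP_1e3e9c_agW.E6
import Pool.Agent.Lib.MP_1e3e9c_agW.E7a
import Pool.Agent.Lib.MP_1e3e9c_agW.E7b
import Pool.Agent.Lib.MP_1e3e9c_agW.E7c
import Pool.Agent.Lib.MP_1e3e9c_agW.E8
import Pool.Agent.Lib.MP_1e3e9c_agW.H5

/-!
# MP_1e3e9c_ag, project W, E9: the theorem for `G = x_0`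
-/

set_option autoImplicit false

namespace Pool.Agent.Lib.MP_1e3e9c_agW

open Pool.Agent.Lib.MP_1e3e9c_agU

private theorem E9_const {k A : Type} [Field k] [IsAlgClosed k] [Field A] (ψ : k →+* A)
    {K : Subfield A} (hK : K ≤ ψ.fieldRange) {z : A} (h : IsAlgebraic K z) :
    ∃ y : k, ψ y = z := by
  let := ψ.toAlgebra
  have h5 : IsAlgebraic k z := by
    obtain ⟨p, hp, hpz⟩ := h
    have h1 : ∀ x : K, ∃ y : k, ψ y = x := fun x => hK x.2
    choose θ hθ using h1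
    have hθi : ∀ x y, θ x = θ y → x = y := fun x y hxy => Subtype.ext (by rw [← hθ x, ← hθ y, hxy])
    let Θ : K →+* k :=
      { toFun := θ
        map_one' := ψ.injective (by rw [hθ, map_one]; rfl)
        map_mul' := fun x y => ψ.injective (by rw [hθ, map_mul, hθ, hθ]; rfl)
        map_zero' := ψ.injective (by rw [hθ, map_zero]; rfl)
        map_add' := fun x y => ψ.injective (by rw [hθ, map_add, hθ, hθ]; rfl) }
    refine ⟨p.map Θ, (Polynomial.map_ne_zero_iff Θ.injective).2 hp, ?_⟩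
    rw [Polynomial.aeval_def, Polynomial.eval₂_map]
    have h2 : (algebraMap k A).comp Θ = algebraMap K A := by
      ext x
      exact hθ x
    rw [h2]
    exact hpz
  have h6 : IsIntegral k z := h5.isIntegral
  exact minpoly.mem_range_of_degree_eq_one k z
    (IsAlgClosed.degree_eq_one_of_irreducible k (minpoly.irreducible h6))

private theorem E9_pr_div {F ι : Type} [Field F] {z z' : ι → F} (h : Pr z z') (i j : ι) :
    z' i / z' j = z i / z j := by
  obtain ⟨a, ha, hz'⟩ := h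
  rw [hz', hz', mul_div_mul_left _ _ ha]

private theorem E9_pr_ne {F ι : Type} [Field F] {z z' : ι → F} (h : Pr z z') {j : ι}
    (hj : z j ≠ 0) : z' j ≠ 0 := by
  obtain ⟨a, ha, hz'⟩ := h
  rw [hz']
  exact mul_ne_zero ha hj

/-- Exchange the two zeros. -/
private theorem E9_swap {k F : Type} [Field k] [Field F] {n d : ℕ}
    {S : Set (MvPolynomial (Fin (n + 1)) k)} {φ : k →+* F} (T : Two S φ d) :
    ∃ T' : Two S φ d, T'.c = T.c ∧ T'.p 0 = T.p 1 := by
  refine ⟨{ c := T.c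
            p := ![T.p 1, T.p 0]
            mu := ![T.mu 1, T.mu 0]
            e := T.e
            eqs := T.eqs
            bpf := T.bpf
            ene := T.ene
            wne := ?_
            mupos := ?_
            musum := ?_
            fac := ?_ }, rfl, rfl⟩
  · intro h
    apply T.wne
    unfold wd at h ⊢
    simp only [Matrix.cons_val_zero, Matrix.cons_val_one] at h
    linear_combination -h
  · intro a
    fin_cases a
    · exact T.mupos 1
    · exact T.mupos 0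
  · have := T.musum
    simp only [Matrix.cons_val_zero, Matrix.cons_val_one]
    omega
  · intro M _ ψ x
    rw [T.fac M ψ x]
    simp only [Matrix.cons_val_zero, Matrix.cons_val_one]
    ring

theorem two_main {k : Type} [Field k] [CharZero k] [IsAlgClosed k] {n d : ℕ}
    {S : Set (MvPolynomial (Fin (n + 1)) k)} (hS : NR S)
    (I : Ideal (MvPolynomial (Fin (n + 1) × Fin (d + 1 + 1)) k)) (hp : I.IsPrime) (hH : Hyw S I)
    (hbpf : ∃ c : Fin (n + 1) → Fin (d + 1 + 1) → k, Mem (RingHom.id k) I c ∧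
      ∀ x : Fin 2 → k, x ≠ 0 → ∃ i, ev (c i) x ≠ 0)
    (J : Ideal (MvPolynomial (Fin (n + 1)) k))
    (hJ : ∀ (s : ℕ) (H : MvPolynomial (Fin (n + 1)) k), H.IsHomogeneous s →
      (∀ c' : Fin (n + 1) → Fin (d + 1 + 1) → k, Mem (RingHom.id k) I c' → c' 0 ≠ 0 →
        ∀ x : Fin 2 → k, x ≠ 0 → ev (c' 0) x = 0 →
          MvPolynomial.eval (fun i => ev (c' i) x) H = 0) → H ∈ J)
    (h4 : ((3 + 1 : ℕ) : WithBot ℕ∞) ≤ ringKrullDim (MvPolynomial (Fin (n + 1)) k ⧸ J)) :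
    ∃ y : Fin (n + 1) → k, y 0 ≠ 0 ∧ ∀ c : Fin (n + 1) → Fin (d + 1 + 1) → k,
      Mem (RingHom.id k) I c → ∃ x : Fin 2 → k, x ≠ 0 ∧ ∃ b : k, ∀ i, ev (c i) x = b * y i := by
  have hI : Faw S I := faw_of hH
  obtain ⟨c₀, hm₀, hb₀⟩ := hbpf
  obtain ⟨L, fL, _, φL, c, g, hm, hb, hN, hg⟩ :=
    exists_norm_w hI hp c₀ hm₀ (bpf_of_algClosed hb₀)
  obtain ⟨F, fF, cF, φ, D, m, hF, hN', hG, hA⟩ := exists_dat_w hI φL c g hm hb hN hg
  have hfew : D.few 2 := few_of_w hI D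
  have hEq : Eqs S φ D.c := hI.eqs F φ D.c D.mem
  have hv : ∀ (s : ℕ) (H : MvPolynomial (Fin (n + 1)) k), H.IsHomogeneous s →
      (∀ l, MvPolynomial.eval₂ φ (D.pt (D.p l)) H = 0) → H ∈ J := by
    intro s H hHs hl
    exact hJ s H hHs fun c' hc' h0 x hx hx0 => van hI.act D hG H hHs hl c' hc' h0 x hx hx0
  obtain ⟨l, hl⟩ := exists_Pz φ (fun l => D.pt (D.p l)) J h4 hv
  have hm3 : 3 ≤ m := le_of_dim φ hF _ hl
  obtain ⟨m', rfl⟩ : ∃ m', m = m' + 3 := ⟨m - 3, by omega⟩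
  obtain ⟨i₀, i, hi₀, hind⟩ := indep_of_dim φ _ hl
  obtain ⟨d', T, N, g', hg', hcomp, hpr⟩ := exists_two D hEq hfew
  obtain ⟨a, ha⟩ := hpr l
  obtain ⟨T', hT'c, hT'p⟩ : ∃ T' : Two S φ d', T'.c = T.c ∧ T'.pt (T'.p 0) = T.pt (T.p a) := by
    fin_cases a
    · exact ⟨T, rfl, rfl⟩
    · obtain ⟨T', h1, h2⟩ := E9_swap T
      refine ⟨T', h1, ?_⟩
      unfold Two.pt
      rw [h1, h2]
      rfl
  have hi₀' : T'.pt (T'.p 0) i₀ ≠ 0 := by
    rw [hT'p]
    exact E9_pr_ne ha hi₀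
  have hind' : AlgebraicIndependent φ.fieldRange
      (fun j => T'.pt (T'.p 0) (i j) / T'.pt (T'.p 0) i₀) := by
    rw [hT'p]
    have h1 : (fun j => T.pt (T.p a) (i j) / T.pt (T.p a) i₀) =
        fun j => D.pt (D.p l) (i j) / D.pt (D.p l) i₀ := funext fun j => E9_pr_div ha _ _
    rw [h1]
    exact hind
  obtain ⟨A, fA, aA, q, hq, hq0, hcon⟩ := Two.core2 hS T' (K := φ.fieldRange)
    (fun a => ⟨a, rfl⟩) m' hF i₀ i hi₀' hind'
  -- the point
  have hKle : upK A φ.fieldRange ≤ ((algebraMap F A).comp φ).fieldRange := by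
    rintro _ ⟨_, ⟨t, rfl⟩, rfl⟩
    exact ⟨t, rfl⟩
  have hy : ∀ i, ∃ t : k, algebraMap F A (φ t) =
      ev (fun j => algebraMap F A (T'.c i j)) q / ev (fun j => algebraMap F A (T'.c 0 j)) q := by
    intro i
    exact E9_const ((algebraMap F A).comp φ) hKle (hcon i 0 hq0)
  choose y hy using hy
  have hy0 : y 0 ≠ 0 := by
    intro h0
    have h1 := hy 0
    rw [h0, map_zero, map_zero, div_self hq0] at h1
    exact zero_ne_one h1
  have hw : ∀ i, ev (fun j => algebraMap F A (T'.c i j)) q =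
      ev (fun j => algebraMap F A (T'.c 0 j)) q * algebraMap F A (φ (y i)) := by
    intro i
    rw [hy i, mul_div_cancel₀ _ hq0]
  obtain ⟨i, hi⟩ := hg' A (algebraMap F A) q hq
  refine ⟨y, hy0, fun c' hc' => all_through φ D.c hG A
    (fun a => ev (fun j => algebraMap F A (g' a j)) q) ?_ y ?_
    (ev (fun j => algebraMap F A (T'.c 0 j)) q) ?_ c' hc'⟩
  · intro h0
    exact hi (congrFun h0 i)
  · intro h0
    exact hy0 (congrFun h0 0)
  · intro i
    have h1 := hcomp A (algebraMap F A) q i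
    unfold ptA
    rw [← h1, ← hT'c]
    exact hw i

end Pool.Agent.Lib.MP_1e3e9c_agW
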