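import Mathlib
import Pool.Agent.Lib.MP_1e3e9c_agU.FmC
import Pool.Agent.Lib.MP_1e3e9c_agU.DefsV
import Pool.Agent.Lib.MP_1e3e9c_agW.DefsE

/-!
# MP_1e3e9c_ag, project W, leaf N2: no rational curves, so every tuple in the zero set is constant

Induction on `N`. If `r = 0` or `N = 0` the minors vanish. If `r` has no common zero in `k^2 \ {0}` then `N = 0` by
`hX`. Otherwise let `p ≠ 0` be a common zero of all `ev (r i)`. Then `ev (r i) x = wd p x * ev (r' i) x` for all `x`
with a tuple `r'` of degree `N - 1` (a form which vanishes at `p` is divisible by `wd p x`: change of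
coordinates with `act`, `g p = (1,0)` or `(0,1)`, so a coefficient is `0`; or polynomial division). `r'` satisfies the
equations: `P` homogeneous of degree `m`: `0 = P(r(x)) = wd(p,x)^m P(r'(x))`, so `P(r'(x)) = 0` where `wd p x ≠ 0`, and
so everywhere (`P(r'(x))` is a polynomial in `x`, `k` is infinite; e.g. `comp_form` and `ev_ext`,
`wd(p,x) P(r'(x)) = 0` for all `x`). The same for `G`. So by induction the minors of `r'` vanish: and
the coefficients of `r` are `r i j = p 0 * r' i (j-1) - p 1 * r' i j` (with `0` outside), so `r i j r i' j'` is a sum of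
four products; by the vanishing of the minors of `r'` the minors of `r` vanish. (Or: `r' = h v` with a form `h`
and a vector `v`, so `r = (wd p h) v`.)
-/

set_option autoImplicit false

namespace Pool.Agent.Lib.MP_1e3e9c_agW

open Pool.Agent.Lib.MP_1e3e9c_agU

/-- The binary form as a polynomial in two variables. -/
private noncomputable def N2_pl {L : Type} [Field L] {D : ℕ} (c : Fin (D + 1) → L) : MvPolynomial (Fin 2) L :=
  ∑ j : Fin (D + 1), MvPolynomial.C (c j) * MvPolynomial.X 0 ^ (D - (j : ℕ)) *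
    MvPolynomial.X 1 ^ (j : ℕ)

private theorem N2_eval {L : Type} [Field L] {D : ℕ} (c : Fin (D + 1) → L) (x : Fin 2 → L) :
    MvPolynomial.eval x (N2_pl c) = ev c x := by
  unfold N2_pl ev
  rw [map_sum]
  refine Finset.sum_congr rfl fun j _ => ?_
  rw [map_mul, map_mul, map_pow, map_pow, MvPolynomial.eval_C, MvPolynomial.eval_X, MvPolynomial.eval_X]

/-- The value of the homogenisation. -/
private theorem N2_ev {L : Type} [Field L] {D : ℕ} {f : Polynomial L} (hf : f.natDegree ≤ D) {x : Fin 2 → L}
    (hx : x 0 ≠ 0) : ev (fun j : Fin (D + 1) => f.coeff (j : ℕ)) x = x 0 ^ D * f.eval (x 1 / x 0) := by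
  rw [Polynomial.eval_eq_sum_range' (Nat.lt_succ_of_le hf), Finset.mul_sum, ← Fin.sum_univ_eq_sum_range
    (fun i => x 0 ^ D * (f.coeff i * (x 1 / x 0) ^ i)) (D + 1)]
  unfold ev
  refine Finset.sum_congr rfl fun j _ => ?_
  have hj : (j : ℕ) ≤ D := Nat.lt_succ_iff.1 j.2
  have h1 : x 0 ^ D = x 0 ^ (D - (j : ℕ)) * x 0 ^ (j : ℕ) := by
    rw [← pow_add, Nat.sub_add_cancel hj]
  rw [h1, div_pow]
  have h2 : x 0 ^ (j : ℕ) ≠ 0 := pow_ne_zero _ hx
  field_simp

/-- The value of a form at a multiple of a vector. -/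
private theorem N2_hom {L : Type} [Field L] {n m : ℕ} {P : MvPolynomial (Fin n) L} (hP : P.IsHomogeneous m)
    (a : L) (v : Fin n → L) : MvPolynomial.eval (a • v) P = a ^ m * MvPolynomial.eval v P := by
  rw [MvPolynomial.eval_eq', MvPolynomial.eval_eq', Finset.mul_sum]
  refine Finset.sum_congr rfl fun d hd => ?_
  have h1 : d.degree = m := by
    rw [Finsupp.degree_eq_weight_one]
    exact hP (MvPolynomial.mem_support_iff.1 hd)
  have h2 : ∏ i, (a • v) i ^ d i = a ^ m * ∏ i, v i ^ d i := by
    rw [← h1, Finsupp.degree_eq_sum, ← Finset.prod_pow_eq_pow_sum, ← Finset.prod_mul_distrib]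
    exact Finset.prod_congr rfl fun i _ => by rw [Pi.smul_apply, smul_eq_mul, mul_pow]
  rw [h2]
  ring

/-- The equations pass to a tuple divided by a common factor. -/
private theorem N2_eqs {k : Type} [Field k] [Infinite k] {n N d m : ℕ} {P : MvPolynomial (Fin (n + 1)) k}
    (hP : P.IsHomogeneous m) (r : Fin (n + 1) → Fin (N + 1) → k)
    (h1 : ∀ x : Fin 2 → k, MvPolynomial.eval (fun i => ev (r i) x) P = 0)
    {g : Polynomial k} (hg : g ≠ 0) {h : Fin (n + 1) → Polynomial k}
    (hf : ∀ (i : Fin (n + 1)) (j : Fin (N + 1)), r i j = (g * h i).coeff (j : ℕ))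
    (hN : ∀ i, (g * h i).natDegree ≤ N)
    (hd : ∀ i, (h i).natDegree ≤ d) (x : Fin 2 → k) :
    MvPolynomial.eval (fun i => ev (fun j : Fin (d + 1) => (h i).coeff (j : ℕ)) x) P = 0 := by
  have hr : ∀ i, r i = fun j : Fin (N + 1) => (g * h i).coeff (j : ℕ) := fun i => funext fun j => hf i j
  have hH : ∀ y : Fin 2 → k, MvPolynomial.eval y (MvPolynomial.bind₁
      (fun i => N2_pl (fun j : Fin (d + 1) => (h i).coeff (j : ℕ))) P) =
      MvPolynomial.eval (fun i => ev (fun j : Fin (d + 1) => (h i).coeff (j : ℕ)) y) P := by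
    intro y
    rw [MvPolynomial.eval, MvPolynomial.eval₂Hom_bind₁]
    rw [← MvPolynomial.eval]
    congr 2
    funext i
    exact N2_eval _ y
  have hG : N2_pl (fun j : Fin (g.natDegree + 1) => g.coeff (j : ℕ)) ≠ 0 := by
    intro h0
    apply hg
    have h2 : ∀ t : k, g.eval t = 0 := by
      intro t
      have h3 := N2_ev (f := g) (D := g.natDegree) le_rfl (x := ![1, t]) (by simp)
      rw [← N2_eval, h0, map_zero] at h3
      have h4 : (![1, t] : Fin 2 → k) 0 = 1 := rfl
      have h5 : (![1, t] : Fin 2 → k) 1 = t := rfl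
      rw [h4, h5, one_pow, one_mul, div_one] at h3
      exact h3.symm
    exact Polynomial.funext fun t => by rw [h2 t, Polynomial.eval_zero]
  have hz : MvPolynomial.X 0 * N2_pl (fun j : Fin (g.natDegree + 1) => g.coeff (j : ℕ)) *
      (MvPolynomial.bind₁ (fun i => N2_pl (fun j : Fin (d + 1) => (h i).coeff (j : ℕ))) P) = 0 := by
    refine MvPolynomial.funext fun y => ?_
    rw [map_mul, map_mul, hH, N2_eval, MvPolynomial.eval_X, map_zero]
    by_cases h0 : y 0 = 0
    · rw [h0, zero_mul, zero_mul]
    · rw [N2_ev le_rfl h0]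
      by_cases h2 : g.eval (y 1 / y 0) = 0
      · rw [h2, mul_zero, mul_zero, zero_mul]
      · have h3 := h1 y
        have h4 : (fun i => ev (r i) y) = (y 0 ^ N * g.eval (y 1 / y 0) / y 0 ^ d) •
            (fun i => ev (fun j : Fin (d + 1) => (h i).coeff (j : ℕ)) y) := by
          funext i
          rw [Pi.smul_apply, hr i, N2_ev (hN i) h0, N2_ev (hd i) h0, Polynomial.eval_mul, smul_eq_mul]
          have h5 : y 0 ^ d ≠ 0 := pow_ne_zero _ h0
          field_simp
        rw [h4, N2_hom hP] at h3
        rcases mul_eq_zero.1 h3 with h5 | h5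
        · exfalso
          refine pow_ne_zero m ?_ h5
          exact div_ne_zero (mul_ne_zero (pow_ne_zero _ h0) h2) (pow_ne_zero _ h0)
        · rw [h5, mul_zero]
  rcases mul_eq_zero.1 hz with h2 | h2
  · rcases mul_eq_zero.1 h2 with h3 | h3
    · exact absurd h3 (MvPolynomial.X_ne_zero 0)
    · exact absurd h3 hG
  · rw [← hH, h2, map_zero]

theorem minors_of_norat {k : Type} [Field k] [IsAlgClosed k] {n e : ℕ}
    {S : Set (MvPolynomial (Fin (n + 1)) k)} (hS : ∀ P ∈ S, ∃ m, P.IsHomogeneous m)
    {G : MvPolynomial (Fin (n + 1)) k} (hG : G.IsHomogeneous e) (hX : NoRat S G) (N : ℕ)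
    (r : Fin (n + 1) → Fin (N + 1) → k)
    (h1 : ∀ x : Fin 2 → k, ∀ P ∈ S, MvPolynomial.eval (fun i => ev (r i) x) P = 0)
    (h2 : ∀ x : Fin 2 → k, MvPolynomial.eval (fun i => ev (r i) x) G = 0) (i i' j j') :
    r i j * r i' j' = r i j' * r i' j := by
  classical
  have hinf : Infinite k := inferInstance
  -- the dehomogenised polynomials
  obtain ⟨f, hfdef⟩ : ∃ f : Fin (n + 1) → Polynomial k,
      ∀ i, f i = ∑ j : Fin (N + 1), Polynomial.monomial (j : ℕ) (r i j) := ⟨_, fun _ => rfl⟩
  have hcoef : ∀ (i : Fin (n + 1)) (j : Fin (N + 1)), (f i).coeff j = r i j := by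
    intro i j
    rw [hfdef, Polynomial.finsetSum_coeff]
    rw [Finset.sum_eq_single j]
    · rw [Polynomial.coeff_monomial, if_pos rfl]
    · intro i' _ hi
      rw [Polynomial.coeff_monomial, if_neg]
      exact fun h => hi (Fin.ext h)
    · intro h
      exact absurd (Finset.mem_univ j) h
  have hdeg : ∀ i, (f i).natDegree ≤ N := by
    intro i
    rw [hfdef]
    refine Polynomial.natDegree_sum_le_of_forall_le _ _ fun j _ => ?_
    refine (Polynomial.natDegree_monomial_le _).trans ?_
    exact Nat.lt_succ_iff.1 j.2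
  by_cases hall : ∀ i, f i = 0
  · rw [← hcoef i j, ← hcoef i j', hall i, Polynomial.coeff_zero, Polynomial.coeff_zero, zero_mul, zero_mul]
  push Not at hall
  -- the greatest common divisor
  obtain ⟨g, hg⟩ : ∃ g : Polynomial k, Ideal.span (Set.range f) = Ideal.span {g} :=
    (IsPrincipalIdealRing.principal (Ideal.span (Set.range f))).principal
  have hgd : ∀ i, g ∣ f i := by
    intro i
    rw [← Ideal.mem_span_singleton, ← hg]
    exact Ideal.subset_span ⟨i, rfl⟩
  have hg0 : g ≠ 0 := by
    rintro rfl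
    obtain ⟨i, hi⟩ := hall
    exact hi (zero_dvd_iff.1 (hgd i))
  choose h hh using hgd
  obtain ⟨a, ha⟩ : ∃ a : Fin (n + 1) → Polynomial k, ∑ i, a i * h i = 1 := by
    have h3 : g ∈ Ideal.span (Set.range f) := by
      rw [hg]
      exact Ideal.mem_span_singleton_self g
    obtain ⟨a, ha⟩ := Ideal.mem_span_range_iff_exists_fun.1 h3
    refine ⟨a, ?_⟩
    have h4 : g * ∑ i, a i * h i = g * 1 := by
      rw [mul_one, Finset.mul_sum]
      refine Eq.trans (Finset.sum_congr rfl fun i _ => ?_) ha
      rw [hh i]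
      ring
    exact mul_left_cancel₀ hg0 h4
  -- the degree
  obtain ⟨i0, hi0, hmax⟩ : ∃ i0, h i0 ≠ 0 ∧ ∀ i, (h i).natDegree ≤ (h i0).natDegree := by
    have hne : (Finset.univ.filter fun i => h i ≠ 0).Nonempty := by
      obtain ⟨i, hi⟩ := hall
      refine ⟨i, by
        rw [Finset.mem_filter]
        refine ⟨Finset.mem_univ _, fun h0 => hi ?_⟩
        rw [hh i, h0, mul_zero]⟩
    obtain ⟨i0, hi0, hm⟩ := Finset.exists_max_image _ (fun i => (h i).natDegree) hne
    refine ⟨i0, (Finset.mem_filter.1 hi0).2, fun i => ?_⟩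
    by_cases h0 : h i = 0
    · rw [h0, Polynomial.natDegree_zero]
      exact Nat.zero_le _
    · exact hm i (Finset.mem_filter.2 ⟨Finset.mem_univ _, h0⟩)
  have hd0 : (h i0).natDegree = 0 := by
    refine hX (h i0).natDegree (fun i j => (h i).coeff (j : ℕ)) ?_ ?_ ?_
    · intro x hx
      by_cases hx0 : x 0 = 0
      · refine ⟨i0, ?_⟩
        have hx1 : x 1 ≠ 0 := by
          intro h0
          apply hx
          funext a
          fin_cases a
          · exact hx0
          · exact h0
        unfold ev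
        rw [Finset.sum_eq_single (Fin.last _)]
        · rw [Fin.val_last, Nat.sub_self, pow_zero, mul_one]
          exact mul_ne_zero (Polynomial.leadingCoeff_ne_zero.2 hi0) (pow_ne_zero _ hx1)
        · intro b _ hb
          rw [hx0, zero_pow, mul_zero, zero_mul]
          have h5 : (b : ℕ) < (h i0).natDegree := by
            have h6 := Fin.lt_last_iff_ne_last.2 hb
            exact h6
          omega
        · intro h0
          exact absurd (Finset.mem_univ _) h0
      · by_contra hcon
        push Not at hcon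
        have h5 : ∀ i, (h i).eval (x 1 / x 0) = 0 := by
          intro i
          have h6 := hcon i
          rw [N2_ev (hmax i) hx0] at h6
          exact (mul_eq_zero.1 h6).resolve_left (pow_ne_zero _ hx0)
        have h6 := congrArg (Polynomial.eval (x 1 / x 0)) ha
        rw [Polynomial.eval_finsetSum, Polynomial.eval_one] at h6
        rw [Finset.sum_eq_zero fun i _ => by rw [Polynomial.eval_mul, h5 i, mul_zero]] at h6
        exact zero_ne_one h6
    · intro x P hP
      obtain ⟨m, hm⟩ := hS P hP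
      exact N2_eqs hm r (fun x => h1 x P hP) hg0 (fun i j => by rw [← hh i, hcoef i j])
        (fun i => by rw [← hh i]; exact hdeg i) hmax x
    · intro x
      exact N2_eqs hG r h2 hg0 (fun i j => by rw [← hh i, hcoef i j])
        (fun i => by rw [← hh i]; exact hdeg i) hmax x
  have hconst : ∀ (i : Fin (n + 1)) (j : Fin (N + 1)), r i j = g.coeff (j : ℕ) * (h i).coeff 0 := by
    intro i j
    have h5 : (h i).natDegree = 0 := Nat.le_zero.1 (hd0 ▸ hmax i)
    have h6 := Polynomial.eq_C_of_natDegree_eq_zero h5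
    rw [← hcoef i j, hh i]
    conv_lhs => rw [h6]
    rw [Polynomial.coeff_mul_C]
  rw [hconst i j, hconst i' j', hconst i j', hconst i' j]
  ring

end Pool.Agent.Lib.MP_1e3e9c_agW
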