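import Mathlib
import Pool.Agent.Lib.MP_1e3e9c_agU.Ver1
import Pool.Agent.Lib.MP_1e3e9c_agU.Ver2
import Pool.Agent.Lib.MP_1e3e9c_agW.DefsE

/-!
# MP_1e3e9c_ag, project W, leaf N3a: points of the image of the zero set of `S`

PROOF. Let `A = k[y_t]`, `B = k[x_0..x_n]`, `h : A → B`, `y_t ↦ hs G e t` (`MvPolynomial.aeval (hs G e)`), `J` = the
ideal of all `H ∈ B` which vanish at all `v` with `P(v) = 0` for all `P ∈ S` (`MvPolynomial.vanishingIdeal`). `B` is
integral over `A`: `x_i^(e+1)` is the image of a variable (`hs G e (Fin.succ (finProdFinEquiv (i, i)))`). Let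
`Q ∈ h⁻¹(J)`. Its homogeneous components `Q_m` are in `h⁻¹(J)`: the zero set of `S` is a cone (`hS`), so for
`a ∈ k`, `Q(h(a v)) = ∑ a^((e+1)m) Q_m(h(v)) = 0` for all `a` (`hs_hom`), `k` infinite, so every `Q_m(h(v)) = 0`. So
`Q_m ∈ SV S G e` and `Q_m(y) = 0`, so `Q(y) = 0`: the maximal ideal `M_y` of `A` (kernel of the evaluation at `y`)
contains `h⁻¹(J)`. `A/h⁻¹(J) → B/J` is injective and integral, so there is a prime `N ⊇ J` of `B` with
`h⁻¹(N) = M_y` (`Ideal.exists_ideal_over_prime_of_isIntegral` or as in `vh_surj`, `MP_1e3e9c_agU/Ver2.lean`), it is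
maximal and `k` is algebraically closed: `N` is the kernel of the evaluation at a point `v`
(`MvPolynomial.isMaximal_iff_eq_vanishingIdeal_singleton`). `h⁻¹(N) = M_y` gives `hs G e t (v) = y_t`; `J ⊆ N` gives
`P(v) = 0` for `P ∈ S`.
-/

set_option autoImplicit false

namespace Pool.Agent.Lib.MP_1e3e9c_agW

open Pool.Agent.Lib.MP_1e3e9c_agU

private theorem N3a_eval_mul {R : Type} [CommRing R] {σ : Type} {H : MvPolynomial σ R} {g : ℕ}
    (hH : H.IsHomogeneous g) (a : R) (z : σ → R) :
    MvPolynomial.eval (fun i => a * z i) H = a ^ g * MvPolynomial.eval z H := by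
  rw [MvPolynomial.eval_eq, MvPolynomial.eval_eq, Finset.mul_sum]
  refine Finset.sum_congr rfl fun m hm => ?_
  have h1 : ∏ i ∈ m.support, (a * z i) ^ m i = a ^ g * ∏ i ∈ m.support, z i ^ m i := by
    simp_rw [mul_pow]
    rw [Finset.prod_mul_distrib, Finset.prod_pow_eq_pow_sum]
    congr 2
    have h2 := hH (MvPolynomial.mem_support_iff.1 hm)
    rw [← h2, Finsupp.weight_apply, Finsupp.sum]
    simp
  rw [h1]
  ring

private theorem N3a_hom {k : Type} [Field k] {n e : ℕ} {G : MvPolynomial (Fin (n + 1)) k}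
    (hG : G.IsHomogeneous (e + 1)) (t) : (hs G e t).IsHomogeneous (e + 1) := by
  refine Fin.cases hG (fun t => ?_) t
  have h1 := (MvPolynomial.isHomogeneous_X k (finProdFinEquiv.symm t).1).mul
    ((MvPolynomial.isHomogeneous_X k (finProdFinEquiv.symm t).2).pow e)
  have h2 : 1 + 1 * e = e + 1 := by ring
  rw [h2] at h1
  exact h1

/-- Composition of evaluations. -/
private theorem N3a_comp {k : Type} [Field k] {n : ℕ} {τ : Type} (f : τ → MvPolynomial (Fin (n + 1)) k)
    (v : Fin (n + 1) → k) (Q : MvPolynomial τ k) :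
    MvPolynomial.eval v (MvPolynomial.aeval f Q) = MvPolynomial.eval (fun t => MvPolynomial.eval v (f t)) Q := by
  have h1 := MvPolynomial.comp_aeval_apply (φ := (MvPolynomial.aeval v : MvPolynomial (Fin (n + 1)) k →ₐ[k] k)) f Q
  simp only [MvPolynomial.aeval_eq_eval] at h1
  exact h1

/-- If `Q` vanishes at all multiples `b z`, then so do its homogeneous components. -/
private theorem N3a_cone {k : Type} [Field k] [Infinite k] {τ : Type} (Q : MvPolynomial τ k) (z : τ → k)
    (h : ∀ b : k, MvPolynomial.eval (fun t => b * z t) Q = 0) (m : ℕ) :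
    MvPolynomial.eval z (MvPolynomial.homogeneousComponent m Q) = 0 := by
  by_cases hm : m ∈ Finset.range (Q.totalDegree + 1)
  · let p : Polynomial k := ∑ l ∈ Finset.range (Q.totalDegree + 1),
      Polynomial.C (MvPolynomial.eval z (MvPolynomial.homogeneousComponent l Q)) * Polynomial.X ^ l
    have hp : p = 0 := by
      refine Polynomial.funext fun b => ?_
      rw [Polynomial.eval_zero]
      have h1 := h b
      rw [← MvPolynomial.sum_homogeneousComponent Q, map_sum] at h1
      show Polynomial.eval b (∑ l ∈ Finset.range (Q.totalDegree + 1),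
        Polynomial.C (MvPolynomial.eval z (MvPolynomial.homogeneousComponent l Q)) * Polynomial.X ^ l) = 0
      rw [Polynomial.eval_finsetSum, ← h1]
      refine Finset.sum_congr rfl fun l _ => ?_
      rw [N3a_eval_mul (MvPolynomial.homogeneousComponent_isHomogeneous l Q), Polynomial.eval_mul,
        Polynomial.eval_C, Polynomial.eval_pow, Polynomial.eval_X, mul_comm]
    have h2 : p.coeff m = MvPolynomial.eval z (MvPolynomial.homogeneousComponent m Q) := by
      show (∑ l ∈ Finset.range (Q.totalDegree + 1),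
        Polynomial.C (MvPolynomial.eval z (MvPolynomial.homogeneousComponent l Q)) * Polynomial.X ^ l).coeff m = _
      rw [Polynomial.finsetSum_coeff, Finset.sum_eq_single m]
      · rw [Polynomial.coeff_C_mul_X_pow, if_pos rfl]
      · intro l _ hl
        rw [Polynomial.coeff_C_mul_X_pow, if_neg (fun h => hl h.symm)]
      · intro h
        exact absurd hm h
    rw [← h2, hp, Polynomial.coeff_zero]
  · rw [MvPolynomial.homogeneousComponent_eq_zero _ _ (by
      rw [Finset.mem_range] at hm
      omega), map_zero]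

private theorem N3a_int {k : Type} [Field k] {n e : ℕ} (G : MvPolynomial (Fin (n + 1)) k) :
    (MvPolynomial.aeval (hs G e) : MvPolynomial (Fin ((n + 1) * (n + 1) + 1)) k →ₐ[k]
      MvPolynomial (Fin (n + 1)) k).toRingHom.IsIntegral := by
  classical
  let A := MvPolynomial (Fin ((n + 1) * (n + 1) + 1)) k
  let B := MvPolynomial (Fin (n + 1)) k
  let g : A →ₐ[k] B := MvPolynomial.aeval (hs G e)
  let f : A →+* B := g.toRingHom
  let _ : Algebra A B := f.toAlgebra
  have key : ∀ i : Fin (n + 1), IsIntegral A (MvPolynomial.X i : B) := by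
    intro i
    refine IsIntegral.of_pow (Nat.succ_pos e) ?_
    have h1 : (MvPolynomial.X i : B) ^ (e + 1) =
        f (MvPolynomial.X (Fin.succ (finProdFinEquiv (i, i)))) := by
      show _ = g (MvPolynomial.X (Fin.succ (finProdFinEquiv (i, i))))
      show _ = (MvPolynomial.aeval (hs G e)) (MvPolynomial.X (Fin.succ (finProdFinEquiv (i, i))))
      rw [MvPolynomial.aeval_X]
      unfold hs
      rw [Fin.cons_succ, Equiv.symm_apply_apply, pow_succ']
    rw [h1]
    exact isIntegral_algebraMap (R := A) (A := B)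
  intro x
  show IsIntegral A x
  induction x using MvPolynomial.induction_on with
  | C a =>
    have h1 : (MvPolynomial.C a : B) = f (MvPolynomial.C a) := (g.commutes a).symm
    rw [h1]
    exact isIntegral_algebraMap (R := A) (A := B)
  | add p q hp hq => exact hp.add hq
  | mul_X p q hp => exact hp.mul (key q)

theorem lift_pt {k : Type} [Field k] [IsAlgClosed k] {n e : ℕ}
    {S : Set (MvPolynomial (Fin (n + 1)) k)} (hS : ∀ P ∈ S, ∃ m, P.IsHomogeneous m)
    {G : MvPolynomial (Fin (n + 1)) k} (hG : G.IsHomogeneous (e + 1))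
    (y : Fin ((n + 1) * (n + 1) + 1) → k) (hy : ∀ Q ∈ SV S G e, MvPolynomial.eval y Q = 0) :
    ∃ v : Fin (n + 1) → k, (∀ P ∈ S, MvPolynomial.eval v P = 0) ∧
      ∀ t, y t = MvPolynomial.eval v (hs G e t) := by
  classical
  have hinf : Infinite k := IsAlgClosed.instInfinite
  let A := MvPolynomial (Fin ((n + 1) * (n + 1) + 1)) k
  let B := MvPolynomial (Fin (n + 1)) k
  let g : A →ₐ[k] B := MvPolynomial.aeval (hs G e)
  let f : A →+* B := g.toRingHom
  let ev : A →+* k := MvPolynomial.eval y
  have hev : Function.Surjective ev := fun a => ⟨MvPolynomial.C a, MvPolynomial.eval_C a⟩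
  have hM : (RingHom.ker ev).IsMaximal := RingHom.ker_isMaximal_of_surjective ev hev
  let J : Ideal B := MvPolynomial.vanishingIdeal k {v | ∀ P ∈ S, MvPolynomial.eval v P = 0}
  have hJ : ∀ H : B, H ∈ J ↔ ∀ v : Fin (n + 1) → k, (∀ P ∈ S, MvPolynomial.eval v P = 0) →
      MvPolynomial.eval v H = 0 := by
    intro H
    show H ∈ MvPolynomial.vanishingIdeal k {v | ∀ P ∈ S, MvPolynomial.eval v P = 0} ↔ _
    rw [MvPolynomial.mem_vanishingIdeal_iff]
    constructor
    · intro h v hv
      have h1 := h v hv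
      rw [MvPolynomial.aeval_eq_eval] at h1
      exact h1
    · intro h v hv
      rw [MvPolynomial.aeval_eq_eval]
      exact h v hv
  have hle : J.comap f ≤ RingHom.ker ev := by
    intro Q hQ
    have hQ1 : g Q ∈ J := hQ
    rw [hJ] at hQ1
    have hQ2 : ∀ m, MvPolynomial.homogeneousComponent m Q ∈ SV S G e := by
      intro m
      refine ⟨⟨m, MvPolynomial.homogeneousComponent_isHomogeneous m Q⟩, fun v hv => ?_⟩
      refine N3a_cone Q _ (fun b => ?_) m
      obtain ⟨a, ha⟩ := IsAlgClosed.exists_pow_nat_eq b (Nat.succ_pos e)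
      have h1 := hQ1 (fun i => a * v i) (fun P hP => by
        obtain ⟨l, hl⟩ := hS P hP
        rw [N3a_eval_mul hl, hv P hP, mul_zero])
      have h2 : MvPolynomial.eval (fun i => a * v i) (MvPolynomial.aeval (hs G e) Q) = 0 := h1
      rw [N3a_comp] at h2
      have h3 : (fun t => MvPolynomial.eval (fun i => a * v i) (hs G e t)) =
          fun t => b * MvPolynomial.eval v (hs G e t) := by
        funext t
        rw [N3a_eval_mul (N3a_hom hG t), ha]
      rw [h3] at h2
      exact h2
    show MvPolynomial.eval y Q = 0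
    rw [← MvPolynomial.sum_homogeneousComponent Q, map_sum]
    exact Finset.sum_eq_zero fun m _ => hy _ (hQ2 m)
  let _ : Algebra A B := f.toAlgebra
  have hint : Algebra.IsIntegral A B := ⟨N3a_int (e := e) G⟩
  obtain ⟨Q, hQ, hQp, hQc⟩ := Ideal.exists_ideal_over_prime_of_isIntegral (R := A) (S := B)
    (RingHom.ker ev) J hle
  have hQm : Q.IsMaximal := Ideal.isMaximal_of_isIntegral_of_isMaximal_comap (R := A) (S := B) Q
    (hQc ▸ hM)
  obtain ⟨x, hx⟩ := (MvPolynomial.isMaximal_iff_eq_vanishingIdeal_singleton (K := k)).1 hQm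
  have hmem : ∀ p ∈ Q, MvPolynomial.eval x p = 0 := fun p hp => by
    rw [hx, MvPolynomial.mem_vanishingIdeal_iff] at hp
    have h1 := hp x rfl
    rw [MvPolynomial.aeval_eq_eval] at h1
    exact h1
  refine ⟨x, fun P hP => hmem P (hQ ((hJ P).2 fun v hv => hv P hP)), fun t => ?_⟩
  have h1 : (MvPolynomial.X t - MvPolynomial.C (y t) : A) ∈ RingHom.ker ev := by
    rw [RingHom.mem_ker, map_sub, sub_eq_zero]
    show MvPolynomial.eval y (MvPolynomial.X t) = MvPolynomial.eval y (MvPolynomial.C (y t))
    rw [MvPolynomial.eval_X, MvPolynomial.eval_C]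
  rw [← hQc] at h1
  have h2 : MvPolynomial.aeval (hs G e) (MvPolynomial.X t - MvPolynomial.C (y t) : A) ∈ Q := h1
  have h3 := hmem _ h2
  rw [N3a_comp, map_sub, MvPolynomial.eval_X, MvPolynomial.eval_C, sub_eq_zero] at h3
  exact h3.symm

end Pool.Agent.Lib.MP_1e3e9c_agW
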