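import Mathlib
import Pool.Agent.Lib.MP_1e3e9c_agU.Ver1
import Pool.Agent.Lib.MP_1e3e9c_agW.DefsE
import Pool.Agent.Lib.MP_1e3e9c_agW.N2
import Pool.Agent.Lib.MP_1e3e9c_agW.N3a

/-!
# MP_1e3e9c_ag, project W, leaf N3b: tuples in the image of the zero set of `S`

Let `r` be a tuple of degree `N` (over `k`) in the zero set of `SV S G e` with `r 0 = 0`. For every `x ∈ k^2` there is
`v(x)` (`lift_pt`) with `P(v(x)) = 0` for `P ∈ S` and `ev (r t) x = hs G e t (v(x))`, in particular
`G(v(x)) = ev (r 0) x = 0` (`hs G e 0 = G`) and `ev (r (i,j)) x = v_i v_j^e` for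
`(i,j) = Fin.succ (finProdFinEquiv (i, j))`. For every `j` let `c_j` be the tuple `i ↦ r (i,j)`, degree `N`:
`c_j(x) = v_j(x)^e v(x)`, so it is in the zero set of `S` and `G` (homogeneous forms): by `minors_of_norat` all its
`2 x 2` minors vanish: `c_j = h_j z_j`, `h_j` a form, `z_j` a vector (if `c_j ≠ 0` take a nonzero column).
If all `c_j = 0` then `r = 0`. Let `c_j ≠ 0`, `h = h_j`, `z = z_j`. For `x` with `h(x) ≠ 0`: `v_j(x)^e v(x) = h(x) z ≠ 0`, so
`v(x) = a(x) z` for some `a(x) ∈ k`, and `ev (r t) x = a(x)^(e+1) hs G e t (z)` for all `t` (`hs_hom`): so for all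
`t, t'`: `ev (r t) x * hs t' (z) = ev (r t') x * hs t (z)` where `h(x) ≠ 0`, so for all `x` (multiply by `h`, forms over an
infinite field; or `MvPolynomial.funext`), so `r t m * H_t' = r t' m * H_t` for all coefficients `m`
(`H_t = hs G e t (z)`, `ev_ext`). Some `H_t' ≠ 0` (as `z ≠ 0`, `t' = (i,i)`, `H_t' = z_i^(e+1)`): so the rows of `r` are
proportional to one row: all minors vanish.
-/

set_option autoImplicit false

namespace Pool.Agent.Lib.MP_1e3e9c_agW

open Pool.Agent.Lib.MP_1e3e9c_agU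

private theorem N3b_eval_mul {R : Type} [CommRing R] {σ : Type} {H : MvPolynomial σ R} {g : ℕ}
    (hH : H.IsHomogeneous g) (a : R) (z : σ → R) :
    MvPolynomial.eval (fun i => a * z i) H = a ^ g * MvPolynomial.eval z H := by
  rw [MvPolynomial.eval_eq, MvPolynomial.eval_eq, Finset.mul_sum]
  refine Finset.sum_congr rfl fun m hm => ?_
  have h1 : ∏ i ∈ m.support, (a * z i) ^ m i = a ^ g * ∏ i ∈ m.support, z i ^ m i := by
    simp_rw [mul_pow]
    rw [Finset.prod_mul_distrib, Finset.prod_pow_eq_pow_sum]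
    congr 2
    have h2 := hH (MvPolynomial.mem_support_iff.1 hm)
    rw [← h2, Finsupp.weight_apply, Finsupp.sum]
    simp
  rw [h1]
  ring

private theorem N3b_hom {k : Type} [Field k] {n e : ℕ} {G : MvPolynomial (Fin (n + 1)) k}
    (hG : G.IsHomogeneous (e + 1)) (t) : (hs G e t).IsHomogeneous (e + 1) := by
  refine Fin.cases hG (fun t => ?_) t
  have h1 := (MvPolynomial.isHomogeneous_X k (finProdFinEquiv.symm t).1).mul
    ((MvPolynomial.isHomogeneous_X k (finProdFinEquiv.symm t).2).pow e)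
  have h2 : 1 + 1 * e = e + 1 := by ring
  rw [h2] at h1
  exact h1

private theorem N3b_poly {k : Type} [Field k] {D : ℕ} (c : Fin (D + 1) → k) (t : k) :
    (∑ j : Fin (D + 1), Polynomial.C (c j) * Polynomial.X ^ (j : ℕ)).eval t = ev c ![1, t] := by
  unfold ev
  rw [Polynomial.eval_finsetSum]
  refine Finset.sum_congr rfl fun j _ => ?_
  simp

private theorem N3b_coeff {k : Type} [Field k] {D : ℕ} (c : Fin (D + 1) → k)
    (h : (∑ j : Fin (D + 1), Polynomial.C (c j) * Polynomial.X ^ (j : ℕ)) = 0) (i : Fin (D + 1)) :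
    c i = 0 := by
  have h1 := congrArg (fun P => Polynomial.coeff P (i : ℕ)) h
  simp only [Polynomial.finsetSum_coeff, Polynomial.coeff_zero] at h1
  rw [Finset.sum_eq_single i] at h1
  · rw [Polynomial.coeff_C_mul, Polynomial.coeff_X_pow, if_pos rfl, mul_one] at h1
    exact h1
  · intro l _ hl
    rw [Polynomial.coeff_C_mul, Polynomial.coeff_X_pow, if_neg, mul_zero]
    intro h2
    exact hl (Fin.ext h2.symm)
  · intro h2
    exact absurd (Finset.mem_univ _) h2

/-- Forms over an infinite field have no zero divisors. -/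
private theorem N3b_prod {k : Type} [Field k] [Infinite k] {D E : ℕ} (c : Fin (D + 1) → k)
    (c' : Fin (E + 1) → k) (h : ∀ x : Fin 2 → k, ev c x * ev c' x = 0) {m : Fin (D + 1)}
    (hm : c m ≠ 0) (i : Fin (E + 1)) : c' i = 0 := by
  have h1 : (∑ j : Fin (D + 1), Polynomial.C (c j) * Polynomial.X ^ (j : ℕ)) *
      (∑ j : Fin (E + 1), Polynomial.C (c' j) * Polynomial.X ^ (j : ℕ)) = 0 := by
    refine Polynomial.funext fun t => ?_
    rw [Polynomial.eval_mul, N3b_poly, N3b_poly, h, Polynomial.eval_zero]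
  rcases mul_eq_zero.1 h1 with h2 | h2
  · exact absurd (N3b_coeff c h2 m) hm
  · exact N3b_coeff c' h2 i

theorem nrk_SV {k : Type} [Field k] [IsAlgClosed k] {n e : ℕ}
    {S : Set (MvPolynomial (Fin (n + 1)) k)} (hS : ∀ P ∈ S, ∃ m, P.IsHomogeneous m)
    {G : MvPolynomial (Fin (n + 1)) k} (hG : G.IsHomogeneous (e + 1)) (hX : NoRat S G) :
    NRk (SV S G e) := by
  intro N r hr hr0
  have : Infinite k := IsAlgClosed.instInfinite
  have hlift : ∀ x : Fin 2 → k, ∃ v : Fin (n + 1) → k,
      (∀ P ∈ S, MvPolynomial.eval v P = 0) ∧ ∀ t, ev (r t) x = MvPolynomial.eval v (hs G e t) :=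
    fun x => lift_pt hS hG (fun t => ev (r t) x) (fun Q hQ => hr x Q hQ)
  choose v hvS hv using hlift
  have hG0 : ∀ x, MvPolynomial.eval (v x) G = 0 := by
    intro x
    have h1 : ev (r 0) x = MvPolynomial.eval (v x) G := hv x 0
    rw [← h1]
    unfold ev
    exact Finset.sum_eq_zero fun j _ => by rw [hr0, zero_mul, zero_mul]
  have hij : ∀ x i j, ev (r (Fin.succ (finProdFinEquiv (i, j)))) x = v x i * v x j ^ e := by
    intro x i j
    rw [hv]
    simp only [hs, Fin.cons_succ, Equiv.symm_apply_apply, map_mul, MvPolynomial.eval_X, map_pow]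
  have hmin : ∀ (j i i' : Fin (n + 1)) (m m' : Fin (N + 1)),
      r (Fin.succ (finProdFinEquiv (i, j))) m * r (Fin.succ (finProdFinEquiv (i', j))) m' =
      r (Fin.succ (finProdFinEquiv (i, j))) m' * r (Fin.succ (finProdFinEquiv (i', j))) m := by
    intro j i i' m m'
    have hx : ∀ x : Fin 2 → k, (fun i => ev (r (Fin.succ (finProdFinEquiv (i, j)))) x) =
        fun i => v x j ^ e * v x i := by
      intro x
      funext i
      rw [hij, mul_comm]
    refine minors_of_norat (e := e + 1) hS hG hX N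
      (fun i => r (Fin.succ (finProdFinEquiv (i, j)))) ?_ ?_ i i' m m'
    · intro x P hP
      obtain ⟨g, hg⟩ := hS P hP
      rw [hx x, N3b_eval_mul hg, hvS x P hP, mul_zero]
    · intro x
      rw [hx x, N3b_eval_mul hG, hG0 x, mul_zero]
  by_cases hall : ∀ (i j : Fin (n + 1)) (m : Fin (N + 1)),
      r (Fin.succ (finProdFinEquiv (i, j))) m = 0
  · have hr00 : ∀ t m, r t m = 0 := by
      intro t
      refine Fin.cases ?_ (fun t => ?_) t
      · exact hr0
      · intro m
        have h1 := hall (finProdFinEquiv.symm t).1 (finProdFinEquiv.symm t).2 m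
        rwa [Prod.mk.eta, Equiv.apply_symm_apply] at h1
    intro i i' j j'
    rw [hr00 i j, hr00 i j', zero_mul, zero_mul]
  · push Not at hall
    obtain ⟨i₀, j₀, m₀, h0⟩ := hall
    obtain ⟨z, hz⟩ : ∃ z : Fin (n + 1) → k,
        ∀ i, z i = r (Fin.succ (finProdFinEquiv (i, j₀))) m₀ := ⟨_, fun _ => rfl⟩
    obtain ⟨h, hh⟩ : ∃ h : Fin (N + 1) → k,
        h = r (Fin.succ (finProdFinEquiv (i₀, j₀))) := ⟨_, rfl⟩
    have hhm : h m₀ ≠ 0 := by
      rw [hh]
      exact h0
    have hz0 : z i₀ ≠ 0 := by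
      rw [hz]
      exact h0
    have hcol : ∀ (i : Fin (n + 1)) (x : Fin 2 → k), v x i * v x j₀ ^ e * h m₀ = z i * ev h x := by
      intro i x
      rw [← hij, ← ev_smul, mul_comm, ← ev_smul]
      congr 1
      funext m
      rw [hz, hh, mul_comm]
      exact (hmin j₀ i i₀ m m₀).trans rfl
    obtain ⟨H, hH⟩ : ∃ H : Fin ((n + 1) * (n + 1) + 1) → k,
        ∀ t, H t = MvPolynomial.eval z (hs G e t) := ⟨_, fun _ => rfl⟩
    have hprop : ∀ x : Fin 2 → k, ev h x ≠ 0 → ∃ a : k, ∀ t, ev (r t) x = a * H t := by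
      intro x hx
      have h1 : v x j₀ ^ e ≠ 0 := by
        intro h2
        have h3 := hcol i₀ x
        rw [h2, mul_zero, zero_mul] at h3
        exact mul_ne_zero hz0 hx h3.symm
      refine ⟨(ev h x / (v x j₀ ^ e * h m₀)) ^ (e + 1), fun t => ?_⟩
      rw [hH, ← N3b_eval_mul (N3b_hom hG t), hv]
      congr 2
      funext i
      have h4 := hcol i x
      have h5 : v x j₀ ^ e * h m₀ ≠ 0 := mul_ne_zero h1 hhm
      rw [div_mul_eq_mul_div, eq_div_iff h5, mul_comm (ev h x), ← h4, mul_assoc]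
    have hrel : ∀ (t t' : Fin ((n + 1) * (n + 1) + 1)) (m : Fin (N + 1)),
        r t m * H t' = r t' m * H t := by
      intro t t' m
      have h1 := N3b_prod h (fun m => H t' * r t m + (-H t) * r t' m) (fun x => ?_) hhm m
      · linear_combination h1
      · by_cases hx : ev h x = 0
        · rw [hx, zero_mul]
        · obtain ⟨a, ha⟩ := hprop x hx
          have h2 : ev (fun m => H t' * r t m + (-H t) * r t' m) x =
              ev (fun m => H t' * r t m) x + ev (fun m => (-H t) * r t' m) x := by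
            unfold ev
            rw [← Finset.sum_add_distrib]
            exact Finset.sum_congr rfl fun j _ => by ring
          rw [h2, ev_smul, ev_smul, ha, ha]
          ring
    have hHne : H (Fin.succ (finProdFinEquiv (i₀, i₀))) ≠ 0 := by
      rw [hH]
      simp only [hs, Fin.cons_succ, Equiv.symm_apply_apply, map_mul, MvPolynomial.eval_X, map_pow]
      exact mul_ne_zero hz0 (pow_ne_zero _ hz0)
    intro i i' j j'
    have e1 := hrel i (Fin.succ (finProdFinEquiv (i₀, i₀))) j
    have e2 := hrel i' (Fin.succ (finProdFinEquiv (i₀, i₀))) j'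
    have e3 := hrel i (Fin.succ (finProdFinEquiv (i₀, i₀))) j'
    have e4 := hrel i' (Fin.succ (finProdFinEquiv (i₀, i₀))) j
    have e5 : (H (Fin.succ (finProdFinEquiv (i₀, i₀))) * H (Fin.succ (finProdFinEquiv (i₀, i₀)))) *
        (r i j * r i' j') =
        (H (Fin.succ (finProdFinEquiv (i₀, i₀))) * H (Fin.succ (finProdFinEquiv (i₀, i₀)))) *
        (r i j' * r i' j) := by
      calc (H (Fin.succ (finProdFinEquiv (i₀, i₀))) * H (Fin.succ (finProdFinEquiv (i₀, i₀)))) *
          (r i j * r i' j') = (r i j * H (Fin.succ (finProdFinEquiv (i₀, i₀)))) *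
            (r i' j' * H (Fin.succ (finProdFinEquiv (i₀, i₀)))) := by ring
        _ = (r i j' * H (Fin.succ (finProdFinEquiv (i₀, i₀)))) *
            (r i' j * H (Fin.succ (finProdFinEquiv (i₀, i₀)))) := by
          rw [e1, e2, e3, e4]
          ring
        _ = _ := by ring
    exact mul_left_cancel₀ (mul_ne_zero hHne hHne) e5

end Pool.Agent.Lib.MP_1e3e9c_agW
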