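import Mathlib
import Pool.Agent.Lib.MP_1e3e9c_agU.Ver1
import Pool.Agent.Lib.MP_1e3e9c_agU.Ver2
import Pool.Agent.Lib.MP_1e3e9c_agW.E9
import Pool.Agent.Lib.MP_1e3e9c_agW.N1
import Pool.Agent.Lib.MP_1e3e9c_agW.N3b

/-!
# MP_1e3e9c_ag, project W, E10: hypersurface sections
-/

set_option autoImplicit false

namespace Pool.Agent.Lib.MP_1e3e9c_agW

open Pool.Agent.Lib.MP_1e3e9c_agU

private theorem E10_int {R S : Type} [CommRing R] [CommRing S] (g : R →+* S)
    (hg : g.IsIntegral) : ringKrullDim S ≤ ringKrullDim R := by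
  let := g.toAlgebra
  refine Order.krullDim_le_of_strictMono (PrimeSpectrum.comap g) ?_
  intro p q hpq
  have hle : p.asIdeal ≤ q.asIdeal := hpq.le
  obtain ⟨x, hxq, hxp⟩ : ∃ x ∈ q.asIdeal, x ∉ p.asIdeal := SetLike.exists_of_lt hpq
  exact Ideal.comap_lt_comap_of_integral_mem_sdiff hle ⟨hxq, hxp⟩ (hg x)

private theorem E10_hs {k : Type} [Field k] {n e : ℕ} (G : MvPolynomial (Fin (n + 1)) k)
    (i : Fin (n + 1)) :
    hs G e (Fin.succ (finProdFinEquiv (i, i))) = MvPolynomial.X i ^ (e + 1) := by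
  unfold hs
  rw [Fin.cons_succ, Equiv.symm_apply_apply, pow_succ']

/-- `k[x]` is integral over the image of `k[y]`. -/
private theorem E10_integral {k : Type} [Field k] {n e : ℕ} (G : MvPolynomial (Fin (n + 1)) k) :
    (MvPolynomial.aeval (hs G e) : MvPolynomial (Fin ((n + 1) * (n + 1) + 1)) k →ₐ[k]
      MvPolynomial (Fin (n + 1)) k).toRingHom.IsIntegral := by
  let f : MvPolynomial (Fin ((n + 1) * (n + 1) + 1)) k →+* MvPolynomial (Fin (n + 1)) k :=
    (MvPolynomial.aeval (hs G e) : MvPolynomial (Fin ((n + 1) * (n + 1) + 1)) k →ₐ[k]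
      MvPolynomial (Fin (n + 1)) k).toRingHom
  change f.IsIntegral
  intro p
  induction p using MvPolynomial.induction_on with
  | C a =>
    have h1 : f (MvPolynomial.C a) = MvPolynomial.C a :=
      (MvPolynomial.aeval (hs G e) : MvPolynomial (Fin ((n + 1) * (n + 1) + 1)) k →ₐ[k]
        MvPolynomial (Fin (n + 1)) k).commutes a
    rw [← h1]
    exact f.isIntegralElem_map
  | add p q hp hq => exact RingHom.IsIntegralElem.add f hp hq
  | mul_X p i hp =>
    refine RingHom.IsIntegralElem.mul f hp ?_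
    have h1 : f.IsIntegralElem (MvPolynomial.X i ^ (e + 1)) := by
      have h2 : f (MvPolynomial.X (Fin.succ (finProdFinEquiv (i, i)))) =
          MvPolynomial.X i ^ (e + 1) := by
        change MvPolynomial.aeval (hs G e) (MvPolynomial.X _) = _
        rw [MvPolynomial.aeval_X, E10_hs]
      rw [← h2]
      exact f.isIntegralElem_map
    obtain ⟨P, hP, hPe⟩ := h1
    refine ⟨P.comp (Polynomial.X ^ (e + 1)), ?_, ?_⟩
    · exact hP.comp (Polynomial.monic_X_pow (e + 1)) (by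
        rw [Polynomial.natDegree_X_pow]
        exact Nat.succ_ne_zero e)
    · rw [Polynomial.eval₂_comp, Polynomial.eval₂_pow, Polynomial.eval₂_X]
      exact hPe

private theorem E10_dim {k : Type} [Field k] {n e : ℕ} (G : MvPolynomial (Fin (n + 1)) k)
    (J : Ideal (MvPolynomial (Fin (n + 1)) k)) :
    ringKrullDim (MvPolynomial (Fin (n + 1)) k ⧸ J) ≤
      ringKrullDim (MvPolynomial (Fin ((n + 1) * (n + 1) + 1)) k ⧸
        J.comap (MvPolynomial.aeval (hs G e) : MvPolynomial (Fin ((n + 1) * (n + 1) + 1)) k →ₐ[k]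
          MvPolynomial (Fin (n + 1)) k)) := by
  let f : MvPolynomial (Fin ((n + 1) * (n + 1) + 1)) k →+* MvPolynomial (Fin (n + 1)) k :=
    (MvPolynomial.aeval (hs G e) : MvPolynomial (Fin ((n + 1) * (n + 1) + 1)) k →ₐ[k]
      MvPolynomial (Fin (n + 1)) k).toRingHom
  change ringKrullDim (MvPolynomial (Fin (n + 1)) k ⧸ J) ≤
    ringKrullDim (MvPolynomial (Fin ((n + 1) * (n + 1) + 1)) k ⧸ J.comap f)
  refine E10_int (Ideal.quotientMap J f le_rfl) ?_
  intro x
  obtain ⟨y, rfl⟩ := Ideal.Quotient.mk_surjective x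
  obtain ⟨p, hp, hy⟩ := E10_integral (e := e) G y
  refine ⟨p.map (Ideal.Quotient.mk (J.comap f)), hp.map _, ?_⟩
  rw [Polynomial.eval₂_map]
  have h1 : (Ideal.quotientMap J f le_rfl).comp (Ideal.Quotient.mk (J.comap f)) =
      (Ideal.Quotient.mk J).comp f := RingHom.ext fun a => rfl
  rw [h1, ← Polynomial.hom_eval₂]
  have h2 : Polynomial.eval₂ f y p = 0 := hy
  rw [h2, map_zero]

private theorem E10_zero {k : Type} [Field k] [CharZero k] {n e : ℕ} {G : MvPolynomial (Fin (n + 1)) k}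
    (hG : G.IsHomogeneous (e + 1)) (t) :
    MvPolynomial.eval (fun _ => (0 : k)) (hs G e t) = 0 := by
  rw [MvPolynomial.eval_eq]
  refine Finset.sum_eq_zero fun m hm => ?_
  have h2 : m.degree = e + 1 := (hs_hom hG t).degree_eq_sum_deg_support hm |>.symm
  have h3 : ∃ i ∈ m.support, m i ≠ 0 := by
    by_contra hcon
    push Not at hcon
    have h4 : m.degree = 0 := Finset.sum_eq_zero fun i hi => hcon i hi
    omega
  obtain ⟨i, hi, hmi⟩ := h3
  rw [Finset.prod_eq_zero hi (zero_pow hmi), mul_zero]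

/-- **Hypersurface sections.** -/
theorem two_section {k : Type} [Field k] [IsAlgClosed k] [CharZero k] {n d e : ℕ}
    (S : Set (MvPolynomial (Fin (n + 1)) k)) (hS : ∀ P ∈ S, ∃ m, P.IsHomogeneous m)
    (G : MvPolynomial (Fin (n + 1)) k) (hG : G.IsHomogeneous (e + 1)) (hX : NoRat S G)
    (I : Ideal (MvPolynomial (Fin (n + 1) × Fin (d + 1 + 1)) k)) (hp : I.IsPrime)
    (hact : ∀ (c c' : Fin (n + 1) → Fin (d + 1 + 1) → k) (g : Matrix (Fin 2) (Fin 2) k),
      Mem (RingHom.id k) I c → g.det ≠ 0 → (∀ i x, ev (c' i) x = ev (c i) (g.mulVec x)) →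
      Mem (RingHom.id k) I c')
    (hV : ∀ c : Fin (n + 1) → Fin (d + 1 + 1) → k, Mem (RingHom.id k) I c →
      ∀ x : Fin 2 → k, ∀ P ∈ S, MvPolynomial.eval (fun i => ev (c i) x) P = 0)
    (hbpf : ∃ c : Fin (n + 1) → Fin (d + 1 + 1) → k, Mem (RingHom.id k) I c ∧
      ∀ x : Fin 2 → k, x ≠ 0 → ∃ i, ev (c i) x ≠ 0)
    (hrts : ∀ c : Fin (n + 1) → Fin (d + 1 + 1) → k, Mem (RingHom.id k) I c →
      (∀ x : Fin 2 → k, x ≠ 0 → ∃ i, ev (c i) x ≠ 0) →
      ∀ p : Fin (2 + 1) → Fin 2 → k, (∀ l, p l ≠ 0) →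
        (∀ l, MvPolynomial.eval (fun i => ev (c i) (p l)) G = 0) →
        ∃ l l', l ≠ l' ∧ wd (p l) (p l') = 0)
    (h4 : ((3 + 1 : ℕ) : WithBot ℕ∞) ≤
      ringKrullDim (MvPolynomial (Fin (n + 1)) k ⧸ MvPolynomial.vanishingIdeal k (SF I G))) :
    ∃ y : Fin (n + 1) → k, MvPolynomial.eval y G ≠ 0 ∧
      ∀ c : Fin (n + 1) → Fin (d + 1 + 1) → k, Mem (RingHom.id k) I c →
        (∀ x : Fin 2 → k, x ≠ 0 → ∃ i, ev (c i) x ≠ 0) →
        ∃ x : Fin 2 → k, x ≠ 0 ∧ ∃ b : k, ∀ i, ev (c i) x = b * y i := by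
  have hG0 : hs G e 0 = G := by simp [hs]
  have hinf : Infinite k := Infinite.of_injective _ (Nat.cast_injective (R := k))
  -- members of the new family
  have hlift : ∀ c', Mem (RingHom.id k) (I.comap (vh (d := d) G e)) c' →
      ∃ c : Fin (n + 1) → Fin (d + 1 + 1) → k, Mem (RingHom.id k) I c ∧ c' = vt G e c :=
    fun c' h => vh_surj G I c' h
  have hnb : ∀ c : Fin (n + 1) → Fin (d + 1 + 1) → k,
      (∀ x : Fin 2 → k, x ≠ 0 → ∃ t, ev (vt G e c t) x ≠ 0) →
      ∀ x : Fin 2 → k, x ≠ 0 → ∃ i, ev (c i) x ≠ 0 := by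
    intro c hb x hx
    by_contra hcon
    push Not at hcon
    obtain ⟨t, ht⟩ := hb x hx
    apply ht
    rw [vt_ev hG]
    have h1 : (fun i => ev (c i) x) = fun _ => (0 : k) := funext hcon
    rw [h1]
    exact E10_zero hG t
  have hev0 : ∀ (c : Fin (n + 1) → Fin (d + 1 + 1) → k) (x : Fin 2 → k),
      ev (vt G e c 0) x = MvPolynomial.eval (fun i => ev (c i) x) G := by
    intro c x
    rw [vt_ev hG, hG0]
  have hzer : ∀ c : Fin (n + 1) → Fin (d + 1 + 1) → k, Mem (RingHom.id k) I c →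
      (∀ x : Fin 2 → k, x ≠ 0 → ∃ i, ev (c i) x ≠ 0) → vt G e c 0 ≠ 0 := by
    intro c hc hb h0
    have h1 := hX (d + 1) c hb (hV c hc) (by
      intro x
      rw [← hev0, h0]
      simp [ev])
    exact Nat.succ_ne_zero d h1
  obtain ⟨c₁, hm₁, hb₁⟩ := hbpf
  have hNR : NR (SV S G e) := nr_of (fun Q hQ => hQ.1) (nrk_SV hS hG hX)
  have hH : Hyw (SV S G e) (I.comap (vh (d := d) G e)) :=
    { act := by
        intro c' c'' g hc' hg h
        obtain ⟨c, hc, rfl⟩ := hlift c' hc'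
        rw [vt_act hG g c c'' h]
        exact vt_mem (hact c _ g hc hg fun i x => ev_act g (c i) x)
      eqs := by
        intro c' hc' x Q hQ
        obtain ⟨c, hc, rfl⟩ := hlift c' hc'
        simp only [vt_ev hG]
        exact hQ.2 _ fun P hP => hV c hc x P hP
      zer := by
        intro c' hc' hb
        obtain ⟨c, hc, rfl⟩ := hlift c' hc'
        exact hzer c hc (hnb c hb)
      rts := by
        intro c' hc' hb p hp0 hp1
        obtain ⟨c, hc, rfl⟩ := hlift c' hc'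
        exact hrts c hc (hnb c hb) p hp0 fun l => by rw [← hev0]; exact hp1 l }
  obtain ⟨y', hy', h⟩ := two_main hNR (I.comap (vh (d := d) G e)) (hp.comap _) hH
    ⟨vt G e c₁, vt_mem hm₁, fun x hx => vt_bpf hG hb₁ x hx⟩
    ((MvPolynomial.vanishingIdeal k (SF I G)).comap (MvPolynomial.aeval (hs G e)))
    (by
      intro s H hHs hH'
      rw [Ideal.mem_comap, MvPolynomial.mem_vanishingIdeal_iff]
      rintro v ⟨c, hc, hb, x, hx, hv, hvG⟩
      have h1 := hH' (vt G e c) (vt_mem hc) (hzer c hc hb) x hx (by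
        rw [hev0, ← hv]
        exact hvG)
      have h2 : (MvPolynomial.aeval v) ((MvPolynomial.aeval (hs G e)) H) =
          MvPolynomial.eval (fun t => MvPolynomial.eval v (hs G e t)) H := by
        rw [← MvPolynomial.aeval_eq_eval v, ← MvPolynomial.aeval_eq_eval, ← AlgHom.comp_apply]
        congr 1
        apply MvPolynomial.algHom_ext
        intro t
        rw [AlgHom.comp_apply, MvPolynomial.aeval_X, MvPolynomial.aeval_X]
      rw [h2, hv]
      simpa only [vt_ev hG] using h1)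
    (h4.trans (E10_dim G _))
  obtain ⟨x₁, hx₁, b₁, h₁⟩ := h _ (vt_mem (G := G) (e := e) hm₁)
  have hb1 : b₁ ≠ 0 := by
    rintro rfl
    obtain ⟨t, ht⟩ := vt_bpf (e := e) hG hb₁ x₁ hx₁
    exact ht (by rw [h₁ t, zero_mul])
  have hHt : ∀ t, MvPolynomial.eval (fun i => ev (c₁ i) x₁) (hs G e t) = b₁ * y' t := by
    intro t
    rw [← vt_ev hG]
    exact h₁ t
  refine ⟨fun i => ev (c₁ i) x₁, ?_, ?_⟩
  · have h2 := hHt 0
    rw [hG0] at h2
    rw [h2]
    exact mul_ne_zero hb1 hy'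
  · intro c hc h3
    obtain ⟨x, hx, b, hb⟩ := h _ (vt_mem (G := G) (e := e) hc)
    have hf : (fun i => ev (c i) x) ≠ 0 := by
      intro h4
      obtain ⟨i, hi⟩ := h3 x hx
      exact hi (congrFun h4 i)
    obtain ⟨a, ha⟩ := sep (G := G) (e := e) (y := fun i => ev (c₁ i) x₁) hf (b := b / b₁)
      (by
        intro t
        rw [hHt t, ← vt_ev hG, hb t]
        field_simp)
    exact ⟨x, hx, a, ha⟩

end Pool.Agent.Lib.MP_1e3e9c_agW
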