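import Mathlib
import Pool.Agent.Lib.MP_1e3e9c_agU.Fin
import Pool.Agent.Lib.MP_1e3e9c_agW.E10

/-!
# MP_1e3e9c_ag, project W, EFin: the final statement of block E
-/

set_option autoImplicit false

namespace Pool.Agent.Lib.MP_1e3e9c_agW

open Pool.Agent.Lib.MP_1e3e9c_agU

/-- The points of the hypersurface `G = 0` which lie on curves of the family. -/
def SFc {k : Type} [Field k] {n D : ℕ} (I : Ideal (MvPolynomial (Fin (n + 1) × Fin (D + 1)) k))
    (G : MvPolynomial (Fin (n + 1)) k) : Set (Fin (n + 1) → k) :=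
  {x | MvPolynomial.eval x G = 0 ∧
    ∃ c : Fin (n + 1) → Fin (D + 1) → k, Zer I c ∧ Mor c ∧ ∃ p : Fin 2 → k, p ≠ 0 ∧ cur c p = x}

theorem SFc_eq {k : Type} [Field k] {n D : ℕ} (I : Ideal (MvPolynomial (Fin (n + 1) × Fin (D + 1)) k))
    (G : MvPolynomial (Fin (n + 1)) k) : SFc I G = SF I G := by
  ext v
  constructor
  · rintro ⟨h0, c, hc, hm, p, hp, hv⟩
    exact ⟨c, hc, (mor_iff c).1 hm, p, hp, hv.symm, h0⟩
  · rintro ⟨c, hc, hm, p, hp, hv, h0⟩
    exact ⟨h0, c, hc, (mor_iff c).2 hm, p, hp, hv.symm⟩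

/-- A binary form of positive degree over an algebraically closed field has a zero. -/
private theorem EF_zero {L : Type} [Field L] [IsAlgClosed L] {d : ℕ} (c : Fin (d + 1 + 1) → L) :
    ∃ x : Fin 2 → L, x ≠ 0 ∧ ev c x = 0 := by
  by_cases h : c (Fin.last (d + 1)) = 0
  · refine ⟨![0, 1], fun h1 => one_ne_zero (α := L) (congrFun h1 1), ?_⟩
    unfold ev
    rw [Fin.sum_univ_castSucc, h]
    simp only [Matrix.cons_val_zero, Matrix.cons_val_one, one_pow, mul_one, zero_mul, add_zero]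
    refine Finset.sum_eq_zero fun j _ => ?_
    rw [zero_pow, mul_zero]
    have h2 := j.2
    rw [Fin.val_castSucc]
    omega
  · obtain ⟨P, hP⟩ : ∃ P : Polynomial L, P = ∑ j : Fin (d + 1 + 1),
      Polynomial.monomial (j : ℕ) (c j) := ⟨_, rfl⟩
    have hco : P.coeff (d + 1) = c (Fin.last (d + 1)) := by
      rw [hP, Polynomial.finsetSum_coeff, Finset.sum_eq_single (Fin.last (d + 1))]
      · rw [Polynomial.coeff_monomial, if_pos (Fin.val_last _)]
      · intro j _ hj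
        rw [Polynomial.coeff_monomial, if_neg]
        intro h1
        exact hj (Fin.ext (by rw [h1, Fin.val_last]))
      · intro h1
        exact absurd (Finset.mem_univ _) h1
    have hdeg : P.degree ≠ 0 := by
      intro h1
      have h2 : P.coeff (d + 1) = 0 := by
        apply Polynomial.coeff_eq_zero_of_degree_lt
        rw [h1]
        exact_mod_cast Nat.succ_pos d
      exact h (hco ▸ h2)
    obtain ⟨t, ht⟩ := IsAlgClosed.exists_root P hdeg
    refine ⟨![1, t], fun h1 => one_ne_zero (α := L) (congrFun h1 0), ?_⟩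
    rw [Polynomial.IsRoot.def, hP, Polynomial.eval_finsetSum] at ht
    unfold ev
    rw [← ht]
    refine Finset.sum_congr rfl fun j _ => ?_
    rw [Polynomial.eval_monomial]
    simp only [Matrix.cons_val_zero, Matrix.cons_val_one, one_pow, mul_one]

/-- **Two point families, final form of block E.** -/
theorem two_point {k : Type} [Field k] [IsAlgClosed k] [CharZero k] {n D e : ℕ} (hD : 1 ≤ D)
    (he : 1 ≤ e) (S : Set (MvPolynomial (Fin (n + 1)) k)) (hS : ∀ P ∈ S, ∃ m, P.IsHomogeneous m)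
    (G : MvPolynomial (Fin (n + 1)) k) (hG : G.IsHomogeneous e)
    (I : Ideal (MvPolynomial (Fin (n + 1) × Fin (D + 1)) k)) (hp : I.IsPrime)
    (hmor : ∃ c, Zer I c ∧ Mor c)
    (hact : ∀ (c c' : Fin (n + 1) → Fin (D + 1) → k) (g : Matrix (Fin 2) (Fin 2) k), Zer I c →
      g.det ≠ 0 → (∀ x, cur c' x = cur c (g.mulVec x)) → Zer I c')
    (hV : ∀ c, Zer I c → ∀ x, ∀ P ∈ S, MvPolynomial.eval (cur c x) P = 0)
    (hX : ∀ (N : ℕ) (c : Fin (n + 1) → Fin (N + 1) → k), Mor c →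
      (∀ x, ∀ P ∈ insert G S, MvPolynomial.eval (cur c x) P = 0) →
      ∃ v : Fin (n + 1) → k, ∀ x, ∃ b : k, cur c x = b • v)
    (hr : ∀ c, Zer I c → Mor c → Set.encard {P : Projectivization k (Fin 2 → k) |
      MvPolynomial.eval (cur c P.rep) G = 0} ≤ 2)
    (h4 : (4 : WithBot ℕ∞) ≤
      ringKrullDim (MvPolynomial (Fin (n + 1)) k ⧸ MvPolynomial.vanishingIdeal k (SFc I G))) :
    ∃ y, MvPolynomial.eval y G ≠ 0 ∧
      ∀ c, Zer I c → Mor c → ∃ x, x ≠ 0 ∧ ∃ b : k, cur c x = b • y := by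
  obtain ⟨d, rfl⟩ : ∃ d, D = d + 1 := ⟨D - 1, by omega⟩
  obtain ⟨e, rfl⟩ : ∃ e', e = e' + 1 := ⟨e - 1, by omega⟩
  obtain ⟨c₀, hc₀, hm₀⟩ := hmor
  have hNo : NoRat S G := by
    intro N r hb h1 h2
    obtain ⟨v, hv⟩ := hX N r ((mor_iff r).2 hb) (by
      intro x P hP
      rcases Set.mem_insert_iff.1 hP with h | h
      · rw [h]
        exact h2 x
      · exact h1 x P h)
    by_contra hN
    obtain ⟨N', rfl⟩ : ∃ N', N = N' + 1 := ⟨N - 1, by omega⟩
    obtain ⟨i, hi⟩ : ∃ i, v i ≠ 0 := by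
      by_contra hcon
      push Not at hcon
      obtain ⟨i, hi⟩ := hb ![1, 0] (fun h => one_ne_zero (α := k) (congrFun h 0))
      obtain ⟨b, hb'⟩ := hv ![1, 0]
      apply hi
      have h3 := congrFun hb' i
      rw [Pi.smul_apply, hcon i, smul_zero] at h3
      exact h3
    obtain ⟨x, hx, hx0⟩ := EF_zero (r i)
    obtain ⟨b, hb'⟩ := hv x
    have h3 : ev (r i) x = b * v i := congrFun hb' i
    have hb0 : b = 0 := by
      rw [hx0] at h3
      rcases mul_eq_zero.1 h3.symm with h | h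
      · exact h
      · exact absurd h hi
    obtain ⟨i', hi'⟩ := hb x hx
    apply hi'
    have h4 : ev (r i') x = b * v i' := congrFun hb' i'
    rw [h4, hb0, zero_mul]
  rw [SFc_eq] at h4
  obtain ⟨y, hy, h⟩ := two_section S hS G hG hNo I hp
    (fun c c' g hc hg h => hact c c' g hc hg fun x => funext fun i => h i x)
    (fun c hc x P hP => hV c hc x P hP)
    ⟨c₀, hc₀, (mor_iff c₀).1 hm₀⟩
    (fun c hc hb p hp h0 => pigeon (r := 2) G hG c (hr c hc ((mor_iff c).2 hb)) p hp h0)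
    (by
      have h5 : ((3 + 1 : ℕ) : WithBot ℕ∞) = 4 := by norm_num
      rw [h5]
      exact h4)
  refine ⟨y, hy, fun c hc hm => ?_⟩
  obtain ⟨x, hx, b, hb⟩ := h c hc ((mor_iff c).1 hm)
  exact ⟨x, hx, b, funext hb⟩

end Pool.Agent.Lib.MP_1e3e9c_agW
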